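import Pool.Agent.PHF.Fnt

set_option autoImplicit false

namespace Pool.Agent.PHF

/-! Module LBF: the subgroup LB. -/

variable {G : Type} [Group G] (S : SGp G)

namespace LbfAux

theorem root_inv (g : G) : S.root g⁻¹ = S.root g := by
  have h := S.root_mul g g⁻¹
  rw [mul_inv_cancel, root_one] at h
  cases h1 : S.root g <;> cases h2 : S.root g⁻¹ <;> simp_all

theorem sec_inv (b : Bool) (g : G) : S.sec b g⁻¹ = (S.sec (xor b (S.root g)) g)⁻¹ := by
  have h := S.sec_mul b g g⁻¹
  rw [mul_inv_cancel, sec_one, root_inv] at h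
  exact eq_inv_of_mul_eq_one_right h.symm

theorem root_conj (x g : G) (hg : S.root g = false) : S.root (x * g * x⁻¹) = false := by
  rw [S.root_mul, S.root_mul, hg, root_inv]
  cases S.root x <;> rfl

theorem sec_conj (x g : G) (hg : S.root g = false) (b : Bool) :
    S.sec b (x * g * x⁻¹) = S.sec (xor b (S.root x)) x * S.sec (xor b (S.root x)) g *
      (S.sec (xor b (S.root x)) x)⁻¹ := by
  rw [S.sec_mul, S.sec_mul, root_inv, sec_inv, hg]
  cases b <;> cases S.root x <;> rfl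

theorem root_quot (f b : G) (h : S.root f = S.root b) : S.root (f⁻¹ * b) = false := by
  rw [S.root_mul, root_inv, h]
  cases S.root b <;> rfl

theorem sec_quot (f b : G) (h : S.root f = S.root b) (c : Bool) :
    S.sec c (f⁻¹ * b) = (S.sec c f)⁻¹ * S.sec c b := by
  rw [S.sec_mul, sec_inv, h]
  cases c <;> cases S.root b <;> rfl

end LbfAux

open LbfAux

theorem LB_one : (1 : G) ∈ S.LB := by
  refine ⟨root_one S, fun b => ?_, fun b b' => ?_⟩
  · rw [sec_one]
    exact root_one S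
  · rw [sec_one, sec_one]
    exact S.NN3.one_mem

theorem LB_mul {g h : G} (hg : g ∈ S.LB) (hh : h ∈ S.LB) : g * h ∈ S.LB := by
  obtain ⟨g1, g2, g3⟩ := hg
  obtain ⟨h1, h2, h3⟩ := hh
  have hs : ∀ b, S.sec b (g * h) = S.sec b g * S.sec b h := by
    intro b
    rw [S.sec_mul, h1, Bool.xor_false]
  refine ⟨?_, fun b => ?_, fun b b' => ?_⟩
  · rw [S.root_mul, g1, h1]
    rfl
  · rw [hs, S.root_mul, g2, h2]
    rfl
  · rw [hs, S.sec_mul, h2, Bool.xor_false]
    exact S.NN3.mul_mem (g3 b b') (h3 b b')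

theorem LB_inv {g : G} (hg : g ∈ S.LB) : g⁻¹ ∈ S.LB := by
  obtain ⟨g1, g2, g3⟩ := hg
  have hs : ∀ b, S.sec b g⁻¹ = (S.sec b g)⁻¹ := by
    intro b
    rw [sec_inv, g1, Bool.xor_false]
  refine ⟨?_, fun b => ?_, fun b b' => ?_⟩
  · rw [root_inv, g1]
  · rw [hs, root_inv, g2]
  · rw [hs, sec_inv, g2, Bool.xor_false]
    exact S.NN3.inv_mem (g3 b b')

theorem LB_conj {g : G} (hg : g ∈ S.LB) (x : G) : x * g * x⁻¹ ∈ S.LB := by
  obtain ⟨g1, g2, g3⟩ := hg
  refine ⟨root_conj S x g g1, fun b => ?_, fun b b' => ?_⟩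
  · rw [sec_conj S x g g1]
    exact root_conj S _ _ (g2 _)
  · rw [sec_conj S x g g1, sec_conj S _ _ (g2 _)]
    exact (Subgroup.normalClosure_normal : S.NN3.Normal).conj_mem _ (g3 _ _) _

/-- Every element of LB is a product of elements at the four vertices of level 2. -/
theorem LB_prod {g : G} (hg : g ∈ S.LB) : ∃ n : Bool → Bool → G, (∀ c c', n c c' ∈ S.NN3) ∧
    g = S.dl false (S.dl false (n false false)) * S.dl false (S.dl true (n false true)) *
      S.dl true (S.dl false (n true false)) * S.dl true (S.dl true (n true true)) := by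
  obtain ⟨g1, g2, g3⟩ := hg
  refine ⟨fun c c' => S.sec c' (S.sec c g), g3, ?_⟩
  have hB : ∀ c c', S.sec c' (S.sec c g) ∈ S.BB := fun c c' =>
    NN1_le S _ (NN3_le S _ (g3 c c'))
  have hD : ∀ c c' c'', S.dl c'' (S.sec c' (S.sec c g)) ∈ S.BB := fun c c' c'' =>
    dl_mem S c'' (g3 c c')
  have h1 : ∀ c, S.sec c g = S.dl false (S.sec false (S.sec c g)) *
      S.dl true (S.sec true (S.sec c g)) := by
    intro c
    have h2 : IsPair S (S.sec c g) (S.sec false (S.sec c g)) (S.sec true (S.sec c g)) :=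
      IsPair_sec (g2 c)
    have h3 := IsPair_mul (dl_false S (hB c false)) (dl_true S (hB c true))
    rw [mul_one, one_mul] at h3
    exact IsPair_unique h2 h3
  have h4 : IsPair S g (S.sec false g) (S.sec true g) := IsPair_sec g1
  have h5 := IsPair_mul (IsPair_mul (IsPair_mul
    (dl_false S (hD false false false)) (dl_false S (hD false true true)))
    (dl_true S (hD true false false))) (dl_true S (hD true true true))
  rw [mul_one, mul_one, mul_one, one_mul, ← h1 false, ← h1 true] at h5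
  exact IsPair_unique h4 h5

theorem LB_le_BB {g : G} (hg : g ∈ S.LB) : g ∈ S.BB := by
  obtain ⟨n, hn, h⟩ := LB_prod S hg
  rw [h]
  exact BB_mul S (BB_mul S (BB_mul S (dl_dl_mem S _ _ (hn _ _)) (dl_dl_mem S _ _ (hn _ _)))
    (dl_dl_mem S _ _ (hn _ _))) (dl_dl_mem S _ _ (hn _ _))

theorem LB_cover : ∃ F : Finset G, (∀ f ∈ F, f ∈ S.BB) ∧
    ∀ b ∈ S.BB, ∃ f ∈ F, f⁻¹ * b ∈ S.LB := by
  classical
  obtain ⟨F₀, hF₀⟩ := NN3_cover S
  choose rep hrep hrep' using hF₀
  let Φ : G → Bool × (Bool → Bool) × (Bool → Bool → F₀) := fun g =>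
    (S.root g, fun c => S.root (S.sec c g),
      fun c c' => ⟨rep (S.sec c' (S.sec c g)), hrep _⟩)
  have hΦ : ∀ f b : G, Φ f = Φ b → f⁻¹ * b ∈ S.LB := by
    intro f b h
    have h1 : S.root f = S.root b := congrArg Prod.fst h
    have h2 : ∀ c, S.root (S.sec c f) = S.root (S.sec c b) := fun c =>
      congrFun (congrArg (fun x => x.2.1) h) c
    have h3 : ∀ c c', rep (S.sec c' (S.sec c f)) = rep (S.sec c' (S.sec c b)) := fun c c' =>
      congrArg Subtype.val (congrFun (congrFun (congrArg (fun x => x.2.2) h) c) c')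
    refine ⟨root_quot S f b h1, fun c => ?_, fun c c' => ?_⟩
    · rw [sec_quot S f b h1]
      exact root_quot S _ _ (h2 c)
    · rw [sec_quot S f b h1, sec_quot S _ _ (h2 c)]
      have h4 := S.NN3.mul_mem (S.NN3.inv_mem (hrep' (S.sec c' (S.sec c f))))
        (hrep' (S.sec c' (S.sec c b)))
      rw [h3 c c', mul_inv_rev, inv_inv] at h4
      have e : (S.sec c' (S.sec c f))⁻¹ * rep (S.sec c' (S.sec c b)) *
          ((rep (S.sec c' (S.sec c b)))⁻¹ * S.sec c' (S.sec c b)) =
          (S.sec c' (S.sec c f))⁻¹ * S.sec c' (S.sec c b) := by group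
      rw [e] at h4
      exact h4
  refine ⟨Finset.univ.image (fun y : Bool × (Bool → Bool) × (Bool → Bool → F₀) =>
    if h : ∃ b ∈ S.BB, Φ b = y then h.choose else 1), ?_, ?_⟩
  · intro f hf
    rw [Finset.mem_image] at hf
    obtain ⟨y, -, rfl⟩ := hf
    split_ifs with h
    · exact h.choose_spec.1
    · exact BB_one S
  · intro b hb
    have h : ∃ b' ∈ S.BB, Φ b' = Φ b := ⟨b, hb, rfl⟩
    refine ⟨h.choose, ?_, hΦ _ _ h.choose_spec.2⟩
    rw [Finset.mem_image]
    exact ⟨Φ b, Finset.mem_univ _, by rw [dif_pos h]⟩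

end Pool.Agent.PHF
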