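import Pool.Agent.PHF.Grc

set_option autoImplicit false

open Pointwise

namespace Pool.Agent.PHF

/-! Module LEN: word length. -/

variable {G : Type} [Group G] (S : SGp G)

theorem one_mem_T : (1 : G) ∈ S.T :=
  Or.inr ⟨0, Or.inl (vv_zero S).symm⟩

theorem a_mem_T : S.a ∈ S.T := Or.inl rfl

theorem vv_mem_T (v : Fin 4 → ZMod 2) : S.vv v ∈ S.T := Or.inr ⟨v, Or.inl rfl⟩

theorem ava_mem_T (v : Fin 4 → ZMod 2) : S.a * S.vv v * S.a ∈ S.T := Or.inr ⟨v, Or.inr rfl⟩

theorem LenAux_vv_sq (v : Fin 4 → ZMod 2) : S.vv v * S.vv v = 1 := by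
  rw [← vv_add, CharTwo.add_self_eq_zero, vv_zero]

theorem inv_mem_T {x : G} (hx : x ∈ S.T) : x⁻¹ ∈ S.T := by
  have ha : S.a⁻¹ = S.a := inv_eq_of_mul_eq_one_left S.a_sq
  have hv : ∀ v, (S.vv v)⁻¹ = S.vv v := fun v => inv_eq_of_mul_eq_one_left (LenAux_vv_sq S v)
  rcases hx with rfl | ⟨v, rfl | rfl⟩
  · rw [ha]; exact a_mem_T S
  · rw [hv]; exact vv_mem_T S v
  · rw [mul_inv_rev, mul_inv_rev, ha, hv, ← mul_assoc]
    exact ava_mem_T S v

theorem T_finite : S.T.Finite := by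
  have h : S.T = {S.a} ∪ (Set.range S.vv ∪ Set.range fun v => S.a * S.vv v * S.a) := by
    ext x
    constructor
    · rintro (rfl | ⟨v, rfl | rfl⟩)
      · exact Or.inl rfl
      · exact Or.inr (Or.inl ⟨v, rfl⟩)
      · exact Or.inr (Or.inr ⟨v, rfl⟩)
    · rintro (h | ⟨v, rfl⟩ | ⟨v, rfl⟩)
      · exact Or.inl h
      · exact vv_mem_T S v
      · exact ava_mem_T S v
  rw [h]
  exact (Set.finite_singleton _).union ((Set.finite_range _).union (Set.finite_range _))

theorem LenAux_mul {m n : ℕ} {x y : G} (hx : x ∈ S.T ^ m) (hy : y ∈ S.T ^ n) :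
    x * y ∈ S.T ^ (m + n) := by
  rw [pow_add]
  exact Set.mul_mem_mul hx hy

theorem LenAux_one {x : G} (hx : x ∈ S.T) : x ∈ S.T ^ 1 := by
  rw [pow_one]
  exact hx

theorem T_gen (x : G) : ∃ n, x ∈ S.T ^ n := by
  refine G_induction S (P := fun x => ∃ n, x ∈ S.T ^ n) ⟨0, ?_⟩ ?_ ?_ x
  · rw [pow_zero]; exact Set.mem_one.mpr rfl
  · rintro x ⟨n, hn⟩
    exact ⟨n + 1, LenAux_mul S hn (LenAux_one S (a_mem_T S))⟩
  · rintro x i ⟨n, hn⟩
    refine ⟨n + 1, LenAux_mul S hn (LenAux_one S ?_)⟩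
    rw [← vv_single S i]
    exact vv_mem_T S _

theorem T_pow_mono {m n : ℕ} (h : m ≤ n) : S.T ^ m ⊆ S.T ^ n :=
  Set.pow_subset_pow_right (one_mem_T S) h

theorem mem_T_pow_len (x : G) : x ∈ S.T ^ S.len x :=
  Nat.sInf_mem (s := {n | x ∈ S.T ^ n}) (T_gen S x)

theorem len_le_of_mem {x : G} {n : ℕ} (h : x ∈ S.T ^ n) : S.len x ≤ n :=
  Nat.sInf_le (s := {n | x ∈ S.T ^ n}) h

theorem len_one : S.len 1 = 0 := by
  apply Nat.le_zero.mp
  apply len_le_of_mem
  rw [pow_zero]; exact Set.mem_one.mpr rfl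

theorem len_le_one {x : G} (h : x ∈ S.T) : S.len x ≤ 1 :=
  len_le_of_mem S (LenAux_one S h)

theorem len_mul_le (x y : G) : S.len (x * y) ≤ S.len x + S.len y :=
  len_le_of_mem S (LenAux_mul S (mem_T_pow_len S x) (mem_T_pow_len S y))

/-- For a finite set there is a common bound of the lengths. -/
theorem len_bound (F : Finset G) : ∃ n, ∀ x ∈ F, S.len x ≤ n :=
  ⟨F.sup S.len, fun _ hx => Finset.le_sup hx⟩

theorem LenAux_ea : S.e 3 * S.a * S.e 3 * S.a = S.a * S.e 3 * S.a * S.e 3 := by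
  have h1 := IsPair_e3 S
  have h2 := IsPair_conj_a h1
  have h3 := IsPair_mul h1 h2
  have h4 := IsPair_mul h2 h1
  rw [one_mul, mul_one] at h3 h4
  have h5 := IsPair_unique h3 h4
  simpa only [mul_assoc] using h5

/-- the elements generated by `a` and `e 3` -/
def LenAux_D : Set G := {1, S.a, S.e 3, S.a * S.e 3, S.e 3 * S.a, S.a * S.e 3 * S.a,
  S.e 3 * S.a * S.e 3, S.e 3 * S.a * S.e 3 * S.a}

theorem LenAux_Dfin : (LenAux_D S).Finite := by
  unfold LenAux_D
  exact Set.toFinite _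

theorem LenAux_Da {x : G} (h : x ∈ LenAux_D S) : x * S.a ∈ LenAux_D S := by
  have ha := S.a_sq
  unfold LenAux_D at h ⊢
  simp only [Set.mem_insert_iff, Set.mem_singleton_iff] at h ⊢
  rcases h with rfl | rfl | rfl | rfl | rfl | rfl | rfl | rfl
  · right; left; rw [one_mul]
  · left; exact ha
  · right; right; right; right; left; rfl
  · right; right; right; right; right; left; rfl
  · right; right; left; rw [mul_assoc, ha, mul_one]
  · right; right; right; left; rw [mul_assoc, ha, mul_one]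
  · right; right; right; right; right; right; right; rfl
  · right; right; right; right; right; right; left; rw [mul_assoc, ha, mul_one]

theorem LenAux_De {x : G} (h : x ∈ LenAux_D S) : x * S.e 3 ∈ LenAux_D S := by
  have he := S.e_sq 3
  unfold LenAux_D at h ⊢
  simp only [Set.mem_insert_iff, Set.mem_singleton_iff] at h ⊢
  rcases h with rfl | rfl | rfl | rfl | rfl | rfl | rfl | rfl
  · right; right; left; rw [one_mul]
  · right; right; right; left; rfl
  · left; exact he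
  · right; left; rw [mul_assoc, he, mul_one]
  · right; right; right; right; right; right; left; rfl
  · right; right; right; right; right; right; right; rw [LenAux_ea]
  · right; right; right; right; left; rw [mul_assoc, he, mul_one]
  · right; right; right; right; right; left
    rw [LenAux_ea, mul_assoc, he, mul_one]

theorem LenAux_Dpw {x : G} (h : x ∈ LenAux_D S) (s : ZMod 2) : x * pw S.a s ∈ LenAux_D S := by
  unfold pw
  split_ifs
  · rwa [mul_one]
  · exact LenAux_Da S h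

theorem LenAux_lift (n : ℕ) : ∀ x ∈ S.T ^ n, ∃ g y, IsPair S g x y ∧ y ∈ LenAux_D S ∧
    g ∈ S.T ^ (3 * n) := by
  induction n with
  | zero =>
    intro x hx
    rw [pow_zero] at hx
    have hx1 : x = 1 := Set.mem_one.mp hx
    subst hx1
    refine ⟨1, 1, IsPair_one S, Or.inl rfl, ?_⟩
    rw [Nat.mul_zero, pow_zero]
    exact Set.mem_one.mpr rfl
  | succ n ih =>
    intro x hx
    rw [pow_succ] at hx
    obtain ⟨x', hx', t, ht, rfl⟩ := Set.mem_mul.mp hx
    obtain ⟨g, y, h1, h2, h3⟩ := ih x' hx'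
    have hlift : ∀ v : Fin 4 → ZMod 2, ∃ w : Fin 4 → ZMod 2,
        IsPair S (S.a * S.vv w * S.a) (S.vv v) (pw S.a (w 0)) := by
      intro v
      refine ⟨![v 3, v 0, v 1, v 2], ?_⟩
      have h := IsPair_conj_a (IsPair_vv S ![v 3, v 0, v 1, v 2])
      have hv : ![(![v 3, v 0, v 1, v 2] : Fin 4 → ZMod 2) 1, (![v 3, v 0, v 1, v 2] : Fin 4 → ZMod 2) 2,
          (![v 3, v 0, v 1, v 2] : Fin 4 → ZMod 2) 3, (![v 3, v 0, v 1, v 2] : Fin 4 → ZMod 2) 0] = v := by
        funext i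
        fin_cases i <;> rfl
      rw [hv] at h
      exact h
    have he0 : S.e 0 ∈ S.T := by
      rw [← vv_single S 0]
      exact vv_mem_T S _
    rcases ht with rfl | ⟨v, rfl | rfl⟩
    · refine ⟨g * S.e 0, y * S.e 3, IsPair_mul h1 (IsPair_e0 S), LenAux_De S h2, ?_⟩
      exact T_pow_mono S (by omega) (LenAux_mul S h3 (LenAux_one S he0))
    · obtain ⟨w, hw⟩ := hlift v
      refine ⟨g * (S.a * S.vv w * S.a), y * pw S.a (w 0), IsPair_mul h1 hw, LenAux_Dpw S h2 _, ?_⟩
      exact T_pow_mono S (by omega) (LenAux_mul S h3 (LenAux_one S (ava_mem_T S w)))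
    · obtain ⟨w, hw⟩ := hlift v
      refine ⟨g * S.e 0 * (S.a * S.vv w * S.a) * S.e 0, y * S.e 3 * pw S.a (w 0) * S.e 3, ?_, ?_, ?_⟩
      · have h4 := IsPair_mul (IsPair_mul (IsPair_mul h1 (IsPair_e0 S)) hw) (IsPair_e0 S)
        simpa only [mul_assoc] using h4
      · exact LenAux_De S (LenAux_Dpw S (LenAux_De S h2) _)
      · exact T_pow_mono S (by omega) (LenAux_mul S (LenAux_mul S (LenAux_mul S h3 (LenAux_one S he0))
          (LenAux_one S (ava_mem_T S w))) (LenAux_one S he0))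

/-- Lifts of elements to the stabiliser, with a controlled second coordinate. -/
theorem lift_left : ∃ D : Finset G, ∀ x : G, ∃ g y, IsPair S g x y ∧ y ∈ D ∧
    S.len g ≤ 3 * S.len x := by
  refine ⟨(LenAux_Dfin S).toFinset, fun x => ?_⟩
  obtain ⟨g, y, h1, h2, h3⟩ := LenAux_lift S (S.len x) x (mem_T_pow_len S x)
  exact ⟨g, y, h1, (LenAux_Dfin S).mem_toFinset.mpr h2, len_le_of_mem S h3⟩

theorem LenAux_conj (n : ℕ) : ∀ x ∈ S.T ^ n, S.a * x * S.a ∈ S.T ^ n := by
  induction n with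
  | zero =>
    intro x hx
    rw [pow_zero] at hx ⊢
    have hx1 : x = 1 := Set.mem_one.mp hx
    subst hx1
    rw [mul_one, S.a_sq]
    exact Set.mem_one.mpr rfl
  | succ n ih =>
    intro x hx
    rw [pow_succ] at hx
    obtain ⟨x', hx', t, ht, rfl⟩ := Set.mem_mul.mp hx
    have h1 := ih x' hx'
    have h2 : S.a * t * S.a ∈ S.T := by
      rcases ht with rfl | ⟨v, rfl | rfl⟩
      · rw [S.a_sq, one_mul]; exact a_mem_T S
      · exact ava_mem_T S v
      · have : S.a * (S.a * S.vv v * S.a) * S.a = S.vv v := by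
          rw [← mul_assoc, ← mul_assoc, S.a_sq, one_mul, mul_assoc, S.a_sq, mul_one]
        rw [this]; exact vv_mem_T S v
    have h3 : S.a * (x' * t) * S.a = (S.a * x' * S.a) * (S.a * t * S.a) := by
      have : S.a * x' * S.a * (S.a * t * S.a) = S.a * x' * (S.a * S.a) * t * S.a := by
        simp only [mul_assoc]
      rw [this, S.a_sq, mul_one]
      simp only [mul_assoc]
    show S.a * (x' * t) * S.a ∈ S.T ^ (n + 1)
    rw [h3]
    exact LenAux_mul S h1 (LenAux_one S h2)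

theorem lift_right : ∃ D : Finset G, ∀ y : G, ∃ g x, IsPair S g x y ∧ x ∈ D ∧
    S.len g ≤ 3 * S.len y := by
  obtain ⟨D, hD⟩ := lift_left S
  refine ⟨D, fun y => ?_⟩
  obtain ⟨g, x, h1, h2, h3⟩ := hD y
  refine ⟨S.a * g * S.a, x, IsPair_conj_a h1, h2, ?_⟩
  exact (len_le_of_mem S (LenAux_conj S _ g (mem_T_pow_len S g))).trans h3

end Pool.Agent.PHF
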