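import Pool.Agent.PHF.Mxd
import Pool.Agent.PHF.Lbf
import Pool.Agent.PHF.Len

set_option autoImplicit false

namespace Pool.Agent.PHF

/-! Module ADD: additive decomposition. -/

variable {G : Type} [Group G] {S : SGp G}

namespace AdvAux

/-- BB as a subgroup. -/
def Bs (S : SGp G) : Subgroup G where
  carrier := S.BB
  one_mem' := BB_one S
  mul_mem' := fun h h' => BB_mul S h h'
  inv_mem' := fun h => BB_inv S h

theorem mem_Bs {x : G} : x ∈ Bs S ↔ x ∈ S.BB := Iff.rfl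

omit [Group G] in
theorem exists_bound (D : Finset G) (w : G → ℝ) : ∃ M : ℝ, 0 ≤ M ∧ ∀ z ∈ D, |w z| ≤ M := by
  classical
  obtain ⟨M, hM⟩ := (D.image fun z => |w z|).exists_le
  refine ⟨max M 0, le_max_right _ _, fun z hz => le_max_of_le_left ?_⟩
  exact hM _ (Finset.mem_image_of_mem _ hz)

end AdvAux

open AdvAux

theorem additive {f : G → ℝ} (hf : S.Dcl f) : ∃ u w : G → ℝ,
    (∀ g, S.root g = false → act S.mA f g = u (S.sec false g) + w (S.sec true g)) ∧
    (∃ C : ℝ, ∀ x, |u x| ≤ C * (1 + S.len x)) ∧ (∃ C : ℝ, ∀ x, |w x| ≤ C * (1 + S.len x)) ∧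
    (∃ c : ℝ, ∀ x, c ≤ u x) ∧ (∃ c : ℝ, ∀ x, c ≤ w x) := by
  classical
  set φ := act S.mA f with hφ
  have hφx : ∀ x, φ x = (f x + f (x * S.a)) / 2 := fun x => act_hh S.a f x
  obtain ⟨C0, hC0⟩ := hf.lin
  obtain ⟨c0, hc0⟩ := hf.bdd
  have hC0' : 0 ≤ C0 := by
    have h1 := hC0 1
    rw [len_one] at h1
    have := abs_nonneg (f 1)
    push_cast at h1
    linarith
  have hφlin : ∀ x, |φ x| ≤ (2 * C0) * (1 + S.len x) := by
    intro x
    rw [hφx]
    have h1 := hC0 x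
    have h2 := hC0 (x * S.a)
    have h3 : (S.len (x * S.a) : ℝ) ≤ S.len x + 1 := by
      exact_mod_cast (len_mul_le S x S.a).trans (Nat.add_le_add_left (len_le_one S (a_mem_T S)) _)
    have h4 : C0 * (1 + (S.len (x * S.a) : ℝ)) ≤ C0 * (1 + (S.len x + 1)) :=
      mul_le_mul_of_nonneg_left (by linarith) hC0'
    have h5 : (0 : ℝ) ≤ C0 * S.len x := by positivity
    rw [abs_le] at h1 h2 ⊢
    constructor <;> nlinarith [h1.1, h1.2, h2.1, h2.2]
  have hφbd : ∀ x, c0 ≤ φ x := by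
    intro x
    rw [hφx]
    have h1 := hc0 x
    have h2 := hc0 (x * S.a)
    linarith
  -- representatives
  have hL : ∀ q : G ⧸ Bs S, ∃ gz : G × G, IsPair S gz.1 q.out gz.2 := by
    intro q
    obtain ⟨g, y, h⟩ := pair_left S q.out
    exact ⟨(g, y), h⟩
  choose gz hgz using hL
  have hR : ∀ z : G, ∃ x : G, ∃ g, IsPair S g x z := by
    intro z
    obtain ⟨g, x, h⟩ := pair_right S z
    exact ⟨x, g, h⟩
  choose xr gr hgr using hR
  let q1 : G → G ⧸ Bs S := fun y => (y : G ⧸ Bs S)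
  let u : G → ℝ := fun y => φ ((gz (q1 y)).1 * S.dl false ((q1 y).out⁻¹ * y))
  let w : G → ℝ := fun z => φ ((gz (q1 (xr z))).1 * S.dl true ((gz (q1 (xr z))).2⁻¹ * z)) -
    φ (gz (q1 (xr z))).1
  have main : ∀ g, S.root g = false → φ g = u (S.sec false g) + w (S.sec true g) := by
    intro g hg
    have hp := IsPair_sec (S := S) hg
    set y := S.sec false g
    set z := S.sec true g
    have h1 : q1 (xr z) = q1 y := by
      have h2 : z⁻¹ * z ∈ S.BB := by
        rw [inv_mul_cancel]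
        exact BB_one S
      have h3 := (BB_pair S (hgr z) hp).2 h2
      exact QuotientGroup.eq.2 h3
    have h4 : (q1 y).out⁻¹ * y ∈ S.BB := by
      have : ((q1 y).out : G ⧸ Bs S) = (y : G ⧸ Bs S) := QuotientGroup.out_eq' _
      exact QuotientGroup.eq.1 this
    have h5 : (gz (q1 y)).2⁻¹ * z ∈ S.BB := (BB_pair S (hgz (q1 y)) hp).1 h4
    have h6 : g = (gz (q1 y)).1 * S.dl false ((q1 y).out⁻¹ * y) *
        S.dl true ((gz (q1 y)).2⁻¹ * z) := by
      apply IsPair_unique hp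
      have h7 := IsPair_mul (IsPair_mul (hgz (q1 y)) (dl_false S h4)) (dl_true S h5)
      simpa using h7
    have h7 := mixed hf h4 h5 (gz (q1 y)).1
    rw [← h6] at h7
    change φ g = φ ((gz (q1 y)).1 * S.dl false ((q1 y).out⁻¹ * y)) +
      (φ ((gz (q1 (xr z))).1 * S.dl true ((gz (q1 (xr z))).2⁻¹ * z)) - φ (gz (q1 (xr z))).1)
    rw [h1]
    linarith
  have main' : ∀ g x y, IsPair S g x y → φ g = u x + w y := by
    rintro g x y ⟨h1, rfl, rfl⟩
    exact main g h1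
  obtain ⟨D, hD⟩ := lift_left S
  obtain ⟨D', hD'⟩ := lift_right S
  obtain ⟨M, hM0, hM⟩ := exists_bound D w
  obtain ⟨M', hM0', hM'⟩ := exists_bound D' u
  refine ⟨u, w, main, ⟨6 * C0 + M, fun x => ?_⟩, ⟨6 * C0 + M', fun y => ?_⟩, ⟨c0 - M, fun x => ?_⟩,
    ⟨c0 - M', fun y => ?_⟩⟩
  · obtain ⟨g, y, hp, hy, hl⟩ := hD x
    have h1 := main' g x y hp
    have h2 := hφlin g
    have h3 := hM y hy
    have h4 : (S.len g : ℝ) ≤ 3 * S.len x := by exact_mod_cast hl
    have h5 : 2 * C0 * (1 + (S.len g : ℝ)) ≤ 2 * C0 * (1 + 3 * S.len x) :=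
      mul_le_mul_of_nonneg_left (by linarith) (by positivity)
    have h6 : (0 : ℝ) ≤ M * S.len x := by positivity
    have h7 : (0 : ℝ) ≤ C0 * S.len x := by positivity
    rw [abs_le] at h2 h3 ⊢
    constructor <;> nlinarith [h2.1, h2.2, h3.1, h3.2]
  · obtain ⟨g, x, hp, hx, hl⟩ := hD' y
    have h1 := main' g x y hp
    have h2 := hφlin g
    have h3 := hM' x hx
    have h4 : (S.len g : ℝ) ≤ 3 * S.len y := by exact_mod_cast hl
    have h5 : 2 * C0 * (1 + (S.len g : ℝ)) ≤ 2 * C0 * (1 + 3 * S.len y) :=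
      mul_le_mul_of_nonneg_left (by linarith) (by positivity)
    have h6 : (0 : ℝ) ≤ M' * S.len y := by positivity
    have h7 : (0 : ℝ) ≤ C0 * S.len y := by positivity
    rw [abs_le] at h2 h3 ⊢
    constructor <;> nlinarith [h2.1, h2.2, h3.1, h3.2]
  · obtain ⟨g, y, hp, hy, hl⟩ := hD x
    have h1 := main' g x y hp
    have h2 := hφbd g
    have h3 := hM y hy
    rw [abs_le] at h3
    linarith [h3.2]
  · obtain ⟨g, x, hp, hx, hl⟩ := hD' y
    have h1 := main' g x y hp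
    have h2 := hφbd g
    have h3 := hM' x hx
    rw [abs_le] at h3
    linarith [h3.2]

end Pool.Agent.PHF
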