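import Pool.Agent.PHF.Len

set_option autoImplicit false

namespace Pool.Agent.PHF

/-! Module ALG: the laws mA, mV, Z0, XK, lam. -/

variable {G : Type} [Group G] (S : SGp G)

theorem law_mA : IsLaw S.mA := IsLaw.hh _

theorem law_mV : IsLaw S.mV :=
  (((IsLaw.hh _).mul (IsLaw.hh _)).mul (IsLaw.hh _)).mul (IsLaw.hh _)

theorem law_Z0 : IsLaw S.Z0 := ((IsLaw.pt _).mul (law_mV S)).mul (IsLaw.pt _)

theorem law_XK (K : ℕ) : IsLaw (S.XK K) :=
  (((law_Z0 S).mul (law_mV S)).pow K).mul (law_Z0 S)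

theorem law_lam (r : ℕ) : IsLaw (S.lam r) := by
  induction r with
  | zero => exact law_mV S
  | succ r ih => exact ((law_mV S).mul (IsLaw.pt _)).mul ih

theorem mA_sq : S.mA * S.mA = S.mA := hh_mul_self _ S.a_sq

theorem pt_a_mA : pt S.a * S.mA = S.mA := pt_mul_hh _ S.a_sq

theorem mA_pt_a : S.mA * pt S.a = S.mA := hh_mul_pt _ S.a_sq

namespace AlgAux

theorem cpt (i j : Fin 4) : hh (S.e i) * pt (S.e j) = pt (S.e j) * hh (S.e i) :=
  hh_comm_pt _ _ (S.e_comm i j)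

theorem mul_e (i : Fin 4) : hh (S.e i) * pt (S.e i) = hh (S.e i) := hh_mul_pt _ (S.e_sq i)

theorem e_mul (i : Fin 4) : pt (S.e i) * hh (S.e i) = hh (S.e i) := pt_mul_hh _ (S.e_sq i)

theorem mV_e (i : Fin 4) : S.mV * pt (S.e i) = S.mV := by
  show hh (S.e 0) * hh (S.e 1) * hh (S.e 2) * hh (S.e 3) * pt (S.e i) =
    hh (S.e 0) * hh (S.e 1) * hh (S.e 2) * hh (S.e 3)
  fin_cases i
  · show hh (S.e 0) * hh (S.e 1) * hh (S.e 2) * hh (S.e 3) * pt (S.e 0) = _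
    rw [mul_assoc, cpt S 3 0, ← mul_assoc, mul_assoc _ (hh (S.e 2)), cpt S 2 0, ← mul_assoc,
      mul_assoc _ (hh (S.e 1)), cpt S 1 0, ← mul_assoc, mul_e]
  · show hh (S.e 0) * hh (S.e 1) * hh (S.e 2) * hh (S.e 3) * pt (S.e 1) = _
    rw [mul_assoc, cpt S 3 1, ← mul_assoc, mul_assoc _ (hh (S.e 2)), cpt S 2 1, ← mul_assoc,
      mul_assoc _ (hh (S.e 1)), mul_e]
  · show hh (S.e 0) * hh (S.e 1) * hh (S.e 2) * hh (S.e 3) * pt (S.e 2) = _
    rw [mul_assoc, cpt S 3 2, ← mul_assoc, mul_assoc _ (hh (S.e 2)), mul_e]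
  · show hh (S.e 0) * hh (S.e 1) * hh (S.e 2) * hh (S.e 3) * pt (S.e 3) = _
    rw [mul_assoc, mul_e]

theorem mV_comm_e (i : Fin 4) : S.mV * pt (S.e i) = pt (S.e i) * S.mV := by
  show hh (S.e 0) * hh (S.e 1) * hh (S.e 2) * hh (S.e 3) * pt (S.e i) =
    pt (S.e i) * (hh (S.e 0) * hh (S.e 1) * hh (S.e 2) * hh (S.e 3))
  rw [mul_assoc, cpt S 3 i, ← mul_assoc, mul_assoc _ (hh (S.e 2)), cpt S 2 i, ← mul_assoc,
    mul_assoc _ (hh (S.e 1)), cpt S 1 i, ← mul_assoc, cpt S 0 i]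
  simp only [mul_assoc]

theorem e_mV (i : Fin 4) : pt (S.e i) * S.mV = S.mV := by
  rw [← mV_comm_e, mV_e]

theorem mV_hh (i : Fin 4) : S.mV * hh (S.e i) = S.mV := by
  unfold hh
  rw [mul_smul_comm, mul_add, mul_one, mV_e, ← two_smul ℝ, smul_smul]
  norm_num

theorem mV_pw (i : Fin 4) (s : ZMod 2) : S.mV * pt (pw (S.e i) s) = S.mV := by
  have key : ∀ u : ZMod 2, u = 0 ∨ u = 1 := by decide
  rcases key s with rfl | rfl
  · rw [pw_zero, pt_one, mul_one]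
  · rw [pw_one, mV_e]

theorem pw_mV (i : Fin 4) (s : ZMod 2) : pt (pw (S.e i) s) * S.mV = S.mV := by
  have key : ∀ u : ZMod 2, u = 0 ∨ u = 1 := by decide
  rcases key s with rfl | rfl
  · rw [pw_zero, pt_one, one_mul]
  · rw [pw_one, e_mV]

end AlgAux

theorem mV_sq : S.mV * S.mV = S.mV := by
  have h : S.mV * (hh (S.e 0) * hh (S.e 1) * hh (S.e 2) * hh (S.e 3)) = S.mV := by
    rw [← mul_assoc, ← mul_assoc, ← mul_assoc, AlgAux.mV_hh, AlgAux.mV_hh, AlgAux.mV_hh,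
      AlgAux.mV_hh]
  exact h

theorem Z0_sq : S.Z0 * S.Z0 = S.Z0 := by
  have h1 : pt S.a * pt S.a = (1 : GA G) := by rw [pt_mul, S.a_sq, pt_one]
  show pt S.a * S.mV * pt S.a * (pt S.a * S.mV * pt S.a) = pt S.a * S.mV * pt S.a
  calc pt S.a * S.mV * pt S.a * (pt S.a * S.mV * pt S.a)
      = pt S.a * S.mV * (pt S.a * pt S.a) * S.mV * pt S.a := by simp only [mul_assoc]
    _ = pt S.a * (S.mV * S.mV) * pt S.a := by rw [h1, mul_one]; simp only [mul_assoc]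
    _ = _ := by rw [mV_sq]

theorem mV_pt (v : Fin 4 → ZMod 2) : S.mV * pt (S.vv v) = S.mV := by
  show S.mV * pt (pw (S.e 0) (v 0) * pw (S.e 1) (v 1) * pw (S.e 2) (v 2) * pw (S.e 3) (v 3)) = _
  rw [← pt_mul, ← pt_mul, ← pt_mul, ← mul_assoc, ← mul_assoc, ← mul_assoc, AlgAux.mV_pw,
    AlgAux.mV_pw, AlgAux.mV_pw, AlgAux.mV_pw]

theorem pt_mV (v : Fin 4 → ZMod 2) : pt (S.vv v) * S.mV = S.mV := by
  show pt (pw (S.e 0) (v 0) * pw (S.e 1) (v 1) * pw (S.e 2) (v 2) * pw (S.e 3) (v 3)) * S.mV = _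
  rw [← pt_mul, ← pt_mul, ← pt_mul, mul_assoc, AlgAux.pw_mV, mul_assoc, AlgAux.pw_mV, mul_assoc,
    AlgAux.pw_mV, AlgAux.pw_mV]

theorem XK_succ (K : ℕ) : S.XK (K + 1) = S.Z0 * S.mV * S.XK K := by
  unfold SGp.XK
  rw [pow_succ', mul_assoc (S.Z0 * S.mV)]

/-- The random walk is a conjugate of the alternating product. -/
theorem XK_eq_lam (K : ℕ) : S.XK K = pt S.a * S.lam (2 * K) * pt S.a := by
  induction K with
  | zero =>
    show (S.Z0 * S.mV) ^ 0 * S.Z0 = pt S.a * S.mV * pt S.a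
    rw [pow_zero, one_mul]; rfl
  | succ K ih =>
    rw [XK_succ, ih]
    have h : S.lam (2 * (K + 1)) = S.mV * pt S.a * (S.mV * pt S.a * S.lam (2 * K)) := rfl
    rw [h]
    show pt S.a * S.mV * pt S.a * S.mV * (pt S.a * S.lam (2 * K) * pt S.a) = _
    simp only [mul_assoc]

namespace AlgAux

theorem supp_mul (p q : GA G) (z : G) (h : (p * q).coeff z ≠ 0) :
    ∃ x y, p.coeff x ≠ 0 ∧ q.coeff y ≠ 0 ∧ z = x * y := by
  classical
  by_contra hcon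
  push Not at hcon
  apply h
  rw [coeff_eq_ev, ev_mul]
  rw [ev_congr p _ (fun _ => 0) ?_, ev_fzero]
  intro x hx
  rw [ev_congr q _ (fun _ => 0) ?_, ev_fzero]
  intro y hy
  exact if_neg fun h2 => hcon x y hx hy h2.symm

theorem supp_pt (g z : G) (h : (pt g).coeff z ≠ 0) : z = g := by
  classical
  by_contra hcon
  apply h
  rw [coeff_eq_ev, ev_pt]
  exact if_neg fun h2 => hcon h2.symm

theorem supp_mV (z : G) (h : S.mV.coeff z ≠ 0) : ∃ v, z = S.vv v := by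
  classical
  by_contra hcon
  push Not at hcon
  apply h
  rw [coeff_eq_ev, mV_eq_avg, ev_avg]
  have h1 : (fun i : Fin 4 → ZMod 2 => ev (pt (S.vv i)) (fun w => if w = z then (1 : ℝ) else 0)) =
      fun _ => 0 := by
    funext v
    rw [ev_pt]
    exact if_neg fun h2 => hcon v h2.symm
  rw [h1, avg_const]

theorem supp_Z0 (z : G) (h : S.Z0.coeff z ≠ 0) : ∃ v, z = S.a * S.vv v * S.a := by
  obtain ⟨x, y, hx, hy, rfl⟩ := supp_mul _ _ z h
  obtain ⟨x1, x2, hx1, hx2, rfl⟩ := supp_mul _ _ x hx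
  obtain ⟨v, rfl⟩ := supp_mV S x2 hx2
  exact ⟨v, by rw [supp_pt _ _ hx1, supp_pt _ _ hy]⟩

end AlgAux

theorem supp_XK (K : ℕ) (z : G) (h : (S.XK K).coeff z ≠ 0) :
    S.root z = false ∧ S.len z ≤ 2 * K + 1 := by
  induction K generalizing z with
  | zero =>
    have h1 : S.XK 0 = S.Z0 := by
      show (S.Z0 * S.mV) ^ 0 * S.Z0 = S.Z0
      rw [pow_zero, one_mul]
    rw [h1] at h
    obtain ⟨v, rfl⟩ := AlgAux.supp_Z0 S z h
    exact ⟨(IsPair_conj_a (IsPair_vv S v)).1, len_le_one S (ava_mem_T S v)⟩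
  | succ K ih =>
    rw [XK_succ] at h
    obtain ⟨x, w, hx, hw, rfl⟩ := AlgAux.supp_mul _ _ z h
    obtain ⟨x1, x2, hx1, hx2, rfl⟩ := AlgAux.supp_mul _ _ x hx
    obtain ⟨v1, rfl⟩ := AlgAux.supp_Z0 S x1 hx1
    obtain ⟨v2, rfl⟩ := AlgAux.supp_mV S x2 hx2
    obtain ⟨hr, hl⟩ := ih w hw
    constructor
    · rw [S.root_mul, S.root_mul, (IsPair_conj_a (IsPair_vv S v1)).1, (IsPair_vv S v2).1, hr]
      rfl
    · have h1 := len_mul_le S (S.a * S.vv v1 * S.a * S.vv v2) w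
      have h2 := len_mul_le S (S.a * S.vv v1 * S.a) (S.vv v2)
      have h3 := len_le_one S (ava_mem_T S v1)
      have h4 := len_le_one S (vv_mem_T S v2)
      omega

end Pool.Agent.PHF
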