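import Pool.Agent.PHF.Alg

set_option autoImplicit false

namespace Pool.Agent.PHF

/-! Module ALH: algebra of harmonic functions. -/

variable {G : Type} [Group G] {S : SGp G}

namespace AlhAux

theorem act_half (p : GA G) (f g h : G → ℝ) (e : ∀ x, f x = (g x + h x) / 2) (x : G) :
    act p f x = (act p g x + act p h x) / 2 := by
  have h1 : f = fun z => (1 / 2 : ℝ) * (g z + h z) := by
    funext z
    rw [e z]
    ring
  rw [h1, act_fsmul, act_fadd]
  ring

theorem Z0_eq (S : SGp G) (φ : G → ℝ) (hφ : ∀ x, φ (x * S.a) = φ x) (x : G) :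
    act S.Z0 φ x = act S.mV φ (x * S.a) := by
  have h1 : act (pt S.a) φ = φ := by
    funext z
    rw [act_pt, hφ]
  rw [SGp.Z0, act_mul, act_mul, act_pt', h1]
where
  act_pt' : ∀ (f : G → ℝ) (g x : G), act (pt g) f x = f (x * g) := fun f g x => act_pt g f x

end AlhAux

theorem mV_mA {f : G → ℝ} (hf : S.Harm f) : act S.mV (act S.mA f) = act S.mV f := by
  funext x
  have h1 := AlhAux.act_half S.mV f _ _ hf x
  rw [← act_mul S.mV S.mV, mV_sq] at h1
  linarith

theorem phi_a {f : G → ℝ} (x : G) : act S.mA f (x * S.a) = act S.mA f x := by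
  rw [← act_pt S.a (act S.mA f) x, ← act_mul, pt_a_mA]

/-- phi = m_A f is the half sum of its averages over V and its conjugate. -/
theorem phi_eq {f : G → ℝ} (hf : S.Harm f) (x : G) :
    act S.mA f x = (act S.Z0 (act S.mA f) x + act S.mV (act S.mA f) x) / 2 := by
  have h1 := AlhAux.act_half S.mA f _ _ hf x
  rw [← act_mul S.mA S.mA, mA_sq, ← mV_mA hf] at h1
  have h2 : act S.mA (act S.mV (act S.mA f)) x =
      (act S.mV (act S.mA f) x + act S.mV (act S.mA f) (x * S.a)) / 2 := act_hh S.a _ x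
  rw [AlhAux.Z0_eq S _ (fun y => phi_a y) x]
  linarith

theorem chi_eq (f : G → ℝ) : S.chi f = act S.Z0 (act S.mA f) := by
  rw [SGp.chi, act_mul]

theorem chi_XK {f : G → ℝ} (hf : S.Harm f) (K : ℕ) : act (S.XK K) (S.chi f) = S.chi f := by
  rw [chi_eq]
  set φ := act S.mA f with hφ
  have e := phi_eq hf
  rw [← hφ] at e
  have hZ : ∀ x, act S.Z0 (act S.mV φ) x = act S.Z0 φ x := by
    intro x
    have h1 := AlhAux.act_half S.Z0 φ _ _ e x
    rw [← act_mul S.Z0 S.Z0, Z0_sq] at h1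
    linarith
  have hV : ∀ x, act S.mV (act S.Z0 φ) x = act S.mV φ x := by
    intro x
    have h1 := AlhAux.act_half S.mV φ _ _ e x
    rw [← act_mul S.mV S.mV, mV_sq] at h1
    linarith
  have hV' : act S.mV (act S.Z0 φ) = act S.mV φ := funext hV
  induction K with
  | zero =>
    have : S.XK 0 = S.Z0 := by
      rw [SGp.XK, pow_zero, one_mul]
    rw [this, ← act_mul, Z0_sq]
  | succ K ih =>
    rw [XK_succ, act_mul, ih, act_mul, hV']
    exact funext hZ

/-- The other average is chi at the other coset. -/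
theorem mV_phi_eq {f : G → ℝ} (x : G) :
    act S.mV (act S.mA f) x = S.chi f (x * S.a) := by
  rw [chi_eq, AlhAux.Z0_eq S _ (fun y => phi_a y), mul_assoc, S.a_sq, mul_one]

theorem chi_left (f : G → ℝ) (y x : G) : S.chi (fun z => f (y * z)) x = S.chi f (y * x) := by
  exact act_left _ f y x

theorem Dcl_left {f : G → ℝ} (hf : S.Dcl f) (y : G) : S.Dcl (fun z => f (y * z)) := by
  obtain ⟨C, hC⟩ := hf.lin
  obtain ⟨c, hc⟩ := hf.bdd
  have hC0 : 0 ≤ C := by
    have h1 := hC 1
    have h2 : (0 : ℝ) < 1 + S.len 1 := by positivity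
    by_contra h3
    have h4 : C * (1 + S.len 1) < 0 := mul_neg_of_neg_of_pos (not_le.1 h3) h2
    linarith [abs_nonneg (f 1)]
  refine ⟨?_, ⟨C * (1 + S.len y), ?_⟩, ⟨c, fun x => hc _⟩⟩
  · intro x
    rw [act_left, act_left]
    exact hf.harm (y * x)
  · intro x
    refine (hC (y * x)).trans ?_
    have h1 : (S.len (y * x) : ℝ) ≤ S.len y + S.len x := by
      exact_mod_cast len_mul_le S y x
    have h2 : (0 : ℝ) ≤ S.len y := by positivity
    have h3 : (0 : ℝ) ≤ S.len x := by positivity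
    rw [mul_assoc]
    apply mul_le_mul_of_nonneg_left _ hC0
    nlinarith

theorem Dcl_sub {f : G → ℝ} (hf : S.Dcl f) (c : ℝ) : S.Dcl (fun z => f z - c) := by
  obtain ⟨C, hC⟩ := hf.lin
  obtain ⟨c', hc'⟩ := hf.bdd
  refine ⟨?_, ⟨C + |c|, ?_⟩, ⟨c' - c, fun x => by linarith [hc' x]⟩⟩
  · intro x
    rw [act_fsub S.mA f (fun _ => c), act_fsub S.mV f (fun _ => c), act_const _ (law_mA S),
      act_const _ (law_mV S)]
    have h := hf.harm x
    simp only
    linarith
  · intro x
    have h1 := hC x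
    have h2 := abs_sub (f x) c
    have h3 : (0 : ℝ) ≤ S.len x := by positivity
    have h4 := abs_nonneg c
    have h5 := mul_nonneg h4 h3
    nlinarith

theorem chi_sub (f : G → ℝ) (c : ℝ) (x : G) : S.chi (fun z => f z - c) x = S.chi f x - c := by
  unfold SGp.chi
  rw [act_fsub _ f (fun _ => c), act_const _ ((law_Z0 S).mul (law_mA S))]

theorem chi_nonneg {f : G → ℝ} (h : ∀ x, 0 ≤ f x) (x : G) : 0 ≤ S.chi f x :=
  ev_nonneg _ ((law_Z0 S).mul (law_mA S)).nn _ fun z _ => h _

theorem chi_lin {f : G → ℝ} (hf : S.Dcl f) : ∃ C : ℝ, 0 ≤ C ∧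
    ∀ x, |S.chi f x| ≤ C * (1 + S.len x) := by
  obtain ⟨C, hC⟩ := hf.lin
  have hC0 : 0 ≤ C := by
    have h1 := hC 1
    have h2 : (0 : ℝ) < 1 + S.len 1 := by positivity
    by_contra h3
    have h4 : C * (1 + S.len 1) < 0 := mul_neg_of_neg_of_pos (not_le.1 h3) h2
    linarith [abs_nonneg (f 1)]
  have hlaw := (law_Z0 S).mul (law_mA S)
  obtain ⟨N, hN⟩ := len_bound S (S.Z0 * S.mA).coeff.support
  refine ⟨C * (1 + N), by positivity, fun x => ?_⟩
  have h1 : |S.chi f x| ≤ ev (S.Z0 * S.mA) (fun z => |f (x * z)|) :=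
    ev_abs_le _ hlaw.nn _
  refine h1.trans ?_
  have h2 : ev (S.Z0 * S.mA) (fun z => |f (x * z)|) ≤
      ev (S.Z0 * S.mA) (fun _ => C * (1 + N) * (1 + S.len x)) := by
    apply ev_mono _ hlaw.nn
    intro z hz
    have h3 := hN z (Finsupp.mem_support_iff.2 hz)
    refine (hC (x * z)).trans ?_
    rw [mul_assoc]
    apply mul_le_mul_of_nonneg_left _ hC0
    have h4 : (S.len (x * z) : ℝ) ≤ S.len x + S.len z := by
      exact_mod_cast len_mul_le S x z
    have h5 : (S.len z : ℝ) ≤ N := by exact_mod_cast h3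
    have h6 : (0 : ℝ) ≤ S.len x := by positivity
    have h7 : (0 : ℝ) ≤ (N : ℝ) * S.len x := by positivity
    nlinarith
  rw [ev_const, hlaw.mass, mul_one] at h2
  exact h2

/-- Harmonic functions are comparable at neighbours (Harnack). -/
theorem harnack {f : G → ℝ} (hf : S.Harm f) (h0 : ∀ x, 0 ≤ f x) (y : G) :
    ∃ C : ℝ, 0 < C ∧ ∀ x, f (x * y) ≤ C * f x := by
  have hA0 : ∀ x, 0 ≤ act S.mA f x := fun x => ev_nonneg _ (law_mA S).nn _ fun z _ => h0 _
  have hV0 : ∀ x, 0 ≤ act S.mV f x := fun x => ev_nonneg _ (law_mV S).nn _ fun z _ => h0 _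
  have ha : ∀ x, f (x * S.a) ≤ 4 * f x := by
    intro x
    have h1 := hf x
    have h2 : act S.mA f x = (f x + f (x * S.a)) / 2 := act_hh S.a f x
    have h3 := hV0 x
    have h4 := h0 x
    rw [h2] at h1
    linarith
  have he : ∀ i x, f (x * S.e i) ≤ 32 * f x := by
    intro i x
    have h1 := hf x
    have h3 := hA0 x
    have h2 : act S.mV f x = avg fun v : Fin 4 → ZMod 2 => f (x * S.vv v) := by
      unfold act
      rw [mV_eq_avg, ev_avg]
      simp only [ev_pt]
    have h4 : (1 / 16 : ℝ) * f (x * S.e i) ≤ act S.mV f x := by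
      rw [h2]
      unfold avg
      have h5 : (Fintype.card (Fin 4 → ZMod 2) : ℝ)⁻¹ = 1 / 16 := by
        rw [Fintype.card_fun, ZMod.card]
        norm_num
      rw [h5, smul_eq_mul]
      apply mul_le_mul_of_nonneg_left _ (by norm_num)
      rw [← vv_single S i]
      exact Finset.single_le_sum (f := fun v : Fin 4 → ZMod 2 => f (x * S.vv v))
        (fun v _ => h0 _) (Finset.mem_univ _)
    linarith
  induction y using G_induction S with
  | h1 => exact ⟨1, one_pos, fun x => by rw [mul_one, one_mul]⟩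
  | ha y ih =>
    obtain ⟨C, hC, h⟩ := ih
    refine ⟨4 * C, by positivity, fun x => ?_⟩
    rw [← mul_assoc]
    calc f (x * y * S.a) ≤ 4 * f (x * y) := ha _
      _ ≤ 4 * (C * f x) := by linarith [h x]
      _ = 4 * C * f x := by ring
  | he y i ih =>
    obtain ⟨C, hC, h⟩ := ih
    refine ⟨32 * C, by positivity, fun x => ?_⟩
    rw [← mul_assoc]
    calc f (x * y * S.e i) ≤ 32 * f (x * y) := he i _
      _ ≤ 32 * (C * f x) := by linarith [h x]
      _ = 32 * C * f x := by ring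

end Pool.Agent.PHF
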