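import Pool.Agent.PHF.Bas

set_option autoImplicit false

namespace Pool.Agent.PHF

/-! Module AVS: averaging over the second components of lists. -/

variable {R : Type} [AddCommGroup R] [Fintype R]

theorem Av_mono (Φ Ψ : List (ZMod 2 × R) → ℝ) (h : ∀ l, Φ l ≤ Ψ l) (T : List (ZMod 2)) :
    Av Φ T ≤ Av Ψ T := by
  induction T generalizing Φ Ψ with
  | nil => exact h []
  | cons s T ih => exact avg_mono _ _ fun r => ih _ _ fun l => h _

theorem Av_nonneg (Φ : List (ZMod 2 × R) → ℝ) (h : ∀ l, 0 ≤ Φ l) (T : List (ZMod 2)) :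
    0 ≤ Av Φ T := by
  induction T generalizing Φ with
  | nil => exact h []
  | cons s T ih => exact avg_nonneg _ fun r => ih _ fun l => h _

theorem Av_le_const (Φ : List (ZMod 2 × R) → ℝ) (c : ℝ) (h : ∀ l, Φ l ≤ c)
    (T : List (ZMod 2)) : Av Φ T ≤ c := by
  have : Nonempty R := ⟨0⟩
  induction T generalizing Φ with
  | nil => exact h []
  | cons s T ih =>
    have h1 := avg_mono (ι := R) (fun r => Av (fun l => Φ ((s, r) :: l)) T) (fun _ => c)
      fun r => ih _ fun l => h _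
    rw [avg_const] at h1
    exact h1

theorem Av_add (Φ Ψ : List (ZMod 2 × R) → ℝ) (T : List (ZMod 2)) :
    Av (fun l => Φ l + Ψ l) T = Av Φ T + Av Ψ T := by
  induction T generalizing Φ Ψ with
  | nil => rfl
  | cons s T ih =>
    show avg (fun r : R => Av (fun l => Φ ((s, r) :: l) + Ψ ((s, r) :: l)) T) = _
    simp only [ih]
    rw [avg_add]
    rfl

theorem Av_cons (Φ : List (ZMod 2 × R) → ℝ) (s : ZMod 2) (T : List (ZMod 2)) :
    Av Φ (s :: T) = avg fun r : R => Av (fun l => Φ ((s, r) :: l)) T := rfl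

/-- Tail. -/
theorem Av_tail (Φ : List (ZMod 2 × R) → ℝ) (s : ZMod 2) (T : List (ZMod 2)) :
    Av (fun l => Φ l.tail) (s :: T) = Av Φ T := by
  have : Nonempty R := ⟨0⟩
  exact avg_const (ι := R) (Av Φ T)

omit [AddCommGroup R] in
theorem AVS_Ex_avg {ι α : Type} [Fintype ι] [Fintype α] (k : ℕ) (F : ι → List α → ℝ) :
    Ex k (fun l => avg fun i => F i l) = avg fun i => Ex k (F i) := by
  induction k generalizing F with
  | zero => rfl
  | succ k ih =>
    show (avg fun x => Ex k fun l => avg fun i => F i (x :: l)) = _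
    simp only [ih]
    rw [avg_comm]
    rfl

theorem Ex_Av (k : ℕ) (Φ : List (ZMod 2 × R) → ℝ) : Ex k (Av Φ) = Ex k Φ := by
  induction k generalizing Φ with
  | zero => rfl
  | succ k ih =>
    show (avg fun s => Ex k fun T => avg fun r : R => Av (fun l => Φ ((s, r) :: l)) T) = _
    have h1 : ∀ s : ZMod 2, (Ex k fun T => avg fun r : R => Av (fun l => Φ ((s, r) :: l)) T) =
        avg fun r : R => Ex k (fun l => Φ ((s, r) :: l)) := by
      intro s
      rw [AVS_Ex_avg]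
      simp only [ih]
    simp only [h1]
    rw [← avg_prod (fun x : ZMod 2 × R => Ex k fun l => Φ (x :: l))]
    rfl

theorem AVS_Sth_mono : ∀ (T : List (ZMod 2)) (Φ Ψ : List (ZMod 2) → ℝ) (_ : ∀ l, Φ l ≤ Ψ l)
    (c : ZMod 2), Sth Φ c T ≤ Sth Ψ c T
  | [], _, _, h, _ => h []
  | [_], _, _, h, _ => h []
  | s1 :: s2 :: l, Φ, Ψ, h, c => by
    have h1 := AVS_Sth_mono l (fun x => Φ ((c + s1) :: x)) (fun x => Ψ ((c + s1) :: x))
      (fun x => h _) (c + s1 + s2)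
    have h2 := AVS_Sth_mono l Φ Ψ h (c + s1 + s2)
    show (Sth (fun x => Φ ((c + s1) :: x)) (c + s1 + s2) l + Sth Φ (c + s1 + s2) l) / 2 ≤
      (Sth (fun x => Ψ ((c + s1) :: x)) (c + s1 + s2) l + Sth Ψ (c + s1 + s2) l) / 2
    linarith

theorem Sth_mono (Φ Ψ : List (ZMod 2) → ℝ) (h : ∀ l, Φ l ≤ Ψ l) (c : ZMod 2)
    (T : List (ZMod 2)) : Sth Φ c T ≤ Sth Ψ c T := AVS_Sth_mono T Φ Ψ h c

theorem AVS_Sth_zero : ∀ (T : List (ZMod 2)) (c : ZMod 2), Sth (fun _ => 0) c T = 0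
  | [], _ => rfl
  | [_], _ => rfl
  | s1 :: s2 :: l, c => by
    show (Sth (fun _ => 0) (c + s1 + s2) l + Sth (fun _ => 0) (c + s1 + s2) l) / 2 = 0
    rw [AVS_Sth_zero l]
    norm_num

theorem Sth_nonneg (Φ : List (ZMod 2) → ℝ) (h : ∀ l, 0 ≤ Φ l) (c : ZMod 2)
    (T : List (ZMod 2)) : 0 ≤ Sth Φ c T := by
  have h1 := Sth_mono (fun _ => 0) Φ h c T
  rwa [AVS_Sth_zero] at h1

theorem AVS_Sth_add : ∀ (T : List (ZMod 2)) (Φ Ψ : List (ZMod 2) → ℝ) (c : ZMod 2),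
    Sth (fun l => Φ l + Ψ l) c T = Sth Φ c T + Sth Ψ c T
  | [], _, _, _ => rfl
  | [_], _, _, _ => rfl
  | s1 :: s2 :: l, Φ, Ψ, c => by
    have h1 := AVS_Sth_add l (fun x => Φ ((c + s1) :: x)) (fun x => Ψ ((c + s1) :: x))
      (c + s1 + s2)
    have h2 := AVS_Sth_add l Φ Ψ (c + s1 + s2)
    show (Sth (fun x => Φ ((c + s1) :: x) + Ψ ((c + s1) :: x)) (c + s1 + s2) l +
        Sth (fun x => Φ x + Ψ x) (c + s1 + s2) l) / 2 =
      (Sth (fun x => Φ ((c + s1) :: x)) (c + s1 + s2) l + Sth Φ (c + s1 + s2) l) / 2 +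
      (Sth (fun x => Ψ ((c + s1) :: x)) (c + s1 + s2) l + Sth Ψ (c + s1 + s2) l) / 2
    rw [h1, h2]
    ring

theorem Sth_add (Φ Ψ : List (ZMod 2) → ℝ) (c : ZMod 2) (T : List (ZMod 2)) :
    Sth (fun l => Φ l + Ψ l) c T = Sth Φ c T + Sth Ψ c T := AVS_Sth_add T Φ Ψ c

theorem AVS_Sth_avg {ι : Type} [Fintype ι] [Nonempty ι] : ∀ (T : List (ZMod 2))
    (F : ι → List (ZMod 2) → ℝ) (c : ZMod 2),
    Sth (fun l => avg fun i => F i l) c T = avg fun i => Sth (F i) c T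
  | [], _, _ => rfl
  | [_], _, _ => rfl
  | s1 :: s2 :: l, F, c => by
    have h1 := AVS_Sth_avg l (fun i x => F i ((c + s1) :: x)) (c + s1 + s2)
    have h2 := AVS_Sth_avg l F (c + s1 + s2)
    show (Sth (fun x => avg fun i => F i ((c + s1) :: x)) (c + s1 + s2) l +
        Sth (fun x => avg fun i => F i x) (c + s1 + s2) l) / 2 =
      avg fun i => (Sth (fun x => F i ((c + s1) :: x)) (c + s1 + s2) l +
        Sth (F i) (c + s1 + s2) l) / 2
    rw [h1, h2]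
    have h3 : (fun i => (Sth (fun x => F i ((c + s1) :: x)) (c + s1 + s2) l +
        Sth (F i) (c + s1 + s2) l) / 2) = fun i => (1 / 2 : ℝ) *
          (Sth (fun x => F i ((c + s1) :: x)) (c + s1 + s2) l + Sth (F i) (c + s1 + s2) l) := by
      funext i
      ring
    rw [h3, avg_smul, avg_add]
    ring

omit [Fintype R] in
theorem AVS_ThG_mono : ∀ (T : List (ZMod 2 × R)) (Φ Ψ : List (ZMod 2 × (R × ZMod 2)) → ℝ)
    (_ : ∀ l, Φ l ≤ Ψ l) (c : ZMod 2 × (R × ZMod 2)), ThG Φ c T ≤ ThG Ψ c T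
  | [], _, _, h, _ => h []
  | [_], _, _, h, _ => h []
  | c1 :: c2 :: l, Φ, Ψ, h, c => by
    refine avg_mono _ _ fun t => ?_
    have h1 := AVS_ThG_mono l (fun x => Φ ((c + (c1.1, (c1.2, t))) :: x))
      (fun x => Ψ ((c + (c1.1, (c1.2, t))) :: x)) (fun x => h _)
      (c + (c1.1, (c1.2, t)) + (c2.1, (c2.2, 0)))
    have h2 := AVS_ThG_mono l Φ Ψ h (c + (c1.1, (c1.2, t)) + (c2.1, (c2.2, 0)))
    linarith

/-- ThG is linear and monotone. -/
theorem ThG_mono (Φ Ψ : List (ZMod 2 × (R × ZMod 2)) → ℝ) (h : ∀ l, Φ l ≤ Ψ l)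
    (c : ZMod 2 × (R × ZMod 2)) (T : List (ZMod 2 × R)) : ThG Φ c T ≤ ThG Ψ c T :=
  AVS_ThG_mono T Φ Ψ h c

omit [Fintype R] in
theorem AVS_ThG_add : ∀ (T : List (ZMod 2 × R)) (Φ Ψ : List (ZMod 2 × (R × ZMod 2)) → ℝ)
    (c : ZMod 2 × (R × ZMod 2)), ThG (fun l => Φ l + Ψ l) c T = ThG Φ c T + ThG Ψ c T
  | [], _, _, _ => rfl
  | [_], _, _, _ => rfl
  | c1 :: c2 :: l, Φ, Ψ, c => by
    have h1 := fun t : ZMod 2 => AVS_ThG_add l (fun x => Φ ((c + (c1.1, (c1.2, t))) :: x))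
      (fun x => Ψ ((c + (c1.1, (c1.2, t))) :: x)) (c + (c1.1, (c1.2, t)) + (c2.1, (c2.2, 0)))
    have h2 := fun t : ZMod 2 =>
      AVS_ThG_add l Φ Ψ (c + (c1.1, (c1.2, t)) + (c2.1, (c2.2, 0)))
    simp only [ThG]
    rw [← avg_add]
    congr 1
    funext t
    rw [h1, h2]
    ring

theorem ThG_add (Φ Ψ : List (ZMod 2 × (R × ZMod 2)) → ℝ)
    (c : ZMod 2 × (R × ZMod 2)) (T : List (ZMod 2 × R)) :
    ThG (fun l => Φ l + Ψ l) c T = ThG Φ c T + ThG Ψ c T := AVS_ThG_add T Φ Ψ c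

omit [Fintype R] in
theorem AVS_ThG_zero : ∀ (T : List (ZMod 2 × R)) (c : ZMod 2 × (R × ZMod 2)),
    ThG (fun _ => 0) c T = 0
  | [], _ => rfl
  | [_], _ => rfl
  | c1 :: c2 :: l, c => by
    simp only [ThG]
    have h1 := fun t : ZMod 2 =>
      AVS_ThG_zero l (c + (c1.1, (c1.2, t)) + (c2.1, (c2.2, 0)))
    simp only [h1]
    rw [avg_const]
    norm_num

theorem ThG_sum {ι : Type} (s : Finset ι) (Φ : ι → List (ZMod 2 × (R × ZMod 2)) → ℝ)
    (c : ZMod 2 × (R × ZMod 2)) (T : List (ZMod 2 × R)) :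
    ThG (fun l => ∑ i ∈ s, Φ i l) c T = ∑ i ∈ s, ThG (Φ i) c T := by
  classical
  induction s using Finset.induction_on with
  | empty =>
    simp only [Finset.sum_empty]
    exact AVS_ThG_zero T c
  | insert i s hi ih =>
    simp only [Finset.sum_insert hi]
    rw [ThG_add, ih]

theorem AVS_Av_avg {ι : Type} [Fintype ι] (F : ι → List (ZMod 2 × R) → ℝ)
    (T : List (ZMod 2)) : Av (fun l => avg fun i => F i l) T = avg fun i => Av (F i) T := by
  induction T generalizing F with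
  | nil => rfl
  | cons s T ih =>
    show avg (fun r : R => Av (fun l => avg fun i => F i ((s, r) :: l)) T) = _
    simp only [ih]
    rw [avg_comm]
    rfl

theorem AVS_Av_half (Φ Ψ : List (ZMod 2 × R) → ℝ) (T : List (ZMod 2)) :
    Av (fun l => (Φ l + Ψ l) / 2) T = (Av Φ T + Av Ψ T) / 2 := by
  induction T generalizing Φ Ψ with
  | nil => rfl
  | cons s T ih =>
    show avg (fun r : R => Av (fun l => (Φ ((s, r) :: l) + Ψ ((s, r) :: l)) / 2) T) = _
    simp only [ih]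
    have h3 : (fun r : R => (Av (fun l => Φ ((s, r) :: l)) T +
        Av (fun l => Ψ ((s, r) :: l)) T) / 2) = fun r : R => (1 / 2 : ℝ) *
        (Av (fun l => Φ ((s, r) :: l)) T + Av (fun l => Ψ ((s, r) :: l)) T) := by
      funext i
      ring
    rw [h3, avg_smul, avg_add]
    show _ = (avg (fun r : R => Av (fun l => Φ ((s, r) :: l)) T) +
      avg (fun r : R => Av (fun l => Ψ ((s, r) :: l)) T)) / 2
    ring

theorem AVS_Av_ThG : ∀ (T : List (ZMod 2)) (Φ : List (ZMod 2 × (R × ZMod 2)) → ℝ)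
    (c : ZMod 2 × (R × ZMod 2)), Av (ThG Φ c) T = Sth (Av Φ) c.1 T
  | [], _, _ => rfl
  | [_], Φ, _ => by
    have : Nonempty R := ⟨0⟩
    exact avg_const (ι := R) (Φ [])
  | s1 :: s2 :: l, Φ, c => by
    have hR : Nonempty R := ⟨0⟩
    have IH1 := fun (r1 : R) (t : ZMod 2) (r2 : R) =>
      AVS_Av_ThG l (fun x => Φ ((c + (s1, (r1, t))) :: x)) (c + (s1, (r1, t)) + (s2, (r2, 0)))
    have IH2 := fun (r1 : R) (t : ZMod 2) (r2 : R) =>
      AVS_Av_ThG l Φ (c + (s1, (r1, t)) + (s2, (r2, 0)))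
    have h1 : ∀ r1 r2 : R, Av (fun l' => ThG Φ c ((s1, r1) :: (s2, r2) :: l')) l =
        avg fun t : ZMod 2 => (Sth (fun x => Av (fun l' => Φ ((c.1 + s1, c.2 + (r1, t)) :: l')) x)
          (c.1 + s1 + s2) l + Sth (Av Φ) (c.1 + s1 + s2) l) / 2 := by
      intro r1 r2
      simp only [ThG]
      rw [AVS_Av_avg]
      congr 1
      funext t
      rw [AVS_Av_half, IH1, IH2]
      rfl
    show (avg fun r1 : R => avg fun r2 : R =>
      Av (fun l' => ThG Φ c ((s1, r1) :: (s2, r2) :: l')) l) = _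
    simp only [h1]
    have h2 : ∀ x : ℝ, (avg fun _ : R => x) = x := fun x => avg_const x
    simp only [h2]
    show _ = (Sth (fun x => Av Φ ((c.1 + s1) :: x)) (c.1 + s1 + s2) l +
      Sth (Av Φ) (c.1 + s1 + s2) l) / 2
    have h3 : Sth (fun x => Av Φ ((c.1 + s1) :: x)) (c.1 + s1 + s2) l =
        avg fun r : R × ZMod 2 => Sth (fun x => Av (fun l' => Φ ((c.1 + s1, r) :: l')) x)
          (c.1 + s1 + s2) l := by
      show Sth (fun x => avg fun r : R × ZMod 2 => Av (fun l' => Φ ((c.1 + s1, r) :: l')) x)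
        (c.1 + s1 + s2) l = _
      rw [AVS_Sth_avg]
    have h4 : (avg fun r : R × ZMod 2 => Sth (fun x => Av (fun l' => Φ ((c.1 + s1, r) :: l')) x)
          (c.1 + s1 + s2) l) = avg fun r : R × ZMod 2 =>
          Sth (fun x => Av (fun l' => Φ ((c.1 + s1, c.2 + r) :: l')) x) (c.1 + s1 + s2) l :=
      (avg_equiv (Equiv.addLeft c.2) (fun r : R × ZMod 2 =>
        Sth (fun x => Av (fun l' => Φ ((c.1 + s1, r) :: l')) x) (c.1 + s1 + s2) l)).symm
    rw [h3, h4, avg_prod]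
    set K := Sth (Av Φ) (c.1 + s1 + s2) l with hK
    have h5 : (fun r1 : R => avg fun t : ZMod 2 =>
        (Sth (fun x => Av (fun l' => Φ ((c.1 + s1, c.2 + (r1, t)) :: l')) x)
          (c.1 + s1 + s2) l + K) / 2) = fun r1 : R => (1 / 2 : ℝ) * ((avg fun t : ZMod 2 =>
            Sth (fun x => Av (fun l' => Φ ((c.1 + s1, c.2 + (r1, t)) :: l')) x)
          (c.1 + s1 + s2) l) + K) := by
      funext r1
      have h6 : (fun t : ZMod 2 =>
        (Sth (fun x => Av (fun l' => Φ ((c.1 + s1, c.2 + (r1, t)) :: l')) x)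
          (c.1 + s1 + s2) l + K) / 2) = fun t : ZMod 2 => (1 / 2 : ℝ) *
        (Sth (fun x => Av (fun l' => Φ ((c.1 + s1, c.2 + (r1, t)) :: l')) x)
          (c.1 + s1 + s2) l + K) := by
        funext t
        ring
      rw [h6, avg_smul, avg_add, avg_const]
    rw [h5, avg_smul, avg_add, avg_const]
    ring

/-- Averaging commutes with thinning. -/
theorem Av_ThG (Φ : List (ZMod 2 × (R × ZMod 2)) → ℝ) (c : ZMod 2 × (R × ZMod 2))
    (T : List (ZMod 2)) : Av (ThG Φ c) T = Sth (Av Φ) c.1 T := AVS_Av_ThG T Φ c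

end Pool.Agent.PHF
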