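import Pool.Agent.PHF.Defs

set_option autoImplicit false

namespace Pool.Agent.PHF

open Finset

section general

variable {G : Type}

theorem ga_induction {P : GA G → Prop} (p : GA G) (h0 : P 0)
    (h1 : ∀ (x : G) (r : ℝ) (q : GA G), P q → P (MonoidAlgebra.single x r + q)) : P p := by
  classical
  have key : ∀ c : G →₀ ℝ, P (MonoidAlgebra.ofCoeff c) := by
    intro c
    induction c using Finsupp.induction with
    | zero => exact h0
    | single_add a b f ha hb ih =>
      have : (MonoidAlgebra.ofCoeff (Finsupp.single a b + f) : GA G) =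
          MonoidAlgebra.single a b + MonoidAlgebra.ofCoeff f := rfl
      rw [this]
      exact h1 a b _ ih
  exact key p.coeff

theorem ev_zero (f : G → ℝ) : ev (0 : GA G) f = 0 := by
  simp [ev]

theorem ev_single (x : G) (r : ℝ) (f : G → ℝ) : ev (MonoidAlgebra.single x r) f = r * f x := by
  simp [ev]

theorem ev_add (p q : GA G) (f : G → ℝ) : ev (p + q) f = ev p f + ev q f := by
  classical
  unfold ev
  rw [MonoidAlgebra.coeff_add]
  exact Finsupp.sum_add_index' (by simp) (by intros; ring)

theorem ev_smul (r : ℝ) (p : GA G) (f : G → ℝ) : ev (r • p) f = r * ev p f := by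
  induction p using ga_induction with
  | h0 => simp [ev_zero]
  | h1 x s q ih =>
    rw [smul_add, ev_add, ev_add, ih, MonoidAlgebra.smul_single, ev_single, ev_single]
    simp only [smul_eq_mul]; ring

theorem ev_neg (p : GA G) (f : G → ℝ) : ev (-p) f = - ev p f := by
  have : -p = (-1 : ℝ) • p := by simp
  rw [this, ev_smul]; ring

theorem ev_sub (p q : GA G) (f : G → ℝ) : ev (p - q) f = ev p f - ev q f := by
  rw [sub_eq_add_neg, ev_add, ev_neg]; ring

theorem ev_sum {ι : Type} (s : Finset ι) (p : ι → GA G) (f : G → ℝ) :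
    ev (∑ i ∈ s, p i) f = ∑ i ∈ s, ev (p i) f := by
  classical
  induction s using Finset.induction_on with
  | empty => simp [ev_zero]
  | insert a s ha ih => rw [sum_insert ha, sum_insert ha, ev_add, ih]

theorem ev_avg {ι : Type} [Fintype ι] (p : ι → GA G) (f : G → ℝ) :
    ev (avg p) f = avg (fun i => ev (p i) f) := by
  unfold avg
  rw [ev_smul, ev_sum, smul_eq_mul]

theorem ev_pt (g : G) (f : G → ℝ) : ev (pt g) f = f g := by
  simp [pt, ev_single]

theorem ev_fadd (p : GA G) (f g : G → ℝ) : ev p (fun z => f z + g z) = ev p f + ev p g := by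
  unfold ev
  simp only [Finsupp.sum, mul_add, sum_add_distrib]

theorem ev_fsub (p : GA G) (f g : G → ℝ) : ev p (fun z => f z - g z) = ev p f - ev p g := by
  unfold ev
  simp only [Finsupp.sum, mul_sub, sum_sub_distrib]

theorem ev_fsmul (p : GA G) (r : ℝ) (f : G → ℝ) : ev p (fun z => r * f z) = r * ev p f := by
  unfold ev
  simp only [Finsupp.sum, mul_sum]
  exact sum_congr rfl fun z _ => by ring

theorem ev_fzero (p : GA G) : ev p (fun _ => 0) = 0 := by
  simp [ev]

theorem ev_const (p : GA G) (c : ℝ) : ev p (fun _ => c) = c * ev p (fun _ => 1) := by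
  have := ev_fsmul p c (fun _ => 1)
  simpa using this

theorem ev_congr (p : GA G) (f g : G → ℝ) (h : ∀ z, p.coeff z ≠ 0 → f z = g z) :
    ev p f = ev p g := by
  unfold ev
  exact sum_congr rfl fun z hz => by
    show p.coeff z * f z = p.coeff z * g z
    rw [h z (Finsupp.mem_support_iff.mp hz)]

theorem ev_mono (p : GA G) (hp : NN p) (f g : G → ℝ) (h : ∀ z, p.coeff z ≠ 0 → f z ≤ g z) :
    ev p f ≤ ev p g := by
  unfold ev
  exact sum_le_sum fun z hz =>
    mul_le_mul_of_nonneg_left (h z (Finsupp.mem_support_iff.mp hz)) (hp z)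

theorem ev_nonneg (p : GA G) (hp : NN p) (f : G → ℝ) (h : ∀ z, p.coeff z ≠ 0 → 0 ≤ f z) :
    0 ≤ ev p f := by
  have := ev_mono p hp (fun _ => 0) f h
  rwa [ev_fzero] at this

theorem ev_abs_le (p : GA G) (hp : NN p) (f : G → ℝ) : |ev p f| ≤ ev p (fun z => |f z|) := by
  unfold ev
  refine (abs_sum_le_sum_abs _ _).trans (sum_le_sum fun z _ => ?_)
  rw [abs_mul, abs_of_nonneg (hp z)]

theorem coeff_eq_ev (p : GA G) (x : G) [DecidableEq G] :
    p.coeff x = ev p (fun z => if z = x then 1 else 0) := by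
  unfold ev
  simp only [Finsupp.sum, mul_ite, mul_one, mul_zero, sum_ite_eq']
  split_ifs with h
  · rfl
  · exact Finsupp.notMem_support_iff.mp h

theorem ga_ext_ev {p q : GA G} (h : ∀ f, ev p f = ev q f) : p = q := by
  classical
  apply MonoidAlgebra.ext
  ext x
  rw [coeff_eq_ev p x, coeff_eq_ev q x, h]

theorem NN.zero : NN (0 : GA G) := fun _ => le_of_eq rfl

theorem NN.add {p q : GA G} (hp : NN p) (hq : NN q) : NN (p + q) := fun z => by
  rw [MonoidAlgebra.coeff_add, Finsupp.add_apply]
  exact add_nonneg (hp z) (hq z)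

theorem NN.smul {p : GA G} (hp : NN p) {r : ℝ} (hr : 0 ≤ r) : NN (r • p) := fun z => by
  rw [MonoidAlgebra.coeff_smul_apply]
  exact mul_nonneg hr (hp z)

theorem NN.sum {ι : Type} (s : Finset ι) (p : ι → GA G) (h : ∀ i ∈ s, NN (p i)) :
    NN (∑ i ∈ s, p i) := by
  classical
  induction s using Finset.induction_on with
  | empty => simpa using NN.zero
  | insert a s ha ih =>
    rw [sum_insert ha]
    exact (h a (mem_insert_self a s)).add (ih fun i hi => h i (mem_insert_of_mem hi))

theorem NN.avg {ι : Type} [Fintype ι] (p : ι → GA G) (h : ∀ i, NN (p i)) : NN (avg p) :=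
  (NN.sum _ _ fun i _ => h i).smul (by positivity)

theorem NN.pt (g : G) : NN (pt g) := fun z => by
  classical
  show 0 ≤ (MonoidAlgebra.single g (1 : ℝ)).coeff z
  rw [MonoidAlgebra.coeff_single, Finsupp.single_apply]
  split_ifs <;> norm_num

theorem IsLaw.pt (g : G) : IsLaw (pt g) := ⟨NN.pt g, by rw [ev_pt]⟩

theorem IsLaw.avg {ι : Type} [Fintype ι] [Nonempty ι] (p : ι → GA G) (h : ∀ i, IsLaw (p i)) :
    IsLaw (avg p) := by
  refine ⟨NN.avg p fun i => (h i).nn, ?_⟩
  rw [ev_avg]
  unfold Pool.Agent.PHF.avg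
  simp only [fun i => (h i).mass, sum_const, card_univ, nsmul_eq_mul, mul_one, smul_eq_mul]
  exact inv_mul_cancel₀ (by exact_mod_cast Fintype.card_ne_zero)

theorem IsLaw.le_one {p : GA G} (hp : IsLaw p) (z : G) : p.coeff z ≤ 1 := by
  classical
  have h1 := hp.mass
  rw [coeff_eq_ev]
  calc _ ≤ ev p (fun _ => 1) := ev_mono p hp.nn _ _ fun w _ => by split_ifs <;> norm_num
    _ = 1 := h1

/-- averages -/
theorem avg_const {ι : Type} [Fintype ι] [Nonempty ι] (c : ℝ) : avg (fun _ : ι => c) = c := by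
  unfold avg
  simp only [sum_const, card_univ, nsmul_eq_mul, smul_eq_mul]
  rw [← mul_assoc, inv_mul_cancel₀ (by exact_mod_cast Fintype.card_ne_zero), one_mul]

theorem avg_mono {ι : Type} [Fintype ι] (f g : ι → ℝ) (h : ∀ i, f i ≤ g i) : avg f ≤ avg g := by
  unfold avg
  exact mul_le_mul_of_nonneg_left (sum_le_sum fun i _ => h i) (by positivity)

theorem avg_nonneg {ι : Type} [Fintype ι] (f : ι → ℝ) (h : ∀ i, 0 ≤ f i) : 0 ≤ avg f := by
  unfold avg
  exact mul_nonneg (by positivity) (sum_nonneg fun i _ => h i)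

theorem avg_add {ι M : Type} [Fintype ι] [AddCommGroup M] [Module ℝ M] (f g : ι → M) :
    avg (fun i => f i + g i) = avg f + avg g := by
  unfold avg
  rw [sum_add_distrib, smul_add]

theorem avg_smul {ι : Type} [Fintype ι] (r : ℝ) (f : ι → ℝ) :
    avg (fun i => r * f i) = r * avg f := by
  unfold avg
  rw [← mul_sum, smul_eq_mul, smul_eq_mul]; ring

theorem avg_zmod2 {M : Type} [AddCommGroup M] [Module ℝ M] (f : ZMod 2 → M) :
    avg f = (1 / 2 : ℝ) • (f 0 + f 1) := by
  unfold avg
  have h : (∑ x : ZMod 2, f x) = f 0 + f 1 := Fin.sum_univ_two f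
  rw [h, ZMod.card]
  norm_num

theorem avg_zmod2_real (f : ZMod 2 → ℝ) : avg f = (f 0 + f 1) / 2 := by
  rw [avg_zmod2, smul_eq_mul]; ring

theorem avg_prod {ι κ M : Type} [Fintype ι] [Fintype κ] [AddCommGroup M] [Module ℝ M]
    (f : ι × κ → M) : avg f = avg fun i => avg fun j => f (i, j) := by
  unfold avg
  rw [Fintype.sum_prod_type, Fintype.card_prod]
  simp only [← smul_sum, smul_smul, Nat.cast_mul, mul_inv]

theorem avg_comm {ι κ M : Type} [Fintype ι] [Fintype κ] [AddCommGroup M] [Module ℝ M]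
    (f : ι → κ → M) : (avg fun i => avg fun j => f i j) = avg fun j => avg fun i => f i j := by
  unfold avg
  simp only [← smul_sum, smul_smul]
  rw [sum_comm, mul_comm]

theorem avg_equiv {ι κ M : Type} [Fintype ι] [Fintype κ] [AddCommGroup M] [Module ℝ M]
    (e : ι ≃ κ) (f : κ → M) : (avg fun i => f (e i)) = avg f := by
  unfold avg
  rw [Equiv.sum_comp e f, Fintype.card_congr e]

theorem avg_add_left {ι M : Type} [Fintype ι] [AddCommGroup ι] [AddCommGroup M] [Module ℝ M]
    (c : ι) (f : ι → M) : (avg fun i => f (c + i)) = avg f :=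
  avg_equiv (Equiv.addLeft c) f

theorem avg_mul_left (p : GA G) [Monoid G] {ι : Type} [Fintype ι] (f : ι → GA G) :
    (avg fun i => p * f i) = p * avg f := by
  unfold avg
  rw [← mul_sum, mul_smul_comm]

theorem avg_mul_right (p : GA G) [Monoid G] {ι : Type} [Fintype ι] (f : ι → GA G) :
    (avg fun i => f i * p) = avg f * p := by
  unfold avg
  rw [← sum_mul, smul_mul_assoc]

/-- Ex -/
theorem Ex_zero {α M : Type} [Fintype α] [AddCommGroup M] [Module ℝ M] (Φ : List α → M) :
    Ex 0 Φ = Φ [] := rfl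

theorem Ex_succ {α M : Type} [Fintype α] [AddCommGroup M] [Module ℝ M] (k : ℕ) (Φ : List α → M) :
    Ex (k + 1) Φ = avg fun x => Ex k fun l => Φ (x :: l) := rfl

theorem Ex_mono {α : Type} [Fintype α] (k : ℕ) (Φ Ψ : List α → ℝ)
    (h : ∀ l, l.length = k → Φ l ≤ Ψ l) : Ex k Φ ≤ Ex k Ψ := by
  induction k generalizing Φ Ψ with
  | zero => exact h [] rfl
  | succ k ih =>
    rw [Ex_succ, Ex_succ]
    exact avg_mono _ _ fun x => ih _ _ fun l hl => h (x :: l) (by simp [hl])

theorem Ex_congr {α M : Type} [Fintype α] [AddCommGroup M] [Module ℝ M] (k : ℕ)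
    (Φ Ψ : List α → M) (h : ∀ l, l.length = k → Φ l = Ψ l) : Ex k Φ = Ex k Ψ := by
  induction k generalizing Φ Ψ with
  | zero => exact h [] rfl
  | succ k ih =>
    rw [Ex_succ, Ex_succ]
    congr 1
    funext x
    exact ih _ _ fun l hl => h (x :: l) (by simp [hl])

theorem Ex_add {α M : Type} [Fintype α] [AddCommGroup M] [Module ℝ M] (k : ℕ) (Φ Ψ : List α → M) :
    Ex k (fun l => Φ l + Ψ l) = Ex k Φ + Ex k Ψ := by
  induction k generalizing Φ Ψ with
  | zero => rfl
  | succ k ih =>
    rw [Ex_succ, Ex_succ, Ex_succ, ← avg_add]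
    congr 1
    funext x
    exact ih _ _

theorem Ex_smul {α : Type} [Fintype α] (k : ℕ) (r : ℝ) (Φ : List α → ℝ) :
    Ex k (fun l => r * Φ l) = r * Ex k Φ := by
  induction k generalizing Φ with
  | zero => rfl
  | succ k ih =>
    rw [Ex_succ, Ex_succ, ← avg_smul]
    congr 1
    funext x
    exact ih _

theorem Ex_const {α : Type} [Fintype α] [Nonempty α] (k : ℕ) (c : ℝ) :
    Ex k (fun _ : List α => c) = c := by
  induction k with
  | zero => rfl
  | succ k ih => rw [Ex_succ, ih, avg_const]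

theorem Ex_nonneg {α : Type} [Fintype α] (k : ℕ) (Φ : List α → ℝ) (h : ∀ l, 0 ≤ Φ l) :
    0 ≤ Ex k Φ := by
  induction k generalizing Φ with
  | zero => exact h []
  | succ k ih => exact avg_nonneg _ fun x => ih _ fun l => h _

theorem ev_Ex {α : Type} [Fintype α] (k : ℕ) (Φ : List α → GA G) (f : G → ℝ) :
    ev (Ex k Φ) f = Ex k (fun l => ev (Φ l) f) := by
  induction k generalizing Φ with
  | zero => rfl
  | succ k ih =>
    rw [Ex_succ, Ex_succ, ev_avg]
    congr 1
    funext x
    exact ih _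

theorem NN.Ex {α : Type} [Fintype α] (k : ℕ) (Φ : List α → GA G) (h : ∀ l, NN (Φ l)) :
    NN (Ex k Φ) := by
  induction k generalizing Φ with
  | zero => exact h []
  | succ k ih => exact NN.avg _ fun x => ih _ fun l => h _

theorem IsLaw.Ex {α : Type} [Fintype α] [Nonempty α] (k : ℕ) (Φ : List α → GA G)
    (h : ∀ l, IsLaw (Φ l)) : IsLaw (Ex k Φ) := by
  induction k generalizing Φ with
  | zero => exact h []
  | succ k ih => exact IsLaw.avg _ fun x => ih _ fun l => h _

/-- Cauchy-Schwarz for averages over lists. -/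
theorem avg_mul_sq_le {ι : Type} [Fintype ι] (f g : ι → ℝ) :
    (avg fun i => f i * g i) ^ 2 ≤ (avg fun i => f i ^ 2) * avg fun i => g i ^ 2 := by
  unfold avg
  simp only [smul_eq_mul]
  have h := sum_mul_sq_le_sq_mul_sq univ f g
  have h2 : (0 : ℝ) ≤ ((Fintype.card ι : ℝ)⁻¹) ^ 2 := by positivity
  nlinarith [mul_le_mul_of_nonneg_left h h2]

end general

section monoid

variable {G : Type} [Monoid G]

theorem pt_mul (g h : G) : pt g * pt h = pt (g * h) := by
  simp [pt, MonoidAlgebra.single_mul_single]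

theorem pt_one : (pt 1 : GA G) = 1 := rfl

theorem ev_mul (p q : GA G) (f : G → ℝ) :
    ev (p * q) f = ev p (fun x => ev q (fun y => f (x * y))) := by
  induction p using ga_induction with
  | h0 => rw [zero_mul, ev_zero, ev_zero]
  | h1 x r p ih =>
    rw [add_mul, ev_add, ev_add, ih, ev_single]
    congr 1
    clear ih
    induction q using ga_induction with
    | h0 => rw [mul_zero, ev_zero, ev_zero, mul_zero]
    | h1 y s q ih2 =>
      rw [mul_add, ev_add, ev_add, MonoidAlgebra.single_mul_single, ev_single, ev_single,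
        ih2, mul_add, mul_assoc]

theorem ev_one (f : G → ℝ) : ev (1 : GA G) f = f 1 := by
  rw [← pt_one, ev_pt]

theorem NN.mul {p q : GA G} (hp : NN p) (hq : NN q) : NN (p * q) := fun z => by
  classical
  rw [coeff_eq_ev, ev_mul]
  exact ev_nonneg p hp _ fun x _ => ev_nonneg q hq _ fun y _ => by split_ifs <;> norm_num

theorem NN.one : NN (1 : GA G) := by rw [← pt_one]; exact NN.pt 1

theorem IsLaw.one : IsLaw (1 : GA G) := by rw [← pt_one]; exact IsLaw.pt 1

theorem IsLaw.mul {p q : GA G} (hp : IsLaw p) (hq : IsLaw q) : IsLaw (p * q) := by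
  refine ⟨hp.nn.mul hq.nn, ?_⟩
  rw [ev_mul]
  simp only [hq.mass, hp.mass]

theorem IsLaw.pow {p : GA G} (hp : IsLaw p) (n : ℕ) : IsLaw (p ^ n) := by
  induction n with
  | zero => rw [pow_zero]; exact IsLaw.one
  | succ n ih => rw [pow_succ]; exact ih.mul hp

theorem IsLaw.list_prod (l : List (GA G)) (h : ∀ p ∈ l, IsLaw p) : IsLaw l.prod := by
  induction l with
  | nil => exact IsLaw.one
  | cons p l ih =>
    rw [List.prod_cons]
    exact (h p (by simp)).mul (ih fun q hq => h q (by simp [hq]))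

end monoid

section group

variable {G : Type} [Group G]

theorem IsLaw.hh (g : G) : IsLaw (hh g) := by
  constructor
  · exact (NN.one.add (NN.pt g)).smul (by norm_num)
  · unfold Pool.Agent.PHF.hh
    rw [ev_smul, ev_add, ev_one, ev_pt]; norm_num

theorem coeff_pt_mul (g : G) (p : GA G) (z : G) : (pt g * p).coeff z = p.coeff (g⁻¹ * z) := by
  classical
  rw [coeff_eq_ev, coeff_eq_ev, ev_mul, ev_pt]
  exact ev_congr _ _ _ fun y _ => by
    congr 1
    exact propext ⟨fun h => by rw [← h]; group, fun h => by rw [h]; group⟩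

theorem coeff_mul_pt (g : G) (p : GA G) (z : G) : (p * pt g).coeff z = p.coeff (z * g⁻¹) := by
  classical
  rw [coeff_eq_ev, coeff_eq_ev, ev_mul]
  exact ev_congr _ _ _ fun y _ => by
    rw [ev_pt]
    congr 1
    exact propext ⟨fun h => by rw [← h]; group, fun h => by rw [h]; group⟩

theorem hh_mul_self (g : G) (hg : g * g = 1) : hh g * hh g = hh g := by
  unfold hh
  rw [smul_mul_smul_comm, add_mul, mul_add, mul_add, one_mul, mul_one, one_mul, pt_mul, hg, pt_one]
  have : (1 + pt g + (pt g + 1) : GA G) = (2 : ℝ) • (1 + pt g) := by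
    rw [two_smul]; abel
  rw [this, smul_smul]; norm_num

theorem hh_mul_pt (g : G) (hg : g * g = 1) : hh g * pt g = hh g := by
  unfold hh
  rw [smul_mul_assoc, add_mul, one_mul, pt_mul, hg, pt_one, add_comm]

theorem pt_mul_hh (g : G) (hg : g * g = 1) : pt g * hh g = hh g := by
  unfold hh
  rw [mul_smul_comm, mul_add, mul_one, pt_mul, hg, pt_one, add_comm]

theorem hh_comm (g h : G) (hc : g * h = h * g) : hh g * hh h = hh h * hh g := by
  unfold hh
  rw [smul_mul_smul_comm, smul_mul_smul_comm, add_mul, mul_add, mul_add, add_mul, mul_add, mul_add,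
    pt_mul, pt_mul, hc]
  simp only [one_mul, mul_one]
  congr 1
  abel

theorem hh_comm_pt (g h : G) (hc : g * h = h * g) : hh g * pt h = pt h * hh g := by
  unfold hh
  rw [smul_mul_assoc, mul_smul_comm, add_mul, mul_add, pt_mul, pt_mul, hc, one_mul, mul_one]

theorem hh_eq_avg (g : G) : hh g = avg fun s : ZMod 2 => pt (pw g s) := by
  rw [avg_zmod2]
  unfold hh pw
  simp [pt_one]

theorem pw_zero (g : G) : pw g 0 = 1 := by simp [pw]

theorem pw_one (g : G) : pw g 1 = g := by
  have : (1 : ZMod 2) ≠ 0 := by decide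
  simp [pw, this]

theorem pw_add (g : G) (hg : g * g = 1) (s t : ZMod 2) : pw g (s + t) = pw g s * pw g t := by
  have h11 : (1 : ZMod 2) + 1 = 0 := by decide
  have key : ∀ u : ZMod 2, u = 0 ∨ u = 1 := by decide
  rcases key s with rfl | rfl <;> rcases key t with rfl | rfl
  · simp [pw_zero]
  · simp [pw_zero]
  · simp [pw_zero]
  · rw [h11, pw_zero, pw_one, hg]

theorem pw_sq (g : G) (hg : g * g = 1) (s : ZMod 2) : pw g s * pw g s = 1 := by
  have key : ∀ u : ZMod 2, u = 0 ∨ u = 1 := by decide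
  rcases key s with rfl | rfl
  · simp [pw_zero]
  · rw [pw_one, hg]

theorem pw_comm (g h : G) (hc : g * h = h * g) (s t : ZMod 2) :
    pw g s * pw h t = pw h t * pw g s := by
  have key : ∀ u : ZMod 2, u = 0 ∨ u = 1 := by decide
  rcases key s with rfl | rfl <;> rcases key t with rfl | rfl <;> simp [pw_zero, pw_one, hc]

theorem act_mul (p q : GA G) (f : G → ℝ) : act (p * q) f = act p (act q f) := by
  funext x
  unfold act
  rw [ev_mul]
  simp only [mul_assoc]

theorem act_left (p : GA G) (f : G → ℝ) (y x : G) :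
    act p (fun z => f (y * z)) x = act p f (y * x) := by
  unfold act
  simp only [mul_assoc]

theorem act_pt (g : G) (f : G → ℝ) (x : G) : act (pt g) f x = f (x * g) := by
  unfold act
  rw [ev_pt]

theorem act_one (f : G → ℝ) : act (1 : GA G) f = f := by
  funext x
  unfold act
  rw [ev_one, mul_one]

theorem act_hh (g : G) (f : G → ℝ) (x : G) : act (hh g) f x = (f x + f (x * g)) / 2 := by
  unfold act hh
  rw [ev_smul, ev_add, ev_one, ev_pt, mul_one]; ring

theorem act_add (p q : GA G) (f : G → ℝ) (x : G) : act (p + q) f x = act p f x + act q f x := by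
  unfold act
  rw [ev_add]

theorem act_fadd (p : GA G) (f g : G → ℝ) (x : G) :
    act p (fun z => f z + g z) x = act p f x + act p g x := by
  unfold act
  rw [ev_fadd]

theorem act_fsub (p : GA G) (f g : G → ℝ) (x : G) :
    act p (fun z => f z - g z) x = act p f x - act p g x := by
  unfold act
  rw [ev_fsub]

theorem act_fsmul (p : GA G) (r : ℝ) (f : G → ℝ) (x : G) :
    act p (fun z => r * f z) x = r * act p f x := by
  unfold act
  rw [ev_fsmul]

theorem act_const (p : GA G) (hp : IsLaw p) (c : ℝ) (x : G) : act p (fun _ => c) x = c := by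
  unfold act
  rw [ev_const, hp.mass, mul_one]

theorem act_mono (p : GA G) (hp : NN p) (f g : G → ℝ) (h : ∀ z, f z ≤ g z) (x : G) :
    act p f x ≤ act p g x :=
  ev_mono p hp _ _ fun z _ => h _

end group

end Pool.Agent.PHF
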