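import Pool.Agent.PHF.Bas

set_option autoImplicit false

namespace Pool.Agent.PHF

/-! Module BIN: binomial averages. -/

theorem binAvg_zero (u : ℕ → ℝ) : binAvg 0 u = u 0 := rfl

theorem binAvg_succ (n : ℕ) (u : ℕ → ℝ) :
    binAvg (n + 1) u = (binAvg n u + binAvg n (fun k => u (k + 1))) / 2 := rfl

theorem binAvg_mono (n : ℕ) (u v : ℕ → ℝ) (h : ∀ k, u k ≤ v k) : binAvg n u ≤ binAvg n v := by
  induction n generalizing u v with
  | zero => exact h 0
  | succ n ih =>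
    rw [binAvg_succ, binAvg_succ]
    have h1 := ih u v h
    have h2 := ih (fun k => u (k + 1)) (fun k => v (k + 1)) (fun k => h (k + 1))
    linarith

theorem binAvg_const (n : ℕ) (c : ℝ) : binAvg n (fun _ => c) = c := by
  induction n with
  | zero => rfl
  | succ n ih => rw [binAvg_succ, ih]; ring

theorem binAvg_nonneg (n : ℕ) (u : ℕ → ℝ) (h : ∀ k, 0 ≤ u k) : 0 ≤ binAvg n u := by
  have h1 := binAvg_mono n (fun _ => 0) u h
  rwa [binAvg_const] at h1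

theorem binAvg_add (n : ℕ) (u v : ℕ → ℝ) :
    binAvg n (fun k => u k + v k) = binAvg n u + binAvg n v := by
  induction n generalizing u v with
  | zero => rfl
  | succ n ih =>
    rw [binAvg_succ, binAvg_succ, binAvg_succ, ih u v,
      ih (fun k => u (k + 1)) (fun k => v (k + 1))]
    ring

theorem binAvg_smul (n : ℕ) (r : ℝ) (u : ℕ → ℝ) :
    binAvg n (fun k => r * u k) = r * binAvg n u := by
  induction n generalizing u with
  | zero => rfl
  | succ n ih =>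
    rw [binAvg_succ, binAvg_succ, ih u, ih (fun k => u (k + 1))]
    ring

theorem binAvg_geom (n : ℕ) (y : ℝ) : binAvg n (fun k => y ^ k) = ((1 + y) / 2) ^ n := by
  induction n with
  | zero => simp [binAvg_zero]
  | succ n ih =>
    have h1 : (fun k : ℕ => y ^ (k + 1)) = fun k => y * y ^ k := by
      funext k; rw [pow_succ]; ring
    rw [binAvg_succ, h1, binAvg_smul, ih, pow_succ]
    ring

theorem BinAux_size (n : ℕ) (f : ℕ → ℝ) :
    binAvg (n + 1) (fun k => (k : ℝ) * f k) = ((n : ℝ) + 1) / 2 * binAvg n (fun k => f (k + 1)) := by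
  induction n generalizing f with
  | zero => simp only [binAvg]; push_cast; ring
  | succ n ih =>
    have h1 : (fun k : ℕ => (((k + 1 : ℕ) : ℝ)) * f (k + 1)) =
        fun k : ℕ => (k : ℝ) * f (k + 1) + f (k + 1) := by
      funext k; push_cast; ring
    rw [binAvg_succ (n + 1), h1, binAvg_add, ih f, ih (fun k => f (k + 1)),
      binAvg_succ n (fun k => f (k + 1))]
    push_cast
    ring

theorem binAvg_inv (n : ℕ) : binAvg n (fun k => ((k : ℝ) + 1)⁻¹) ≤ 2 * ((n : ℝ) + 1)⁻¹ := by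
  have h1 := BinAux_size n (fun k => (k : ℝ)⁻¹)
  have h2 : binAvg (n + 1) (fun k => (k : ℝ) * (k : ℝ)⁻¹) ≤ 1 := by
    have h3 := binAvg_mono (n + 1) (fun k => (k : ℝ) * (k : ℝ)⁻¹) (fun _ => 1) (by
      intro k
      rcases eq_or_ne (k : ℝ) 0 with h | h
      · simp [h]
      · simp [mul_inv_cancel₀ h])
    rwa [binAvg_const] at h3
  rw [h1] at h2
  have h4 : (fun k : ℕ => (((k + 1 : ℕ) : ℝ))⁻¹) = fun k : ℕ => ((k : ℝ) + 1)⁻¹ := by
    funext k; push_cast; rfl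
  rw [h4] at h2
  have hn : (0 : ℝ) < (n : ℝ) + 1 := by positivity
  rw [← div_eq_mul_inv, le_div_iff₀ hn]
  linarith

/-- Negative powers with exponent at most one (Jensen). -/
theorem binAvg_pow (n : ℕ) (C s : ℝ) (hC : 0 ≤ C) (hs : 0 < s) (hs1 : s ≤ 1) :
    binAvg n (fun k => C * ((k : ℝ) + 1) ^ (-s)) ≤ C * 2 ^ s * ((n : ℝ) + 1) ^ (-s) := by
  have hn : (0 : ℝ) < (n : ℝ) + 1 := by positivity
  set t : ℝ := 2 * ((n : ℝ) + 1)⁻¹ with ht
  have htpos : 0 < t := by positivity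
  have hts : t ^ s = 2 ^ s * ((n : ℝ) + 1) ^ (-s) := by
    rw [ht, Real.mul_rpow (by norm_num) (by positivity), Real.rpow_neg hn.le,
      Real.inv_rpow hn.le]
  have hpt : ∀ k : ℕ, C * ((k : ℝ) + 1) ^ (-s) ≤
      C * t ^ s * (1 - s) + (C * t ^ s * s * t⁻¹) * ((k : ℝ) + 1)⁻¹ := by
    intro k
    have hk : (0 : ℝ) < (k : ℝ) + 1 := by positivity
    have h1 : ((k : ℝ) + 1) ^ (-s) = t ^ s * (((k : ℝ) + 1)⁻¹ * t⁻¹) ^ s := by
      have : t ^ s ≠ 0 := (Real.rpow_pos_of_pos htpos s).ne'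
      rw [Real.mul_rpow (inv_nonneg.mpr hk.le) (inv_nonneg.mpr htpos.le), Real.rpow_neg hk.le,
        Real.inv_rpow hk.le, Real.inv_rpow htpos.le, mul_comm ((((k : ℝ) + 1) ^ s)⁻¹),
        mul_inv_cancel_left₀ this]
    have hy : (0 : ℝ) ≤ ((k : ℝ) + 1)⁻¹ * t⁻¹ := by positivity
    have h2 := rpow_one_add_le_one_add_mul_self (s := ((k : ℝ) + 1)⁻¹ * t⁻¹ - 1)
      (by linarith) (p := s) hs.le hs1
    have h3 : (1 : ℝ) + (((k : ℝ) + 1)⁻¹ * t⁻¹ - 1) = ((k : ℝ) + 1)⁻¹ * t⁻¹ := by ring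
    rw [h3] at h2
    have h4 : 0 ≤ C * t ^ s := by positivity
    rw [h1]
    calc C * (t ^ s * (((k : ℝ) + 1)⁻¹ * t⁻¹) ^ s)
        = C * t ^ s * (((k : ℝ) + 1)⁻¹ * t⁻¹) ^ s := by ring
      _ ≤ C * t ^ s * (1 + s * (((k : ℝ) + 1)⁻¹ * t⁻¹ - 1)) := mul_le_mul_of_nonneg_left h2 h4
      _ = _ := by ring
  have h5 := binAvg_mono n _ _ hpt
  have h5' : binAvg n (fun k : ℕ => C * t ^ s * (1 - s) + (C * t ^ s * s * t⁻¹) *
      ((k : ℝ) + 1)⁻¹) = C * t ^ s * (1 - s) + (C * t ^ s * s * t⁻¹) *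
      binAvg n (fun k : ℕ => ((k : ℝ) + 1)⁻¹) := by
    rw [binAvg_add, binAvg_const, binAvg_smul]
  rw [h5'] at h5
  have h6 := binAvg_inv n
  rw [← ht] at h6
  have h7 : 0 ≤ C * t ^ s * s * t⁻¹ := by positivity
  have h8 := mul_le_mul_of_nonneg_left h6 h7
  have h9 : C * t ^ s * s * t⁻¹ * t = C * t ^ s * s := by
    rw [mul_assoc, inv_mul_cancel₀ htpos.ne', mul_one]
  rw [h9] at h8
  calc binAvg n (fun k => C * ((k : ℝ) + 1) ^ (-s)) ≤ C * t ^ s * (1 - s) + C * t ^ s * s := by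
        linarith
    _ = C * 2 ^ s * ((n : ℝ) + 1) ^ (-s) := by rw [hts]; ring

end Pool.Agent.PHF
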