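import Pool.Agent.PHF.Grc

set_option autoImplicit false

namespace Pool.Agent.PHF

/-! Module FIN: finiteness facts. -/

variable {G : Type} [Group G] (S : SGp G)

namespace FntAux

/-- the elements of the finite subgroup generated by `a, e 1, e 2, e 3` -/
def phi (p : ((Fin 4 → ZMod 2) × (Fin 4 → ZMod 2)) × ZMod 2) : G :=
  S.vv p.1.1 * (S.a * S.vv p.1.2 * S.a) * pw S.a p.2

theorem comm {x y : Fin 4 → ZMod 2} (hx : x 0 = 0) (hy : y 0 = 0) :
    S.vv x * (S.a * S.vv y * S.a) = (S.a * S.vv y * S.a) * S.vv x := by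
  have h1 := IsPair_vv S x
  have h2 := IsPair_conj_a (IsPair_vv S y)
  rw [hx] at h1
  rw [hy] at h2
  have hp : pw S.a 0 = 1 := rfl
  rw [hp] at h1 h2
  have h3 := IsPair_mul h1 h2
  have h4 := IsPair_mul h2 h1
  rw [one_mul, mul_one] at h3 h4
  exact IsPair_unique h3 h4

theorem pw_a (t : ZMod 2) : S.a * pw S.a t = pw S.a (t + 1) := by
  have ht : t = 0 ∨ t = 1 := by
    revert t
    decide
  rcases ht with rfl | rfl
  · show S.a * 1 = pw S.a (0 + 1)
    rw [zero_add, mul_one]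
    rfl
  · show S.a * S.a = pw S.a (1 + 1)
    rw [S.a_sq]
    rfl

end FntAux

open FntAux

/-- A finite set containing 1 and stable under left multiplication by a, e 1, e 2, e 3. -/
theorem exists_Hs : ∃ Hs : Finset G, (1 : G) ∈ Hs ∧ (∀ h, h ∈ Hs ↔ S.a * h ∈ Hs) ∧
    ∀ i : Fin 4, i ≠ 0 → ∀ h, h ∈ Hs ↔ S.e i * h ∈ Hs := by
  classical
  obtain ⟨Hs, hmem⟩ : ∃ Hs : Finset G, ∀ g, g ∈ Hs ↔ ∃ (x y : Fin 4 → ZMod 2) (t : ZMod 2),
      x 0 = 0 ∧ y 0 = 0 ∧ S.vv x * (S.a * S.vv y * S.a) * pw S.a t = g := by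
    have hfin : {g : G | ∃ (x y : Fin 4 → ZMod 2) (t : ZMod 2),
      x 0 = 0 ∧ y 0 = 0 ∧ S.vv x * (S.a * S.vv y * S.a) * pw S.a t = g}.Finite := by
      refine (Set.finite_range (phi S)).subset ?_
      rintro g ⟨x, y, t, -, -, h⟩
      exact ⟨((x, y), t), h⟩
    refine ⟨hfin.toFinset, fun g => ?_⟩
    rw [Set.Finite.mem_toFinset]
    rfl
  have ha : ∀ h, h ∈ Hs → S.a * h ∈ Hs := by
    intro h hh
    rw [hmem] at hh
    obtain ⟨x, y, t, hx, hy, rfl⟩ := hh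
    rw [hmem]
    refine ⟨y, x, t + 1, hy, hx, ?_⟩
    rw [comm S hy hx, ← pw_a]
    have h1 : S.a * (S.vv x * (S.a * S.vv y * S.a) * pw S.a t) =
        S.a * S.vv x * S.a * S.vv y * S.a * pw S.a t := by
      simp only [mul_assoc]
    rw [h1]
    simp only [mul_assoc]
  have he : ∀ i : Fin 4, i ≠ 0 → ∀ h, h ∈ Hs → S.e i * h ∈ Hs := by
    intro i hi h hh
    rw [hmem] at hh
    obtain ⟨x, y, t, hx, hy, rfl⟩ := hh
    rw [hmem]
    refine ⟨Pi.single i 1 + x, y, t, ?_, hy, ?_⟩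
    · rw [Pi.add_apply, hx, Pi.single_eq_of_ne (Ne.symm hi), add_zero]
    · rw [vv_add, vv_single]
      simp only [mul_assoc]
  refine ⟨Hs, ?_, ?_, ?_⟩
  · rw [hmem]
    refine ⟨0, 0, 0, rfl, rfl, ?_⟩
    rw [vv_zero]
    show 1 * (S.a * 1 * S.a) * 1 = 1
    rw [mul_one, one_mul, mul_one, S.a_sq]
  · intro h
    refine ⟨ha h, ?_⟩
    intro h1
    have h2 := ha _ h1
    rw [← mul_assoc, S.a_sq, one_mul] at h2
    exact h2
  · intro i hi h
    refine ⟨he i hi h, ?_⟩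
    intro h1
    have h2 := he i hi _ h1
    rw [← mul_assoc, S.e_sq, one_mul] at h2
    exact h2

theorem NN3_cover : ∃ F : Finset G, ∀ g : G, ∃ f ∈ F, f⁻¹ * g ∈ S.NN3 := by
  classical
  obtain ⟨Hs, h1, ha, he⟩ := exists_Hs S
  refine ⟨Hs.image (fun h => h⁻¹), ?_⟩
  have hnorm : S.NN3.Normal := Subgroup.normalClosure_normal
  have he0 : S.e 0 ∈ S.NN3 := Subgroup.subset_normalClosure rfl
  have key : ∀ g : G, ∃ h ∈ Hs, h * g ∈ S.NN3 := by
    intro g
    induction g using G_induction S with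
    | h1 =>
      refine ⟨1, h1, ?_⟩
      rw [one_mul]
      exact S.NN3.one_mem
    | ha x ih =>
      obtain ⟨h, hh, hx⟩ := ih
      refine ⟨S.a * h, (ha h).mp hh, ?_⟩
      have h2 := hnorm.conj_mem _ hx S.a
      have h3 : S.a⁻¹ = S.a := by
        rw [inv_eq_iff_mul_eq_one]
        exact S.a_sq
      rw [h3] at h2
      have h4 : S.a * h * (x * S.a) = S.a * (h * x) * S.a := by
        simp only [mul_assoc]
      rw [h4]
      exact h2
    | he x i ih =>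
      obtain ⟨h, hh, hx⟩ := ih
      by_cases hi : i = 0
      · subst hi
        refine ⟨h, hh, ?_⟩
        rw [← mul_assoc]
        exact S.NN3.mul_mem hx he0
      · refine ⟨S.e i * h, (he i hi h).mp hh, ?_⟩
        have h2 := hnorm.conj_mem _ hx (S.e i)
        have h3 : (S.e i)⁻¹ = S.e i := by
          rw [inv_eq_iff_mul_eq_one]
          exact S.e_sq i
        rw [h3] at h2
        have h4 : S.e i * h * (x * S.e i) = S.e i * (h * x) * S.e i := by
          simp only [mul_assoc]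
        rw [h4]
        exact h2
  intro g
  obtain ⟨h, hh, hg⟩ := key g
  refine ⟨h⁻¹, Finset.mem_image_of_mem _ hh, ?_⟩
  rw [inv_inv]
  exact hg

theorem BB_cover : ∃ F : Finset G, ∀ g : G, ∃ f ∈ F, f⁻¹ * g ∈ S.BB := by
  obtain ⟨F, hF⟩ := NN3_cover S
  refine ⟨F, fun g => ?_⟩
  obtain ⟨f, hf, hg⟩ := hF g
  exact ⟨f, hf, NN1_le S _ (NN3_le S _ hg)⟩

end Pool.Agent.PHF
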