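import Pool.Agent.PHF.Ing

set_option autoImplicit false

namespace Pool.Agent.PHF

/-! Module GCL: all elements of the normal closure of the noise are nearly invisible. -/

variable {G : Type} [Group G] {S : SGp G} {R : Type} [AddCommGroup R] [Fintype R]

namespace GclAux

theorem Ex_translate {α M : Type} [Fintype α] [AddCommGroup α] [AddCommGroup M] [Module ℝ M]
    (c : α) (k : ℕ) (Φ : List α → M) : Ex k (fun l => Φ (l.map (c + ·))) = Ex k Φ := by
  induction k generalizing Φ with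
  | zero => rfl
  | succ k ih =>
    rw [Ex_succ, Ex_succ, ← avg_add_left c (fun x => Ex k fun l => Φ (x :: l))]
    congr 1
    funext x
    exact ih (fun l => Φ ((c + x) :: l))

theorem absorb (l : List G) (hsq : ∀ n ∈ l, n * n = 1) (hc : ∀ n ∈ l, ∀ n' ∈ l, n * n' = n' * n)
    (n : G) (hn : n ∈ l) : pt n * (l.map hh).prod = (l.map hh).prod := by
  induction l with
  | nil => simp at hn
  | cons h l ih =>
    rw [List.map_cons, List.prod_cons, ← mul_assoc]
    rcases List.mem_cons.1 hn with rfl | hn'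
    · rw [pt_mul_hh n (hsq n hn)]
    · rw [← hh_comm_pt h n (hc h (by simp) n hn), mul_assoc,
        ih (fun n hn => hsq n (by simp [hn])) (fun n hn n' hn' => hc n (by simp [hn]) n' (by simp [hn'])) hn']

theorem comm_prod (l : List G) (x : G) (hc : ∀ n ∈ l, n * x = x * n) :
    pt x * (l.map hh).prod = (l.map hh).prod * pt x := by
  induction l with
  | nil => simp
  | cons h l ih =>
    rw [List.map_cons, List.prod_cons, ← mul_assoc, ← hh_comm_pt h x (hc h (by simp)), mul_assoc,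
      ih (fun n hn => hc n (by simp [hn])), mul_assoc]

theorem m_absorb (L : Lev S R) (n : G) (hn : n ∈ L.ns) : pt n * L.m = L.m :=
  absorb L.ns L.ns_sq L.ns_comm n hn

theorem m_comm (L : Lev S R) (c : ZMod 2 × R) : pt (L.κ c) * L.m = L.m * pt (L.κ c) :=
  comm_prod L.ns _ fun n hn => L.κ_ns n hn c

theorem q_absorb (L : Lev S R) (n : G) (hn : n ∈ L.ns) (l : List (ZMod 2 × R)) :
    pt n * L.q l = L.q l := by
  cases l with
  | nil => exact m_absorb L n hn
  | cons c l =>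
    change pt n * (L.m * pt (L.κ c) * pt S.a * pt (L.κ c) * L.q l) =
      L.m * pt (L.κ c) * pt S.a * pt (L.κ c) * L.q l
    simp only [← mul_assoc]
    rw [m_absorb L n hn]

theorem q_translate (L : Lev S R) (c : ZMod 2 × R) (l : List (ZMod 2 × R)) :
    pt (L.κ c) * L.q l = L.q (l.map (c + ·)) * pt (L.κ c) := by
  induction l with
  | nil => exact m_comm L c
  | cons d l ih =>
    change pt (L.κ c) * (L.m * pt (L.κ d) * pt S.a * pt (L.κ d) * L.q l) =
      L.m * pt (L.κ (c + d)) * pt S.a * pt (L.κ (c + d)) * L.q (l.map (c + ·)) * pt (L.κ c)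
    have h1 : pt (L.κ (c + d)) = pt (L.κ c) * pt (L.κ d) := by
      rw [L.κ_add, pt_mul]
    have h2 : pt (L.κ (c + d)) = pt (L.κ d) * pt (L.κ c) := by
      rw [add_comm, L.κ_add, pt_mul]
    rw [mul_assoc (L.m * pt (L.κ (c + d)) * pt S.a * pt (L.κ (c + d))), ← ih]
    calc pt (L.κ c) * (L.m * pt (L.κ d) * pt S.a * pt (L.κ d) * L.q l)
        = (pt (L.κ c) * L.m) * (pt (L.κ d) * pt S.a * (pt (L.κ d) * L.q l)) := by
          simp only [mul_assoc]
      _ = (L.m * pt (L.κ c)) * (pt (L.κ d) * pt S.a * (pt (L.κ d) * L.q l)) := by rw [m_comm]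
      _ = L.m * (pt (L.κ c) * pt (L.κ d)) * pt S.a *
            (pt (L.κ d) * (pt (L.κ c) * pt (L.κ c)) * L.q l) := by
          rw [pt_mul (L.κ c) (L.κ c), L.κ_sq, pt_one, mul_one]
          simp only [mul_assoc]
      _ = L.m * (pt (L.κ c) * pt (L.κ d)) * pt S.a *
            ((pt (L.κ d) * pt (L.κ c)) * (pt (L.κ c) * L.q l)) := by simp only [mul_assoc]
      _ = L.m * pt (L.κ (c + d)) * pt S.a * (pt (L.κ (c + d)) * (pt (L.κ c) * L.q l)) := by
          rw [← h1, ← h2]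
      _ = L.m * pt (L.κ (c + d)) * pt S.a * pt (L.κ (c + d)) * (pt (L.κ c) * L.q l) := by
          simp only [mul_assoc]

theorem kap_zero (L : Lev S R) : L.κ 0 = 1 := by
  have h := L.κ_add 0 0
  rw [add_zero] at h
  exact mul_eq_left.1 h.symm

/-- The property. -/
def PP (L : Lev S R) (γ : G) : Prop := ∃ C : ℝ, 0 ≤ C ∧ ∀ k : ℕ,
      Ex k (fun l => He (pt γ * L.q l) (L.q l)) ≤ C / Real.sqrt (k + 1)

theorem PP_one (L : Lev S R) : PP L 1 := by
  refine ⟨0, le_rfl, fun k => ?_⟩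
  have : (fun l => He (pt 1 * L.q l) (L.q l)) = fun _ => (0 : ℝ) := by
    funext l
    rw [pt_one, one_mul, He_self]
  rw [this, Ex_const, zero_div]

theorem PP_ns (L : Lev S R) (n : G) (hn : n ∈ L.ns) : PP L n := by
  refine ⟨0, le_rfl, fun k => ?_⟩
  have : (fun l => He (pt n * L.q l) (L.q l)) = fun _ => (0 : ℝ) := by
    funext l
    rw [q_absorb L n hn, He_self]
  rw [this, Ex_const, zero_div]

theorem PP_inv (L : Lev S R) {γ : G} (h : PP L γ) : PP L γ⁻¹ := by
  obtain ⟨C, hC, h⟩ := h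
  refine ⟨C, hC, fun k => ?_⟩
  have : (fun l => He (pt γ⁻¹ * L.q l) (L.q l)) = fun l => He (pt γ * L.q l) (L.q l) := by
    funext l
    rw [He_pt_inv, inv_inv, He_comm]
  rw [this]
  exact h k

theorem PP_mul (L : Lev S R) {γ γ' : G} (h : PP L γ) (h' : PP L γ') : PP L (γ * γ') := by
  obtain ⟨C, hC, h⟩ := h
  obtain ⟨C', hC', h'⟩ := h'
  refine ⟨2 * C + 2 * C', by positivity, fun k => ?_⟩
  have h1 : Ex k (fun l => He (pt (γ * γ') * L.q l) (L.q l)) ≤
      Ex k (fun l => 2 * He (pt γ * L.q l) (L.q l) + 2 * He (pt γ' * L.q l) (L.q l)) := by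
    refine Ex_mono k _ _ fun l _ => ?_
    have h2 := He_tri (pt (γ * γ') * L.q l) (pt γ * L.q l) (L.q l)
    have h3 : He (pt (γ * γ') * L.q l) (pt γ * L.q l) = He (pt γ' * L.q l) (L.q l) := by
      rw [← pt_mul, mul_assoc, He_pt_mul]
    rw [h3] at h2
    have h4 := He_nonneg (pt (γ * γ') * L.q l) (L.q l)
    have h5 := He_nonneg (pt γ' * L.q l) (L.q l)
    have h6 := He_nonneg (pt γ * L.q l) (L.q l)
    nlinarith [Real.sq_sqrt h4, Real.sq_sqrt h5, Real.sq_sqrt h6, Real.sqrt_nonneg (He (pt (γ * γ') * L.q l) (L.q l)),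
      Real.sqrt_nonneg (He (pt γ' * L.q l) (L.q l)), Real.sqrt_nonneg (He (pt γ * L.q l) (L.q l)),
      sq_nonneg (Real.sqrt (He (pt γ' * L.q l) (L.q l)) - Real.sqrt (He (pt γ * L.q l) (L.q l)))]
  rw [Ex_add, Ex_smul, Ex_smul] at h1
  have h2 := h k
  have h3 := h' k
  have h4 : (2 * C + 2 * C') / Real.sqrt (k + 1) =
      2 * (C / Real.sqrt (k + 1)) + 2 * (C' / Real.sqrt (k + 1)) := by ring
  rw [h4]
  linarith

theorem PP_kap (L : Lev S R) (c : ZMod 2 × R) {γ : G} (h : PP L γ) :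
    PP L (L.κ c * γ * L.κ c) := by
  obtain ⟨C, hC, h⟩ := h
  refine ⟨C, hC, fun k => ?_⟩
  have : (fun l => He (pt (L.κ c * γ * L.κ c) * L.q l) (L.q l)) =
      fun l => He (pt γ * L.q (l.map (c + ·))) (L.q (l.map (c + ·))) := by
    funext l
    have h0 : L.q l = pt (L.κ c) * (pt (L.κ c) * L.q l) := by
      rw [← mul_assoc, pt_mul, L.κ_sq, pt_one, one_mul]
    conv_lhs => rw [h0]
    rw [← pt_mul, ← pt_mul]
    have h1 : pt (L.κ c) * pt γ * pt (L.κ c) * (pt (L.κ c) * (pt (L.κ c) * L.q l)) =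
        pt (L.κ c) * (pt γ * (pt (L.κ c) * L.q l)) := by
      rw [← h0]
      simp only [mul_assoc]
    rw [h1, He_pt_mul, q_translate, ← mul_assoc, He_mul_pt]
  rw [this, Ex_translate c k (fun l => He (pt γ * L.q l) (L.q l))]
  exact h k

theorem avg_ge {ι : Type} [Fintype ι] (f : ι → ℝ) (h : ∀ i, 0 ≤ f i) (i : ι) :
    f i ≤ Fintype.card ι * avg f := by
  unfold avg
  have hne : (Fintype.card ι : ℝ) ≠ 0 := by
    have : Nonempty ι := ⟨i⟩
    exact_mod_cast Fintype.card_ne_zero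
  rw [smul_eq_mul, ← mul_assoc, mul_inv_cancel₀ hne, one_mul]
  exact Finset.single_le_sum (f := f) (fun j _ => h j) (Finset.mem_univ i)

theorem PP_a (L : Lev S R) {γ : G} (h : PP L γ) : PP L (S.a * γ * S.a) := by
  obtain ⟨C, hC, h⟩ := h
  obtain ⟨C', hC', h'⟩ := info L
  refine ⟨Fintype.card (ZMod 2 × R) * (6 * C' + 3 * C), by positivity, fun k => ?_⟩
  set x : ZMod 2 × R → List (ZMod 2 × R) → GA G :=
    fun c l => pt (L.κ c) * pt S.a * pt (L.κ c) * L.q l with hx
  have hq : ∀ c l, L.q (c :: l) = L.m * x c l := by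
    intro c l
    change L.m * pt (L.κ c) * pt S.a * pt (L.κ c) * L.q l = _
    rw [hx]
    simp only [mul_assoc]
  have h1 : ∀ c l, He (pt γ * x c l) (x c l) ≤
      6 * He (x c l) (L.q (c :: l)) + 3 * He (pt γ * L.q (c :: l)) (L.q (c :: l)) := by
    intro c l
    have t1 := He_tri (pt γ * x c l) (pt γ * L.q (c :: l)) (x c l)
    have t2 := He_tri (pt γ * L.q (c :: l)) (L.q (c :: l)) (x c l)
    rw [He_pt_mul] at t1
    rw [He_comm (L.q (c :: l)) (x c l)] at t2
    have h4 := He_nonneg (pt γ * x c l) (x c l)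
    have h5 := He_nonneg (x c l) (L.q (c :: l))
    have h6 := He_nonneg (pt γ * L.q (c :: l)) (L.q (c :: l))
    set A := Real.sqrt (He (pt γ * x c l) (x c l))
    set B := Real.sqrt (He (x c l) (L.q (c :: l)))
    set D := Real.sqrt (He (pt γ * L.q (c :: l)) (L.q (c :: l)))
    have hA : A ^ 2 = He (pt γ * x c l) (x c l) := Real.sq_sqrt h4
    have hB : B ^ 2 = He (x c l) (L.q (c :: l)) := Real.sq_sqrt h5
    have hD : D ^ 2 = He (pt γ * L.q (c :: l)) (L.q (c :: l)) := Real.sq_sqrt h6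
    have hA0 : 0 ≤ A := Real.sqrt_nonneg _
    have hB0 : 0 ≤ B := Real.sqrt_nonneg _
    have hD0 : 0 ≤ D := Real.sqrt_nonneg _
    rw [← hA, ← hB, ← hD]
    have hABD : A ≤ 2 * B + D := by linarith
    nlinarith [sq_nonneg (B - D), mul_nonneg hB0 hD0, mul_nonneg hA0 hB0]
  have h2 : avg (fun c => Ex k fun l => He (pt γ * x c l) (x c l)) ≤
      6 * avg (fun c => Ex k fun l => He (x c l) (L.q (c :: l))) +
      3 * Ex (k + 1) (fun l => He (pt γ * L.q l) (L.q l)) := by
    rw [Ex_succ, ← avg_smul, ← avg_smul, ← avg_add]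
    refine avg_mono _ _ fun c => ?_
    rw [← Ex_smul, ← Ex_smul, ← Ex_add]
    exact Ex_mono k _ _ fun l _ => h1 c l
  have h3 : Ex k (fun l => He (pt (S.a * γ * S.a) * L.q l) (L.q l)) =
      Ex k fun l => He (pt γ * x 0 l) (x 0 l) := by
    congr 1
    funext l
    have e1 : x 0 l = pt S.a * L.q l := by
      rw [hx]
      simp only [kap_zero, pt_one, one_mul, mul_one]
    rw [e1, ← He_pt_mul S.a]
    have e2 : pt S.a * (pt (S.a * γ * S.a) * L.q l) = pt γ * (pt S.a * L.q l) := by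
      rw [← mul_assoc, ← mul_assoc, pt_mul, pt_mul, ← mul_assoc, ← mul_assoc, S.a_sq, one_mul]
    rw [e2]
  rw [h3]
  have h4 := avg_ge (fun c => Ex k fun l => He (pt γ * x c l) (x c l))
    (fun c => Ex_nonneg k _ fun l => He_nonneg _ _) 0
  have h5 := h' k
  have h6 := h (k + 1)
  have h7 : C / Real.sqrt (((k + 1 : ℕ) : ℝ) + 1) ≤ C / Real.sqrt (k + 1) := by
    apply div_le_div_of_nonneg_left hC (Real.sqrt_pos.2 (by positivity))
    apply Real.sqrt_le_sqrt
    push_cast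
    linarith
  refine h4.trans ?_
  rw [mul_div_assoc]
  refine mul_le_mul_of_nonneg_left ?_ (by positivity)
  have h8 : (6 * C' + 3 * C) / Real.sqrt (k + 1) =
      6 * (C' / Real.sqrt (k + 1)) + 3 * (C / Real.sqrt (k + 1)) := by ring
  rw [h8]
  linarith

/-- The subgroup of nearly invisible elements. -/
def PG (L : Lev S R) : Subgroup G where
  carrier := {γ | PP L γ}
  one_mem' := PP_one L
  mul_mem' := fun h h' => PP_mul L h h'
  inv_mem' := fun h => PP_inv L h

theorem kap_inv (L : Lev S R) (c : ZMod 2 × R) : (L.κ c)⁻¹ = L.κ c :=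
  inv_eq_of_mul_eq_one_left (L.κ_sq c)

theorem a_inv (S : SGp G) : (S.a)⁻¹ = S.a := inv_eq_of_mul_eq_one_left S.a_sq

theorem PP_conj (L : Lev S R) (g : G) :
    (∀ γ, PP L γ → PP L (g * γ * g⁻¹)) ∧ (∀ γ, PP L γ → PP L (g⁻¹ * γ * g)) := by
  have hg : g ∈ Subgroup.closure (insert S.a ({n | n ∈ L.ns} ∪ Set.range L.κ)) := by
    rw [L.gen]
    trivial
  induction hg using Subgroup.closure_induction with
  | mem x hx =>
    rcases hx with rfl | hx | ⟨c, rfl⟩
    · rw [a_inv]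
      exact ⟨fun γ h => PP_a L h, fun γ h => PP_a L h⟩
    · have h1 := PP_ns L x hx
      exact ⟨fun γ h => PP_mul L (PP_mul L h1 h) (PP_inv L h1),
        fun γ h => PP_mul L (PP_mul L (PP_inv L h1) h) h1⟩
    · rw [kap_inv]
      exact ⟨fun γ h => PP_kap L c h, fun γ h => PP_kap L c h⟩
  | one => simp
  | mul x y _ _ hx hy =>
    constructor
    · intro γ h
      have := hx.1 _ (hy.1 γ h)
      simpa [mul_assoc] using this
    · intro γ h
      have := hy.2 _ (hx.2 γ h)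
      simpa [mul_assoc] using this
  | inv x _ hx =>
    rw [inv_inv]
    exact ⟨hx.2, hx.1⟩

end GclAux

open GclAux

theorem gcl (L : Lev S R) (γ : G) (hγ : γ ∈ Subgroup.normalClosure {n | n ∈ L.ns}) :
    ∃ C : ℝ, 0 ≤ C ∧ ∀ k : ℕ,
      Ex k (fun l => He (pt γ * L.q l) (L.q l)) ≤ C / Real.sqrt (k + 1) := by
  have hN : (PG L).Normal := ⟨fun γ h g => (PP_conj L g).1 γ h⟩
  have h1 : Subgroup.normalClosure {n | n ∈ L.ns} ≤ PG L :=
    Subgroup.normalClosure_le_normal fun n hn => PP_ns L n hn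
  exact h1 hγ

end Pool.Agent.PHF
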