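import Pool.Agent.PHF.Bin

set_option autoImplicit false

namespace Pool.Agent.PHF

/-! Module STH: moments of the thinned function. -/

theorem Shy_ex_succ (k : ℕ) (F : List (ZMod 2) → ℝ) :
    Ex (k + 1) F = (Ex k (fun l => F (0 :: l)) + Ex k (fun l => F (1 :: l))) / 2 := by
  show avg (fun x => Ex k fun l => F (x :: l)) = _
  unfold avg
  rw [ZMod.card, smul_eq_mul]
  have : (∑ x : ZMod 2, Ex k fun l => F (x :: l)) =
      Ex k (fun l => F (0 :: l)) + Ex k (fun l => F (1 :: l)) := Fin.sum_univ_two _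
  rw [this]
  push_cast
  ring

theorem Shy_ex_add (k : ℕ) (F G : List (ZMod 2) → ℝ) :
    Ex k (fun l => F l + G l) = Ex k F + Ex k G := by
  induction k generalizing F G with
  | zero => rfl
  | succ k ih =>
    rw [Shy_ex_succ, Shy_ex_succ, Shy_ex_succ, ih, ih]
    ring

theorem Shy_ex_smul (k : ℕ) (r : ℝ) (F : List (ZMod 2) → ℝ) :
    Ex k (fun l => r * F l) = r * Ex k F := by
  induction k generalizing F with
  | zero => rfl
  | succ k ih =>
    rw [Shy_ex_succ, Shy_ex_succ, ih, ih]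
    ring

theorem Shy_ex_mono (k : ℕ) (F G : List (ZMod 2) → ℝ) (h : ∀ l, F l ≤ G l) :
    Ex k F ≤ Ex k G := by
  induction k generalizing F G with
  | zero => exact h []
  | succ k ih =>
    rw [Shy_ex_succ, Shy_ex_succ]
    have h0 := ih _ _ fun l => h (0 :: l)
    have h1 := ih _ _ fun l => h (1 :: l)
    linarith

theorem Shy_nil (Φ : List (ZMod 2) → ℝ) (c : ZMod 2) : Sth Φ c [] = Φ [] := by
  rw [Sth]

theorem Shy_one (Φ : List (ZMod 2) → ℝ) (c x : ZMod 2) : Sth Φ c [x] = Φ [] := by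
  rw [Sth]

theorem Shy_two (Φ : List (ZMod 2) → ℝ) (c s1 s2 : ZMod 2) (l : List (ZMod 2)) :
    Sth Φ c (s1 :: s2 :: l) =
      (Sth (fun x => Φ ((c + s1) :: x)) (c + s1 + s2) l + Sth Φ (c + s1 + s2) l) / 2 := by
  rw [Sth]

theorem Shy_lin (r t : ℝ) : ∀ (l : List (ZMod 2)) (F G : List (ZMod 2) → ℝ) (c : ZMod 2),
    Sth (fun x => r * F x + t * G x) c l = r * Sth F c l + t * Sth G c l
  | [], F, G, c => by rw [Shy_nil, Shy_nil, Shy_nil]
  | [x], F, G, c => by rw [Shy_one, Shy_one, Shy_one]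
  | s1 :: s2 :: l, F, G, c => by
    rw [Shy_two, Shy_two, Shy_two, Shy_lin r t l, Shy_lin r t l]
    ring

theorem Shy_bij (c : ZMod 2) (F : ZMod 2 → ZMod 2 → ℝ) :
    (F (c + 0) (c + 0 + 0) + F (c + 0) (c + 0 + 1) + (F (c + 1) (c + 1 + 0) +
      F (c + 1) (c + 1 + 1))) = F 0 0 + F 0 1 + (F 1 0 + F 1 1) := by
  have h11 : (1 : ZMod 2) + 1 = 0 := by decide
  fin_cases c
  · show F (0 + 0) (0 + 0 + 0) + F (0 + 0) (0 + 0 + 1) + (F (0 + 1) (0 + 1 + 0) +
      F (0 + 1) (0 + 1 + 1)) = _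
    simp only [add_zero, zero_add, h11]
    ring
  · show F (1 + 0) (1 + 0 + 0) + F (1 + 0) (1 + 0 + 1) + (F (1 + 1) (1 + 1 + 0) +
      F (1 + 1) (1 + 1 + 1)) = _
    simp only [add_zero, zero_add, h11]
    ring

/-- Mean of the thinned function. -/
theorem sth_mean (k : ℕ) (Φ : List (ZMod 2) → ℝ) (c : ZMod 2) :
    Ex k (fun T => Sth Φ c T) = binAvg (k / 2) (fun n => Ex n Φ) := by
  induction k using Nat.strong_induction_on generalizing Φ c with
  | _ k ih =>
    match k, ih with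
    | 0, _ => exact Shy_nil Φ c
    | 1, _ =>
      rw [Shy_ex_succ]
      show (Sth Φ c [0] + Sth Φ c [1]) / 2 = Φ []
      rw [Shy_one, Shy_one]
      ring
    | k + 2, ih =>
      have ih' := ih k (by omega)
      rw [Shy_ex_succ, Shy_ex_succ, Shy_ex_succ]
      have e : ∀ s1 s2 : ZMod 2, Ex k (fun l => Sth Φ c (s1 :: s2 :: l)) =
          (binAvg (k / 2) (fun n => Ex n (fun x => Φ ((c + s1) :: x))) +
            binAvg (k / 2) (fun n => Ex n Φ)) / 2 := by
        intro s1 s2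
        have : (fun l => Sth Φ c (s1 :: s2 :: l)) = fun l =>
            (1 / 2 : ℝ) * (Sth (fun x => Φ ((c + s1) :: x)) (c + s1 + s2) l +
              Sth Φ (c + s1 + s2) l) := by
          funext l
          rw [Shy_two]
          ring
        rw [this, Shy_ex_smul, Shy_ex_add, ih', ih']
        ring
      simp only [e]
      have hk : (k + 2) / 2 = k / 2 + 1 := by omega
      rw [hk, binAvg_succ]
      have e2 : (fun n => Ex (n + 1) Φ) = fun n => (1 / 2 : ℝ) *
          (Ex n (fun l => Φ (0 :: l)) + Ex n (fun l => Φ (1 :: l))) := by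
        funext n
        rw [Shy_ex_succ]
        ring
      rw [e2, binAvg_smul, binAvg_add]
      have hb := Shy_bij c (fun u _ => binAvg (k / 2) (fun n => Ex n (fun x => Φ (u :: x))))
      linarith

/-- Second moment of the thinned function. -/
theorem sth_sq (k : ℕ) (Φ : List (ZMod 2) → ℝ) (c : ZMod 2) :
    Ex k (fun T => Sth Φ c T ^ 2) ≤ binAvg (k / 2) (fun n => Qn n Φ) := by
  induction k using Nat.strong_induction_on generalizing Φ c with
  | _ k ih =>
    match k, ih with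
    | 0, _ =>
      show Sth Φ c [] ^ 2 ≤ Φ [] ^ 2
      rw [Shy_nil]
    | 1, _ =>
      rw [Shy_ex_succ]
      show (Sth Φ c [0] ^ 2 + Sth Φ c [1] ^ 2) / 2 ≤ Φ [] ^ 2
      rw [Shy_one, Shy_one]
      linarith
    | k + 2, ih =>
      have ih' := ih k (by omega)
      rw [Shy_ex_succ, Shy_ex_succ, Shy_ex_succ]
      have hk : (k + 2) / 2 = k / 2 + 1 := by omega
      rw [hk, binAvg_succ]
      have e : ∀ s1 s2 : ZMod 2, (fun l => Sth Φ c (s1 :: s2 :: l) ^ 2) = fun l =>
          (1 / 4 : ℝ) * (Sth (fun x => Φ ((c + s1) :: x)) (c + s1 + s2) l +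
              Sth Φ (c + s1 + s2) l) ^ 2 := by
        intro s1 s2
        funext l
        rw [Shy_two]
        ring
      simp only [e, Shy_ex_smul]
      have hb := Shy_bij c (fun u v => Ex k (fun l => (Sth (fun x => Φ (u :: x)) v l +
        Sth Φ v l) ^ 2))
      have hv : ∀ v : ZMod 2, Ex k (fun l => (Sth (fun x => Φ (0 :: x)) v l + Sth Φ v l) ^ 2) +
          Ex k (fun l => (Sth (fun x => Φ (1 :: x)) v l + Sth Φ v l) ^ 2) ≤
          4 * (binAvg (k / 2) (fun n => Qn (n + 1) Φ) + binAvg (k / 2) (fun n => Qn n Φ)) := by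
        intro v
        have hp := ih' (fun l => (Φ (0 :: l) + Φ (1 :: l)) / 2) v
        have hm := ih' (fun l => (Φ (0 :: l) - Φ (1 :: l)) / 2) v
        have hB := ih' Φ v
        have hQ : (fun n => Qn (n + 1) Φ) = fun n => Qn n (fun l => (Φ (0 :: l) + Φ (1 :: l)) / 2) +
            (1 / 2) * Qn n (fun l => (Φ (0 :: l) - Φ (1 :: l)) / 2) := rfl
        rw [hQ, binAvg_add, binAvg_smul]
        have hpt : ∀ l, (Sth (fun x => Φ (0 :: x)) v l + Sth Φ v l) ^ 2 +
            (Sth (fun x => Φ (1 :: x)) v l + Sth Φ v l) ^ 2 ≤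
            4 * Sth (fun l => (Φ (0 :: l) + Φ (1 :: l)) / 2) v l ^ 2 +
            2 * Sth (fun l => (Φ (0 :: l) - Φ (1 :: l)) / 2) v l ^ 2 +
            4 * Sth Φ v l ^ 2 := by
          intro l
          have q1 : (fun l => (Φ (0 :: l) + Φ (1 :: l)) / 2) =
              fun l => (1 / 2 : ℝ) * Φ (0 :: l) + (1 / 2 : ℝ) * Φ (1 :: l) := by
            funext l; ring
          have q2 : (fun l => (Φ (0 :: l) - Φ (1 :: l)) / 2) =
              fun l => (1 / 2 : ℝ) * Φ (0 :: l) + (-1 / 2 : ℝ) * Φ (1 :: l) := by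
            funext l; ring
          rw [q1, q2, Shy_lin, Shy_lin]
          nlinarith [sq_nonneg ((Sth (fun x => Φ (0 :: x)) v l + Sth (fun x => Φ (1 :: x)) v l) / 2
            - Sth Φ v l)]
        have hs := Shy_ex_mono k _ _ hpt
        simp only [Shy_ex_add, Shy_ex_smul] at hs
        linarith
      have h0 := hv 0
      have h1 := hv 1
      linarith

end Pool.Agent.PHF
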