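import Pool.Agent.PHF.Hyp
import Pool.Agent.PHF.Shy
import Pool.Agent.PHF.Avs

set_option autoImplicit false

namespace Pool.Agent.PHF

/-! Module GEN: exponents along one thinning step. -/

namespace GenAux

theorem Ex_tail (k : ℕ) (H : List (ZMod 2) → ℝ) :
    Ex (k + 1) (fun l => H l.tail) = Ex k H := by
  rw [Ex_succ]
  exact avg_const (ι := ZMod 2) (Ex k H)

/-- the step inequality for averages -/
theorem step (k : ℕ) (F' H : List (ZMod 2) → ℝ) (r : ℝ)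
    (h : ∀ a l, F' (a :: l) ≤ r * (H (a :: l) + H l)) :
    Ex (k + 1) F' ≤ r * (Ex (k + 1) H + Ex k H) := by
  have h1 : Ex (k + 1) F' ≤ Ex (k + 1) (fun l => r * (H l + H l.tail)) := by
    rw [Ex_succ, Ex_succ]
    exact avg_mono _ _ fun a => Ex_mono k _ _ fun l _ => h a l
  rw [Ex_smul, Ex_add, Ex_tail] at h1
  exact h1

theorem pow_half (k n : ℕ) (s : ℝ) (hs : 0 < s) (h : k + 2 ≤ 4 * (n + 1)) :
    ((n : ℝ) + 1) ^ (-s) ≤ 4 ^ s * (((k + 1 : ℕ) : ℝ) + 1) ^ (-s) := by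
  have h0 : (0 : ℝ) < ((k + 1 : ℕ) : ℝ) + 1 := by positivity
  have h1 : (((k + 1 : ℕ) : ℝ) + 1) / 4 ≤ (n : ℝ) + 1 := by
    rw [div_le_iff₀ (by norm_num)]
    have : ((k + 2 : ℕ) : ℝ) ≤ ((4 * (n + 1) : ℕ) : ℝ) := by exact_mod_cast h
    push_cast at this ⊢
    linarith
  calc ((n : ℝ) + 1) ^ (-s) ≤ ((((k + 1 : ℕ) : ℝ) + 1) / 4) ^ (-s) :=
        Real.rpow_le_rpow_of_nonpos (by positivity) h1 (by linarith)
    _ = 4 ^ s * (((k + 1 : ℕ) : ℝ) + 1) ^ (-s) := by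
        rw [Real.div_rpow h0.le (by norm_num), Real.rpow_neg (by norm_num : (0 : ℝ) ≤ 4)]
        field_simp

/-- the common final computation -/
theorem fin (F' H : List (ZMod 2) → ℝ) (u : ℕ → ℝ) (r M C s : ℝ) (hr : 0 ≤ r) (hC : 0 ≤ C)
    (hs : 0 < s) (hs1 : s ≤ 1)
    (h0 : F' [] ≤ M) (hM : 0 ≤ M)
    (h : ∀ a l, F' (a :: l) ≤ r * (H (a :: l) + H l))
    (hH : ∀ k, Ex k H ≤ binAvg (k / 2) u)
    (hu : ∀ k, u k ≤ C * ((k : ℝ) + 1) ^ (-s)) :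
    ∃ C' : ℝ, 0 ≤ C' ∧ ∀ k : ℕ, Ex k F' ≤ C' * ((k : ℝ) + 1) ^ (-s) := by
  refine ⟨M + r * (C * 2 ^ s * 4 ^ s + C * 2 ^ s * 4 ^ s), by positivity, fun k => ?_⟩
  cases k with
  | zero =>
    rw [Ex_zero]
    have h1 : ((0 : ℕ) : ℝ) + 1 = 1 := by norm_num
    rw [h1, Real.one_rpow, mul_one]
    have : 0 ≤ r * (C * 2 ^ s * 4 ^ s + C * 2 ^ s * 4 ^ s) := by positivity
    linarith
  | succ k =>
    have hb : ∀ n : ℕ, k + 2 ≤ 4 * (n / 2 + 1) → Ex n H ≤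
        C * 2 ^ s * 4 ^ s * (((k + 1 : ℕ) : ℝ) + 1) ^ (-s) := by
      intro n hn
      calc Ex n H ≤ binAvg (n / 2) u := hH n
        _ ≤ binAvg (n / 2) (fun k => C * ((k : ℝ) + 1) ^ (-s)) := binAvg_mono _ _ _ hu
        _ ≤ C * 2 ^ s * (((n / 2 : ℕ) : ℝ) + 1) ^ (-s) := binAvg_pow _ _ _ hC hs hs1
        _ ≤ C * 2 ^ s * (4 ^ s * (((k + 1 : ℕ) : ℝ) + 1) ^ (-s)) :=
            mul_le_mul_of_nonneg_left (pow_half k (n / 2) s hs hn) (by positivity)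
        _ = _ := by ring
    have h1 := step k F' H r h
    have h2 := hb (k + 1) (by omega)
    have h3 := hb k (by omega)
    have hp : (0 : ℝ) ≤ (((k + 1 : ℕ) : ℝ) + 1) ^ (-s) := by positivity
    calc Ex (k + 1) F' ≤ r * (Ex (k + 1) H + Ex k H) := h1
      _ ≤ r * (C * 2 ^ s * 4 ^ s * (((k + 1 : ℕ) : ℝ) + 1) ^ (-s) +
          C * 2 ^ s * 4 ^ s * (((k + 1 : ℕ) : ℝ) + 1) ^ (-s)) :=
          mul_le_mul_of_nonneg_left (add_le_add h2 h3) hr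
      _ ≤ _ := by nlinarith [mul_nonneg hM hp]

theorem C_nonneg (F : List (ZMod 2) → ℝ) (C s : ℝ) (hF : ∀ l, 0 ≤ F l)
    (h : ∀ k : ℕ, Ex k F ≤ C * ((k : ℝ) + 1) ^ (-s)) : 0 ≤ C := by
  have h1 := h 0
  have h2 : ((0 : ℕ) : ℝ) + 1 = 1 := by norm_num
  rw [Ex_zero, h2, Real.one_rpow, mul_one] at h1
  exact (hF []).trans h1

end GenAux

open GenAux

/-- Means. -/
theorem gen_mean (F F' : List (ZMod 2) → ℝ) (M C s : ℝ) (hs : 0 < s) (hs1 : s ≤ 1)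
    (hF : ∀ l, 0 ≤ F l) (hF'0 : ∀ l, 0 ≤ F' l) (hF'M : ∀ l, F' l ≤ M)
    (hstep : ∀ a l, F' (a :: l) ≤ Sth F 0 (a :: l) + Sth F 0 l)
    (h : ∀ k : ℕ, Ex k F ≤ C * ((k : ℝ) + 1) ^ (-s)) :
    ∃ C' : ℝ, 0 ≤ C' ∧ ∀ k : ℕ, Ex k F' ≤ C' * ((k : ℝ) + 1) ^ (-s) :=
  fin F' (fun l => Sth F 0 l) (fun n => Ex n F) 1 M C s (by norm_num) (C_nonneg F C s hF h) hs hs1
    (hF'M []) ((hF'0 []).trans (hF'M [])) (fun a l => by rw [one_mul]; exact hstep a l)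
    (fun k => (sth_mean k F 0).le) h

/-- Second moments. -/
theorem gen_sq (F F' : List (ZMod 2) → ℝ) (M C t : ℝ) (ht : 0 < t) (ht1 : 4 * t / 3 ≤ 1)
    (hF : ∀ l, 0 ≤ F l) (hF'0 : ∀ l, 0 ≤ F' l) (hF'M : ∀ l, F' l ≤ M)
    (hstep : ∀ a l, F' (a :: l) ≤ Sth F 0 (a :: l) + Sth F 0 l)
    (h : ∀ k : ℕ, Ex k (fun l => F l ^ (3 / 2 : ℝ)) ≤ C * ((k : ℝ) + 1) ^ (-t)) :
    ∃ C' : ℝ, 0 ≤ C' ∧ ∀ k : ℕ,
      Ex k (fun l => F' l ^ 2) ≤ C' * ((k : ℝ) + 1) ^ (-(4 * t / 3)) := by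
  have hC : 0 ≤ C := C_nonneg (fun l => F l ^ (3 / 2 : ℝ)) C t
    (fun l => Real.rpow_nonneg (hF l) _) h
  refine fin (fun l => F' l ^ 2) (fun l => Sth F 0 l ^ 2) (fun n => Qn n F) 2 (M ^ 2)
    (C ^ (4 / 3 : ℝ)) (4 * t / 3) (by norm_num) (by positivity) (by positivity) ht1 ?_
    (by positivity) ?_ (fun k => sth_sq k F 0) ?_
  · exact pow_le_pow_left₀ (hF'0 []) (hF'M []) 2
  · intro a l
    have h1 := pow_le_pow_left₀ (hF'0 (a :: l)) (hstep a l) 2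
    nlinarith [sq_nonneg (Sth F 0 (a :: l) - Sth F 0 l)]
  · intro k
    refine (bonami k F hF).trans ?_
    have h0 : 0 ≤ Ex k (fun l => F l ^ (3 / 2 : ℝ)) :=
      Ex_nonneg k _ fun l => Real.rpow_nonneg (hF l) _
    refine (Real.rpow_le_rpow h0 (h k) (by norm_num)).trans (le_of_eq ?_)
    rw [Real.mul_rpow hC (by positivity), ← Real.rpow_mul (by positivity)]
    congr 2
    ring

/-- Interpolation: moment of order 3/2 from the moments of order 1 and 2. -/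
theorem gen_interp (F : List (ZMod 2) → ℝ) (C1 C2 s1 s2 : ℝ) (hF : ∀ l, 0 ≤ F l)
    (h1 : ∀ k : ℕ, Ex k F ≤ C1 * ((k : ℝ) + 1) ^ (-s1))
    (h2 : ∀ k : ℕ, Ex k (fun l => F l ^ 2) ≤ C2 * ((k : ℝ) + 1) ^ (-s2)) :
    ∃ C' : ℝ, 0 ≤ C' ∧ ∀ k : ℕ,
      Ex k (fun l => F l ^ (3 / 2 : ℝ)) ≤ C' * ((k : ℝ) + 1) ^ (-((s1 + s2) / 2)) := by
  have hC1 := C_nonneg F C1 s1 hF h1
  have hC2 := C_nonneg (fun l => F l ^ 2) C2 s2 (fun l => sq_nonneg _) h2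
  refine ⟨(C1 + C2) / 2, by positivity, fun k => ?_⟩
  have hk : (0 : ℝ) < (k : ℝ) + 1 := by positivity
  set x : ℝ := (k : ℝ) + 1 with hx
  set L : ℝ := x ^ ((s1 - s2) / 2) with hL
  have hLpos : 0 < L := Real.rpow_pos_of_pos hk _
  have key : ∀ l, F l ^ (3 / 2 : ℝ) ≤ (L / 2) * F l + (L⁻¹ / 2) * F l ^ 2 := by
    intro l
    have hf := hF l
    have h3 : F l ^ (3 / 2 : ℝ) = F l * Real.sqrt (F l) := by
      rcases eq_or_lt_of_le hf with h | h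
      · rw [← h]
        simp
      · rw [Real.sqrt_eq_rpow]
        nth_rewrite 2 [← Real.rpow_one (F l)]
        rw [← Real.rpow_add h]
        norm_num
    rw [h3]
    have h4 : F l * Real.sqrt (F l) = F l * (Real.sqrt (F l)) := rfl
    have h5 : Real.sqrt (F l) ≤ L / 2 + L⁻¹ / 2 * F l := by
      have h6 : Real.sqrt (F l) * Real.sqrt (F l) = F l := Real.mul_self_sqrt hf
      have h7 : L / 2 + L⁻¹ / 2 * F l - Real.sqrt (F l) =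
          (L⁻¹ / 2) * (Real.sqrt (F l) - L) ^ 2 := by
        field_simp
        nlinarith
      have h8 : 0 ≤ (L⁻¹ / 2) * (Real.sqrt (F l) - L) ^ 2 := by positivity
      linarith
    nlinarith [mul_le_mul_of_nonneg_left h5 hf]
  have h3 : Ex k (fun l => F l ^ (3 / 2 : ℝ)) ≤
      (L / 2) * Ex k F + (L⁻¹ / 2) * Ex k (fun l => F l ^ 2) := by
    calc _ ≤ Ex k (fun l => (L / 2) * F l + (L⁻¹ / 2) * F l ^ 2) :=
          Ex_mono k _ _ fun l _ => key l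
      _ = _ := by rw [Ex_add, Ex_smul, Ex_smul]
  have e1 : L * x ^ (-s1) = x ^ (-((s1 + s2) / 2)) := by
    rw [hL, ← Real.rpow_add hk]
    congr 1
    ring
  have e2 : L⁻¹ * x ^ (-s2) = x ^ (-((s1 + s2) / 2)) := by
    rw [hL, ← Real.rpow_neg hk.le, ← Real.rpow_add hk]
    congr 1
    ring
  calc _ ≤ (L / 2) * Ex k F + (L⁻¹ / 2) * Ex k (fun l => F l ^ 2) := h3
    _ ≤ (L / 2) * (C1 * x ^ (-s1)) + (L⁻¹ / 2) * (C2 * x ^ (-s2)) :=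
        add_le_add (mul_le_mul_of_nonneg_left (h1 k) (by positivity))
          (mul_le_mul_of_nonneg_left (h2 k) (by positivity))
    _ = (C1 / 2) * (L * x ^ (-s1)) + (C2 / 2) * (L⁻¹ * x ^ (-s2)) := by ring
    _ = (C1 + C2) / 2 * x ^ (-((s1 + s2) / 2)) := by rw [e1, e2]; ring

/-- Bounded functions: moment of order 3/2 from the mean. -/
theorem gen_bdd (F : List (ZMod 2) → ℝ) (M C s : ℝ) (hF : ∀ l, 0 ≤ F l) (hM : ∀ l, F l ≤ M)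
    (h1 : ∀ k : ℕ, Ex k F ≤ C * ((k : ℝ) + 1) ^ (-s)) :
    ∃ C' : ℝ, 0 ≤ C' ∧ ∀ k : ℕ,
      Ex k (fun l => F l ^ (3 / 2 : ℝ)) ≤ C' * ((k : ℝ) + 1) ^ (-s) := by
  have hC := C_nonneg F C s hF h1
  refine ⟨Real.sqrt M * C, by positivity, fun k => ?_⟩
  have key : ∀ l, F l ^ (3 / 2 : ℝ) ≤ Real.sqrt M * F l := by
    intro l
    have hf := hF l
    have h3 : F l ^ (3 / 2 : ℝ) = F l * Real.sqrt (F l) := by
      rcases eq_or_lt_of_le hf with h | h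
      · rw [← h]
        simp
      · rw [Real.sqrt_eq_rpow]
        nth_rewrite 2 [← Real.rpow_one (F l)]
        rw [← Real.rpow_add h]
        norm_num
    rw [h3, mul_comm]
    exact mul_le_mul_of_nonneg_right (Real.sqrt_le_sqrt (hM l)) hf
  calc _ ≤ Ex k (fun l => Real.sqrt M * F l) := Ex_mono k _ _ fun l _ => key l
    _ = Real.sqrt M * Ex k F := Ex_smul k _ _
    _ ≤ Real.sqrt M * (C * ((k : ℝ) + 1) ^ (-s)) :=
        mul_le_mul_of_nonneg_left (h1 k) (Real.sqrt_nonneg _)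
    _ = _ := by ring

/-- The whole chain: level 3 to level 1. -/
theorem gen_chain (F3 F2 F1 : List (ZMod 2) → ℝ) (M C : ℝ)
    (h3 : ∀ l, 0 ≤ F3 l) (h3M : ∀ l, F3 l ≤ M) (h2 : ∀ l, 0 ≤ F2 l) (h2M : ∀ l, F2 l ≤ M)
    (h1 : ∀ l, 0 ≤ F1 l) (h1M : ∀ l, F1 l ≤ M)
    (s2 : ∀ a l, F2 (a :: l) ≤ Sth F3 0 (a :: l) + Sth F3 0 l)
    (s1 : ∀ a l, F1 (a :: l) ≤ Sth F2 0 (a :: l) + Sth F2 0 l)
    (h : ∀ k : ℕ, Ex k F3 ≤ C * ((k : ℝ) + 1) ^ (-(1 / 2 : ℝ))) :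
    ∃ C' : ℝ, 0 ≤ C' ∧ ∀ k : ℕ,
      Ex k (fun l => F1 l ^ 2) ≤ C' * ((k : ℝ) + 1) ^ (-(7 / 9 : ℝ)) := by
  obtain ⟨C1, _, hm⟩ := gen_mean F3 F2 M C (1 / 2) (by norm_num) (by norm_num) h3 h2 h2M s2 h
  obtain ⟨C2, _, hb⟩ := gen_bdd F3 M C (1 / 2) h3 h3M h
  obtain ⟨C3, _, hq⟩ := gen_sq F3 F2 M C2 (1 / 2) (by norm_num) (by norm_num) h3 h2 h2M s2 hb
  obtain ⟨C4, _, hi⟩ := gen_interp F2 C1 C3 (1 / 2) (4 * (1 / 2) / 3) h2 hm hq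
  obtain ⟨C5, hC5, hf⟩ := gen_sq F2 F1 M C4 ((1 / 2 + 4 * (1 / 2) / 3) / 2) (by norm_num)
    (by norm_num) h2 h1 h1M s1 hi
  refine ⟨C5, hC5, fun k => ?_⟩
  have := hf k
  have e : (4 * ((1 / 2 + 4 * (1 / 2) / 3) / 2) / 3 : ℝ) = 7 / 9 := by norm_num
  rwa [e] at this

end Pool.Agent.PHF
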