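import Pool.Agent.PHF.Grb

set_option autoImplicit false

namespace Pool.Agent.PHF

/-! Module LEVS: the three levels. -/

variable {G : Type} [Group G] (S : SGp G)

namespace LvsAux

theorem bit (u : ZMod 2) : u = 0 ∨ u = 1 := by
  revert u
  decide

theorem pw_e_sq (i : Fin 4) (s : ZMod 2) : pw (S.e i) s * pw (S.e i) s = 1 :=
  pw_sq _ (S.e_sq i) s

theorem pw_e_comm (i j : Fin 4) (s t : ZMod 2) :
    pw (S.e i) s * pw (S.e j) t = pw (S.e j) t * pw (S.e i) s :=
  pw_comm _ _ (S.e_comm i j) s t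

theorem e_pw_comm (i j : Fin 4) (t : ZMod 2) :
    S.e i * pw (S.e j) t = pw (S.e j) t * S.e i := by
  have h := pw_e_comm S i j 1 t
  rwa [pw_one] at h

theorem gen_of {s : Set G} (h : ∀ i, S.e i ∈ s) : Subgroup.closure (insert S.a s) = ⊤ := by
  rw [eq_top_iff, ← S.gen]
  apply Subgroup.closure_mono
  apply Set.insert_subset_insert
  rintro _ ⟨i, rfl⟩
  exact h i

theorem avg_unit {M : Type} [AddCommGroup M] [Module ℝ M] (f : Unit → M) : avg f = f () := by
  unfold avg
  simp

theorem avg_pt_pw (g : G) : (avg fun s : ZMod 2 => (pt (pw g s) : GA G)) = hh g :=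
  (hh_eq_avg g).symm

theorem IsPair_pw {g x y : G} (h : IsPair S g x y) (s : ZMod 2) :
    IsPair S (pw g s) (pw x s) (pw y s) := by
  rcases bit s with rfl | rfl
  · rw [pw_zero, pw_zero, pw_zero]
    exact IsPair_one S
  · rw [pw_one, pw_one, pw_one]
    exact h

theorem pw_one_left (s : ZMod 2) : pw (1 : G) s = 1 := by
  rcases bit s with rfl | rfl
  · rw [pw_zero]
  · rw [pw_one]

end LvsAux

open LvsAux

/-- Level 1. -/
noncomputable def lev1 : Lev S Unit where
  ns := [S.e 0, S.e 1, S.e 2]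
  κ := fun c => pw (S.e 3) c.1
  ns_sq := by
    intro n hn
    simp only [List.mem_cons, List.not_mem_nil, or_false] at hn
    rcases hn with rfl | rfl | rfl <;> exact S.e_sq _
  ns_comm := by
    intro n hn n' hn'
    simp only [List.mem_cons, List.not_mem_nil, or_false] at hn hn'
    rcases hn with rfl | rfl | rfl <;> rcases hn' with rfl | rfl | rfl <;> exact S.e_comm _ _
  κ_add := fun c d => pw_add _ (S.e_sq 3) _ _
  κ_sq := fun c => pw_sq _ (S.e_sq 3) _
  κ_ns := by
    intro n hn c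
    simp only [List.mem_cons, List.not_mem_nil, or_false] at hn
    rcases hn with rfl | rfl | rfl <;> exact e_pw_comm S _ _ _
  avg_eq := by
    have h : (avg fun c : ZMod 2 × Unit => (pt (pw (S.e 3) c.1) : GA G)) = hh (S.e 3) := by
      rw [avg_prod]
      simp only [avg_unit]
      exact avg_pt_pw _
    rw [h]
    simp only [List.map_cons, List.map_nil, List.prod_cons, List.prod_nil, mul_one]
    unfold SGp.mV
    simp only [mul_assoc]
  gen := by
    apply gen_of
    intro i
    fin_cases i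
    · exact Or.inl (by simp)
    · exact Or.inl (by simp)
    · exact Or.inl (by simp)
    · exact Or.inr ⟨(1, ()), by
        show pw (S.e 3) 1 = S.e 3
        rw [pw_one]⟩

/-- Level 2. -/
noncomputable def lev2 : Lev S (Unit × ZMod 2) where
  ns := [S.e 0, S.e 1]
  κ := fun c => pw (S.e 2) c.1 * pw (S.e 3) c.2.2
  ns_sq := by
    intro n hn
    simp only [List.mem_cons, List.not_mem_nil, or_false] at hn
    rcases hn with rfl | rfl <;> exact S.e_sq _
  ns_comm := by
    intro n hn n' hn'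
    simp only [List.mem_cons, List.not_mem_nil, or_false] at hn hn'
    rcases hn with rfl | rfl <;> rcases hn' with rfl | rfl <;> exact S.e_comm _ _
  κ_add := by
    intro c d
    show pw (S.e 2) (c.1 + d.1) * pw (S.e 3) (c.2.2 + d.2.2) = _
    rw [pw_add _ (S.e_sq 2), pw_add _ (S.e_sq 3)]
    have h := pw_e_comm S 2 3 d.1 c.2.2
    rw [mul_assoc, ← mul_assoc (pw (S.e 2) d.1), h]
    simp only [mul_assoc]
  κ_sq := by
    intro c
    have h := pw_e_comm S 2 3 c.1 c.2.2
    calc pw (S.e 2) c.1 * pw (S.e 3) c.2.2 * (pw (S.e 2) c.1 * pw (S.e 3) c.2.2)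
        = pw (S.e 2) c.1 * (pw (S.e 3) c.2.2 * pw (S.e 2) c.1) * pw (S.e 3) c.2.2 := by
          simp only [mul_assoc]
      _ = pw (S.e 2) c.1 * (pw (S.e 2) c.1 * pw (S.e 3) c.2.2) * pw (S.e 3) c.2.2 := by rw [h]
      _ = (pw (S.e 2) c.1 * pw (S.e 2) c.1) * (pw (S.e 3) c.2.2 * pw (S.e 3) c.2.2) := by
          simp only [mul_assoc]
      _ = 1 := by rw [pw_e_sq, pw_e_sq, one_mul]
  κ_ns := by
    intro n hn c
    simp only [List.mem_cons, List.not_mem_nil, or_false] at hn
    have key : ∀ i : Fin 4, S.e i * (pw (S.e 2) c.1 * pw (S.e 3) c.2.2) =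
        pw (S.e 2) c.1 * pw (S.e 3) c.2.2 * S.e i := by
      intro i
      rw [← mul_assoc, e_pw_comm S i 2, mul_assoc, e_pw_comm S i 3, mul_assoc]
    rcases hn with rfl | rfl <;> exact key _
  avg_eq := by
    have h : (avg fun c : ZMod 2 × (Unit × ZMod 2) =>
        (pt (pw (S.e 2) c.1 * pw (S.e 3) c.2.2) : GA G)) = hh (S.e 2) * hh (S.e 3) := by
      rw [avg_prod]
      simp only [← pt_mul]
      simp only [avg_mul_left]
      rw [avg_mul_right, avg_pt_pw, avg_prod, avg_unit, avg_pt_pw]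
    rw [h]
    simp only [List.map_cons, List.map_nil, List.prod_cons, List.prod_nil, mul_one]
    unfold SGp.mV
    simp only [mul_assoc]
  gen := by
    apply gen_of
    intro i
    fin_cases i
    · exact Or.inl (by simp)
    · exact Or.inl (by simp)
    · exact Or.inr ⟨(1, ((), 0)), by
        show pw (S.e 2) 1 * pw (S.e 3) 0 = S.e 2
        rw [pw_one, pw_zero, mul_one]⟩
    · exact Or.inr ⟨(0, ((), 1)), by
        show pw (S.e 2) 0 * pw (S.e 3) 1 = S.e 3
        rw [pw_one, pw_zero, one_mul]⟩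

/-- Level 3. -/
noncomputable def lev3 : Lev S ((Unit × ZMod 2) × ZMod 2) where
  ns := [S.e 0]
  κ := fun c => pw (S.e 1) c.1 * pw (S.e 2) c.2.1.2 * pw (S.e 3) c.2.2
  ns_sq := by
    intro n hn
    simp only [List.mem_cons, List.not_mem_nil, or_false] at hn
    rcases hn with rfl
    exact S.e_sq _
  ns_comm := by
    intro n hn n' hn'
    simp only [List.mem_cons, List.not_mem_nil, or_false] at hn hn'
    rcases hn with rfl
    rcases hn' with rfl
    rfl
  κ_add := by
    intro c d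
    show pw (S.e 1) (c.1 + d.1) * pw (S.e 2) (c.2.1.2 + d.2.1.2) * pw (S.e 3) (c.2.2 + d.2.2) = _
    rw [pw_add _ (S.e_sq 1), pw_add _ (S.e_sq 2), pw_add _ (S.e_sq 3)]
    generalize hA : pw (S.e 1) c.1 = A
    generalize hA' : pw (S.e 1) d.1 = A'
    generalize hB : pw (S.e 2) c.2.1.2 = B
    generalize hB' : pw (S.e 2) d.2.1.2 = B'
    generalize hC : pw (S.e 3) c.2.2 = C
    generalize hC' : pw (S.e 3) d.2.2 = C'
    have h1 : A' * B = B * A' := by rw [← hA', ← hB]; exact pw_e_comm S _ _ _ _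
    have h2 : A' * C = C * A' := by rw [← hA', ← hC]; exact pw_e_comm S _ _ _ _
    have h3 : B' * C = C * B' := by rw [← hB', ← hC]; exact pw_e_comm S _ _ _ _
    calc A * A' * (B * B') * (C * C') = A * (A' * B) * (B' * C) * C' := by simp only [mul_assoc]
      _ = A * (B * A') * (C * B') * C' := by rw [h1, h3]
      _ = A * B * (A' * C) * B' * C' := by simp only [mul_assoc]
      _ = A * B * (C * A') * B' * C' := by rw [h2]
      _ = A * B * C * (A' * B' * C') := by simp only [mul_assoc]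
  κ_sq := by
    intro c
    show pw (S.e 1) c.1 * pw (S.e 2) c.2.1.2 * pw (S.e 3) c.2.2 *
      (pw (S.e 1) c.1 * pw (S.e 2) c.2.1.2 * pw (S.e 3) c.2.2) = 1
    generalize hA : pw (S.e 1) c.1 = A
    generalize hB : pw (S.e 2) c.2.1.2 = B
    generalize hC : pw (S.e 3) c.2.2 = C
    have h1 : A * B = B * A := by rw [← hA, ← hB]; exact pw_e_comm S _ _ _ _
    have h2 : A * C = C * A := by rw [← hA, ← hC]; exact pw_e_comm S _ _ _ _
    have h3 : B * C = C * B := by rw [← hB, ← hC]; exact pw_e_comm S _ _ _ _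
    have hAA : A * A = 1 := by rw [← hA]; exact pw_e_sq S _ _
    have hBB : B * B = 1 := by rw [← hB]; exact pw_e_sq S _ _
    have hCC : C * C = 1 := by rw [← hC]; exact pw_e_sq S _ _
    calc A * B * C * (A * B * C) = A * B * (C * A) * B * C := by simp only [mul_assoc]
      _ = A * B * (A * C) * B * C := by rw [h2]
      _ = A * (B * A) * (C * B) * C := by simp only [mul_assoc]
      _ = A * (A * B) * (B * C) * C := by rw [← h1, ← h3]
      _ = (A * A) * (B * B) * (C * C) := by simp only [mul_assoc]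
      _ = 1 := by rw [hAA, hBB, hCC, one_mul, one_mul]
  κ_ns := by
    intro n hn c
    simp only [List.mem_cons, List.not_mem_nil, or_false] at hn
    rcases hn with rfl
    show S.e 0 * (pw (S.e 1) c.1 * pw (S.e 2) c.2.1.2 * pw (S.e 3) c.2.2) =
      pw (S.e 1) c.1 * pw (S.e 2) c.2.1.2 * pw (S.e 3) c.2.2 * S.e 0
    rw [← mul_assoc, ← mul_assoc, e_pw_comm S 0 1, mul_assoc (pw (S.e 1) c.1), e_pw_comm S 0 2,
      ← mul_assoc, mul_assoc _ (S.e 0), e_pw_comm S 0 3, ← mul_assoc]
  avg_eq := by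
    have h : (avg fun c : ZMod 2 × ((Unit × ZMod 2) × ZMod 2) =>
        (pt (pw (S.e 1) c.1 * pw (S.e 2) c.2.1.2 * pw (S.e 3) c.2.2) : GA G)) =
          hh (S.e 1) * (hh (S.e 2) * hh (S.e 3)) := by
      have h0 : (fun c : ZMod 2 × ((Unit × ZMod 2) × ZMod 2) =>
          (pt (pw (S.e 1) c.1 * pw (S.e 2) c.2.1.2 * pw (S.e 3) c.2.2) : GA G)) =
          fun c => pt (pw (S.e 1) c.1) * (pt (pw (S.e 2) c.2.1.2) * pt (pw (S.e 3) c.2.2)) := by
        funext c
        rw [pt_mul, pt_mul, mul_assoc]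
      rw [h0, avg_prod]
      simp only [avg_mul_left]
      rw [avg_mul_right, avg_pt_pw, avg_prod]
      simp only [avg_mul_left]
      rw [avg_mul_right, avg_pt_pw, avg_prod, avg_unit, avg_pt_pw]
    rw [h]
    simp only [List.map_cons, List.map_nil, List.prod_cons, List.prod_nil, mul_one]
    unfold SGp.mV
    simp only [mul_assoc]
  gen := by
    apply gen_of
    intro i
    fin_cases i
    · exact Or.inl (by simp)
    · exact Or.inr ⟨(1, (((), 0), 0)), by
        show pw (S.e 1) 1 * pw (S.e 2) 0 * pw (S.e 3) 0 = S.e 1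
        rw [pw_one, pw_zero, pw_zero, mul_one, mul_one]⟩
    · exact Or.inr ⟨(0, (((), 1), 0)), by
        show pw (S.e 1) 0 * pw (S.e 2) 1 * pw (S.e 3) 0 = S.e 2
        rw [pw_one, pw_zero, pw_zero, mul_one, one_mul]⟩
    · exact Or.inr ⟨(0, (((), 0), 1)), by
        show pw (S.e 1) 0 * pw (S.e 2) 0 * pw (S.e 3) 1 = S.e 3
        rw [pw_one, pw_zero, pw_zero, one_mul, one_mul]⟩

theorem step12 : LevStep (lev1 S) (lev2 S) := by
  refine ⟨⟨[S.e 1, S.e 2], rfl, ?_, ?_⟩, ?_, ?_⟩
  · intro n hn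
    simp only [List.mem_cons, List.not_mem_nil, or_false] at hn
    rcases hn with rfl | rfl
    · exact ⟨S.root_e 1, S.sec_f 1 (by decide)⟩
    · exact ⟨S.root_e 2, S.sec_f 2 (by decide)⟩
  · show [S.e 0, S.e 1] = [S.sec true (S.e 1), S.sec true (S.e 2)]
    rw [S.sec_t1, S.sec_t2]
  · intro s r
    show IsPair S (pw (S.e 3) s) 1 (pw (S.e 2) s * pw (S.e 3) 0)
    have h := IsPair_pw S (IsPair_e3 S) s
    rwa [pw_one_left, ← mul_one (pw (S.e 2) s), ← pw_zero (S.e 3)] at h
  · intro t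
    show pw (S.e 2) 0 * pw (S.e 3) t = pw (S.e 3) t
    rw [pw_zero, one_mul]

theorem step23 : LevStep (lev2 S) (lev3 S) := by
  refine ⟨⟨[S.e 1], rfl, ?_, ?_⟩, ?_, ?_⟩
  · intro n hn
    simp only [List.mem_cons, List.not_mem_nil, or_false] at hn
    rcases hn with rfl
    exact ⟨S.root_e 1, S.sec_f 1 (by decide)⟩
  · show [S.e 0] = [S.sec true (S.e 1)]
    rw [S.sec_t1]
  · intro s r
    show IsPair S (pw (S.e 2) s * pw (S.e 3) r.2) 1
      (pw (S.e 1) s * pw (S.e 2) r.2 * pw (S.e 3) 0)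
    have h := IsPair_mul (IsPair_pw S (IsPair_e2 S) s) (IsPair_pw S (IsPair_e3 S) r.2)
    rw [pw_one_left, pw_one_left, one_mul] at h
    rw [pw_zero, mul_one]
    exact h
  · intro t
    show pw (S.e 1) 0 * pw (S.e 2) 0 * pw (S.e 3) t = pw (S.e 3) t
    rw [pw_zero, pw_zero, one_mul, one_mul]

theorem lev1_m : (lev1 S).m = hh (S.e 0) * hh (S.e 1) * hh (S.e 2) := by
  show ([S.e 0, S.e 1, S.e 2].map hh).prod = _
  simp only [List.map_cons, List.map_nil, List.prod_cons, List.prod_nil, mul_one, mul_assoc]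

end Pool.Agent.PHF
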