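import Pool.Agent.PHF.Enb

set_option autoImplicit false

namespace Pool.Agent.PHF

/-! Module INF: laws and entropy of the products of a level. -/

variable {G : Type} [Group G] {S : SGp G} {R : Type} [AddCommGroup R] [Fintype R]

namespace InfAux

theorem prod_comm_one (g : G) (ns : List G) (hc : ∀ n ∈ ns, g * n = n * g) :
    hh g * (ns.map hh).prod = (ns.map hh).prod * hh g := by
  induction ns with
  | nil => simp
  | cons n t ih =>
    rw [List.map_cons, List.prod_cons, ← mul_assoc, hh_comm g n (hc n (by simp)), mul_assoc,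
      ih (fun k hk => hc k (by simp [hk])), mul_assoc]

theorem prod_idem (ns : List G) (hs : ∀ n ∈ ns, n * n = 1)
    (hc : ∀ n ∈ ns, ∀ n' ∈ ns, n * n' = n' * n) :
    (ns.map hh).prod * (ns.map hh).prod = (ns.map hh).prod := by
  induction ns with
  | nil => simp
  | cons n t ih =>
    have ih' := ih (fun k hk => hs k (by simp [hk]))
      (fun k hk k' hk' => hc k (by simp [hk]) k' (by simp [hk']))
    have h1 : hh n * (t.map hh).prod = (t.map hh).prod * hh n :=
      prod_comm_one n t (fun k hk => hc n (by simp) k (by simp [hk]))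
    rw [List.map_cons, List.prod_cons]
    calc hh n * (t.map hh).prod * (hh n * (t.map hh).prod)
        = hh n * ((t.map hh).prod * hh n) * (t.map hh).prod := by simp only [mul_assoc]
      _ = hh n * (hh n * (t.map hh).prod) * (t.map hh).prod := by rw [h1]
      _ = (hh n * hh n) * ((t.map hh).prod * (t.map hh).prod) := by simp only [mul_assoc]
      _ = hh n * (t.map hh).prod := by rw [hh_mul_self n (hs n (by simp)), ih']

theorem prod_comm_pt (g : G) (ns : List G) (hc : ∀ n ∈ ns, n * g = g * n) :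
    (ns.map hh).prod * pt g = pt g * (ns.map hh).prod := by
  induction ns with
  | nil => simp
  | cons n t ih =>
    rw [List.map_cons, List.prod_cons, mul_assoc, ih (fun k hk => hc k (by simp [hk])),
      ← mul_assoc, hh_comm_pt n g (hc n (by simp)), mul_assoc]

theorem Ex_mul_left {α : Type} [Fintype α] (k : ℕ) (p : GA G) (Φ : List α → GA G) :
    Ex k (fun l => p * Φ l) = p * Ex k Φ := by
  induction k generalizing Φ with
  | zero => rfl
  | succ k ih =>
    rw [Ex_succ, Ex_succ, ← avg_mul_left]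
    congr 1
    funext x
    exact ih _

/-- The auxiliary products. -/
noncomputable def U (L : Lev S R) : (ZMod 2 × R) → List (ZMod 2 × R) → GA G
  | _, [] => L.m
  | c, d :: l => pt (L.κ c) * L.m * pt (L.κ d) * pt S.a * U L d l

/-- The averages of the auxiliary products. -/
noncomputable def W (L : Lev S R) : ℕ → GA G
  | 0 => L.m
  | k + 1 => S.mV * pt S.a * W L k

end InfAux

open InfAux

theorem law_m (L : Lev S R) : IsLaw L.m := by
  unfold Lev.m
  apply IsLaw.list_prod
  intro p hp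
  rw [List.mem_map] at hp
  obtain ⟨n, _, rfl⟩ := hp
  exact IsLaw.hh n

theorem law_q (L : Lev S R) (l : List (ZMod 2 × R)) : IsLaw (L.q l) := by
  induction l with
  | nil => exact law_m L
  | cons c l ih =>
    exact ((((law_m L).mul (IsLaw.pt _)).mul (IsLaw.pt _)).mul (IsLaw.pt _)).mul ih

theorem m_mul_m (L : Lev S R) : L.m * L.m = L.m :=
  prod_idem L.ns L.ns_sq L.ns_comm

theorem m_mul_q (L : Lev S R) (l : List (ZMod 2 × R)) : L.m * L.q l = L.q l := by
  cases l with
  | nil => exact m_mul_m L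
  | cons c l =>
    show L.m * (L.m * pt (L.κ c) * pt S.a * pt (L.κ c) * L.q l) =
      L.m * pt (L.κ c) * pt S.a * pt (L.κ c) * L.q l
    simp only [← mul_assoc]
    rw [m_mul_m]

theorem m_mul_κ (L : Lev S R) (c : ZMod 2 × R) : L.m * pt (L.κ c) = pt (L.κ c) * L.m :=
  prod_comm_pt (L.κ c) L.ns (fun n hn => L.κ_ns n hn c)

namespace InfAux

theorem pt_κ_sq (L : Lev S R) (c : ZMod 2 × R) : pt (L.κ c) * pt (L.κ c) = (1 : GA G) := by
  rw [pt_mul, L.κ_sq, pt_one]

theorem U_eq (L : Lev S R) (l : List (ZMod 2 × R)) :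
    ∀ c, ∃ e, U L c l = pt (L.κ c) * L.q l * pt (L.κ e) := by
  induction l with
  | nil =>
    intro c
    refine ⟨c, ?_⟩
    show L.m = pt (L.κ c) * L.m * pt (L.κ c)
    rw [← m_mul_κ, mul_assoc, pt_κ_sq, mul_one]
  | cons d l ih =>
    intro c
    obtain ⟨e, he⟩ := ih d
    refine ⟨e, ?_⟩
    show pt (L.κ c) * L.m * pt (L.κ d) * pt S.a * U L d l =
      pt (L.κ c) * (L.m * pt (L.κ d) * pt S.a * pt (L.κ d) * L.q l) * pt (L.κ e)
    rw [he]
    simp only [mul_assoc]

theorem law_U (L : Lev S R) (c : ZMod 2 × R) (l : List (ZMod 2 × R)) : IsLaw (U L c l) := by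
  obtain ⟨e, he⟩ := U_eq L l c
  rw [he]
  exact ((IsLaw.pt _).mul (law_q L l)).mul (IsLaw.pt _)

theorem Ent_U (L : Lev S R) (c : ZMod 2 × R) (l : List (ZMod 2 × R)) :
    Ent (U L c l) = Ent (L.q l) := by
  obtain ⟨e, he⟩ := U_eq L l c
  rw [he, Ent_mul_pt, Ent_pt_mul]

theorem κ_avg (L : Lev S R) (c : ZMod 2 × R) :
    pt (L.κ c) * avg (fun d => pt (L.κ d)) = avg (fun d => pt (L.κ d)) := by
  rw [← avg_mul_left]
  have h := avg_add_left c (fun d => (pt (L.κ d) : GA G))
  rw [← h]
  congr 1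
  funext d
  rw [pt_mul, L.κ_add]

theorem κ_mV (L : Lev S R) (c : ZMod 2 × R) : pt (L.κ c) * S.mV = S.mV := by
  have h : S.mV = L.m * avg (fun d => pt (L.κ d)) := L.avg_eq.symm
  rw [h, ← mul_assoc, ← m_mul_κ, mul_assoc, κ_avg]

theorem Ex_U (L : Lev S R) (k : ℕ) : ∀ c, Ex k (U L c) = W L k := by
  induction k with
  | zero => intro c; rfl
  | succ k ih =>
    intro c
    rw [Ex_succ]
    show (avg fun d => Ex k fun l => pt (L.κ c) * L.m * pt (L.κ d) * pt S.a * U L d l) =
      S.mV * pt S.a * W L k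
    have h1 : (fun d => Ex k fun l => pt (L.κ c) * L.m * pt (L.κ d) * pt S.a * U L d l) =
        fun d => pt (L.κ c) * L.m * (pt (L.κ d) * (pt S.a * W L k)) := by
      funext d
      rw [Ex_mul_left, ih d]
      simp only [mul_assoc]
    rw [h1, avg_mul_left, avg_mul_right]
    have h2 : pt (L.κ c) * L.m * (avg (fun d => pt (L.κ d)) * (pt S.a * W L k)) =
        pt (L.κ c) * (L.m * avg (fun d => pt (L.κ d))) * pt S.a * W L k := by
      simp only [mul_assoc]
    have h3 : L.m * avg (fun d => pt (L.κ d)) = S.mV := L.avg_eq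
    rw [h2, h3, κ_mV]

theorem law_avgκ (L : Lev S R) : IsLaw (avg (fun c => pt (L.κ c)) : GA G) :=
  IsLaw.avg _ fun _ => IsLaw.pt _

theorem law_W (L : Lev S R) (k : ℕ) : IsLaw (W L k) := by
  rw [← Ex_U L k 0]
  exact IsLaw.Ex k _ fun l => law_U L 0 l

theorem W_mul (L : Lev S R) (k : ℕ) : W L k * avg (fun c => pt (L.κ c)) = S.lam k := by
  induction k with
  | zero => exact L.avg_eq
  | succ k ih =>
    show S.mV * pt S.a * W L k * avg (fun c => pt (L.κ c)) = S.mV * pt S.a * S.lam k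
    rw [mul_assoc, ih]

end InfAux

/-- Entropy of the products of level L, averaged over the known part. -/
theorem Ent_q (L : Lev S R) : ∃ C : ℝ, 0 ≤ C ∧ ∀ k : ℕ,
    Ex k (fun l => Ent (L.q l)) ≤ C * Real.sqrt (k + 1) := by
  obtain ⟨C, hC, h⟩ := Ent_lam S
  refine ⟨C, hC, fun k => ?_⟩
  have h1 : Ex k (fun l => Ent (L.q l)) = Ex k (fun l => Ent (U L 0 l)) :=
    Ex_congr k _ _ fun l _ => (Ent_U L 0 l).symm
  calc Ex k (fun l => Ent (L.q l)) = Ex k (fun l => Ent (U L 0 l)) := h1
    _ ≤ Ent (Ex k (U L 0)) := Ent_Ex k _ fun l => law_U L 0 l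
    _ = Ent (W L k) := by rw [Ex_U]
    _ ≤ Ent (W L k * avg (fun c => pt (L.κ c))) := Ent_mul_right (law_W L k) (law_avgκ L)
    _ = Ent (S.lam k) := by rw [W_mul]
    _ ≤ C * Real.sqrt (k + 1) := h k

end Pool.Agent.PHF
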