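import Pool.Agent.PHF.Cor
import Pool.Agent.PHF.Inf

set_option autoImplicit false

namespace Pool.Agent.PHF

/-! Module TH0: passing from the child 0 to the child 1 of a list shorter by one. -/

variable {G : Type} [Group G] {S : SGp G} {R : Type} [AddCommGroup R] [Fintype R]

namespace ThbAux

theorem comm_prod (g : G) (rest : List G) (h : ∀ n ∈ rest, n * g = g * n) :
    pt g * (rest.map hh).prod = (rest.map hh).prod * pt g := by
  induction rest with
  | nil => simp
  | cons n rest ih =>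
    rw [List.map_cons, List.prod_cons, ← mul_assoc,
      ← hh_comm_pt n g (h n (by simp)), mul_assoc, ih fun x hx => h x (by simp [hx]), mul_assoc]

theorem law_prod (rest : List G) : IsLaw (rest.map hh).prod :=
  IsLaw.list_prod _ fun p hp => by
    obtain ⟨n, _, rfl⟩ := List.mem_map.mp hp
    exact IsLaw.hh n

end ThbAux

open ThbAux

theorem th0 {L : Lev S R} {L' : Lev S (R × ZMod 2)} (hL : LevStep L L') {g γ : G}
    (hg : IsPair S g γ 1) (s : ZMod 2) (r : R) (l : List (ZMod 2 × R)) (G' : ZMod 2 → G)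
    (hG' : ∀ ω, IsPair S (G' ω) 1
      (L'.κ (s, (r, 0)) * (pw S.a ω * γ * pw S.a ω) * L'.κ (s, (r, 0)))) :
    He (pt g * L.q ((s, r) :: l)) (L.q ((s, r) :: l)) ≤
      avg fun ω => He (pt (G' ω) * L.q l) (L.q l) := by
  obtain ⟨rest, hns, hrest, -⟩ := hL.head
  set κ := L.κ (s, r) with hκ
  set κ' := L'.κ (s, (r, 0)) with hκ'
  have hκp : IsPair S κ 1 κ' := hL.κ_pair s r
  have hκκ : κ * κ = 1 := L.κ_sq _
  have hκκ' : κ' * κ' = 1 := L'.κ_sq _
  set m2 : GA G := (rest.map hh).prod with hm2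
  have hm : L.m = hh (S.e 0) * m2 := by
    unfold Lev.m
    rw [hns, List.map_cons, List.prod_cons]
  have hm2l : IsLaw m2 := law_prod rest
  set k := κ * S.a * κ with hk
  have hkk : k * k = 1 := by
    rw [hk]
    calc κ * S.a * κ * (κ * S.a * κ) = κ * S.a * (κ * κ) * S.a * κ := by group
      _ = κ * (S.a * S.a) * κ := by rw [hκκ]; group
      _ = 1 := by rw [S.a_sq, mul_one, hκκ]
  have hq : L.q ((s, r) :: l) = hh (S.e 0) * (m2 * (pt k * L.q l)) := by
    show L.m * pt (L.κ (s, r)) * pt S.a * pt (L.κ (s, r)) * L.q l = _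
    rw [hm, ← hκ, hk, ← pt_mul, ← pt_mul]
    simp only [mul_assoc]
  -- the conjugates of g
  set gω : ZMod 2 → G := fun ω => pw (S.e 0) ω * g * pw (S.e 0) ω with hgω
  have hpw : ∀ ω : ZMod 2, IsPair S (pw (S.e 0) ω) (pw S.a ω) (pw (S.e 3) ω) := by
    intro ω
    unfold pw
    split_ifs
    · exact IsPair_one S
    · exact IsPair_e0 S
  have hgωp : ∀ ω, IsPair S (gω ω) (pw S.a ω * γ * pw S.a ω) 1 := by
    intro ω
    have := IsPair_mul (IsPair_mul (hpw ω) hg) (hpw ω)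
    rwa [mul_one, pw_sq (S.e 3) (S.e_sq 3) ω] at this
  have hcomm : ∀ ω, pt g * pt (pw (S.e 0) ω) = pt (pw (S.e 0) ω) * pt (gω ω) := by
    intro ω
    rw [pt_mul, pt_mul]
    congr 1
    rw [hgω]
    calc g * pw (S.e 0) ω = (pw (S.e 0) ω * pw (S.e 0) ω) * g * pw (S.e 0) ω := by
          rw [pw_sq (S.e 0) (S.e_sq 0) ω, one_mul]
      _ = _ := by simp only [mul_assoc]
  have hcm : ∀ ω, pt (gω ω) * m2 = m2 * pt (gω ω) := by
    intro ω
    refine comm_prod _ _ fun n hn => ?_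
    obtain ⟨hn1, hn2⟩ := hrest n hn
    have hnp : IsPair S n 1 (S.sec true n) := ⟨hn1, hn2, rfl⟩
    have h1 := IsPair_mul hnp (hgωp ω)
    have h2 := IsPair_mul (hgωp ω) hnp
    simp only [one_mul, mul_one] at h1 h2
    exact IsPair_unique h1 h2
  have hGk : ∀ ω, k * gω ω * k = G' ω := by
    intro ω
    have h1 := IsPair_mul (IsPair_mul hκp (hgωp ω)) hκp
    simp only [one_mul, mul_one] at h1
    rw [hκκ'] at h1
    have h2 := IsPair_conj_a h1
    have h3 := IsPair_mul (IsPair_mul hκp h2) hκp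
    simp only [one_mul, mul_one] at h3
    have h4 := IsPair_unique h3 (hG' ω)
    rw [← h4, hk]
    simp only [mul_assoc]
  rw [hq]
  set Y := L.q l with hY
  have hYl : IsLaw Y := law_q L l
  have hXl : IsLaw (pt k * Y) := (IsLaw.pt k).mul hYl
  have e1 : pt g * (hh (S.e 0) * (m2 * (pt k * Y))) =
      avg fun ω : ZMod 2 => pt (pw (S.e 0) ω) * (pt (gω ω) * (m2 * (pt k * Y))) := by
    rw [hh_eq_avg, ← avg_mul_right, ← avg_mul_left]
    congr 1
    funext ω
    rw [← mul_assoc, hcomm ω, mul_assoc]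
  have e2 : hh (S.e 0) * (m2 * (pt k * Y)) =
      avg fun ω : ZMod 2 => pt (pw (S.e 0) ω) * (m2 * (pt k * Y)) := by
    rw [hh_eq_avg, ← avg_mul_right]
  have hZ : NN (m2 * (pt k * Y)) := (hm2l.mul hXl).nn
  calc He (pt g * (hh (S.e 0) * (m2 * (pt k * Y)))) (hh (S.e 0) * (m2 * (pt k * Y)))
      = He (avg fun ω : ZMod 2 => pt (pw (S.e 0) ω) * (pt (gω ω) * (m2 * (pt k * Y))))
          (avg fun ω : ZMod 2 => pt (pw (S.e 0) ω) * (m2 * (pt k * Y))) := by rw [e1, e2]
    _ ≤ avg fun ω : ZMod 2 => He (pt (pw (S.e 0) ω) * (pt (gω ω) * (m2 * (pt k * Y))))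
          (pt (pw (S.e 0) ω) * (m2 * (pt k * Y))) :=
        He_avg_le _ _ (fun ω => (NN.pt _).mul ((NN.pt _).mul hZ)) fun ω => (NN.pt _).mul hZ
    _ ≤ _ := by
        refine avg_mono _ _ fun ω => ?_
        rw [He_pt_mul, ← mul_assoc (pt (gω ω)), hcm, mul_assoc]
        refine (He_mul_left_le ((NN.pt _).mul hXl.nn) hXl.nn hm2l).trans (le_of_eq ?_)
        rw [← He_pt_mul k (pt (G' ω) * Y) Y, ← hGk ω, ← mul_assoc, ← mul_assoc, pt_mul, pt_mul]
        congr 3
        calc gω ω * k = (k * k) * gω ω * k := by rw [hkk, one_mul]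
          _ = _ := by simp only [mul_assoc]

end Pool.Agent.PHF
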