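import Pool.Agent.PHF.Tha
import Pool.Agent.PHF.Thb
import Pool.Agent.PHF.Avs
import Pool.Agent.PHF.Gen
import Pool.Agent.PHF.Gcl
import Pool.Agent.PHF.Lvs
import Pool.Agent.PHF.Fnt

set_option autoImplicit false

namespace Pool.Agent.PHF

/-! Module CHN: second moment of the squared Hellinger distance at level 1. -/

namespace ChnAux

variable {G : Type} [Group G]

/-- Conjugate. -/
def cj (h g : G) : G := h * g * h⁻¹

theorem cj_mul (h h' g : G) : cj h (cj h' g) = cj (h * h') g := by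
  unfold cj; group

theorem cj_one (g : G) : cj 1 g = g := by
  unfold cj; group

/-- Conjugation by an involution. -/
theorem cj_inv {x : G} (hx : x * x = 1) (g : G) : x * g * x = cj x g := by
  unfold cj
  rw [inv_eq_of_mul_eq_one_left hx]

/-- The squared Hellinger distance of the translate at level `L`. -/
noncomputable def HH {S : SGp G} {R : Type} [AddCommGroup R] [Fintype R] (L : Lev S R) (g : G)
    (l : List (ZMod 2 × R)) : ℝ := He (pt g * L.q l) (L.q l)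

variable {S : SGp G}

section lev

variable {R : Type} [AddCommGroup R] [Fintype R]

theorem HH_nonneg (L : Lev S R) (g : G) (l : List (ZMod 2 × R)) : 0 ≤ HH L g l := He_nonneg _ _

theorem HH_le (L : Lev S R) (g : G) (l : List (ZMod 2 × R)) : HH L g l ≤ 2 :=
  He_le_two ((IsLaw.pt g).mul (law_q L l)) (law_q L l)

theorem Av_add' (Φ Ψ : List (ZMod 2 × R) → ℝ) (T : List (ZMod 2)) :
    Av (fun l => Φ l + Ψ l) T = Av Φ T + Av Ψ T := Av_add Φ Ψ T

/-- One step of the chain in general form. -/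
theorem step {L : Lev S R} {L' : Lev S (R × ZMod 2)} (hL : LevStep L L') {ι : Type}
    (s : Finset ι) (g : ι → G) (hg : ∀ i ∈ s, g i ∈ S.BB)
    (hre : ∀ (ω u : ZMod 2) (r : R) (ψ : G → ℝ),
      ∑ i ∈ s, ψ (L'.κ (u, (r, 0)) * (pw S.a ω * g i * pw S.a ω) * L'.κ (u, (r, 0))) =
        ∑ i ∈ s, ψ (g i))
    (hmem : ∀ (ω u : ZMod 2) (r : R), ∀ i ∈ s,
      L'.κ (u, (r, 0)) * (pw S.a ω * g i * pw S.a ω) * L'.κ (u, (r, 0)) ∈ S.BB)
    (u : ZMod 2) (T : List (ZMod 2)) :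
    Av (fun l => ∑ i ∈ s, (HH L (S.dl true (g i)) l + HH L (S.dl false (g i)) l)) (u :: T) ≤
      Sth (Av fun l => ∑ i ∈ s, HH L' (g i) l) 0 (u :: T) +
        Sth (Av fun l => ∑ i ∈ s, HH L' (g i) l) 0 T := by
  have h1 : ∀ l, ∑ i ∈ s, HH L (S.dl true (g i)) l ≤
      ThG (fun x => ∑ i ∈ s, HH L' (g i) x) 0 l := by
    intro l
    rw [ThG_sum]
    refine Finset.sum_le_sum fun i hi => ?_
    exact th1 hL (dl_true S (hg i hi)) l
  have h0 : ∀ (r : R) (l : List (ZMod 2 × R)),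
      ∑ i ∈ s, HH L (S.dl false (g i)) ((u, r) :: l) ≤
        ThG (fun x => ∑ i ∈ s, HH L' (g i) x) 0 l := by
    intro r l
    calc ∑ i ∈ s, HH L (S.dl false (g i)) ((u, r) :: l)
        ≤ ∑ i ∈ s, avg fun ω : ZMod 2 => HH L (S.dl true
            (L'.κ (u, (r, 0)) * (pw S.a ω * g i * pw S.a ω) * L'.κ (u, (r, 0)))) l := by
          refine Finset.sum_le_sum fun i hi => ?_
          exact th0 hL (dl_false S (hg i hi)) u r l _ fun ω => dl_true S (hmem ω u r i hi)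
      _ = avg fun ω : ZMod 2 => ∑ i ∈ s, HH L (S.dl true
            (L'.κ (u, (r, 0)) * (pw S.a ω * g i * pw S.a ω) * L'.κ (u, (r, 0)))) l := by
          unfold avg
          simp only [smul_eq_mul]
          rw [← Finset.mul_sum, Finset.sum_comm]
      _ = avg fun _ : ZMod 2 => ∑ i ∈ s, HH L (S.dl true (g i)) l := by
          congr 1
          funext ω
          exact hre ω u r fun x => HH L (S.dl true x) l
      _ = ∑ i ∈ s, HH L (S.dl true (g i)) l := avg_const _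
      _ ≤ _ := h1 l
  have key : ∀ (r : R) (l : List (ZMod 2 × R)),
      ∑ i ∈ s, (HH L (S.dl true (g i)) ((u, r) :: l) + HH L (S.dl false (g i)) ((u, r) :: l)) ≤
        ThG (fun x => ∑ i ∈ s, HH L' (g i) x) 0 ((u, r) :: l) +
          ThG (fun x => ∑ i ∈ s, HH L' (g i) x) 0 l := by
    intro r l
    rw [Finset.sum_add_distrib]
    exact add_le_add (h1 _) (h0 r l)
  rw [Av_cons]
  calc (avg fun r : R => Av (fun l => ∑ i ∈ s, (HH L (S.dl true (g i)) ((u, r) :: l) +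
        HH L (S.dl false (g i)) ((u, r) :: l))) T)
      ≤ avg fun r : R => Av (fun l => ThG (fun x => ∑ i ∈ s, HH L' (g i) x) 0 ((u, r) :: l) +
          ThG (fun x => ∑ i ∈ s, HH L' (g i) x) 0 l) T :=
        avg_mono _ _ fun r => Av_mono _ _ (fun l => key r l) T
    _ = avg fun r : R => (Av (fun l => ThG (fun x => ∑ i ∈ s, HH L' (g i) x) 0 ((u, r) :: l)) T +
          Av (fun l => ThG (fun x => ∑ i ∈ s, HH L' (g i) x) 0 l) T) := by
        congr 1
        funext r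
        exact Av_add _ _ T
    _ = Av (ThG (fun x => ∑ i ∈ s, HH L' (g i) x) 0) (u :: T) +
          Av (ThG (fun x => ∑ i ∈ s, HH L' (g i) x) 0) T := by
        rw [avg_add, avg_const, Av_cons]
    _ = _ := by
        rw [Av_ThG, Av_ThG]
        rfl

end lev

/-- For one-point second components the average is a value. -/
theorem Av_unit (Φ : List (ZMod 2 × Unit) → ℝ) (T : List (ZMod 2)) :
    Av Φ T = Φ (T.map fun s => (s, ())) := by
  induction T generalizing Φ with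
  | nil => rfl
  | cons s T ih =>
    rw [Av_cons]
    have : (fun r : Unit => Av (fun l => Φ ((s, r) :: l)) T) =
        fun _ : Unit => Φ ((s :: T).map fun s => (s, ())) := by
      funext r
      rw [ih]
      rfl
    rw [this, avg_const]

theorem Ex_unit_sq (k : ℕ) (Φ : List (ZMod 2 × Unit) → ℝ) :
    Ex k (fun T => Av Φ T ^ 2) = Ex k (fun l => Φ l ^ 2) := by
  rw [← Ex_Av]
  congr 1
  funext T
  rw [Av_unit, Av_unit]

/-- Reindexing over a set stable under left multiplication by involutions. -/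
theorem sum_cj (Hs : Finset G) (x γ : G) (hx : ∀ h, h ∈ Hs ↔ x * h ∈ Hs) (ψ : G → ℝ) :
    ∑ h ∈ Hs, ψ (cj x (cj h γ)) = ∑ h ∈ Hs, ψ (cj h γ) := by
  refine Finset.sum_equiv (Equiv.mulLeft x) (fun h => hx h) fun h _ => ?_
  rw [cj_mul]
  rfl

theorem pw_stab (Hs : Finset G) (x : G) (hx : ∀ h, h ∈ Hs ↔ x * h ∈ Hs) (s : ZMod 2) (h : G) :
    h ∈ Hs ↔ pw x s * h ∈ Hs := by
  unfold pw
  split_ifs
  · rw [one_mul]
  · exact hx h

theorem cj_pw_a (S : SGp G) (s : ZMod 2) (g : G) : pw S.a s * g * pw S.a s = cj (pw S.a s) g :=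
  cj_inv (pw_sq _ S.a_sq s) g

theorem cj_NN3 {γ : G} (hγ : γ ∈ S.NN3) (h : G) : cj h γ ∈ S.NN3 :=
  (Subgroup.normalClosure_normal (s := {S.e 0})).conj_mem γ hγ h

theorem cj_BB {γ : G} (hγ : γ ∈ S.BB) (h : G) : cj h γ ∈ S.BB := BB_conj S hγ h

theorem NN3_BB {γ : G} (hγ : γ ∈ S.NN3) : γ ∈ S.BB := NN1_le S γ (NN3_le S γ hγ)

end ChnAux

open ChnAux

variable {G : Type} [Group G] (S : SGp G)

theorem chn {γ : G} (hγ : γ ∈ S.NN3) (c c' : Bool) : ∃ C : ℝ, 0 ≤ C ∧ ∀ k : ℕ,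
    Ex k (fun l => He (pt (S.dl c (S.dl c' γ)) * (lev1 S).q l) ((lev1 S).q l) ^ 2) ≤
      C * ((k : ℝ) + 1) ^ (-(7 / 9 : ℝ)) := by
  classical
  obtain ⟨Hs, h1Hs, haHs, heHs⟩ := exists_Hs S
  -- the three families
  let s2 : Finset (G × Bool) := Hs ×ˢ Finset.univ
  let g2 : G × Bool → G := fun i => S.dl i.2 (cj i.1 γ)
  let F3 : List (ZMod 2) → ℝ := Av fun l => ∑ h ∈ Hs, HH (lev3 S) (cj h γ) l
  let F2 : List (ZMod 2) → ℝ := Av fun l => ∑ i ∈ s2, HH (lev2 S) (g2 i) l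
  let Φ1 : List (ZMod 2 × Unit) → ℝ := fun l =>
    ∑ i ∈ s2, (HH (lev1 S) (S.dl true (g2 i)) l + HH (lev1 S) (S.dl false (g2 i)) l)
  let F1 : List (ZMod 2) → ℝ := Av Φ1
  have hsum2 : ∀ ψ : G → ℝ, ∑ i ∈ s2, ψ (g2 i) =
      ∑ h ∈ Hs, (ψ (S.dl true (cj h γ)) + ψ (S.dl false (cj h γ))) := by
    intro ψ
    show ∑ i ∈ Hs ×ˢ Finset.univ, ψ (g2 i) = _
    rw [Finset.sum_product]
    refine Finset.sum_congr rfl fun h _ => ?_
    rw [Fintype.sum_bool]
  -- membership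
  have hγh : ∀ h, cj h γ ∈ S.BB := fun h => NN3_BB (cj_NN3 hγ h)
  have hg2 : ∀ i, g2 i ∈ S.BB := fun i => dl_mem S i.2 (cj_NN3 hγ i.1)
  -- reindexing at level 3
  have hre3 : ∀ (ω u : ZMod 2) (r : Unit × ZMod 2) (ψ : G → ℝ),
      ∑ h ∈ Hs, ψ ((lev3 S).κ (u, (r, 0)) * (pw S.a ω * cj h γ * pw S.a ω) *
        (lev3 S).κ (u, (r, 0))) = ∑ h ∈ Hs, ψ (cj h γ) := by
    intro ω u r ψ
    have e1 : ∀ h, (lev3 S).κ (u, (r, 0)) * (pw S.a ω * cj h γ * pw S.a ω) *
        (lev3 S).κ (u, (r, 0)) = cj ((lev3 S).κ (u, (r, 0)) * pw S.a ω) (cj h γ) := by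
      intro h
      rw [cj_pw_a, cj_inv ((lev3 S).κ_sq _), cj_mul]
    simp only [e1]
    apply sum_cj
    intro h
    show h ∈ Hs ↔ pw (S.e 1) u * pw (S.e 2) r.2 * pw (S.e 3) 0 * pw S.a ω * h ∈ Hs
    rw [mul_assoc, mul_assoc, mul_assoc,
      ← pw_stab Hs (S.e 1) (heHs 1 (by decide)), ← pw_stab Hs (S.e 2) (heHs 2 (by decide)),
      ← pw_stab Hs (S.e 3) (heHs 3 (by decide)), ← pw_stab Hs S.a haHs]
  -- reindexing at level 2
  have hre2 : ∀ (ω u : ZMod 2) (r : Unit) (ψ : G → ℝ),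
      ∑ i ∈ s2, ψ ((lev2 S).κ (u, (r, 0)) * (pw S.a ω * g2 i * pw S.a ω) *
        (lev2 S).κ (u, (r, 0))) = ∑ i ∈ s2, ψ (g2 i) := by
    intro ω u r ψ
    have key : ∀ u : ZMod 2, u = 0 ∨ u = 1 := by decide
    have hk : (lev2 S).κ (u, (r, 0)) = pw (S.e 2) u := by
      show pw (S.e 2) u * pw (S.e 3) 0 = _
      rw [pw_zero, mul_one]
    rw [hk]
    -- step A
    have hA : ∀ ψ : G → ℝ, ∑ i ∈ s2, ψ (pw S.a ω * g2 i * pw S.a ω) = ∑ i ∈ s2, ψ (g2 i) := by
      intro ψ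
      rcases key ω with rfl | rfl
      · simp only [pw_zero, one_mul, mul_one]
      · simp only [pw_one]
        rw [hsum2 ψ, hsum2 fun x => ψ (S.a * x * S.a)]
        refine Finset.sum_congr rfl fun h _ => ?_
        show ψ (S.a * S.dl true (cj h γ) * S.a) + ψ (S.a * S.dl false (cj h γ) * S.a) = _
        rw [dl_conj_a S true (hγh h), dl_conj_a S false (hγh h), add_comm]
        rfl
    -- step B
    have hB : ∀ ψ : G → ℝ, ∑ i ∈ s2, ψ (pw (S.e 2) u * g2 i * pw (S.e 2) u) =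
        ∑ i ∈ s2, ψ (g2 i) := by
      intro ψ
      rcases key u with rfl | rfl
      · simp only [pw_zero, one_mul, mul_one]
      · simp only [pw_one]
        rw [hsum2 ψ, hsum2 fun x => ψ (S.e 2 * x * S.e 2), Finset.sum_add_distrib,
          Finset.sum_add_distrib]
        congr 1
        · calc ∑ h ∈ Hs, ψ (S.e 2 * S.dl true (cj h γ) * S.e 2)
              = ∑ h ∈ Hs, ψ (S.dl true (cj (S.e 1) (cj h γ))) := by
                refine Finset.sum_congr rfl fun h _ => ?_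
                rw [cj_inv (S.e_sq 2)]
                show ψ (S.e 2 * S.dl true (cj h γ) * (S.e 2)⁻¹) = _
                rw [dl_conj_true S (IsPair_e2 S) (hγh h)]
                rfl
            _ = ∑ h ∈ Hs, ψ (S.dl true (cj h γ)) :=
                sum_cj Hs (S.e 1) γ (heHs 1 (by decide)) fun x => ψ (S.dl true x)
        · refine Finset.sum_congr rfl fun h _ => ?_
          show ψ (S.e 2 * S.dl false (cj h γ) * S.e 2) = _
          rw [cj_inv (S.e_sq 2)]
          show ψ (S.e 2 * S.dl false (cj h γ) * (S.e 2)⁻¹) = _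
          rw [dl_conj_false S (IsPair_e2 S) (hγh h)]
          simp only [one_mul, inv_one, mul_one]
    rw [hA fun x => ψ (pw (S.e 2) u * x * pw (S.e 2) u), hB]
  -- step inequalities
  have st2 : ∀ a l, F2 (a :: l) ≤ Sth F3 0 (a :: l) + Sth F3 0 l := by
    intro a l
    have h := step (step23 S) Hs (fun h => cj h γ) (fun h _ => hγh h) hre3 (fun ω u r h _ => by
      rw [cj_pw_a, cj_inv ((lev3 S).κ_sq _), cj_mul]
      exact cj_BB (hγh h) _) a l
    have hF2 : F2 = Av fun l => ∑ h ∈ Hs, (HH (lev2 S) (S.dl true (cj h γ)) l +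
        HH (lev2 S) (S.dl false (cj h γ)) l) := by
      show (Av fun l => ∑ i ∈ s2, HH (lev2 S) (g2 i) l) = _
      congr 1
      funext l
      exact hsum2 fun x => HH (lev2 S) x l
    rw [hF2]
    exact h
  have st1 : ∀ a l, F1 (a :: l) ≤ Sth F2 0 (a :: l) + Sth F2 0 l := by
    intro a l
    exact step (step12 S) s2 g2 (fun i _ => hg2 i) hre2 (fun ω u r i _ => by
      rw [cj_pw_a, cj_inv ((lev2 S).κ_sq _), cj_mul]
      exact cj_BB (hg2 i) _) a l
  -- bounds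
  obtain ⟨M, hM3, hM2, hM1⟩ : ∃ M : ℝ, (Hs.card : ℝ) * 2 ≤ M ∧ (s2.card : ℝ) * 2 ≤ M ∧
      (s2.card : ℝ) * 4 ≤ M := by
    refine ⟨(Hs.card : ℝ) * 2 + (s2.card : ℝ) * 4, ?_, ?_, ?_⟩
    · have : (0 : ℝ) ≤ (s2.card : ℝ) := Nat.cast_nonneg _
      linarith
    · have : (0 : ℝ) ≤ (s2.card : ℝ) := Nat.cast_nonneg _
      have : (0 : ℝ) ≤ (Hs.card : ℝ) := Nat.cast_nonneg _
      linarith
    · have : (0 : ℝ) ≤ (Hs.card : ℝ) := Nat.cast_nonneg _
      linarith
  have hF3n : ∀ l, 0 ≤ F3 l :=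
    fun l => Av_nonneg _ (fun l => Finset.sum_nonneg fun h _ => HH_nonneg _ _ _) l
  have hF2n : ∀ l, 0 ≤ F2 l :=
    fun l => Av_nonneg _ (fun l => Finset.sum_nonneg fun h _ => HH_nonneg _ _ _) l
  have hΦ1n : ∀ l, 0 ≤ Φ1 l :=
    fun l => Finset.sum_nonneg fun h _ => add_nonneg (HH_nonneg _ _ _) (HH_nonneg _ _ _)
  have hF1n : ∀ l, 0 ≤ F1 l := fun l => Av_nonneg _ hΦ1n l
  have hF3M : ∀ l, F3 l ≤ M := fun l => Av_le_const _ M (fun l => by
    refine le_trans (Finset.sum_le_card_nsmul _ _ 2 fun h _ => HH_le _ _ _) ?_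
    rw [nsmul_eq_mul]; exact hM3) l
  have hF2M : ∀ l, F2 l ≤ M := fun l => Av_le_const _ M (fun l => by
    refine le_trans (Finset.sum_le_card_nsmul _ _ 2 fun h _ => HH_le _ _ _) ?_
    rw [nsmul_eq_mul]; exact hM2) l
  have hF1M : ∀ l, F1 l ≤ M := fun l => Av_le_const _ M (fun l => by
    refine le_trans (Finset.sum_le_card_nsmul _ _ 4 fun h _ => ?_) ?_
    · have := HH_le (lev1 S) (S.dl true (g2 h)) l
      have := HH_le (lev1 S) (S.dl false (g2 h)) l
      linarith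
    rw [nsmul_eq_mul]; exact hM1) l
  -- the mean at level 3
  have hmean : ∃ C : ℝ, ∀ k : ℕ, Ex k F3 ≤ C * ((k : ℝ) + 1) ^ (-(1 / 2 : ℝ)) := by
    have hg : ∀ h : G, ∃ C : ℝ, 0 ≤ C ∧ ∀ k : ℕ,
        Ex k (fun l => HH (lev3 S) (cj h γ) l) ≤ C / Real.sqrt (k + 1) := by
      intro h
      apply gcl (lev3 S) (cj h γ)
      have hset : {n | n ∈ (lev3 S).ns} = {S.e 0} := by
        ext n
        show n ∈ [S.e 0] ↔ n ∈ ({S.e 0} : Set G)
        simp
      rw [hset]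
      exact cj_NN3 hγ h
    choose C hC0 hC using hg
    refine ⟨∑ h ∈ Hs, C h, fun k => ?_⟩
    have e1 : Ex k F3 = ∑ h ∈ Hs, Ex k (fun l => HH (lev3 S) (cj h γ) l) := by
      show Ex k (Av fun l => ∑ h ∈ Hs, HH (lev3 S) (cj h γ) l) = _
      rw [Ex_Av]
      have : ∀ (t : Finset G), Ex k (fun l => ∑ h ∈ t, HH (lev3 S) (cj h γ) l) =
          ∑ h ∈ t, Ex k (fun l => HH (lev3 S) (cj h γ) l) := by
        intro t
        induction t using Finset.induction_on with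
        | empty =>
          simp only [Finset.sum_empty]
          exact Ex_const k 0
        | insert x t hx ih =>
          simp only [Finset.sum_insert hx]
          rw [Ex_add, ih]
      exact this Hs
    rw [e1, Finset.sum_mul]
    refine Finset.sum_le_sum fun h _ => (hC h k).trans (le_of_eq ?_)
    rw [Real.rpow_neg (by positivity), ← Real.sqrt_eq_rpow]
    rfl
  obtain ⟨C, hC⟩ := hmean
  obtain ⟨C', hC'0, hC'⟩ := gen_chain F3 F2 F1 M C hF3n hF3M hF2n hF2M hF1n hF1M st2 st1 hC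
  refine ⟨C', hC'0, fun k => le_trans ?_ (hC' k)⟩
  rw [Ex_unit_sq k Φ1]
  refine Ex_mono k _ _ fun l _ => ?_
  have hle : He (pt (S.dl c (S.dl c' γ)) * (lev1 S).q l) ((lev1 S).q l) ≤ Φ1 l := by
    have hmem : ((1 : G), c') ∈ s2 := Finset.mem_product.mpr ⟨h1Hs, Finset.mem_univ _⟩
    have h1 : HH (lev1 S) (S.dl c (g2 (1, c'))) l ≤
        HH (lev1 S) (S.dl true (g2 (1, c'))) l + HH (lev1 S) (S.dl false (g2 (1, c'))) l := by
      cases c
      · exact le_add_of_nonneg_left (HH_nonneg _ _ _)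
      · exact le_add_of_nonneg_right (HH_nonneg _ _ _)
    have h2 := Finset.single_le_sum (f := fun i => HH (lev1 S) (S.dl true (g2 i)) l +
      HH (lev1 S) (S.dl false (g2 i)) l) (fun i _ => add_nonneg (HH_nonneg _ _ _)
        (HH_nonneg _ _ _)) hmem
    have h3 : g2 (1, c') = S.dl c' γ := by
      show S.dl c' (cj 1 γ) = _
      rw [cj_one]
    rw [h3] at h1 h2
    exact h1.trans h2
  exact pow_le_pow_left₀ (He_nonneg _ _) hle 2

end Pool.Agent.PHF
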