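import Pool.Agent.PHF.Grb

set_option autoImplicit false

namespace Pool.Agent.PHF

/-! Module CODE: the number of letters of V, codes at depth N. -/

variable {G : Type} [Group G] (S : SGp G)

namespace CodAux

theorem Wd_a_mul (n : ℕ) (z : G) (hz : z ∈ S.Wd n) : S.a * z ∈ S.Wd n := by
  induction n generalizing z with
  | zero =>
    have hz' : z = 1 ∨ z = S.a := hz
    show S.a * z = 1 ∨ S.a * z = S.a
    rcases hz' with h | h
    · right; rw [h, mul_one]
    · left; rw [h, S.a_sq]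
  | succ n ih =>
    obtain ⟨y, hy, v, hv⟩ := hz
    refine ⟨S.a * y, ih y hy, v, ?_⟩
    rcases hv with h | h
    · left; rw [h]; group
    · right; rw [h]; group

theorem Wd_mul_a (n : ℕ) (z : G) (hz : z ∈ S.Wd n) : z * S.a ∈ S.Wd n := by
  cases n with
  | zero =>
    have hz' : z = 1 ∨ z = S.a := hz
    show z * S.a = 1 ∨ z * S.a = S.a
    rcases hz' with h | h
    · right; rw [h, one_mul]
    · left; rw [h, S.a_sq]
  | succ n =>
    obtain ⟨y, hy, v, hv⟩ := hz
    refine ⟨y, hy, v, ?_⟩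
    rcases hv with h | h
    · right; rw [h]
    · left; rw [h, mul_assoc _ S.a S.a, S.a_sq, mul_one]

theorem Wd_a_mul_iff (n : ℕ) (z : G) : S.a * z ∈ S.Wd n ↔ z ∈ S.Wd n := by
  refine ⟨fun h => ?_, Wd_a_mul S n z⟩
  have h2 := Wd_a_mul S n _ h
  rwa [← mul_assoc, S.a_sq, one_mul] at h2

theorem Wd_mul_a_iff (n : ℕ) (z : G) : z * S.a ∈ S.Wd n ↔ z ∈ S.Wd n := by
  refine ⟨fun h => ?_, Wd_mul_a S n z⟩
  have h2 := Wd_mul_a S n _ h
  rwa [mul_assoc, S.a_sq, mul_one] at h2

theorem exists_Wd (z : G) : ∃ n, z ∈ S.Wd n := by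
  refine G_induction S (P := fun z => ∃ n, z ∈ S.Wd n) ?_ ?_ ?_ z
  · exact ⟨0, Or.inl rfl⟩
  · rintro x ⟨n, hn⟩
    exact ⟨n, Wd_mul_a S n x hn⟩
  · rintro x i ⟨n, hn⟩
    exact ⟨n + 1, x, hn, Pi.single i 1, Or.inl (by rw [vv_single])⟩

theorem mem_Wd_Lv (z : G) : z ∈ S.Wd (S.Lv z) :=
  Nat.sInf_mem (exists_Wd S z)

/-- Finite sets containing the words. -/
noncomputable def WF : ℕ → Finset G
  | 0 => letI := Classical.decEq G; {1, S.a}
  | n + 1 => letI := Classical.decEq G
    ((WF n) ×ˢ ((Finset.univ : Finset (Fin 4 → ZMod 2)) ×ˢ (Finset.univ : Finset Bool))).image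
      fun t => t.1 * S.vv t.2.1 * (if t.2.2 then S.a else 1)

theorem mem_WF (n : ℕ) (z : G) (hz : z ∈ S.Wd n) : z ∈ WF S n := by
  classical
  induction n generalizing z with
  | zero =>
    have hz' : z = 1 ∨ z = S.a := hz
    unfold WF
    simpa using hz'
  | succ n ih =>
    obtain ⟨y, hy, v, hv⟩ := hz
    unfold WF
    rw [Finset.mem_image]
    rcases hv with h | h
    · refine ⟨(y, (v, false)), by simpa using ih y hy, ?_⟩
      simp [h]
    · refine ⟨(y, (v, true)), by simpa using ih y hy, ?_⟩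
      simp [h]

theorem card_WF (n : ℕ) : (WF S n).card ≤ 2 * 32 ^ n := by
  classical
  induction n with
  | zero =>
    unfold WF
    simpa using Finset.card_le_two (a := (1 : G)) (b := S.a)
  | succ n ih =>
    unfold WF
    refine Finset.card_image_le.trans ?_
    rw [Finset.card_product, Finset.card_product, Finset.card_univ, Finset.card_univ,
      Fintype.card_pi_const, ZMod.card, Fintype.card_bool, pow_succ]
    have : (WF S n).card * (2 ^ 4 * 2) ≤ (2 * 32 ^ n) * (2 ^ 4 * 2) := Nat.mul_le_mul_right _ ih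
    omega

theorem exp_five : Real.exp (-5) ≤ 1 / 128 := by
  have h1 : (2.7 : ℝ) < Real.exp 1 := by
    have := Real.exp_one_gt_d9
    linarith
  have h2 : Real.exp 5 = Real.exp 1 ^ 5 := by
    rw [← Real.exp_nat_mul]; norm_num
  have h3 : (128 : ℝ) ≤ Real.exp 5 := by
    rw [h2]
    calc (128 : ℝ) ≤ 2.7 ^ 5 := by norm_num
      _ ≤ Real.exp 1 ^ 5 := pow_le_pow_left₀ (by norm_num) h1.le 5
  rw [Real.exp_neg, one_div]
  exact inv_anti₀ (by norm_num) h3

theorem geom_bound (N : ℕ) : ∑ n ∈ Finset.range N, (1 / 64 : ℝ) * (1 / 4) ^ n ≤ 1 / 2 := by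
  have h : ∀ N : ℕ, ∑ n ∈ Finset.range N, (1 / 64 : ℝ) * (1 / 4) ^ n ≤
      1 / 48 * (1 - (1 / 4) ^ N) := by
    intro N
    induction N with
    | zero => simp
    | succ N ih =>
      rw [Finset.sum_range_succ, pow_succ]
      linarith
  have h2 : (0 : ℝ) < (1 / 4) ^ N := by positivity
  linarith [h N]

end CodAux

open CodAux

theorem Lv_one : S.Lv 1 = 0 :=
  Nat.le_zero.mp (Nat.sInf_le (show (1 : G) ∈ S.Wd 0 from Or.inl rfl))

theorem Lv_a_mul (z : G) : S.Lv (S.a * z) = S.Lv z := by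
  unfold SGp.Lv
  congr 1
  ext n
  exact Wd_a_mul_iff S n z

theorem Lv_mul_a (z : G) : S.Lv (z * S.a) = S.Lv z := by
  unfold SGp.Lv
  congr 1
  ext n
  exact Wd_mul_a_iff S n z

theorem Lv_mul_vv (z : G) (v : Fin 4 → ZMod 2) : S.Lv (z * S.vv v) ≤ S.Lv z + 1 :=
  Nat.sInf_le (show z * S.vv v ∈ S.Wd (S.Lv z + 1) from ⟨z, mem_Wd_Lv S z, v, Or.inl rfl⟩)

/-- Kraft inequality at depth 0. -/
theorem exists_code : ∃ c : ℝ, 0 < c ∧
    ∀ F : Finset G, ∑ z ∈ F, Real.exp (-(c * (1 + S.Lv z))) ≤ 1 / 2 := by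
  classical
  refine ⟨5, by norm_num, fun F => ?_⟩
  set N := F.sup S.Lv + 1 with hN
  have hmaps : ∀ z ∈ F, S.Lv z ∈ Finset.range N := by
    intro z hz
    rw [Finset.mem_range, hN]
    exact Nat.lt_succ_of_le (Finset.le_sup hz)
  rw [← Finset.sum_fiberwise_of_maps_to hmaps]
  refine le_trans (Finset.sum_le_sum fun n _ => ?_) (geom_bound N)
  have hcard : ((F.filter fun z => S.Lv z = n).card : ℝ) ≤ 2 * 32 ^ n := by
    have h1 : (F.filter fun z => S.Lv z = n) ⊆ WF S n := by
      intro z hz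
      rw [Finset.mem_filter] at hz
      exact mem_WF S n z (hz.2 ▸ mem_Wd_Lv S z)
    exact_mod_cast (Finset.card_le_card h1).trans (card_WF S n)
  have hexp : Real.exp (-(5 * (1 + (n : ℝ)))) ≤ (1 / 128) ^ (n + 1) := by
    have : -(5 * (1 + (n : ℝ))) = ((n + 1 : ℕ) : ℝ) * (-5) := by push_cast; ring
    rw [this, Real.exp_nat_mul]
    exact pow_le_pow_left₀ (Real.exp_pos _).le exp_five _
  calc ∑ z ∈ F.filter (fun z => S.Lv z = n), Real.exp (-(5 * (1 + (S.Lv z : ℝ))))
      = ∑ z ∈ F.filter (fun z => S.Lv z = n), Real.exp (-(5 * (1 + (n : ℝ)))) := by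
        refine Finset.sum_congr rfl fun z hz => ?_
        rw [(Finset.mem_filter.mp hz).2]
    _ = ((F.filter fun z => S.Lv z = n).card : ℝ) * Real.exp (-(5 * (1 + (n : ℝ)))) := by
        rw [Finset.sum_const, nsmul_eq_mul]
    _ ≤ (2 * 32 ^ n) * (1 / 128) ^ (n + 1) :=
        mul_le_mul hcard hexp (Real.exp_pos _).le (by positivity)
    _ = (1 / 64) * (1 / 4) ^ n := by
        rw [pow_succ, show (1 / 128 : ℝ) = (1 / 32) * (1 / 4) by norm_num, mul_pow]
        have : (32 : ℝ) ^ n * (1 / 32) ^ n = 1 := by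
          rw [← mul_pow]; norm_num
        calc (2 * (32 : ℝ) ^ n) * ((1 / 32) ^ n * (1 / 4) ^ n * (1 / 32 * (1 / 4)))
            = ((32 : ℝ) ^ n * (1 / 32) ^ n) * (1 / 64 * (1 / 4) ^ n) := by ring
          _ = _ := by rw [this, one_mul]

/-- Kraft inequality at depth N: an element is determined by its root and its two sections. -/
theorem kraft (c : ℝ) (hc : ∀ F : Finset G, ∑ z ∈ F, Real.exp (-(c * (1 + S.Lv z))) ≤ 1 / 2)
    (N : ℕ) (F : Finset G) : ∑ z ∈ F, Real.exp (-(S.ell c N z)) ≤ 1 / 2 := by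
  classical
  induction N generalizing F with
  | zero => exact hc F
  | succ N ih =>
    set F0 := F.image (S.sec false) with hF0
    set F1 := F.image (S.sec true) with hF1
    have hinj : Set.InjOn (fun z => (S.root z, (S.sec false z, S.sec true z))) (F : Set G) := by
      intro z _ w _ h
      have h' : S.root z = S.root w ∧ S.sec false z = S.sec false w ∧
          S.sec true z = S.sec true w := by
        simpa using h
      refine S.ext z w h'.1 fun b => ?_
      cases b
      · exact h'.2.1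
      · exact h'.2.2
    have hsub : F.image (fun z => (S.root z, (S.sec false z, S.sec true z))) ⊆
        (Finset.univ : Finset Bool) ×ˢ (F0 ×ˢ F1) := by
      intro t ht
      obtain ⟨z, hz, rfl⟩ := Finset.mem_image.mp ht
      simp only [Finset.mem_product, Finset.mem_univ, true_and]
      exact ⟨Finset.mem_image_of_mem _ hz, Finset.mem_image_of_mem _ hz⟩
    calc ∑ z ∈ F, Real.exp (-(S.ell c (N + 1) z))
        = ∑ z ∈ F, Real.exp (-(S.ell c N (S.sec false z))) *
            Real.exp (-(S.ell c N (S.sec true z))) := by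
          refine Finset.sum_congr rfl fun z _ => ?_
          rw [← Real.exp_add]
          congr 1
          show -(S.ell c N (S.sec false z) + S.ell c N (S.sec true z)) = _
          ring
      _ = ∑ t ∈ F.image (fun z => (S.root z, (S.sec false z, S.sec true z))),
            Real.exp (-(S.ell c N t.2.1)) * Real.exp (-(S.ell c N t.2.2)) := by
          rw [Finset.sum_image hinj]
      _ ≤ ∑ t ∈ (Finset.univ : Finset Bool) ×ˢ (F0 ×ˢ F1),
            Real.exp (-(S.ell c N t.2.1)) * Real.exp (-(S.ell c N t.2.2)) :=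
          Finset.sum_le_sum_of_subset_of_nonneg hsub fun _ _ _ => by positivity
      _ = 2 * ((∑ x ∈ F0, Real.exp (-(S.ell c N x))) * ∑ y ∈ F1, Real.exp (-(S.ell c N y))) := by
          rw [Finset.sum_product, Fintype.sum_bool, Finset.sum_product, Finset.sum_mul_sum]
          ring
      _ ≤ 2 * ((1 / 2) * (1 / 2)) := by
          have h0 := ih F0
          have h1 := ih F1
          have h2 : 0 ≤ ∑ y ∈ F1, Real.exp (-(S.ell c N y)) :=
            Finset.sum_nonneg fun _ _ => (Real.exp_pos _).le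
          have := mul_le_mul h0 h1 h2 (by norm_num : (0 : ℝ) ≤ 1 / 2)
          linarith
      _ = 1 / 2 := by norm_num

theorem Psi_pos (N : ℕ) (z : G) : 0 < S.Psi N z := by
  induction N generalizing z with
  | zero =>
    show (0 : ℝ) < 2 ^ S.Lv z
    positivity
  | succ N ih => exact add_pos (ih _) (ih _)

theorem Psi_one (N : ℕ) : S.Psi N 1 = 2 ^ N := by
  induction N with
  | zero =>
    show (2 : ℝ) ^ S.Lv 1 = 2 ^ 0
    rw [Lv_one]
  | succ N ih =>
    show S.Psi N (S.sec false 1) + S.Psi N (S.sec true 1) = 2 ^ (N + 1)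
    rw [sec_one, sec_one, ih, pow_succ]
    ring

theorem Psi_a_mul (N : ℕ) (z : G) : S.Psi N (S.a * z) = S.Psi N z := by
  cases N with
  | zero =>
    show (2 : ℝ) ^ S.Lv (S.a * z) = 2 ^ S.Lv z
    rw [Lv_a_mul]
  | succ N =>
    show S.Psi N (S.sec false (S.a * z)) + S.Psi N (S.sec true (S.a * z)) =
      S.Psi N (S.sec false z) + S.Psi N (S.sec true z)
    rw [S.sec_mul, S.sec_mul, S.sec_a, S.sec_a, one_mul, one_mul]

theorem Psi_mul_a (N : ℕ) (z : G) : S.Psi N (z * S.a) = S.Psi N z := by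
  cases N with
  | zero =>
    show (2 : ℝ) ^ S.Lv (z * S.a) = 2 ^ S.Lv z
    rw [Lv_mul_a]
  | succ N =>
    show S.Psi N (S.sec false (z * S.a)) + S.Psi N (S.sec true (z * S.a)) =
      S.Psi N (S.sec false z) + S.Psi N (S.sec true z)
    rw [S.sec_mul, S.sec_mul, S.sec_a, S.sec_a, mul_one, mul_one, S.root_a]
    show S.Psi N (S.sec true z) + S.Psi N (S.sec false z) = _
    ring

/-- Young inequality at each vertex of level N. -/
theorem ell_young (c : ℝ) (hc : 0 ≤ c) (N : ℕ) (z : G) (u : ℝ) (hu : 0 ≤ u) :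
    u * S.ell c N z ≤ c * 2 ^ N * u + (c / Real.log 2) * (2 ^ N * (u * Real.log u) + S.Psi N z) := by
  have hl2 : 0 < Real.log 2 := Real.log_pos (by norm_num)
  induction N generalizing z with
  | zero =>
    show u * (c * (1 + (S.Lv z : ℝ))) ≤ c * 2 ^ 0 * u +
      (c / Real.log 2) * (2 ^ 0 * (u * Real.log u) + 2 ^ S.Lv z)
    have hy : u * ((S.Lv z : ℝ) * Real.log 2) ≤ u * Real.log u + 2 ^ S.Lv z := by
      rcases hu.eq_or_lt with h | h
      · rw [← h]
        simp only [zero_mul, zero_add]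
        positivity
      · have h1 := Real.add_one_le_exp ((S.Lv z : ℝ) * Real.log 2 - Real.log u)
        have h2 : Real.exp ((S.Lv z : ℝ) * Real.log 2 - Real.log u) = 2 ^ S.Lv z / u := by
          rw [Real.exp_sub, Real.exp_log h, Real.exp_nat_mul, Real.exp_log (by norm_num)]
        rw [h2, le_div_iff₀ h] at h1
        nlinarith
    have h3 : (c / Real.log 2) * (u * ((S.Lv z : ℝ) * Real.log 2)) = u * (c * (S.Lv z : ℝ)) := by
      field_simp
    have h4 := mul_le_mul_of_nonneg_left hy (div_nonneg hc hl2.le)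
    rw [h3] at h4
    nlinarith
  | succ N ih =>
    show u * (S.ell c N (S.sec false z) + S.ell c N (S.sec true z)) ≤ c * 2 ^ (N + 1) * u +
      (c / Real.log 2) * (2 ^ (N + 1) * (u * Real.log u) +
        (S.Psi N (S.sec false z) + S.Psi N (S.sec true z)))
    have h0 := ih (S.sec false z)
    have h1 := ih (S.sec true z)
    rw [pow_succ]
    calc u * (S.ell c N (S.sec false z) + S.ell c N (S.sec true z))
        = u * S.ell c N (S.sec false z) + u * S.ell c N (S.sec true z) := by ring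
      _ ≤ _ := add_le_add h0 h1
      _ = _ := by ring

end Pool.Agent.PHF
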