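import Pool.Agent.PHF.Bas

set_option autoImplicit false

namespace Pool.Agent.PHF

/-! Module GRB: basic group facts (pairs of sections, the set BB, the maps dl). -/

variable {G : Type} [Group G] (S : SGp G)

theorem root_one : S.root 1 = false := S.G1.one_mem

theorem sec_one (b : Bool) : S.sec b 1 = 1 := by
  have h := S.sec_mul b 1 1
  rw [root_one S] at h
  simp only [mul_one, Bool.xor_false] at h
  exact mul_eq_left.mp h.symm

theorem IsPair_one : IsPair S 1 1 1 := ⟨root_one S, sec_one S _, sec_one S _⟩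

variable {S}

theorem IsPair_mul {g g' x y x' y' : G} (h : IsPair S g x y) (h' : IsPair S g' x' y') :
    IsPair S (g * g') (x * x') (y * y') := by
  obtain ⟨h1, h2, h3⟩ := h
  obtain ⟨h1', h2', h3'⟩ := h'
  refine ⟨?_, ?_, ?_⟩
  · rw [S.root_mul, h1, h1']; rfl
  · rw [S.sec_mul, h1', ← h2, ← h2']; simp
  · rw [S.sec_mul, h1', ← h3, ← h3']; simp

theorem IsPair_inv {g x y : G} (h : IsPair S g x y) : IsPair S g⁻¹ x⁻¹ y⁻¹ := by
  obtain ⟨h1, h2, h3⟩ := h
  have hr : S.root g⁻¹ = false := S.G1.inv_mem (x := g) h1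
  refine ⟨hr, ?_, ?_⟩
  · have h := S.sec_mul false g g⁻¹
    rw [mul_inv_cancel, hr, sec_one S] at h
    simp only [Bool.xor_false] at h
    rw [h2] at h
    exact (inv_eq_of_mul_eq_one_right h.symm).symm
  · have h := S.sec_mul true g g⁻¹
    rw [mul_inv_cancel, hr, sec_one S] at h
    simp only [Bool.xor_false] at h
    rw [h3] at h
    exact (inv_eq_of_mul_eq_one_right h.symm).symm

theorem IsPair_unique {g g' x y : G} (h : IsPair S g x y) (h' : IsPair S g' x y) : g = g' := by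
  obtain ⟨h1, h2, h3⟩ := h
  obtain ⟨h1', h2', h3'⟩ := h'
  refine S.ext g g' (h1.trans h1'.symm) ?_
  intro b
  cases b
  · exact h2.trans h2'.symm
  · exact h3.trans h3'.symm

theorem IsPair_conj_a {g x y : G} (h : IsPair S g x y) : IsPair S (S.a * g * S.a) y x := by
  obtain ⟨h1, h2, h3⟩ := h
  refine ⟨?_, ?_, ?_⟩
  · rw [S.root_mul, S.root_mul, h1, S.root_a]; rfl
  · rw [S.sec_mul, S.root_a, S.sec_a, mul_one, S.sec_mul, h1, S.sec_a, one_mul]
    exact h3
  · rw [S.sec_mul, S.root_a, S.sec_a, mul_one, S.sec_mul, h1, S.sec_a, one_mul]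
    exact h2

theorem IsPair_sec {g : G} (h : S.root g = false) : IsPair S g (S.sec false g) (S.sec true g) :=
  ⟨h, rfl, rfl⟩

variable (S)

theorem IsPair_e0 : IsPair S (S.e 0) S.a (S.e 3) := ⟨S.root_e 0, S.sec_e00, S.sec_e01⟩

theorem IsPair_e1 : IsPair S (S.e 1) 1 (S.e 0) := ⟨S.root_e 1, S.sec_f 1 (by decide), S.sec_t1⟩

theorem IsPair_e2 : IsPair S (S.e 2) 1 (S.e 1) := ⟨S.root_e 2, S.sec_f 2 (by decide), S.sec_t2⟩

theorem IsPair_e3 : IsPair S (S.e 3) 1 (S.e 2) := ⟨S.root_e 3, S.sec_f 3 (by decide), S.sec_t3⟩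

namespace GrbAux

theorem IsPair_pw {S : SGp G} {g x y : G} (h : IsPair S g x y) (s : ZMod 2) :
    IsPair S (pw g s) (pw x s) (pw y s) := by
  unfold pw
  split_ifs
  · exact IsPair_one S
  · exact h

theorem pw_e_comm (i j : Fin 4) (s t : ZMod 2) :
    pw (S.e i) s * pw (S.e j) t = pw (S.e j) t * pw (S.e i) s :=
  pw_comm _ _ (S.e_comm i j) s t

theorem pw_one_left (s : ZMod 2) : pw (1 : G) s = 1 := by
  unfold pw; split_ifs <;> rfl

end GrbAux

open GrbAux

theorem IsPair_vv (x : Fin 4 → ZMod 2) :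
    IsPair S (S.vv x) (pw S.a (x 0)) (S.vv ![x 1, x 2, x 3, x 0]) := by
  have h := IsPair_mul (IsPair_mul (IsPair_mul (IsPair_pw (IsPair_e0 S) (x 0))
    (IsPair_pw (IsPair_e1 S) (x 1))) (IsPair_pw (IsPair_e2 S) (x 2)))
    (IsPair_pw (IsPair_e3 S) (x 3))
  have e1 : pw S.a (x 0) * pw 1 (x 1) * pw 1 (x 2) * pw 1 (x 3) = pw S.a (x 0) := by
    simp only [pw_one_left, mul_one]
  have e2 : pw (S.e 3) (x 0) * pw (S.e 0) (x 1) * pw (S.e 1) (x 2) * pw (S.e 2) (x 3) =
      S.vv ![x 1, x 2, x 3, x 0] := by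
    show _ = pw (S.e 0) (x 1) * pw (S.e 1) (x 2) * pw (S.e 2) (x 3) * pw (S.e 3) (x 0)
    rw [pw_e_comm S 3 0, mul_assoc (pw (S.e 0) (x 1)), pw_e_comm S 3 1, ← mul_assoc,
      mul_assoc (pw (S.e 0) (x 1) * pw (S.e 1) (x 2)), pw_e_comm S 3 2, ← mul_assoc]
  rw [e1, e2] at h
  exact h

theorem vv_add (x y : Fin 4 → ZMod 2) : S.vv (x + y) = S.vv x * S.vv y := by
  unfold SGp.vv
  simp only [Pi.add_apply, pw_add _ (S.e_sq _)]
  have c10 : Commute (pw (S.e 1) (x 1)) (pw (S.e 0) (y 0)) := pw_e_comm S _ _ _ _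
  have c20 : Commute (pw (S.e 2) (x 2)) (pw (S.e 0) (y 0)) := pw_e_comm S _ _ _ _
  have c30 : Commute (pw (S.e 3) (x 3)) (pw (S.e 0) (y 0)) := pw_e_comm S _ _ _ _
  have c21 : Commute (pw (S.e 2) (x 2)) (pw (S.e 1) (y 1)) := pw_e_comm S _ _ _ _
  have c31 : Commute (pw (S.e 3) (x 3)) (pw (S.e 1) (y 1)) := pw_e_comm S _ _ _ _
  have c32 : Commute (pw (S.e 3) (x 3)) (pw (S.e 2) (y 2)) := pw_e_comm S _ _ _ _
  simp only [mul_assoc]
  rw [c30.left_comm, c20.left_comm, c10.left_comm, c31.left_comm, c21.left_comm, c32.left_comm]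

theorem vv_zero : S.vv 0 = 1 := by
  simp [SGp.vv, pw_zero]

theorem vv_single (i : Fin 4) : S.vv (Pi.single i 1) = S.e i := by
  fin_cases i <;> simp [SGp.vv, pw]

namespace GrbAux

/-- Functions on `Fin 4` as quadruples. -/
def quad : (ZMod 2 × ZMod 2 × ZMod 2 × ZMod 2) ≃ (Fin 4 → ZMod 2) where
  toFun p := ![p.1, p.2.1, p.2.2.1, p.2.2.2]
  invFun x := (x 0, x 1, x 2, x 3)
  left_inv _ := rfl
  right_inv x := by
    funext i
    fin_cases i <;> rfl

end GrbAux

/-- The uniform law on V as an average over the bits. -/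
theorem mV_eq_avg : S.mV = avg fun x : Fin 4 → ZMod 2 => pt (S.vv x) := by
  rw [← avg_equiv quad, avg_prod]
  have h : ∀ (s0 s1 s2 s3 : ZMod 2), (pt (S.vv (quad (s0, s1, s2, s3))) : GA G) =
      pt (pw (S.e 0) s0) * (pt (pw (S.e 1) s1) * (pt (pw (S.e 2) s2) * pt (pw (S.e 3) s3))) := by
    intro s0 s1 s2 s3
    rw [pt_mul, pt_mul, pt_mul, ← mul_assoc, ← mul_assoc]
    rfl
  simp only [avg_prod, h, avg_mul_left, avg_mul_right, ← hh_eq_avg]
  unfold SGp.mV
  rw [mul_assoc, mul_assoc]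

/-- Every element is in the stabiliser or in its coset. -/
theorem exists_G1 (g : G) : ∃ h, S.root h = false ∧ (g = h ∨ g = h * S.a) := by
  cases hg : S.root g
  · exact ⟨g, hg, Or.inl rfl⟩
  · refine ⟨g * S.a, ?_, Or.inr ?_⟩
    · rw [S.root_mul, hg, S.root_a]; rfl
    · rw [mul_assoc, S.a_sq, mul_one]

/-- Induction over the group by right multiplication by generators. -/
theorem G_induction {P : G → Prop} (h1 : P 1) (ha : ∀ x, P x → P (x * S.a))
    (he : ∀ x i, P x → P (x * S.e i)) (g : G) : P g := by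
  have hg : g ∈ Subgroup.closure (insert S.a (Set.range S.e)) := by
    rw [S.gen]; exact Subgroup.mem_top g
  induction hg using Subgroup.closure_induction_right with
  | one => exact h1
  | mul_right x hx y hy ih =>
    rcases hy with rfl | ⟨i, rfl⟩
    · exact ha x ih
    · exact he x i ih
  | mul_inv_cancel x hx y hy ih =>
    rcases hy with rfl | ⟨i, rfl⟩
    · rw [inv_eq_of_mul_eq_one_right S.a_sq]; exact ha x ih
    · rw [inv_eq_of_mul_eq_one_right (S.e_sq i)]; exact he x i ih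

/-- Both coordinate projections are onto. -/
theorem pair_left (x : G) : ∃ g y, IsPair S g x y := by
  induction x using G_induction S with
  | h1 => exact ⟨1, 1, IsPair_one S⟩
  | ha x ih =>
    obtain ⟨g, y, h⟩ := ih
    exact ⟨_, _, IsPair_mul h (IsPair_e0 S)⟩
  | he x i ih =>
    obtain ⟨g, y, h⟩ := ih
    fin_cases i
    · exact ⟨_, _, IsPair_mul h (IsPair_conj_a (IsPair_e1 S))⟩
    · exact ⟨_, _, IsPair_mul h (IsPair_conj_a (IsPair_e2 S))⟩
    · exact ⟨_, _, IsPair_mul h (IsPair_conj_a (IsPair_e3 S))⟩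
    · exact ⟨_, _, IsPair_mul h (IsPair_conj_a (IsPair_e0 S))⟩

theorem pair_right (y : G) : ∃ g x, IsPair S g x y := by
  obtain ⟨g, x, h⟩ := pair_left S y
  exact ⟨_, _, IsPair_conj_a h⟩

/-- Induction over the stabiliser of the first level. -/
theorem G1_induction {P : G → Prop} (h1 : P 1) (he : ∀ x i, P x → P (x * S.e i))
    (hc : ∀ x i, P x → P (x * (S.a * S.e i * S.a))) (g : G) (hg : S.root g = false) : P g := by
  have key : (S.root g = false → P g) ∧ (S.root g = true → P (g * S.a)) := by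
    clear hg
    induction g using G_induction S with
    | h1 =>
      refine ⟨fun _ => h1, fun h => ?_⟩
      rw [root_one S] at h; exact absurd h (by decide)
    | ha x ih =>
      rw [S.root_mul, S.root_a]
      refine ⟨fun h => ih.2 (by simpa using h), fun h => ?_⟩
      rw [mul_assoc, S.a_sq, mul_one]
      exact ih.1 (by simpa using h)
    | he x i ih =>
      rw [S.root_mul, S.root_e]
      refine ⟨fun h => he x i (ih.1 (by simpa using h)), fun h => ?_⟩
      have := hc _ i (ih.2 (by simpa using h))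
      have e : x * S.a * (S.a * S.e i * S.a) = x * S.e i * S.a := by
        rw [← mul_assoc, ← mul_assoc, mul_assoc x, S.a_sq, mul_one]
      rwa [e] at this
  exact key.1 hg

end Pool.Agent.PHF
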