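import Pool.Agent.PHF.Ten
import Pool.Agent.PHF.Grb

set_option autoImplicit false

namespace Pool.Agent.PHF

/-! Module COR: correspondence between elements supported on the stabiliser and their images in
pairs of sections. -/

variable {G : Type} [Group G]

variable {S : SGp G}

namespace CorAux

open TenAux

theorem ev_mapDomain {A B : Type} (φ : A → B) (p : GA A) (f : B → ℝ) :
    ev (MonoidAlgebra.mapDomain φ p) f = ev p (fun x => f (φ x)) := by
  induction p using ga_induction with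
  | h0 => rw [MonoidAlgebra.mapDomain_zero, ev_zero, ev_zero]
  | h1 x r q ih =>
    rw [MonoidAlgebra.mapDomain_add, ev_add, ev_add, ih, MonoidAlgebra.mapDomain_single,
      ev_single, ev_single]

theorem prH_apply (z : S.G1) : S.prH z = (S.sec false z.1, S.sec true z.1) := rfl

theorem prH_inj : Function.Injective S.prH := by
  intro z w h
  rw [prH_apply, prH_apply, Prod.mk.injEq] at h
  apply Subtype.ext
  apply S.ext
  · have hz : S.root z.1 = false := z.2
    have hw : S.root w.1 = false := w.2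
    rw [hz, hw]
  · intro b
    cases b
    · exact h.1
    · exact h.2

theorem prH_of_pair {g x y : G} (h : IsPair S g x y) : S.prH ⟨g, h.1⟩ = (x, y) := by
  rw [prH_apply]
  exact Prod.ext h.2.1 h.2.2

theorem pair_of_G1 (z : S.G1) : IsPair S z.1 (S.prH z).1 (S.prH z).2 := ⟨z.2, rfl, rfl⟩

theorem map_smul' {A B : Type} [Monoid A] [Monoid B] (φ : A →* B) (r : ℝ) (p : GA A) :
    MonoidAlgebra.mapDomainRingHom ℝ φ (r • p) = r • MonoidAlgebra.mapDomainRingHom ℝ φ p := by
  refine ga_ext_ev fun f => ?_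
  rw [ev_map, ev_smul, ev_smul, ev_map]

theorem map_avg {A B : Type} [Monoid A] [Monoid B] (φ : A →* B) {ι : Type} [Fintype ι]
    (p : ι → GA A) : MonoidAlgebra.mapDomainRingHom ℝ φ (avg p)
      = avg fun i => MonoidAlgebra.mapDomainRingHom ℝ φ (p i) := by
  refine ga_ext_ev fun f => ?_
  rw [ev_map, ev_avg, ev_avg]
  simp only [ev_map]

theorem map_pt {A B : Type} [Monoid A] [Monoid B] (φ : A →* B) (x : A) :
    MonoidAlgebra.mapDomainRingHom ℝ φ (pt x) = pt (φ x) := by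
  refine ga_ext_ev fun f => ?_
  rw [ev_map, ev_pt, ev_pt]

theorem He_map_inj {A B : Type} [Monoid A] [Monoid B] (φ : A →* B) (hφ : Function.Injective φ)
    (p q : GA A) : He (MonoidAlgebra.mapDomainRingHom ℝ φ p)
      (MonoidAlgebra.mapDomainRingHom ℝ φ q) = He p q :=
  He_map φ p q fun _ _ _ _ h => hφ h

end CorAux

open CorAux TenAux

theorem Corr_one : S.Corr 1 1 :=
  ⟨1, by rw [map_one], by rw [map_one]⟩

theorem Corr_add {X X' : GA G} {Y Y' : GA (G × G)} (h : S.Corr X Y) (h' : S.Corr X' Y') :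
    S.Corr (X + X') (Y + Y') := by
  obtain ⟨Z, rfl, rfl⟩ := h
  obtain ⟨Z', rfl, rfl⟩ := h'
  exact ⟨Z + Z', by rw [map_add], by rw [map_add]⟩

theorem Corr_smul {X : GA G} {Y : GA (G × G)} (r : ℝ) (h : S.Corr X Y) :
    S.Corr (r • X) (r • Y) := by
  obtain ⟨Z, rfl, rfl⟩ := h
  exact ⟨r • Z, by rw [map_smul'], by rw [map_smul']⟩

theorem Corr_mul {X X' : GA G} {Y Y' : GA (G × G)} (h : S.Corr X Y) (h' : S.Corr X' Y') :
    S.Corr (X * X') (Y * Y') := by
  obtain ⟨Z, rfl, rfl⟩ := h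
  obtain ⟨Z', rfl, rfl⟩ := h'
  exact ⟨Z * Z', by rw [map_mul], by rw [map_mul]⟩

theorem Corr_avg {ι : Type} [Fintype ι] {X : ι → GA G} {Y : ι → GA (G × G)}
    (h : ∀ i, S.Corr (X i) (Y i)) : S.Corr (avg X) (avg Y) := by
  choose Z hX hY using h
  refine ⟨avg Z, ?_, ?_⟩
  · rw [map_avg]
    congr 1
    funext i
    exact hX i
  · rw [map_avg]
    congr 1
    funext i
    exact hY i

theorem Corr_Ex {α : Type} [Fintype α] (k : ℕ) {X : List α → GA G} {Y : List α → GA (G × G)}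
    (h : ∀ i, S.Corr (X i) (Y i)) : S.Corr (Ex k X) (Ex k Y) := by
  induction k generalizing X Y with
  | zero => exact h []
  | succ k ih =>
    rw [Ex_succ, Ex_succ]
    exact Corr_avg fun x => ih fun l => h _

theorem Corr_pt {g x y : G} (h : IsPair S g x y) : S.Corr (pt g) (pt (x, y)) := by
  refine ⟨pt ⟨g, h.1⟩, ?_, ?_⟩
  · rw [map_pt]
    rfl
  · rw [map_pt, prH_of_pair h]

theorem Corr_conj {X : GA G} {Y : GA (G × G)} (h : S.Corr X Y) :
    S.Corr (pt S.a * X * pt S.a) (swp Y) := by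
  obtain ⟨Z, rfl, rfl⟩ := h
  have hc : ∀ z : S.G1, IsPair S (S.a * z.1 * S.a) (S.prH z).2 (S.prH z).1 :=
    fun z => IsPair_conj_a (pair_of_G1 z)
  let c : S.G1 → S.G1 := fun z => ⟨S.a * z.1 * S.a, (hc z).1⟩
  refine ⟨MonoidAlgebra.mapDomain c Z, ?_, ?_⟩
  · refine ga_ext_ev fun f => ?_
    rw [ev_map, ev_mapDomain, mul_assoc, ev_mul, ev_pt, ev_mul, ev_map]
    congr 1
    funext z
    rw [ev_pt]
    show f (S.a * (z.1 * S.a)) = f (S.a * z.1 * S.a)
    rw [mul_assoc]
  · refine ga_ext_ev fun f => ?_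
    rw [ev_map, ev_mapDomain, ev_swp, ev_map]
    congr 1
    funext z
    show f ((S.prH z).2, (S.prH z).1) = f (S.prH (c z))
    rw [prH_of_pair (hc z)]

theorem Corr_He {X : GA G} {Y : GA (G × G)} (h : S.Corr X Y) {g x y : G} (hg : IsPair S g x y) :
    He (pt g * X) X = He (pt (x, y) * Y) Y := by
  obtain ⟨Z, rfl, rfl⟩ := h
  have h1 : (pt g : GA G) = MonoidAlgebra.mapDomainRingHom ℝ S.G1.subtype (pt ⟨g, hg.1⟩) := by
    rw [map_pt]
    rfl
  have h2 : (pt (x, y) : GA (G × G)) = MonoidAlgebra.mapDomainRingHom ℝ S.prH (pt ⟨g, hg.1⟩) := by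
    rw [map_pt, prH_of_pair hg]
  rw [h1, h2, ← map_mul, ← map_mul, He_map_inj S.G1.subtype Subtype.coe_injective,
    He_map_inj S.prH prH_inj]

theorem hat_pair {g x y : G} (hg : IsPair S g x y) (f : G → ℝ) : S.hat f (x, y) = f g := by
  unfold SGp.hat
  have h : ∃ g, IsPair S g x y := ⟨g, hg⟩
  rw [dif_pos h]
  rw [IsPair_unique h.choose_spec hg]

theorem Corr_ev {X : GA G} {Y : GA (G × G)} (h : S.Corr X Y) (f : G → ℝ) :
    ev X f = ev Y (S.hat f) := by
  obtain ⟨Z, rfl, rfl⟩ := h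
  rw [ev_map, ev_map]
  congr 1
  funext z
  exact (hat_pair (pair_of_G1 z) f).symm

theorem Corr_supp {X : GA G} {Y : GA (G × G)} (h : S.Corr X Y) (x y : G)
    (hxy : Y.coeff (x, y) ≠ 0) : ∃ g, IsPair S g x y ∧ X.coeff g = Y.coeff (x, y) := by
  classical
  obtain ⟨Z, rfl, rfl⟩ := h
  by_cases hg : ∃ g, IsPair S g x y
  · obtain ⟨g, hg⟩ := hg
    refine ⟨g, hg, ?_⟩
    rw [coeff_eq_ev, coeff_eq_ev, ev_map, ev_map]
    refine ev_congr _ _ _ fun z _ => ?_
    have h1 : (S.G1.subtype z = g) ↔ (S.prH z = (x, y)) := by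
      constructor
      · intro h
        have h2 : z = ⟨g, hg.1⟩ := Subtype.ext h
        rw [h2]
        exact prH_of_pair hg
      · intro h
        have h2 : z = ⟨g, hg.1⟩ := prH_inj (h.trans (prH_of_pair hg).symm)
        rw [h2]
        rfl
    simp only [h1]
  · exfalso
    apply hxy
    rw [coeff_eq_ev, ev_map]
    have h1 : ∀ z : S.G1, (if S.prH z = (x, y) then (1:ℝ) else 0) = 0 := by
      intro z
      rw [if_neg]
      intro h
      have h2 := pair_of_G1 z
      rw [h] at h2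
      exact hg ⟨z.1, h2⟩
    simp only [h1]
    exact ev_fzero _

end Pool.Agent.PHF
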