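import Pool.Agent.PHF.Top

set_option autoImplicit false

namespace Pool.Agent.PHF

/-! Module CSH: Cauchy-Schwarz for mixed differences. -/

variable {G : Type} [Group G] (S : SGp G)

namespace CshAux

theorem ev_eq_sum {H : Type} (p : GA H) (f : H → ℝ) (s : Finset H)
    (hs : p.coeff.support ⊆ s) : ev p f = ∑ x ∈ s, p.coeff x * f x := by
  unfold ev
  exact Finsupp.sum_of_support_subset _ hs _ (by simp)

theorem He_eq_sum {H : Type} (p q : GA H) (s : Finset H)
    (hp : p.coeff.support ⊆ s) (hq : q.coeff.support ⊆ s) :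
    He p q = ∑ x ∈ s, (Real.sqrt (p.coeff x) - Real.sqrt (q.coeff x)) ^ 2 := by
  classical
  unfold He
  refine Finset.sum_subset ?_ ?_
  · intro x hx
    rcases Finset.mem_union.mp hx with h | h
    · exact hp h
    · exact hq h
  · intro x _ hx
    have h1 : p.coeff x = 0 := by
      by_contra h
      exact hx (Finset.mem_union_left _ (Finsupp.mem_support_iff.mpr h))
    have h2 : q.coeff x = 0 := by
      by_contra h
      exact hx (Finset.mem_union_right _ (Finsupp.mem_support_iff.mpr h))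
    rw [h1, h2]; simp

theorem ev2_eq_sum {H : Type} [Group H] (p q : GA H) (F : H × H → ℝ) (s t : Finset H)
    (hs : p.coeff.support ⊆ s) (ht : q.coeff.support ⊆ t) :
    ev (tens p q) F = ∑ z ∈ s ×ˢ t, p.coeff z.1 * q.coeff z.2 * F z := by
  rw [ev_tens, ev_eq_sum p _ s hs, Finset.sum_product]
  refine Finset.sum_congr rfl fun x _ => ?_
  rw [ev_eq_sum q _ t ht, Finset.mul_sum]
  exact Finset.sum_congr rfl fun y _ => by ring

theorem pair_gen {H : Type} [Group H] (A p B q : GA H) (hA : NN A) (hp : NN p) (hB : NN B)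
    (hq : NN q) (F : H × H → ℝ) :
    (ev (tens (A - p) (B - q)) F) ^ 2 ≤
      4 * (He A p * He B q) *
        (ev (tens A B) (fun z => F z ^ 2) + ev (tens A q) (fun z => F z ^ 2) +
          ev (tens p B) (fun z => F z ^ 2) + ev (tens p q) (fun z => F z ^ 2)) := by
  classical
  set s : Finset H := A.coeff.support ∪ p.coeff.support with hs
  set t : Finset H := B.coeff.support ∪ q.coeff.support with ht
  have hAs : A.coeff.support ⊆ s := Finset.subset_union_left
  have hps : p.coeff.support ⊆ s := Finset.subset_union_right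
  have hBt : B.coeff.support ⊆ t := Finset.subset_union_left
  have hqt : q.coeff.support ⊆ t := Finset.subset_union_right
  have hAp : (A - p).coeff.support ⊆ s := by
    intro x hx
    by_contra h
    have h1 : A.coeff x = 0 := by
      by_contra h'
      exact h (hAs (Finsupp.mem_support_iff.mpr h'))
    have h2 : p.coeff x = 0 := by
      by_contra h'
      exact h (hps (Finsupp.mem_support_iff.mpr h'))
    apply Finsupp.mem_support_iff.mp hx
    rw [MonoidAlgebra.coeff_sub, Finsupp.sub_apply, h1, h2, sub_zero]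
  have hBq : (B - q).coeff.support ⊆ t := by
    intro x hx
    by_contra h
    have h1 : B.coeff x = 0 := by
      by_contra h'
      exact h (hBt (Finsupp.mem_support_iff.mpr h'))
    have h2 : q.coeff x = 0 := by
      by_contra h'
      exact h (hqt (Finsupp.mem_support_iff.mpr h'))
    apply Finsupp.mem_support_iff.mp hx
    rw [MonoidAlgebra.coeff_sub, Finsupp.sub_apply, h1, h2, sub_zero]
  rw [ev2_eq_sum _ _ F s t hAp hBq, ev2_eq_sum _ _ _ s t hAs hBt, ev2_eq_sum _ _ _ s t hAs hqt,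
    ev2_eq_sum _ _ _ s t hps hBt, ev2_eq_sum _ _ _ s t hps hqt, He_eq_sum A p s hAs hps,
    He_eq_sum B q t hBt hqt, ← Finset.sum_add_distrib, ← Finset.sum_add_distrib,
    ← Finset.sum_add_distrib]
  have e1 : ∀ z : H × H, (A - p).coeff z.1 * (B - q).coeff z.2 * F z =
      ((Real.sqrt (A.coeff z.1) - Real.sqrt (p.coeff z.1)) *
        (Real.sqrt (B.coeff z.2) - Real.sqrt (q.coeff z.2))) *
      ((Real.sqrt (A.coeff z.1) + Real.sqrt (p.coeff z.1)) *
        (Real.sqrt (B.coeff z.2) + Real.sqrt (q.coeff z.2)) * F z) := by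
    intro z
    rw [MonoidAlgebra.coeff_sub, Finsupp.sub_apply, MonoidAlgebra.coeff_sub, Finsupp.sub_apply]
    have a1 := Real.mul_self_sqrt (hA z.1)
    have a2 := Real.mul_self_sqrt (hp z.1)
    have a3 := Real.mul_self_sqrt (hB z.2)
    have a4 := Real.mul_self_sqrt (hq z.2)
    calc _ = (Real.sqrt (A.coeff z.1) * Real.sqrt (A.coeff z.1) -
          Real.sqrt (p.coeff z.1) * Real.sqrt (p.coeff z.1)) *
          (Real.sqrt (B.coeff z.2) * Real.sqrt (B.coeff z.2) -
          Real.sqrt (q.coeff z.2) * Real.sqrt (q.coeff z.2)) * F z := by rw [a1, a2, a3, a4]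
      _ = _ := by ring
  have h1 := Finset.sum_mul_sq_le_sq_mul_sq (s ×ˢ t)
    (fun z : H × H => (Real.sqrt (A.coeff z.1) - Real.sqrt (p.coeff z.1)) *
        (Real.sqrt (B.coeff z.2) - Real.sqrt (q.coeff z.2)))
    (fun z : H × H => (Real.sqrt (A.coeff z.1) + Real.sqrt (p.coeff z.1)) *
        (Real.sqrt (B.coeff z.2) + Real.sqrt (q.coeff z.2)) * F z)
  rw [Finset.sum_congr rfl fun z _ => e1 z]
  refine h1.trans ?_
  have e2 : (∑ z ∈ s ×ˢ t, ((Real.sqrt (A.coeff z.1) - Real.sqrt (p.coeff z.1)) *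
        (Real.sqrt (B.coeff z.2) - Real.sqrt (q.coeff z.2))) ^ 2) =
      (∑ x ∈ s, (Real.sqrt (A.coeff x) - Real.sqrt (p.coeff x)) ^ 2) *
        ∑ x ∈ t, (Real.sqrt (B.coeff x) - Real.sqrt (q.coeff x)) ^ 2 := by
    rw [Finset.sum_product, Finset.sum_mul_sum]
    refine Finset.sum_congr rfl fun x _ => Finset.sum_congr rfl fun y _ => ?_
    rw [mul_pow]
  rw [e2]
  have h0 : 0 ≤ (∑ x ∈ s, (Real.sqrt (A.coeff x) - Real.sqrt (p.coeff x)) ^ 2) *
        ∑ x ∈ t, (Real.sqrt (B.coeff x) - Real.sqrt (q.coeff x)) ^ 2 :=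
    mul_nonneg (Finset.sum_nonneg fun _ _ => sq_nonneg _)
      (Finset.sum_nonneg fun _ _ => sq_nonneg _)
  have h3 : (∑ z ∈ s ×ˢ t, ((Real.sqrt (A.coeff z.1) + Real.sqrt (p.coeff z.1)) *
        (Real.sqrt (B.coeff z.2) + Real.sqrt (q.coeff z.2)) * F z) ^ 2) ≤
      4 * ∑ z ∈ s ×ˢ t, (A.coeff z.1 * B.coeff z.2 * F z ^ 2 + A.coeff z.1 * q.coeff z.2 * F z ^ 2 +
        p.coeff z.1 * B.coeff z.2 * F z ^ 2 + p.coeff z.1 * q.coeff z.2 * F z ^ 2) := by
    rw [Finset.mul_sum]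
    refine Finset.sum_le_sum fun z _ => ?_
    have a1 := Real.mul_self_sqrt (hA z.1)
    have a2 := Real.mul_self_sqrt (hp z.1)
    have a3 := Real.mul_self_sqrt (hB z.2)
    have a4 := Real.mul_self_sqrt (hq z.2)
    have b1 : (Real.sqrt (A.coeff z.1) + Real.sqrt (p.coeff z.1)) ^ 2 ≤
        2 * (A.coeff z.1 + p.coeff z.1) := by
      nlinarith [sq_nonneg (Real.sqrt (A.coeff z.1) - Real.sqrt (p.coeff z.1))]
    have b2 : (Real.sqrt (B.coeff z.2) + Real.sqrt (q.coeff z.2)) ^ 2 ≤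
        2 * (B.coeff z.2 + q.coeff z.2) := by
      nlinarith [sq_nonneg (Real.sqrt (B.coeff z.2) - Real.sqrt (q.coeff z.2))]
    have c1 : 0 ≤ 2 * (A.coeff z.1 + p.coeff z.1) := by
      have := hA z.1; have := hp z.1; positivity
    calc _ = (Real.sqrt (A.coeff z.1) + Real.sqrt (p.coeff z.1)) ^ 2 *
          (Real.sqrt (B.coeff z.2) + Real.sqrt (q.coeff z.2)) ^ 2 * F z ^ 2 := by ring
      _ ≤ (2 * (A.coeff z.1 + p.coeff z.1)) * (2 * (B.coeff z.2 + q.coeff z.2)) * F z ^ 2 :=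
          mul_le_mul_of_nonneg_right (mul_le_mul b1 b2 (sq_nonneg _) c1) (sq_nonneg _)
      _ = _ := by ring
  calc _ ≤ _ := mul_le_mul_of_nonneg_left h3 h0
    _ = _ := by ring

theorem avg_sq_le {ι : Type} [Fintype ι] (φ α β : ι → ℝ) (C : ℝ) (hC : 0 ≤ C)
    (hα : ∀ i, 0 ≤ α i) (hβ : ∀ i, 0 ≤ β i) (h : ∀ i, φ i ^ 2 ≤ C * α i * β i) :
    (avg φ) ^ 2 ≤ C * avg α * avg β := by
  have h1 : |avg φ| ≤ avg fun i => Real.sqrt (C * α i) * Real.sqrt (β i) := by
    rw [abs_le]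
    have hb : ∀ i, |φ i| ≤ Real.sqrt (C * α i) * Real.sqrt (β i) := by
      intro i
      rw [← Real.sqrt_mul (mul_nonneg hC (hα i))]
      exact Real.abs_le_sqrt (h i)
    constructor
    · have : avg (fun i => (-1 : ℝ) * (Real.sqrt (C * α i) * Real.sqrt (β i))) ≤ avg φ :=
        avg_mono _ _ fun i => by
          have := (abs_le.mp (hb i)).1
          linarith
      rw [avg_smul] at this
      linarith
    · exact avg_mono _ _ fun i => (abs_le.mp (hb i)).2
  have h2 := avg_mul_sq_le (fun i => Real.sqrt (C * α i)) (fun i => Real.sqrt (β i))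
  have h3 : (avg fun i => Real.sqrt (C * α i) ^ 2) = C * avg α := by
    rw [← avg_smul]
    congr 1
    funext i
    exact Real.sq_sqrt (mul_nonneg hC (hα i))
  have h4 : (avg fun i => Real.sqrt (β i) ^ 2) = avg β := by
    congr 1
    funext i
    exact Real.sq_sqrt (hβ i)
  rw [h3, h4] at h2
  refine le_trans ?_ h2
  rw [← sq_abs]
  exact pow_le_pow_left₀ (abs_nonneg _) h1 2

theorem Ex_sq_le {ι : Type} [Fintype ι] (k : ℕ) (φ α β : List ι → ℝ) (C : ℝ) (hC : 0 ≤ C)
    (hα : ∀ i, 0 ≤ α i) (hβ : ∀ i, 0 ≤ β i) (h : ∀ i, φ i ^ 2 ≤ C * α i * β i) :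
    (Ex k φ) ^ 2 ≤ C * Ex k α * Ex k β := by
  induction k generalizing φ α β with
  | zero => exact h []
  | succ k ih =>
    rw [Ex_succ, Ex_succ, Ex_succ]
    exact avg_sq_le _ _ _ C hC (fun x => Ex_nonneg _ _ fun l => hα _)
      (fun x => Ex_nonneg _ _ fun l => hβ _) fun x =>
        ih _ _ _ (fun l => hα _) (fun l => hβ _) fun l => h _

theorem hat_sq (f : G → ℝ) (x : G × G) : S.hat (fun z => f z ^ 2) x = S.hat f x ^ 2 := by
  unfold SGp.hat
  split_ifs with h
  · rfl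
  · norm_num

theorem Ex_mul_left {α : Type} [Fintype α] (p : GA (G × G)) (k : ℕ) (Φ : List α → GA (G × G)) :
    (Ex k fun l => p * Φ l) = p * Ex k Φ := by
  induction k generalizing Φ with
  | zero => rfl
  | succ k ih =>
    rw [Ex_succ, Ex_succ, ← avg_mul_left]
    congr 1
    funext x
    exact ih _

theorem IsPair_mul {g h γ δ : G} (hg : IsPair S g γ 1) (hh : IsPair S h 1 δ) :
    IsPair S (g * h) γ δ := by
  obtain ⟨h1, h2, h3⟩ := hg
  obtain ⟨k1, k2, k3⟩ := hh
  refine ⟨?_, ?_, ?_⟩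
  · rw [S.root_mul, h1, k1]; rfl
  · rw [S.sec_mul, k1, k2]
    simpa using h2
  · rw [S.sec_mul, k1, k3]
    simp [h3]

/-- Expectation of a translate in terms of the two coordinates. -/
theorem ev_shift {g γ δ : G} (hg : IsPair S g γ δ) (K : ℕ) (f : G → ℝ) :
    ev (S.XK K) (fun z => f (g * z)) = Ex K fun l => avg fun z : ZMod 2 =>
      ev (tens (pt γ * (S.p0 l * pt (pw (S.e 3) z))) (pt δ * (S.p1 l * pt (pw S.a z))))
        (S.hat f) := by
  have h1 := Corr_ev (Corr_mul (Corr_pt hg) (top_corr S K)) f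
  have h2 : ev (pt g * S.XK K) f = ev (S.XK K) (fun z => f (g * z)) := by
    rw [ev_mul, ev_pt]
  rw [← h2, h1, ← Ex_mul_left, ev_Ex]
  refine Ex_congr _ _ _ fun l _ => ?_
  rw [← avg_mul_left, ev_avg]
  congr 1
  funext z
  rw [pt_mul_tens]

theorem comb {ι : Type} [Fintype ι] (k : ℕ) (a b c d : List ι → ZMod 2 → ℝ) (x y z w : ℝ) :
    x * Ex k (fun l => avg (a l)) + y * Ex k (fun l => avg (b l)) +
      z * Ex k (fun l => avg (c l)) + w * Ex k (fun l => avg (d l)) =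
    Ex k fun l => avg fun i => x * a l i + y * b l i + z * c l i + w * d l i := by
  rw [← Ex_smul, ← Ex_smul, ← Ex_smul, ← Ex_smul, ← Ex_add, ← Ex_add, ← Ex_add]
  refine Ex_congr _ _ _ fun l _ => ?_
  rw [← avg_smul, ← avg_smul, ← avg_smul, ← avg_smul, ← avg_add, ← avg_add, ← avg_add]

end CshAux

/-- One pair of laws. -/
theorem csh_pair {p q : GA G} (hp : IsLaw p) (hq : IsLaw q) (γ δ : G) (F : G × G → ℝ) :
    (ev (tens (pt γ * p - p) (pt δ * q - q)) F) ^ 2 ≤
      4 * (He (pt γ * p) p * He (pt δ * q) q) *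
        (ev (tens (pt γ * p) (pt δ * q)) (fun z => F z ^ 2) +
          ev (tens (pt γ * p) q) (fun z => F z ^ 2) +
          ev (tens p (pt δ * q)) (fun z => F z ^ 2) + ev (tens p q) (fun z => F z ^ 2)) := by
  exact CshAux.pair_gen _ _ _ _ ((NN.pt γ).mul hp.nn) hp.nn ((NN.pt δ).mul hq.nn) hq.nn F

theorem csh {g h γ δ : G} (hg : IsPair S g γ 1) (hh : IsPair S h 1 δ) (K : ℕ) (f : G → ℝ) :
    (ev (S.XK K) (fun z => f (g * h * z)) - ev (S.XK K) (fun z => f (g * z)) -
        ev (S.XK K) (fun z => f (h * z)) + ev (S.XK K) f) ^ 2 ≤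
      4 * (Ex K fun l => He (pt γ * S.p0 l) (S.p0 l) * He (pt δ * S.p1 l) (S.p1 l)) *
        (ev (S.XK K) (fun z => f (g * h * z) ^ 2) + ev (S.XK K) (fun z => f (g * z) ^ 2) +
          ev (S.XK K) (fun z => f (h * z) ^ 2) + ev (S.XK K) (fun z => f z ^ 2)) := by
  have h1 : IsPair S (1 : G) 1 1 := by
    refine ⟨S.G1.one_mem, ?_, ?_⟩
    · exact congrArg Prod.fst (S.prH.map_one)
    · exact congrArg Prod.snd (S.prH.map_one)
  have hgh := CshAux.IsPair_mul S hg hh
  have e0 : ∀ f : G → ℝ, ev (S.XK K) f = ev (S.XK K) (fun z => f (1 * z)) := by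
    intro f; simp only [one_mul]
  rw [e0 f, e0 (fun z => f z ^ 2)]
  have sh : ∀ {g γ δ : G} (_ : IsPair S g γ δ), ev (S.XK K) (fun z => f (g * z)) =
      Ex K fun l => avg fun z : ZMod 2 =>
        ev (tens (pt γ * (S.p0 l * pt (pw (S.e 3) z))) (pt δ * (S.p1 l * pt (pw S.a z))))
          (S.hat f) := fun h => CshAux.ev_shift S h K f
  have sh2 : ∀ {g γ δ : G} (_ : IsPair S g γ δ), ev (S.XK K) (fun z => f (g * z) ^ 2) =
      Ex K fun l => avg fun z : ZMod 2 =>
        ev (tens (pt γ * (S.p0 l * pt (pw (S.e 3) z))) (pt δ * (S.p1 l * pt (pw S.a z))))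
          (fun x => S.hat f x ^ 2) := fun h => by
    have := CshAux.ev_shift S h K (fun z => f z ^ 2)
    rw [this]
    refine Ex_congr _ _ _ fun l _ => ?_
    congr 1
    funext z
    congr 1
    funext x
    exact CshAux.hat_sq S f x
  rw [sh hgh, sh hg, sh hh, sh h1, sh2 hgh, sh2 hg, sh2 hh, sh2 h1]
  have c1 := CshAux.comb K
    (fun (l : List (ZMod 2 × ZMod 2)) (z : ZMod 2) =>
      ev (tens (pt γ * (S.p0 l * pt (pw (S.e 3) z))) (pt δ * (S.p1 l * pt (pw S.a z)))) (S.hat f))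
    (fun (l : List (ZMod 2 × ZMod 2)) (z : ZMod 2) =>
      ev (tens (pt γ * (S.p0 l * pt (pw (S.e 3) z))) (pt 1 * (S.p1 l * pt (pw S.a z)))) (S.hat f))
    (fun (l : List (ZMod 2 × ZMod 2)) (z : ZMod 2) =>
      ev (tens (pt 1 * (S.p0 l * pt (pw (S.e 3) z))) (pt δ * (S.p1 l * pt (pw S.a z)))) (S.hat f))
    (fun (l : List (ZMod 2 × ZMod 2)) (z : ZMod 2) =>
      ev (tens (pt 1 * (S.p0 l * pt (pw (S.e 3) z))) (pt 1 * (S.p1 l * pt (pw S.a z)))) (S.hat f))
    1 (-1) (-1) 1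
  have c2 := CshAux.comb K
    (fun (l : List (ZMod 2 × ZMod 2)) (z : ZMod 2) =>
      ev (tens (pt γ * (S.p0 l * pt (pw (S.e 3) z))) (pt δ * (S.p1 l * pt (pw S.a z))))
        (fun x => S.hat f x ^ 2))
    (fun (l : List (ZMod 2 × ZMod 2)) (z : ZMod 2) =>
      ev (tens (pt γ * (S.p0 l * pt (pw (S.e 3) z))) (pt 1 * (S.p1 l * pt (pw S.a z))))
        (fun x => S.hat f x ^ 2))
    (fun (l : List (ZMod 2 × ZMod 2)) (z : ZMod 2) =>
      ev (tens (pt 1 * (S.p0 l * pt (pw (S.e 3) z))) (pt δ * (S.p1 l * pt (pw S.a z))))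
        (fun x => S.hat f x ^ 2))
    (fun (l : List (ZMod 2 × ZMod 2)) (z : ZMod 2) =>
      ev (tens (pt 1 * (S.p0 l * pt (pw (S.e 3) z))) (pt 1 * (S.p1 l * pt (pw S.a z))))
        (fun x => S.hat f x ^ 2))
    1 1 1 1
  have nn0 : ∀ (l : List (ZMod 2 × ZMod 2)) (z : ZMod 2), IsLaw (S.p0 l * pt (pw (S.e 3) z)) :=
    fun l z => (law_p0 S l).mul (IsLaw.pt _)
  have nn1 : ∀ (l : List (ZMod 2 × ZMod 2)) (z : ZMod 2), IsLaw (S.p1 l * pt (pw S.a z)) :=
    fun l z => (law_p1 S l).mul (IsLaw.pt _)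
  have key := CshAux.Ex_sq_le K
    (fun l : List (ZMod 2 × ZMod 2) => avg fun z : ZMod 2 =>
      1 * ev (tens (pt γ * (S.p0 l * pt (pw (S.e 3) z))) (pt δ * (S.p1 l * pt (pw S.a z))))
        (S.hat f) +
      (-1) * ev (tens (pt γ * (S.p0 l * pt (pw (S.e 3) z))) (pt 1 * (S.p1 l * pt (pw S.a z))))
        (S.hat f) +
      (-1) * ev (tens (pt 1 * (S.p0 l * pt (pw (S.e 3) z))) (pt δ * (S.p1 l * pt (pw S.a z))))
        (S.hat f) +
      1 * ev (tens (pt 1 * (S.p0 l * pt (pw (S.e 3) z))) (pt 1 * (S.p1 l * pt (pw S.a z))))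
        (S.hat f))
    (fun l => He (pt γ * S.p0 l) (S.p0 l) * He (pt δ * S.p1 l) (S.p1 l))
    (fun l : List (ZMod 2 × ZMod 2) => avg fun z : ZMod 2 =>
      1 * ev (tens (pt γ * (S.p0 l * pt (pw (S.e 3) z))) (pt δ * (S.p1 l * pt (pw S.a z))))
        (fun x => S.hat f x ^ 2) +
      1 * ev (tens (pt γ * (S.p0 l * pt (pw (S.e 3) z))) (pt 1 * (S.p1 l * pt (pw S.a z))))
        (fun x => S.hat f x ^ 2) +
      1 * ev (tens (pt 1 * (S.p0 l * pt (pw (S.e 3) z))) (pt δ * (S.p1 l * pt (pw S.a z))))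
        (fun x => S.hat f x ^ 2) +
      1 * ev (tens (pt 1 * (S.p0 l * pt (pw (S.e 3) z))) (pt 1 * (S.p1 l * pt (pw S.a z))))
        (fun x => S.hat f x ^ 2))
    4 (by norm_num) (fun l => mul_nonneg (He_nonneg _ _) (He_nonneg _ _))
    (fun l => avg_nonneg _ fun z => by
      have q : ∀ γ' δ' : G, 0 ≤ 1 * ev (tens (pt γ' * (S.p0 l * pt (pw (S.e 3) z)))
          (pt δ' * (S.p1 l * pt (pw S.a z)))) (fun x => S.hat f x ^ 2) := fun γ' δ' => by
        rw [one_mul]
        exact ev_nonneg _ (((NN.pt _).mul (nn0 l z).nn).tens ((NN.pt _).mul (nn1 l z).nn)) _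
          fun _ _ => sq_nonneg _
      have := q γ δ; have := q γ 1; have := q 1 δ; have := q 1 1
      linarith)
    (fun l => by
      have hav := CshAux.avg_sq_le
        (fun z : ZMod 2 =>
          1 * ev (tens (pt γ * (S.p0 l * pt (pw (S.e 3) z))) (pt δ * (S.p1 l * pt (pw S.a z))))
            (S.hat f) +
          (-1) * ev (tens (pt γ * (S.p0 l * pt (pw (S.e 3) z))) (pt 1 * (S.p1 l * pt (pw S.a z))))
            (S.hat f) +
          (-1) * ev (tens (pt 1 * (S.p0 l * pt (pw (S.e 3) z))) (pt δ * (S.p1 l * pt (pw S.a z))))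
            (S.hat f) +
          1 * ev (tens (pt 1 * (S.p0 l * pt (pw (S.e 3) z))) (pt 1 * (S.p1 l * pt (pw S.a z))))
            (S.hat f))
        (fun _ : ZMod 2 => He (pt γ * S.p0 l) (S.p0 l) * He (pt δ * S.p1 l) (S.p1 l))
        (fun z : ZMod 2 =>
          1 * ev (tens (pt γ * (S.p0 l * pt (pw (S.e 3) z))) (pt δ * (S.p1 l * pt (pw S.a z))))
            (fun x => S.hat f x ^ 2) +
          1 * ev (tens (pt γ * (S.p0 l * pt (pw (S.e 3) z))) (pt 1 * (S.p1 l * pt (pw S.a z))))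
            (fun x => S.hat f x ^ 2) +
          1 * ev (tens (pt 1 * (S.p0 l * pt (pw (S.e 3) z))) (pt δ * (S.p1 l * pt (pw S.a z))))
            (fun x => S.hat f x ^ 2) +
          1 * ev (tens (pt 1 * (S.p0 l * pt (pw (S.e 3) z))) (pt 1 * (S.p1 l * pt (pw S.a z))))
            (fun x => S.hat f x ^ 2))
        4 (by norm_num) (fun _ => mul_nonneg (He_nonneg _ _) (He_nonneg _ _))
        (fun z => by
          have q : ∀ γ' δ' : G, 0 ≤ 1 * ev (tens (pt γ' * (S.p0 l * pt (pw (S.e 3) z)))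
              (pt δ' * (S.p1 l * pt (pw S.a z)))) (fun x => S.hat f x ^ 2) := fun γ' δ' => by
            rw [one_mul]
            exact ev_nonneg _ (((NN.pt _).mul (nn0 l z).nn).tens ((NN.pt _).mul (nn1 l z).nn)) _
              fun _ _ => sq_nonneg _
          have := q γ δ; have := q γ 1; have := q 1 δ; have := q 1 1
          linarith)
        (fun z => by
          have hp := CshAux.pair_gen (pt γ * (S.p0 l * pt (pw (S.e 3) z)))
            (S.p0 l * pt (pw (S.e 3) z)) (pt δ * (S.p1 l * pt (pw S.a z)))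
            (S.p1 l * pt (pw S.a z)) ((NN.pt _).mul (nn0 l z).nn) (nn0 l z).nn
            ((NN.pt _).mul (nn1 l z).nn) (nn1 l z).nn (S.hat f)
          rw [tens_sub_left, tens_sub_right, tens_sub_right, ev_sub, ev_sub, ev_sub,
            ← mul_assoc (pt γ), ← mul_assoc (pt δ), He_mul_pt, He_mul_pt] at hp
          simp only [pt_one, one_mul]
          simp only [mul_assoc] at hp ⊢
          refine le_trans (le_of_eq ?_) (hp.trans (le_of_eq ?_))
          · ring
          · ring)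
      rw [avg_const] at hav
      exact hav)
  rw [← c1, ← c2] at key
  refine le_trans (le_of_eq ?_) (key.trans (le_of_eq ?_))
  · ring
  · ring

end Pool.Agent.PHF
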