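import Pool.Agent.PHF.Rec

set_option autoImplicit false

namespace Pool.Agent.PHF

/-! Module CONTR: contraction and conclusion. -/

variable {G : Type} [Group G] {S : SGp G}

/-- the infimum -/
noncomputable def CTR_inf (f : G → ℝ) : ℝ := ⨅ x, f x

theorem CTR_inf_le {f : G → ℝ} (hf : ∃ c : ℝ, ∀ x, c ≤ f x) (x : G) : CTR_inf f ≤ f x := by
  obtain ⟨c, hc⟩ := hf
  exact ciInf_le ⟨c, by rintro _ ⟨y, rfl⟩; exact hc y⟩ x

theorem CTR_exists (f : G → ℝ) {ε : ℝ} (hε : 0 < ε) : ∃ x, f x < CTR_inf f + ε :=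
  exists_lt_of_ciInf_lt (lt_add_of_pos_right _ hε)

/-- in the set BB there are points where `f` is close to its infimum -/
theorem CTR_near {f : G → ℝ} (hf : S.Dcl f) {ε : ℝ} (hε : 0 < ε) :
    ∃ b ∈ S.BB, f b ≤ CTR_inf f + ε := by
  classical
  obtain ⟨F, hF⟩ := BB_cover S
  have h0 : ∀ x, 0 ≤ f x - CTR_inf f := fun x => sub_nonneg.mpr (CTR_inf_le hf.bdd x)
  have hH : S.Harm (fun z => f z - CTR_inf f) := (Dcl_sub hf _).harm
  choose C hC0 hC using fun y : G => harnack hH h0 y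
  -- a common constant
  obtain ⟨C1, hC1⟩ : ∃ C1 : ℝ, 0 < C1 ∧ ∀ y ∈ F, C y ≤ C1 := by
    refine ⟨1 + ∑ y ∈ F, C y, ?_, ?_⟩
    · have : 0 ≤ ∑ y ∈ F, C y := Finset.sum_nonneg fun y _ => (hC0 y).le
      linarith
    · intro y hy
      have := Finset.single_le_sum (f := C) (fun z _ => (hC0 z).le) hy
      linarith
  obtain ⟨x, hx⟩ := CTR_exists f (ε := ε / C1) (div_pos hε hC1.1)
  obtain ⟨y, hy, hyB⟩ := hF x⁻¹
  have hb : x * y ∈ S.BB := by
    have := BB_inv S hyB
    rwa [mul_inv_rev, inv_inv, inv_inv] at this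
  refine ⟨x * y, hb, ?_⟩
  have h1 := hC y x
  have h2 : C y * (f x - CTR_inf f) ≤ C1 * (ε / C1) := by
    refine mul_le_mul (hC1.2 y hy) ?_ (h0 x) hC1.1.le
    linarith
  rw [mul_div_cancel₀ _ hC1.1.ne'] at h2
  linarith

/-- the difference of the two averages -/
noncomputable def CTR_D (S : SGp G) (f : G → ℝ) : ℝ := act S.mV f 1 - act S.mA f 1

theorem CTR_pair_one {b b' : G} (hb : b ∈ S.BB) (hb' : b' ∈ S.BB) :
    ∃ g, IsPair S g b b' := by
  have h := IsPair_mul (dl_false S hb) (dl_true S hb')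
  rw [mul_one, one_mul] at h
  exact ⟨_, h⟩

theorem CTR_one (S : SGp G) : IsPair S (1 : G) 1 1 := IsPair_one S

theorem CTR_vv_zero_term {f : G → ℝ} (h0 : ∀ x, 0 ≤ f x) : f 1 / 16 ≤ act S.mV f 1 := by
  unfold act
  rw [mV_eq_avg, ev_avg]
  unfold avg
  simp only [ev_pt, one_mul, smul_eq_mul]
  have h1 : f (S.vv 0) ≤ ∑ x : Fin 4 → ZMod 2, f (S.vv x) :=
    Finset.single_le_sum (f := fun x : Fin 4 → ZMod 2 => f (S.vv x)) (fun x _ => h0 _)
      (Finset.mem_univ 0)
  rw [vv_zero] at h1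
  have h2 : (Fintype.card (Fin 4 → ZMod 2) : ℝ) = 16 := by
    rw [Fintype.card_fun, ZMod.card, Fintype.card_fin]
    norm_num
  rw [h2]
  linarith

theorem CTR_key {f : G → ℝ} (hf : S.Dcl f) : ∃ u w : G → ℝ, S.Dcl u ∧ S.Dcl w ∧
    |CTR_D S f| ≤ (|CTR_D S u| + |CTR_D S w|) / 2 ∧
    (u 1 - CTR_inf u) + (w 1 - CTR_inf w) ≤ (2 - 1 / 16) * (f 1 - CTR_inf f) := by
  obtain ⟨u, w, hu, hw, h⟩ := recursion hf
  refine ⟨u, w, hu, hw, ?_, ?_⟩
  · have hr : S.root (1 : G) = false := root_one S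
    have h1 := marg_Z0 u w (act S.mA f) h 1 hr
    have h2 := marg_mV u w (act S.mA f) h 1 hr
    rw [sec_one, sec_one] at h1 h2
    have h3 := phi_eq hf.harm 1
    have h4 : act S.mV (act S.mA f) 1 = act S.mV f 1 := by rw [mV_mA hf.harm]
    have h5 : CTR_D S f = (CTR_D S w - CTR_D S u) / 2 := by
      unfold CTR_D
      linarith
    rw [h5, abs_div, abs_two]
    have h6 := abs_sub (CTR_D S w) (CTR_D S u)
    linarith
  · have hi : ∀ x, 0 ≤ f x - CTR_inf f := fun x => sub_nonneg.mpr (CTR_inf_le hf.bdd x)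
    -- the infima
    have h1 : CTR_inf f ≤ CTR_inf u + CTR_inf w := by
      refine le_of_forall_pos_le_add fun ε hε => ?_
      obtain ⟨b, hb, hb2⟩ := CTR_near hu (half_pos hε)
      obtain ⟨b', hb', hb2'⟩ := CTR_near hw (half_pos hε)
      obtain ⟨g, hg⟩ := CTR_pair_one hb hb'
      have h2 := h g hg.1
      rw [hg.2.1, hg.2.2] at h2
      have h3 : CTR_inf f ≤ act S.mA f g := by
        have := act_mono S.mA (law_mA S).nn (fun _ => CTR_inf f) f
          (fun z => CTR_inf_le hf.bdd z) g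
        rwa [act_const _ (law_mA S)] at this
      linarith
    have h2 := h 1 (root_one S)
    rw [sec_one, sec_one] at h2
    have h3 := hf.harm 1
    have h4 : (f 1 - CTR_inf f) / 16 ≤ act S.mV f 1 - CTR_inf f := by
      have h5 := CTR_vv_zero_term (S := S) hi
      rw [act_fsub, act_const _ (law_mV S)] at h5
      exact h5
    linarith

theorem CTR_bound (n : ℕ) : ∀ {f : G → ℝ}, S.Dcl f →
    |CTR_D S f| ≤ 2 * (1 - 1 / 32) ^ n * (f 1 - CTR_inf f) := by
  induction n with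
  | zero =>
    intro f hf
    have h1 : CTR_inf f ≤ act S.mA f 1 := by
      have := act_mono S.mA (law_mA S).nn (fun _ => CTR_inf f) f
        (fun z => CTR_inf_le hf.bdd z) 1
      rwa [act_const _ (law_mA S)] at this
    have h2 : CTR_inf f ≤ act S.mV f 1 := by
      have := act_mono S.mV (law_mV S).nn (fun _ => CTR_inf f) f
        (fun z => CTR_inf_le hf.bdd z) 1
      rwa [act_const _ (law_mV S)] at this
    have h3 := hf.harm 1
    unfold CTR_D
    rw [abs_le]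
    constructor <;> nlinarith
  | succ n ih =>
    intro f hf
    obtain ⟨u, w, hu, hw, h1, h2⟩ := CTR_key hf
    have h3 := ih hu
    have h4 := ih hw
    have h5 : (0 : ℝ) ≤ (1 - 1 / 32) ^ n := by positivity
    have h6 := mul_le_mul_of_nonneg_left h2 h5
    rw [pow_succ]
    nlinarith

theorem CTR_zero {f : G → ℝ} (hf : S.Dcl f) : CTR_D S f = 0 := by
  have h1 : Filter.Tendsto (fun n : ℕ => 2 * (1 - 1 / 32 : ℝ) ^ n * (f 1 - CTR_inf f))
      Filter.atTop (nhds (2 * 0 * (f 1 - CTR_inf f))) := by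
    refine (Filter.Tendsto.const_mul 2 ?_).mul_const _
    exact tendsto_pow_atTop_nhds_zero_of_lt_one (by norm_num) (by norm_num)
  rw [mul_zero, zero_mul] at h1
  have h2 : |CTR_D S f| ≤ 0 := ge_of_tendsto' h1 fun n => CTR_bound n hf
  exact abs_eq_zero.mp (le_antisymm h2 (abs_nonneg _))

theorem CTR_eq {f : G → ℝ} (hf : S.Dcl f) (y : G) : act S.mA f y = f y ∧ act S.mV f y = f y := by
  have h1 := CTR_zero (Dcl_left hf y)
  unfold CTR_D at h1
  rw [act_left, act_left, mul_one] at h1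
  have h2 := hf.harm y
  constructor <;> linarith

theorem main_const {f : G → ℝ} (hf : S.Dcl f) (x : G) : f x = f 1 := by
  refine G_induction S (P := fun x => f x = f 1) rfl ?_ ?_ x
  · intro x hx
    show f (x * S.a) = f 1
    rw [← hx, ← (CTR_eq hf x).1, ← (CTR_eq hf (x * S.a)).1]
    exact phi_a x
  · intro x i hx
    show f (x * S.e i) = f 1
    rw [← hx, ← (CTR_eq hf x).2, ← (CTR_eq hf (x * S.e i)).2, ← vv_single]
    have h1 : act (pt (S.vv (Pi.single i 1)) * S.mV) f x = act S.mV f (x * S.vv (Pi.single i 1)) := by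
      rw [act_mul, act_pt]
    rw [← h1, pt_mV]

end Pool.Agent.PHF
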