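import Mathlib

set_option autoImplicit false

open Pointwise

namespace Pool.Agent.PHF

/-- The group law for the noise: a group with a self-similar structure over the binary tree. -/
structure SGp (G : Type) [Group G] where
  a : G
  e : Fin 4 → G
  root : G → Bool
  sec : Bool → G → G
  root_mul : ∀ g h, root (g * h) = xor (root g) (root h)
  sec_mul : ∀ b g h, sec b (g * h) = sec (xor b (root h)) g * sec b h
  ext : ∀ g h, root g = root h → (∀ b, sec b g = sec b h) → g = h
  a_sq : a * a = 1
  e_sq : ∀ i, e i * e i = 1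
  e_comm : ∀ i j, e i * e j = e j * e i
  root_a : root a = true
  sec_a : ∀ b, sec b a = 1
  root_e : ∀ i, root (e i) = false
  sec_e00 : sec false (e 0) = a
  sec_e01 : sec true (e 0) = e 3
  sec_f : ∀ i, i ≠ 0 → sec false (e i) = 1
  sec_t1 : sec true (e 1) = e 0
  sec_t2 : sec true (e 2) = e 1
  sec_t3 : sec true (e 3) = e 2
  gen : Subgroup.closure (insert a (Set.range e)) = ⊤

/-- `g` raised to a bit. -/
def pw {G : Type} [Group G] (g : G) (s : ZMod 2) : G := if s = 0 then 1 else g

/-- Finite formal sums. -/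
abbrev GA (G : Type) := MonoidAlgebra ℝ G

/-- The point mass. -/
noncomputable def pt {G : Type} (g : G) : GA G := MonoidAlgebra.single g 1

/-- The half sum of 1 and g. -/
noncomputable def hh {G : Type} [Group G] (g : G) : GA G := (1 / 2 : ℝ) • (1 + pt g)

/-- Evaluation of a function against a finite sum. -/
noncomputable def ev {G : Type} (p : GA G) (f : G → ℝ) : ℝ := p.coeff.sum fun z r => r * f z

/-- Action on functions by right translations. -/
noncomputable def act {G : Type} [Group G] (p : GA G) (f : G → ℝ) (x : G) : ℝ :=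
  ev p (fun z => f (x * z))

/-- Nonnegative elements. -/
def NN {G : Type} (p : GA G) : Prop := ∀ z, 0 ≤ p.coeff z

/-- Laws: nonnegative elements of mass one. -/
structure IsLaw {G : Type} (p : GA G) : Prop where
  nn : NN p
  mass : ev p (fun _ => 1) = 1

/-- Squared Hellinger distance. -/
noncomputable def He {G : Type} (p q : GA G) : ℝ :=
  letI := Classical.decEq G
  ∑ z ∈ p.coeff.support ∪ q.coeff.support, (Real.sqrt (p.coeff z) - Real.sqrt (q.coeff z)) ^ 2

/-- Entropy. -/
noncomputable def Ent {G : Type} (p : GA G) : ℝ := ∑ z ∈ p.coeff.support, Real.negMulLog (p.coeff z)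

/-- Product of two finite sums. -/
noncomputable def tens {G : Type} [Group G] (p q : GA G) : GA (G × G) :=
  MonoidAlgebra.mapDomainRingHom ℝ (MonoidHom.inl G G) p *
    MonoidAlgebra.mapDomainRingHom ℝ (MonoidHom.inr G G) q

/-- Exchange of the coordinates. -/
noncomputable def swp {G : Type} [Group G] (Y : GA (G × G)) : GA (G × G) :=
  MonoidAlgebra.mapDomainRingHom ℝ (MulEquiv.prodComm : G × G ≃* G × G).toMonoidHom Y

/-- Average over a finite type. -/
noncomputable def avg {α M : Type} [Fintype α] [AddCommGroup M] [Module ℝ M] (f : α → M) : M :=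
  (Fintype.card α : ℝ)⁻¹ • ∑ x, f x

/-- Average over all lists of length k. -/
noncomputable def Ex {α M : Type} [Fintype α] [AddCommGroup M] [Module ℝ M] :
    ℕ → (List α → M) → M
  | 0, Φ => Φ []
  | k + 1, Φ => avg fun x => Ex k fun l => Φ (x :: l)

/-- Average of `u` over a binomial variable of parameters `n, 1/2`. -/
noncomputable def binAvg : ℕ → (ℕ → ℝ) → ℝ
  | 0, u => u 0
  | n + 1, u => (binAvg n u + binAvg n (fun k => u (k + 1))) / 2

/-- The quadratic form of the noise operator. -/
noncomputable def Qn : ℕ → (List (ZMod 2) → ℝ) → ℝ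
  | 0, Φ => (Φ []) ^ 2
  | k + 1, Φ => Qn k (fun l => (Φ (0 :: l) + Φ (1 :: l)) / 2) +
      (1 / 2) * Qn k (fun l => (Φ (0 :: l) - Φ (1 :: l)) / 2)

/-- The thinning operator on functions of lists of bits. -/
noncomputable def Sth : (List (ZMod 2) → ℝ) → ZMod 2 → List (ZMod 2) → ℝ
  | Φ, _, [] => Φ []
  | Φ, _, [_] => Φ []
  | Φ, c, s1 :: s2 :: l =>
      (Sth (fun x => Φ ((c + s1) :: x)) (c + s1 + s2) l + Sth Φ (c + s1 + s2) l) / 2

/-- The thinning operator of one level. -/
noncomputable def ThG {R : Type} [AddCommGroup R] :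
    (List (ZMod 2 × (R × ZMod 2)) → ℝ) → (ZMod 2 × (R × ZMod 2)) → List (ZMod 2 × R) → ℝ
  | Φ, _, [] => Φ []
  | Φ, _, [_] => Φ []
  | Φ, c, c1 :: c2 :: l => avg fun t : ZMod 2 =>
      (ThG (fun x => Φ ((c + (c1.1, (c1.2, t))) :: x)) (c + (c1.1, (c1.2, t)) + (c2.1, (c2.2, 0))) l +
        ThG Φ (c + (c1.1, (c1.2, t)) + (c2.1, (c2.2, 0))) l) / 2

/-- Average over the second components, given the first ones. -/
noncomputable def Av {R : Type} [Fintype R] : (List (ZMod 2 × R) → ℝ) → List (ZMod 2) → ℝ
  | Φ, [] => Φ []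
  | Φ, s :: S => avg fun r : R => Av (fun l => Φ ((s, r) :: l)) S

variable {G : Type} [Group G]

/-- `g` fixes the first level and has sections `g0, g1`. -/
def IsPair (S : SGp G) (g g0 g1 : G) : Prop :=
  S.root g = false ∧ S.sec false g = g0 ∧ S.sec true g = g1

namespace SGp

variable (S : SGp G)

/-- The stabiliser of the first level. -/
def G1 : Subgroup G where
  carrier := {g | S.root g = false}
  one_mem' := by
    have h := S.root_mul 1 1
    simp only [mul_one] at h
    show S.root 1 = false
    cases hr : S.root 1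
    · rfl
    · rw [hr] at h; simp at h
  mul_mem' := by
    intro x y hx hy
    show S.root (x * y) = false
    rw [S.root_mul]
    have hx' : S.root x = false := hx
    have hy' : S.root y = false := hy
    rw [hx', hy']; rfl
  inv_mem' := by
    intro x hx
    show S.root x⁻¹ = false
    have hx' : S.root x = false := hx
    have h1 := S.root_mul 1 1
    simp only [mul_one] at h1
    have h0 : S.root 1 = false := by
      cases hr : S.root 1
      · rfl
      · rw [hr] at h1; simp at h1
    have h := S.root_mul x x⁻¹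
    rw [mul_inv_cancel, h0, hx'] at h
    simpa using h.symm

/-- The sections at both vertices, as a homomorphism on the stabiliser. -/
def prH : S.G1 →* G × G where
  toFun x := (S.sec false x.1, S.sec true x.1)
  map_one' := by
    have h := S.sec_mul false 1 1
    have h' := S.sec_mul true 1 1
    have h0 : S.root 1 = false := S.G1.one_mem
    rw [h0] at h h'
    simp only [mul_one, Bool.xor_false] at h h'
    ext
    · show S.sec false 1 = 1
      exact mul_eq_left.mp h.symm
    · show S.sec true 1 = 1
      exact mul_eq_left.mp h'.symm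
  map_mul' x y := by
    have hy : S.root y.1 = false := y.2
    ext
    · show S.sec false (x.1 * y.1) = S.sec false x.1 * S.sec false y.1
      rw [S.sec_mul, hy]; simp
    · show S.sec true (x.1 * y.1) = S.sec true x.1 * S.sec true y.1
      rw [S.sec_mul, hy]; simp

/-- `X` is supported on the stabiliser and `Y` is its image in pairs of sections. -/
def Corr (X : GA G) (Y : GA (G × G)) : Prop :=
  ∃ Z : GA S.G1, X = MonoidAlgebra.mapDomainRingHom ℝ S.G1.subtype Z ∧
    Y = MonoidAlgebra.mapDomainRingHom ℝ S.prH Z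

/-- A function on the stabiliser seen as a function of the pair of sections (zero elsewhere). -/
noncomputable def hat (f : G → ℝ) (x : G × G) : ℝ :=
  letI := Classical.dec (∃ g, IsPair S g x.1 x.2)
  if h : ∃ g, IsPair S g x.1 x.2 then f h.choose else 0

/-- The element of V with given bits. -/
def vv (x : Fin 4 → ZMod 2) : G :=
  pw (S.e 0) (x 0) * pw (S.e 1) (x 1) * pw (S.e 2) (x 2) * pw (S.e 3) (x 3)

/-- The generating set used for the word length. -/
def T : Set G := {x | x = S.a ∨ ∃ v, x = S.vv v ∨ x = S.a * S.vv v * S.a}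

/-- Word length. -/
noncomputable def len (x : G) : ℕ := sInf {n | x ∈ S.T ^ n}

/-- Uniform law on 1, a. -/
noncomputable def mA : GA G := hh S.a
/-- Uniform law on V. -/
noncomputable def mV : GA G := hh (S.e 0) * hh (S.e 1) * hh (S.e 2) * hh (S.e 3)
/-- Uniform law on the conjugate of V. -/
noncomputable def Z0 : GA G := pt S.a * S.mV * pt S.a
/-- The random walk. -/
noncomputable def XK (K : ℕ) : GA G := (S.Z0 * S.mV) ^ K * S.Z0
/-- Alternating products. -/
noncomputable def lam : ℕ → GA G
  | 0 => S.mV
  | r + 1 => S.mV * pt S.a * lam r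

/-- Harmonic functions for the half sum of the uniform laws on 1, a and on V. -/
def Harm (f : G → ℝ) : Prop := ∀ x, f x = (act S.mA f x + act S.mV f x) / 2

/-- Harmonic functions which are bounded below and of linear growth. -/
structure Dcl (f : G → ℝ) : Prop where
  harm : S.Harm f
  lin : ∃ C : ℝ, ∀ x, |f x| ≤ C * (1 + S.len x)
  bdd : ∃ c : ℝ, ∀ x, c ≤ f x

/-- The function studied on the stabiliser. -/
noncomputable def chi (f : G → ℝ) : G → ℝ := act (S.Z0 * S.mA) f

/-- The elements which may stand alone in one coordinate. -/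
def BB : Set G := {b | ∃ g, IsPair S g b 1}

/-- The element with section `g` in coordinate `c` and 1 in the other one (for `g` in `BB`). -/
noncomputable def dl (c : Bool) (g : G) : G :=
  letI := Classical.dec (∃ x, IsPair S x (if c then 1 else g) (if c then g else 1))
  if h : ∃ x, IsPair S x (if c then 1 else g) (if c then g else 1) then h.choose else 1

/-- Normal closure of the noise of level 3. -/
def NN3 : Subgroup G := Subgroup.normalClosure {S.e 0}

/-- Normal closure of the noise of level 1. -/
def NN1 : Subgroup G := Subgroup.normalClosure {S.e 0, S.e 1, S.e 2}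

/-- Elements of the stabiliser of level 2 with all sections in `NN3`. -/
def LB : Set G := {g | S.root g = false ∧ (∀ b, S.root (S.sec b g) = false) ∧
  ∀ b b', S.sec b' (S.sec b g) ∈ S.NN3}

/-- number of letters of V: sets of words with `n` letters. -/
def Wd : ℕ → Set G
  | 0 => {1, S.a}
  | n + 1 => {x | ∃ y ∈ Wd n, ∃ v, x = y * S.vv v ∨ x = y * S.vv v * S.a}

/-- The number of letters of V needed. -/
noncomputable def Lv (x : G) : ℕ := sInf {n | x ∈ S.Wd n}

/-- Code length at depth N. -/
noncomputable def ell (c : ℝ) : ℕ → G → ℝ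
  | 0, z => c * (1 + S.Lv z)
  | N + 1, z => ell c N (S.sec false z) + ell c N (S.sec true z)

/-- Sum of the exponentials of the lengths of the sections at depth N. -/
noncomputable def Psi : ℕ → G → ℝ
  | 0, z => 2 ^ S.Lv z
  | N + 1, z => Psi N (S.sec false z) + Psi N (S.sec true z)

/-- Laws of the coordinate 0 given the bits. -/
noncomputable def p0 (S : SGp G) : List (ZMod 2 × ZMod 2) → GA G
  | [] => hh (S.e 0) * hh (S.e 1) * hh (S.e 2)
  | c :: l => hh (S.e 0) * hh (S.e 1) * hh (S.e 2) * pt (pw (S.e 3) c.1) * pt (pw S.a c.2) * p0 S l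

/-- Laws of the coordinate 1 given the bits. -/
noncomputable def p1 (S : SGp G) : List (ZMod 2 × ZMod 2) → GA G
  | [] => 1
  | c :: l => pt (pw S.a c.1) * (hh (S.e 0) * hh (S.e 1) * hh (S.e 2)) * pt (pw (S.e 3) c.2) *
      p1 S l

end SGp

/-- Level data: noise generators and known part. -/
structure Lev (S : SGp G) (R : Type) [AddCommGroup R] [Fintype R] where
  ns : List G
  κ : ZMod 2 × R → G
  ns_sq : ∀ n ∈ ns, n * n = 1
  ns_comm : ∀ n ∈ ns, ∀ n' ∈ ns, n * n' = n' * n
  κ_add : ∀ c d, κ (c + d) = κ c * κ d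
  κ_sq : ∀ c, κ c * κ c = 1
  κ_ns : ∀ n ∈ ns, ∀ c, n * κ c = κ c * n
  avg_eq : (ns.map hh).prod * avg (fun c => pt (κ c)) = S.mV
  gen : Subgroup.closure (insert S.a ({n | n ∈ ns} ∪ Set.range κ)) = ⊤

namespace Lev

variable {S : SGp G} {R : Type} [AddCommGroup R] [Fintype R]

/-- The noise law. -/
noncomputable def m (L : Lev S R) : GA G := (L.ns.map hh).prod

/-- The products of level L. -/
noncomputable def q (L : Lev S R) : List (ZMod 2 × R) → GA G
  | [] => L.m
  | c :: l => L.m * pt (L.κ c) * pt S.a * pt (L.κ c) * q L l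

end Lev

/-- Consecutive levels. -/
structure LevStep {S : SGp G} {R : Type} [AddCommGroup R] [Fintype R]
    (L : Lev S R) (L' : Lev S (R × ZMod 2)) : Prop where
  head : ∃ rest : List G, L.ns = S.e 0 :: rest ∧
    (∀ n ∈ rest, S.root n = false ∧ S.sec false n = 1) ∧ L'.ns = rest.map (S.sec true)
  κ_pair : ∀ s r, IsPair S (L.κ (s, r)) 1 (L'.κ (s, (r, 0)))
  κ_last : ∀ t, L'.κ (0, (0, t)) = pw (S.e 3) t

end Pool.Agent.PHF
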