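import Pool.Agent.PHF.Alg

set_option autoImplicit false

namespace Pool.Agent.PHF

/-! Module CV: the Varopoulos-Carne bound by weighted l2 norms. -/

variable {G : Type} [Group G] (S : SGp G)

/-- weighted l2 norm -/
noncomputable def VcaW (s : ℝ) (p : GA G) : ℝ :=
  ∑' z, Real.exp (2 * s * S.len z) * p.coeff z ^ 2

omit [Group G] in
theorem Vca_summable (p : GA G) (X : G → ℝ) : Summable fun z => X z * p.coeff z ^ 2 := by
  refine summable_of_ne_finset_zero (s := p.coeff.support) fun z hz => ?_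
  rw [Finsupp.notMem_support_iff.1 hz]
  ring

/-- Kantorovich's inequality for averages. -/
theorem Vca_kant {ι : Type} [Fintype ι] [Nonempty ι] (ℓ : ι → ℕ)
    (hℓ : ∀ v w, ℓ v ≤ ℓ w + 1) (s : ℝ) (hs : 0 ≤ s) :
    (avg fun v => Real.exp (2 * s * ℓ v)) * (avg fun v => Real.exp (-(2 * s * ℓ v))) ≤
      Real.cosh s ^ 2 := by
  classical
  obtain ⟨v0, -, hv0⟩ := Finset.exists_min_image Finset.univ ℓ Finset.univ_nonempty
  set m : ℝ := Real.exp (2 * s * ℓ v0) with hm
  set c : ℝ := Real.exp (2 * s) with hc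
  have hmpos : 0 < m := Real.exp_pos _
  have hcpos : 0 < c := Real.exp_pos _
  set A : ℝ := avg fun v => Real.exp (2 * s * ℓ v) with hA
  set B : ℝ := avg fun v => Real.exp (-(2 * s * ℓ v)) with hB
  have key : ∀ v, Real.exp (2 * s * ℓ v) + m ^ 2 * c * Real.exp (-(2 * s * ℓ v)) ≤
      m * (1 + c) := by
    intro v
    set x : ℝ := Real.exp (2 * s * ℓ v) with hx
    have hxpos : 0 < x := Real.exp_pos _
    have hxi : Real.exp (-(2 * s * ℓ v)) * x = 1 := by
      rw [hx, ← Real.exp_add]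
      simp
    have h1 : m ≤ x := by
      refine Real.exp_le_exp.2 ?_
      have : (ℓ v0 : ℝ) ≤ ℓ v := by exact_mod_cast hv0 v (Finset.mem_univ _)
      nlinarith
    have h2 : x ≤ m * c := by
      rw [hm, hc, ← Real.exp_add]
      refine Real.exp_le_exp.2 ?_
      have : (ℓ v : ℝ) ≤ ℓ v0 + 1 := by exact_mod_cast hℓ v v0
      nlinarith
    have h3 : (x - m) * (m * c - x) ≥ 0 := mul_nonneg (by linarith) (by linarith)
    have h4 : (x + m ^ 2 * c * Real.exp (-(2 * s * ℓ v))) * x ≤ (m * (1 + c)) * x := by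
      have : (x + m ^ 2 * c * Real.exp (-(2 * s * ℓ v))) * x = x ^ 2 + m ^ 2 * c := by
        linear_combination (m ^ 2 * c) * hxi
      rw [this]
      nlinarith
    exact le_of_mul_le_mul_right h4 hxpos
  have hsum : A + m ^ 2 * c * B ≤ m * (1 + c) := by
    rw [hA, hB, ← avg_smul, ← avg_add]
    refine (avg_mono _ _ key).trans ?_
    rw [avg_const]
  have hA0 : 0 ≤ A := avg_nonneg _ fun v => (Real.exp_pos _).le
  have hB0 : 0 ≤ B := avg_nonneg _ fun v => (Real.exp_pos _).le
  have h5 : 4 * (m ^ 2 * c) * (A * B) ≤ m ^ 2 * (1 + c) ^ 2 := by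
    have h6 : (A + m ^ 2 * c * B) ^ 2 ≤ (m * (1 + c)) ^ 2 :=
      pow_le_pow_left₀ (by positivity) hsum 2
    nlinarith [sq_nonneg (A - m ^ 2 * c * B)]
  have h7 : 4 * c * (A * B) ≤ (1 + c) ^ 2 := by
    have hm2 : 0 < m ^ 2 := by positivity
    have : m ^ 2 * (4 * c * (A * B)) ≤ m ^ 2 * (1 + c) ^ 2 := by linarith
    exact le_of_mul_le_mul_left this hm2
  have h8 : (1 + c) ^ 2 = 4 * c * Real.cosh s ^ 2 := by
    have e1 : c = Real.exp s * Real.exp s := by
      rw [hc, ← Real.exp_add]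
      ring_nf
    have e2 : Real.exp s * Real.exp (-s) = 1 := by
      rw [← Real.exp_add]
      simp
    rw [Real.cosh_eq, e1]
    linear_combination (-(1 + Real.exp s * Real.exp (-s) + 2 * Real.exp s ^ 2)) * e2
  rw [h8] at h7
  exact le_of_mul_le_mul_left h7 (by positivity)

omit [Group G] in
theorem Vca_avg_tsum {ι : Type} [Fintype ι] (g : ι → G → ℝ)
    (hg : ∀ i, Summable (g i)) : (∑' z, avg fun i => g i z) = avg fun i => ∑' z, g i z := by
  unfold avg
  simp only [smul_eq_mul]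
  rw [tsum_mul_left, Summable.tsum_finsetSum fun i _ => hg i]

/-- One step of the weighted norm estimate. -/
theorem Vca_step {ι : Type} [Fintype ι] [Nonempty ι] [AddCommGroup ι] (ρ : ι → G)
    (hρ : ∀ u v, ρ (u + v) = ρ u * ρ v) (hT : ∀ v, ρ v ∈ S.T) (s : ℝ) (hs : 0 ≤ s) (p : GA G) :
    VcaW S s (p * avg fun v => pt (ρ v)) ≤ Real.cosh s ^ 2 * VcaW S s p := by
  classical
  set X : G → ℝ := fun z => Real.exp (2 * s * S.len z) with hX
  set P : G → ℝ := fun z => avg fun v => p.coeff (z * ρ v) with hP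
  have hρ0 : ρ 0 = 1 := by
    have := hρ 0 0
    rw [add_zero] at this
    exact mul_eq_left.1 this.symm
  have hρi : ∀ v, (ρ v)⁻¹ = ρ (-v) := by
    intro v
    rw [inv_eq_iff_mul_eq_one, ← hρ, add_neg_cancel, hρ0]
  -- the coefficients
  have hco : ∀ z, (p * avg fun v => pt (ρ v)).coeff z = P z := by
    intro z
    rw [← avg_mul_left, coeff_eq_ev, ev_avg]
    simp only [← coeff_eq_ev, coeff_mul_pt, hρi]
    exact avg_equiv (Equiv.neg ι) (fun v => p.coeff (z * ρ v))
  have hPinv : ∀ z u, P (z * ρ u) = P z := by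
    intro z u
    simp only [hP, mul_assoc, ← hρ]
    exact avg_add_left u (fun v => p.coeff (z * ρ v))
  have hPsup : ∃ F : Finset G, ∀ z, z ∉ F → P z = 0 := by
    refine ⟨(p * avg fun v => pt (ρ v)).coeff.support, fun z hz => ?_⟩
    rw [← hco]
    exact Finsupp.notMem_support_iff.1 hz
  obtain ⟨F, hF⟩ := hPsup
  have sumP : ∀ Y : G → ℝ, Summable fun z => Y z * P z ^ 2 := by
    intro Y
    refine summable_of_ne_finset_zero (s := F) fun z hz => ?_
    rw [hF z hz]
    ring
  have e1 : VcaW S s (p * avg fun v => pt (ρ v)) = ∑' z, X z * P z ^ 2 := by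
    unfold VcaW
    exact tsum_congr fun z => by rw [hco]
  -- averaging over the coset
  have avgX : ∀ (f : G → ℝ), (∀ v : ι, Summable fun z => f (z * ρ v)) →
      ∑' z, f z = ∑' z, avg fun v => f (z * ρ v) := by
    intro f hf
    rw [Vca_avg_tsum _ hf]
    have : ∀ v, ∑' z, f (z * ρ v) = ∑' z, f z := fun v =>
      (Equiv.mulRight (ρ v)).tsum_eq f
    simp only [this]
    exact (avg_const _).symm
  have summ_shift : ∀ (f : G → ℝ) (v : ι), Summable f → Summable fun z => f (z * ρ v) := by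
    intro f v hf
    exact (Equiv.mulRight (ρ v)).summable_iff.2 hf
  have e2 : ∑' z, X z * P z ^ 2 = ∑' z, (avg fun v => X (z * ρ v)) * P z ^ 2 := by
    rw [avgX (fun z => X z * P z ^ 2) fun v => summ_shift (fun z => X z * P z ^ 2) v (sumP X)]
    refine tsum_congr fun z => ?_
    simp only [hPinv]
    simp only [avg, smul_eq_mul, ← Finset.sum_mul, mul_assoc]
  have e3 : VcaW S s p = ∑' z, avg fun v => X (z * ρ v) * p.coeff (z * ρ v) ^ 2 := by
    have h := avgX (fun z => X z * p.coeff z ^ 2) fun v =>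
      summ_shift (fun z => X z * p.coeff z ^ 2) v (Vca_summable p X)
    exact h
  rw [e1, e2, e3, ← tsum_mul_left]
  have sumR : Summable fun z => avg fun v => X (z * ρ v) * p.coeff (z * ρ v) ^ 2 := by
    unfold avg
    simp only [smul_eq_mul]
    refine Summable.mul_left _ (summable_sum fun v _ => ?_)
    exact summ_shift (fun z => X z * p.coeff z ^ 2) v (Vca_summable p X)
  refine Summable.tsum_le_tsum (fun z => ?_) (sumP _) (sumR.mul_left _)
  -- pointwise: Cauchy-Schwarz and Kantorovich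
  have hXpos : ∀ z, 0 < X z := fun z => Real.exp_pos _
  have cs := avg_mul_sq_le (fun v : ι => Real.exp (-(s * S.len (z * ρ v))))
    (fun v => Real.exp (s * S.len (z * ρ v)) * p.coeff (z * ρ v))
  have c1 : (avg fun v : ι => Real.exp (-(s * S.len (z * ρ v))) *
      (Real.exp (s * S.len (z * ρ v)) * p.coeff (z * ρ v))) = P z := by
    simp only [hP]
    congr 1
    funext v
    rw [← mul_assoc, ← Real.exp_add, neg_add_cancel, Real.exp_zero, one_mul]
  have c2 : (avg fun v : ι => Real.exp (-(s * S.len (z * ρ v))) ^ 2) =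
      avg fun v => Real.exp (-(2 * s * S.len (z * ρ v))) := by
    congr 1
    funext v
    rw [← Real.exp_nat_mul]
    congr 1
    push_cast
    ring
  have c3 : (avg fun v : ι => (Real.exp (s * S.len (z * ρ v)) * p.coeff (z * ρ v)) ^ 2) =
      avg fun v => X (z * ρ v) * p.coeff (z * ρ v) ^ 2 := by
    congr 1
    funext v
    rw [mul_pow, hX, ← Real.exp_nat_mul]
    congr 2
    push_cast
    ring
  rw [c1, c2, c3] at cs
  have hk := Vca_kant (fun v => S.len (z * ρ v)) (fun v w => by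
    have e : z * ρ v = z * ρ w * ρ (v - w) := by
      rw [mul_assoc, ← hρ]
      congr 2
      abel
    rw [e]
    exact (len_mul_le S _ _).trans (by have := len_le_one S (hT (v - w)); omega)) s hs
  have hA0 : 0 ≤ avg fun v : ι => X (z * ρ v) := avg_nonneg _ fun v => (hXpos _).le
  have hR0 : 0 ≤ avg fun v : ι => X (z * ρ v) * p.coeff (z * ρ v) ^ 2 :=
    avg_nonneg _ fun v => mul_nonneg (hXpos _).le (sq_nonneg _)
  calc (avg fun v => X (z * ρ v)) * P z ^ 2
      ≤ (avg fun v => X (z * ρ v)) * ((avg fun v => Real.exp (-(2 * s * S.len (z * ρ v)))) *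
        avg fun v => X (z * ρ v) * p.coeff (z * ρ v) ^ 2) := mul_le_mul_of_nonneg_left cs hA0
    _ = ((avg fun v => X (z * ρ v)) * (avg fun v => Real.exp (-(2 * s * S.len (z * ρ v))))) *
        avg fun v => X (z * ρ v) * p.coeff (z * ρ v) ^ 2 := by ring
    _ ≤ _ := mul_le_mul_of_nonneg_right hk hR0

theorem Vca_mV (s : ℝ) (hs : 0 ≤ s) (p : GA G) :
    VcaW S s (p * S.mV) ≤ Real.cosh s ^ 2 * VcaW S s p := by
  rw [mV_eq_avg]
  exact Vca_step S (fun v => S.vv v) (vv_add S) (fun v => vv_mem_T S v) s hs p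

theorem Vca_Z0 (s : ℝ) (hs : 0 ≤ s) (p : GA G) :
    VcaW S s (p * S.Z0) ≤ Real.cosh s ^ 2 * VcaW S s p := by
  have e : S.Z0 = avg fun v : Fin 4 → ZMod 2 => pt (S.a * S.vv v * S.a) := by
    unfold SGp.Z0
    rw [mV_eq_avg, ← avg_mul_left, ← avg_mul_right]
    congr 1
    funext v
    rw [pt_mul, pt_mul]
  rw [e]
  refine Vca_step S (fun v => S.a * S.vv v * S.a) (fun u v => ?_) (fun v => ava_mem_T S v) s hs p
  rw [vv_add]
  have ha := S.a_sq
  calc S.a * (S.vv u * S.vv v) * S.a = S.a * S.vv u * 1 * S.vv v * S.a := by group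
    _ = S.a * S.vv u * (S.a * S.a) * S.vv v * S.a := by rw [ha]
    _ = S.a * S.vv u * S.a * (S.a * S.vv v * S.a) := by group

theorem Vca_one (s : ℝ) : VcaW S s (1 : GA G) = 1 := by
  classical
  unfold VcaW
  have hc : ∀ z : G, (1 : GA G).coeff z = if z = 1 then 1 else 0 := by
    intro z
    rw [coeff_eq_ev, ev_one]
    by_cases h : (1 : G) = z
    · rw [if_pos h, if_pos h.symm]
    · rw [if_neg h, if_neg (Ne.symm h)]
  rw [tsum_eq_single (1 : G) (fun z hz => by rw [hc, if_neg hz]; ring), hc, if_pos rfl, len_one]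
  simp

theorem Vca_XK (s : ℝ) (hs : 0 ≤ s) (K : ℕ) :
    VcaW S s (S.XK K) ≤ (Real.cosh s ^ 2) ^ (2 * K + 1) := by
  have hpow : ∀ n : ℕ, VcaW S s ((S.Z0 * S.mV) ^ n) ≤ (Real.cosh s ^ 2) ^ (2 * n) := by
    intro n
    induction n with
    | zero => rw [pow_zero, Vca_one]; simp
    | succ n ih =>
      rw [pow_succ, ← mul_assoc]
      refine (Vca_mV S s hs _).trans ?_
      have h1 := mul_le_mul_of_nonneg_left ((Vca_Z0 S s hs ((S.Z0 * S.mV) ^ n)).trans
        (mul_le_mul_of_nonneg_left ih (sq_nonneg (Real.cosh s)))) (sq_nonneg (Real.cosh s))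
      refine h1.trans (le_of_eq ?_)
      ring
  unfold SGp.XK
  refine (Vca_Z0 S s hs _).trans ?_
  refine (mul_le_mul_of_nonneg_left (hpow K) (sq_nonneg _)).trans (le_of_eq ?_)
  ring

theorem vca (K : ℕ) (z : G) (h : 0 < (S.XK K).coeff z) :
    ((S.len z : ℝ)) ^ 2 ≤ 2 * (2 * K + 1) * (-Real.log ((S.XK K).coeff z)) := by
  set L : ℝ := (S.len z : ℝ) with hL
  set x : ℝ := (S.XK K).coeff z with hx
  have hL0 : 0 ≤ L := Nat.cast_nonneg _
  have hK : (0 : ℝ) < 2 * K + 1 := by positivity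
  set s : ℝ := L / (2 * K + 1) with hs
  have hs0 : 0 ≤ s := by positivity
  have h1 : Real.exp (2 * s * L) * x ^ 2 ≤ VcaW S s (S.XK K) := by
    unfold VcaW
    have := Summable.le_tsum (Vca_summable (S.XK K) fun z => Real.exp (2 * s * S.len z)) z
      (fun w _ => mul_nonneg (Real.exp_pos _).le (sq_nonneg _))
    exact this
  have h2 : Real.exp (2 * s * L) * x ^ 2 ≤ Real.exp (s ^ 2 * (2 * K + 1)) := by
    refine h1.trans ((Vca_XK S s hs0 K).trans ?_)
    have h3 : Real.cosh s ^ 2 ≤ Real.exp (s ^ 2) := by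
      have h4 := Real.cosh_le_exp_half_sq s
      have h5 := pow_le_pow_left₀ (Real.cosh_pos s).le h4 2
      refine h5.trans (le_of_eq ?_)
      rw [← Real.exp_nat_mul]
      congr 1
      push_cast
      ring
    refine (pow_le_pow_left₀ (sq_nonneg _) h3 _).trans (le_of_eq ?_)
    rw [← Real.exp_nat_mul]
    congr 1
    push_cast
    ring
  have h6 := Real.log_le_log (by positivity) h2
  rw [Real.log_exp, Real.log_mul (Real.exp_pos _).ne' (by positivity), Real.log_exp,
    Real.log_pow] at h6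
  push_cast at h6
  have h7 : s * (2 * K + 1) = L := by
    rw [hs]
    field_simp
  have h8 : s ^ 2 * (2 * K + 1) = s * L := by
    rw [sq, mul_assoc, h7]
  rw [h8] at h6
  have h9 : s * L ≤ 2 * (-Real.log x) := by linarith
  have h10 := mul_le_mul_of_nonneg_left h9 hK.le
  have h11 : (2 * (K : ℝ) + 1) * (s * L) = L ^ 2 := by
    rw [← mul_assoc, mul_comm (2 * (K : ℝ) + 1) s, h7]
    ring
  rw [h11] at h10
  linarith

end Pool.Agent.PHF
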