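import Pool.Agent.PHF.Enb
import Pool.Agent.PHF.Vca

set_option autoImplicit false

namespace Pool.Agent.PHF

/-! Module SEC: second moment of nonnegative functions of linear growth. -/

variable {G : Type} [Group G] (S : SGp G)

theorem SecAux_lin (K : ℕ) (u : G → ℝ) (h0 : ∀ z, 0 ≤ u z) :
    ev (S.XK K) (fun z => u z * (S.len z : ℝ) ^ 2) ≤ 4 * ((K : ℝ) + 1) *
      ∑ z ∈ (S.XK K).coeff.support,
        (S.XK K).coeff z * u z * (-Real.log ((S.XK K).coeff z)) := by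
  unfold ev
  rw [Finsupp.sum, Finset.mul_sum]
  refine Finset.sum_le_sum fun z hz => ?_
  have hne := Finsupp.mem_support_iff.mp hz
  have hnn : 0 ≤ (S.XK K).coeff z := (law_XK S K).nn z
  have hpos : 0 < (S.XK K).coeff z := lt_of_le_of_ne hnn (Ne.symm hne)
  have h1 := vca S K z hpos
  have hle : (S.XK K).coeff z ≤ 1 := (law_XK S K).le_one z
  have hlog : 0 ≤ -Real.log ((S.XK K).coeff z) := by
    have := Real.log_nonpos hnn hle
    linarith
  have h2 : (S.len z : ℝ) ^ 2 ≤ 4 * ((K : ℝ) + 1) * (-Real.log ((S.XK K).coeff z)) := by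
    refine h1.trans (mul_le_mul_of_nonneg_right ?_ hlog)
    linarith
  have h3 : 0 ≤ (S.XK K).coeff z * u z := mul_nonneg hnn (h0 z)
  calc (S.XK K).coeff z * (u z * (S.len z : ℝ) ^ 2)
      = (S.XK K).coeff z * u z * (S.len z : ℝ) ^ 2 := by ring
    _ ≤ (S.XK K).coeff z * u z * (4 * ((K : ℝ) + 1) * (-Real.log ((S.XK K).coeff z))) :=
        mul_le_mul_of_nonneg_left h2 h3
    _ = 4 * ((K : ℝ) + 1) * ((S.XK K).coeff z * u z * (-Real.log ((S.XK K).coeff z))) := by ring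

theorem second_moment (u : G → ℝ) (C M : ℝ) (h0 : ∀ z, 0 ≤ u z)
    (hC : ∀ z, u z ≤ C * (1 + S.len z)) (hM : ∀ K, ev (S.XK K) u ≤ M) :
    ∃ C' : ℝ, 0 ≤ C' ∧ ∀ K : ℕ,
      ev (S.XK K) (fun z => u z ^ 2) ≤ C' * ((K : ℝ) + 1) ^ (55 / 72 : ℝ) := by
  obtain ⟨C0, hC0, hG⟩ := XK_gibbs S
  have hM0 : 0 ≤ M := (ev_nonneg _ (law_XK S 0).nn u (fun z _ => h0 z)).trans (hM 0)
  obtain ⟨C1, hC1⟩ : ∃ C1, C1 = max C 1 := ⟨_, rfl⟩
  have hC1a : C ≤ C1 := by rw [hC1]; exact le_max_left _ _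
  have hC1b : 1 ≤ C1 := by rw [hC1]; exact le_max_right _ _
  have hC' : ∀ z, u z ≤ C1 * (1 + S.len z) := fun z =>
    (hC z).trans (mul_le_mul_of_nonneg_right hC1a (by positivity))
  obtain ⟨E, hE⟩ : ∃ E, E = 36 * (2 * C1) ^ (1 / 36 : ℝ) := ⟨_, rfl⟩
  have hE0 : 0 ≤ E := by rw [hE]; positivity
  obtain ⟨A, hA⟩ : ∃ A, A = M * (1 + E) + 1 := ⟨_, rfl⟩
  have hA0 : 0 ≤ A := by rw [hA]; positivity
  refine ⟨C1 * (M + (M + 4 * C0 * A) / 2), by positivity, fun K => ?_⟩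
  obtain ⟨n, hn⟩ : ∃ n : ℝ, n = (K : ℝ) + 1 := ⟨_, rfl⟩
  have hn1 : 1 ≤ n := by
    rw [hn]
    have : (0 : ℝ) ≤ K := Nat.cast_nonneg K
    linarith
  have hn0 : 0 < n := by linarith
  rw [← hn]
  -- bound for D
  have hD1 : (1 : ℝ) ≤ 2 * C1 * n := by nlinarith
  have hDu : ∀ z, (S.XK K).coeff z ≠ 0 → u z ≤ 2 * C1 * n := by
    intro z hz
    have h1 := (supp_XK S K z hz).2
    have h2 : (S.len z : ℝ) ≤ 2 * K + 1 := by exact_mod_cast h1
    have h3 : (1 + (S.len z : ℝ)) ≤ 2 * n := by rw [hn]; linarith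
    calc u z ≤ C1 * (1 + S.len z) := hC' z
      _ ≤ C1 * (2 * n) := mul_le_mul_of_nonneg_left h3 (by linarith)
      _ = 2 * C1 * n := by ring
  have hgib := hG K u M (2 * C1 * n) h0 (hM K) hD1 hDu
  have hlogD : Real.log (2 * C1 * n) ≤ E * n ^ (1 / 36 : ℝ) := by
    have h1 := Real.log_le_rpow_div (x := 2 * C1 * n) (ε := 1 / 36) (by positivity) (by norm_num)
    rw [Real.mul_rpow (by positivity) hn0.le] at h1
    rw [hE]
    calc Real.log (2 * C1 * n) ≤ (2 * C1) ^ (1 / 36 : ℝ) * n ^ (1 / 36 : ℝ) / (1 / 36) := h1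
      _ = 36 * (2 * C1) ^ (1 / 36 : ℝ) * n ^ (1 / 36 : ℝ) := by ring
  have hn36 : (1 : ℝ) ≤ n ^ (1 / 36 : ℝ) := Real.one_le_rpow hn1 (by norm_num)
  have hAb : M * (1 + Real.log (2 * C1 * n)) + 1 ≤ A * n ^ (1 / 36 : ℝ) := by
    rw [hA]
    have h1 : M * (1 + Real.log (2 * C1 * n)) ≤ M * ((1 + E) * n ^ (1 / 36 : ℝ)) := by
      apply mul_le_mul_of_nonneg_left _ hM0
      nlinarith
    nlinarith
  have hgib2 : ∑ z ∈ (S.XK K).coeff.support,
      (S.XK K).coeff z * u z * (-Real.log ((S.XK K).coeff z)) ≤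
        C0 * n ^ (1 / 2 : ℝ) * (A * n ^ (1 / 36 : ℝ)) := by
    refine hgib.trans ?_
    rw [← hn, Real.sqrt_eq_rpow]
    exact mul_le_mul_of_nonneg_left hAb (by positivity)
  have hS : ev (S.XK K) (fun z => u z * (S.len z : ℝ) ^ 2) ≤ 4 * C0 * A * n ^ (55 / 36 : ℝ) := by
    refine (SecAux_lin S K u h0).trans ?_
    rw [← hn]
    calc 4 * n * ∑ z ∈ (S.XK K).coeff.support,
          (S.XK K).coeff z * u z * (-Real.log ((S.XK K).coeff z))
        ≤ 4 * n * (C0 * n ^ (1 / 2 : ℝ) * (A * n ^ (1 / 36 : ℝ))) :=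
          mul_le_mul_of_nonneg_left hgib2 (by positivity)
      _ = 4 * C0 * A * (n ^ (1 : ℝ) * n ^ (1 / 2 : ℝ) * n ^ (1 / 36 : ℝ)) := by
          rw [Real.rpow_one]; ring
      _ = 4 * C0 * A * n ^ (55 / 36 : ℝ) := by
          rw [← Real.rpow_add hn0, ← Real.rpow_add hn0]
          norm_num
  obtain ⟨t, ht⟩ : ∃ t : ℝ, t = n ^ (55 / 72 : ℝ) := ⟨_, rfl⟩
  have ht1 : 1 ≤ t := by rw [ht]; exact Real.one_le_rpow hn1 (by norm_num)
  have ht0 : 0 < t := by linarith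
  have htt : t * t = n ^ (55 / 36 : ℝ) := by
    rw [ht, ← Real.rpow_add hn0]
    norm_num
  rw [← ht]
  rw [← htt] at hS
  -- the mixed term
  have hmix : ev (S.XK K) (fun z => u z * (S.len z : ℝ)) ≤ t * ((M + 4 * C0 * A) / 2) := by
    have h1 : ev (S.XK K) (fun z => u z * (S.len z : ℝ)) ≤
        ev (S.XK K) (fun z => (t / 2) * u z + (1 / (2 * t)) * (u z * (S.len z : ℝ) ^ 2)) := by
      apply ev_mono _ (law_XK S K).nn
      intro z _
      have h2 : (t / 2) * u z + (1 / (2 * t)) * (u z * (S.len z : ℝ) ^ 2) -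
          u z * (S.len z : ℝ) = u z * ((t - S.len z) ^ 2 / (2 * t)) := by
        field_simp
        ring
      have h3 : 0 ≤ u z * ((t - S.len z) ^ 2 / (2 * t)) := mul_nonneg (h0 z) (by positivity)
      linarith
    rw [ev_fadd, ev_fsmul, ev_fsmul] at h1
    have h4 : (t / 2) * ev (S.XK K) u ≤ (t / 2) * M := mul_le_mul_of_nonneg_left (hM K) (by positivity)
    have h5 : (1 / (2 * t)) * ev (S.XK K) (fun z => u z * (S.len z : ℝ) ^ 2) ≤
        (1 / (2 * t)) * (4 * C0 * A * (t * t)) := mul_le_mul_of_nonneg_left hS (by positivity)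
    have h6 : (1 / (2 * t)) * (4 * C0 * A * (t * t)) = t * (4 * C0 * A / 2) := by
      field_simp
    have h7 : t * ((M + 4 * C0 * A) / 2) = (t / 2) * M + t * (4 * C0 * A / 2) := by ring
    rw [h7]
    linarith
  have hfin : ev (S.XK K) (fun z => u z ^ 2) ≤
      ev (S.XK K) (fun z => C1 * (u z + u z * (S.len z : ℝ))) := by
    apply ev_mono _ (law_XK S K).nn
    intro z _
    have h1 := mul_le_mul_of_nonneg_left (hC' z) (h0 z)
    calc u z ^ 2 = u z * u z := by ring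
      _ ≤ u z * (C1 * (1 + S.len z)) := h1
      _ = C1 * (u z + u z * (S.len z : ℝ)) := by ring
  rw [ev_fsmul, ev_fadd] at hfin
  have h8 : C1 * (ev (S.XK K) u + ev (S.XK K) (fun z => u z * (S.len z : ℝ))) ≤
      C1 * (M * t + t * ((M + 4 * C0 * A) / 2)) := by
    apply mul_le_mul_of_nonneg_left _ (by linarith)
    have := hM K
    nlinarith
  calc ev (S.XK K) (fun z => u z ^ 2)
      ≤ C1 * (M * t + t * ((M + 4 * C0 * A) / 2)) := hfin.trans h8
    _ = C1 * (M + (M + 4 * C0 * A) / 2) * t := by ring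

end Pool.Agent.PHF
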