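import Pool.Agent.PHF.Grc

set_option autoImplicit false

namespace Pool.Agent.PHF

/-! Module RHO: elements which can stand alone in a coordinate are in the normal closure of
e 0, e 1, e 2. -/

variable {G : Type} [Group G] (S : SGp G)

namespace RhoAux

/-- parity of the number of switches at level `n` -/
def tau : ℕ → G → Bool
  | 0, g => S.root g
  | n + 1, g => xor (tau n (S.sec false g)) (tau n (S.sec true g))

theorem tau_mul (n : ℕ) : ∀ g h : G, tau S n (g * h) = xor (tau S n g) (tau S n h) := by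
  induction n with
  | zero => exact S.root_mul
  | succ n ih =>
    intro g h
    show xor (tau S n (S.sec false (g * h))) (tau S n (S.sec true (g * h))) =
      xor (xor (tau S n (S.sec false g)) (tau S n (S.sec true g)))
        (xor (tau S n (S.sec false h)) (tau S n (S.sec true h)))
    rw [S.sec_mul, S.sec_mul, ih, ih]
    cases S.root h <;> simp only [Bool.xor_false, Bool.xor_true, Bool.not_false, Bool.not_true] <;>
      cases tau S n (S.sec false g) <;> cases tau S n (S.sec true g) <;>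
      cases tau S n (S.sec false h) <;> cases tau S n (S.sec true h) <;> rfl

theorem tau_one (n : ℕ) : tau S n (1 : G) = false := by
  have h := tau_mul S n 1 1
  rw [mul_one] at h
  cases ht : tau S n (1 : G)
  · rfl
  · rw [ht] at h
    exact absurd h (by decide)

theorem tau_a (n : ℕ) : tau S (n + 1) S.a = false := by
  show xor (tau S n (S.sec false S.a)) (tau S n (S.sec true S.a)) = false
  rw [S.sec_a, S.sec_a, tau_one]
  rfl

theorem tau_s (n : ℕ) {g x y : G} (h : IsPair S g x y) :
    tau S (n + 1) g = xor (tau S n x) (tau S n y) := by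
  show xor (tau S n (S.sec false g)) (tau S n (S.sec true g)) = _
  rw [h.2.1, h.2.2]

theorem tau0_e (i : Fin 4) : tau S 0 (S.e i) = false := S.root_e i

theorem tau1 : tau S 1 (S.e 1) = false ∧ tau S 1 (S.e 2) = false ∧ tau S 1 (S.e 3) = false := by
  refine ⟨?_, ?_, ?_⟩
  · rw [tau_s S 0 (IsPair_e1 S), tau_one, tau0_e]; rfl
  · rw [tau_s S 0 (IsPair_e2 S), tau_one, tau0_e]; rfl
  · rw [tau_s S 0 (IsPair_e3 S), tau_one, tau0_e]; rfl

theorem tau1_e0 : tau S 1 (S.e 0) = true := by
  have ha : tau S 0 S.a = true := S.root_a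
  rw [tau_s S 0 (IsPair_e0 S), ha, tau0_e]; rfl

theorem tau2 : tau S 2 (S.e 0) = false ∧ tau S 2 (S.e 2) = false ∧ tau S 2 (S.e 3) = false := by
  obtain ⟨h1, h2, h3⟩ := tau1 S
  refine ⟨?_, ?_, ?_⟩
  · rw [tau_s S 1 (IsPair_e0 S), tau_a, h3]; rfl
  · rw [tau_s S 1 (IsPair_e2 S), tau_one, h1]; rfl
  · rw [tau_s S 1 (IsPair_e3 S), tau_one, h2]; rfl

theorem tau2_e1 : tau S 2 (S.e 1) = true := by
  rw [tau_s S 1 (IsPair_e1 S), tau_one, tau1_e0]; rfl

theorem tau3 : tau S 3 (S.e 0) = false ∧ tau S 3 (S.e 1) = false ∧ tau S 3 (S.e 3) = false := by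
  obtain ⟨h1, h2, h3⟩ := tau2 S
  refine ⟨?_, ?_, ?_⟩
  · rw [tau_s S 2 (IsPair_e0 S), tau_a, h3]; rfl
  · rw [tau_s S 2 (IsPair_e1 S), tau_one, h1]; rfl
  · rw [tau_s S 2 (IsPair_e3 S), tau_one, h2]; rfl

theorem tau3_e2 : tau S 3 (S.e 2) = true := by
  rw [tau_s S 2 (IsPair_e2 S), tau_one, tau2_e1]; rfl

/-- the values in the dihedral group of order 8 -/
def rr (g : G) : Bool × Bool × Bool := (tau S 3 (S.sec false g), tau S 3 (S.sec true g), S.root g)

/-- the product -/
def md (x y : Bool × Bool × Bool) : Bool × Bool × Bool :=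
  (xor (cond y.2.2 x.2.1 x.1) y.1, xor (cond y.2.2 x.1 x.2.1) y.2.1, xor x.2.2 y.2.2)

/-- the exchange of the generators -/
def th : Bool × Bool × Bool → Bool × Bool × Bool
  | (false, false, false) => (false, false, false)
  | (false, false, true) => (false, true, false)
  | (false, true, false) => (false, false, true)
  | (false, true, true) => (true, false, true)
  | (true, false, true) => (false, true, true)
  | (true, false, false) => (true, true, true)
  | (true, true, true) => (true, false, false)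
  | (true, true, false) => (true, true, false)

theorem th_md : ∀ x y, th (md x y) = md (th x) (th y) := by decide

theorem th_zero : ∀ x, th x = (false, false, false) → x = (false, false, false) := by decide

theorem rr_mul (g h : G) : rr S (g * h) = md (rr S g) (rr S h) := by
  unfold rr md
  rw [S.sec_mul, S.sec_mul, S.root_mul, tau_mul, tau_mul]
  cases S.root h <;> rfl

theorem rr_one : rr S (1 : G) = (false, false, false) := by
  unfold rr
  rw [sec_one, sec_one, root_one, tau_one]

theorem rr_a : rr S S.a = (false, false, true) := by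
  unfold rr
  rw [S.sec_a, S.sec_a, S.root_a, tau_one]

theorem rr_e0 : rr S (S.e 0) = (false, false, false) := by
  unfold rr
  rw [S.sec_e00, S.sec_e01, S.root_e, tau_a, (tau3 S).2.2]

theorem rr_e1 : rr S (S.e 1) = (false, false, false) := by
  unfold rr
  rw [S.sec_f 1 (by decide), S.sec_t1, S.root_e, tau_one, (tau3 S).1]

theorem rr_e2 : rr S (S.e 2) = (false, false, false) := by
  unfold rr
  rw [S.sec_f 2 (by decide), S.sec_t2, S.root_e, tau_one, (tau3 S).2.1]

theorem rr_e3 : rr S (S.e 3) = (false, true, false) := by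
  unfold rr
  rw [S.sec_f 3 (by decide), S.sec_t3, S.root_e, tau_one, tau3_e2]

theorem rr_gen (i : Fin 4) : ∃ x y, IsPair S (S.e i) x y ∧ rr S y = th (rr S x) ∧
    rr S x = th (rr S y) := by
  fin_cases i
  · refine ⟨S.a, S.e 3, IsPair_e0 S, ?_, ?_⟩
    · rw [rr_a, rr_e3]; rfl
    · rw [rr_a, rr_e3]; rfl
  · refine ⟨1, S.e 0, IsPair_e1 S, ?_, ?_⟩
    · rw [rr_one, rr_e0]; rfl
    · rw [rr_one, rr_e0]; rfl
  · refine ⟨1, S.e 1, IsPair_e2 S, ?_, ?_⟩
    · rw [rr_one, rr_e1]; rfl
    · rw [rr_one, rr_e1]; rfl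
  · refine ⟨1, S.e 2, IsPair_e3 S, ?_, ?_⟩
    · rw [rr_one, rr_e2]; rfl
    · rw [rr_one, rr_e2]; rfl

theorem rr_mul_step {g h x y x' y' : G} (hg : IsPair S g x y) (hh : IsPair S h x' y')
    (h1 : rr S y = th (rr S x)) (h2 : rr S y' = th (rr S x')) :
    rr S (S.sec true (g * h)) = th (rr S (S.sec false (g * h))) := by
  have h3 := IsPair_mul hg hh
  rw [h3.2.1, h3.2.2, rr_mul, rr_mul, th_md, h1, h2]

theorem rr_pair (g : G) (hg : S.root g = false) :
    rr S (S.sec true g) = th (rr S (S.sec false g)) := by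
  have key : S.root g = false ∧ rr S (S.sec true g) = th (rr S (S.sec false g)) := by
    refine G1_induction S (P := fun g => S.root g = false ∧
      rr S (S.sec true g) = th (rr S (S.sec false g))) ?_ ?_ ?_ g hg
    · refine ⟨root_one S, ?_⟩
      rw [sec_one, sec_one, rr_one]
      rfl
    · rintro x i ⟨hx, ih⟩
      obtain ⟨u, v, huv, h1, -⟩ := rr_gen S i
      have h3 := IsPair_mul (IsPair_sec hx) huv
      exact ⟨h3.1, rr_mul_step S (IsPair_sec hx) huv ih h1⟩
    · rintro x i ⟨hx, ih⟩
      obtain ⟨u, v, huv, -, h2⟩ := rr_gen S i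
      have huv' := IsPair_conj_a huv
      have h3 := IsPair_mul (IsPair_sec hx) huv'
      exact ⟨h3.1, rr_mul_step S (IsPair_sec hx) huv' ih h2⟩
  exact key.2

/-- representatives -/
def zz (x : Bool × Bool × Bool) : G :=
  (cond x.2.2 S.a 1) * (cond x.1 (S.a * S.e 3 * S.a) 1) * (cond x.2.1 (S.e 3) 1)

theorem ff_comm : (S.a * S.e 3 * S.a) * S.e 3 = S.e 3 * (S.a * S.e 3 * S.a) := by
  have h1 := IsPair_e3 S
  have h2 := IsPair_conj_a h1
  have h3 := IsPair_mul h1 h2
  have h4 := IsPair_mul h2 h1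
  rw [one_mul, mul_one] at h3 h4
  exact IsPair_unique h4 h3

theorem zz_a (x : Bool × Bool × Bool) : zz S (md x (false, false, true)) = zz S x * S.a := by
  have ha := S.a_sq
  have ha' : ∀ z : G, S.a * (S.a * z) = z := by
    intro z
    rw [← mul_assoc, ha, one_mul]
  have hc := ff_comm S
  simp only [mul_assoc] at hc
  obtain ⟨x0, x1, t⟩ := x
  cases x0 <;> cases x1 <;> cases t <;>
    simp only [zz, md, cond_true, cond_false, Bool.xor_false, Bool.xor_true, Bool.not_false,
      Bool.not_true, one_mul, mul_one, mul_assoc, ha, ha', hc]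

theorem zz_e3 (x : Bool × Bool × Bool) : zz S (md x (false, true, false)) = zz S x * S.e 3 := by
  have he := S.e_sq 3
  obtain ⟨x0, x1, t⟩ := x
  cases x0 <;> cases x1 <;> cases t <;>
    simp only [zz, md, cond_true, cond_false, Bool.xor_false, Bool.xor_true, Bool.not_false,
      Bool.not_true, one_mul, mul_one, mul_assoc, he]

theorem md_zero (x : Bool × Bool × Bool) : md x (false, false, false) = x := by
  revert x
  decide

theorem zz_mem (g : G) : (zz S (rr S g))⁻¹ * g ∈ S.NN1 := by
  have hnorm : S.NN1.Normal := Subgroup.normalClosure_normal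
  have hstep : ∀ (x u : G), u * u = 1 → (zz S (rr S x))⁻¹ * x ∈ S.NN1 →
      zz S (rr S (x * u)) = zz S (rr S x) * u → (zz S (rr S (x * u)))⁻¹ * (x * u) ∈ S.NN1 := by
    intro x u hu hx hz
    rw [hz]
    have h2 := hnorm.conj_mem _ hx u⁻¹
    have h4 : (zz S (rr S x) * u)⁻¹ * (x * u) = u⁻¹ * ((zz S (rr S x))⁻¹ * x) * u⁻¹⁻¹ := by
      group
    rw [h4]
    exact h2
  have hstep0 : ∀ (x u : G), rr S u = (false, false, false) → u ∈ S.NN1 →
      (zz S (rr S x))⁻¹ * x ∈ S.NN1 → (zz S (rr S (x * u)))⁻¹ * (x * u) ∈ S.NN1 := by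
    intro x u hu hu1 hx
    rw [rr_mul, hu, md_zero, ← mul_assoc]
    exact S.NN1.mul_mem hx hu1
  induction g using G_induction S with
  | h1 =>
    rw [rr_one, mul_one]
    have h : zz S (false, false, false) = 1 := by
      simp [zz]
    rw [h, inv_one]
    exact S.NN1.one_mem
  | ha x ih =>
    refine hstep x S.a S.a_sq ih ?_
    rw [rr_mul, rr_a, zz_a]
  | he x i ih =>
    fin_cases i
    · exact hstep0 x _ (rr_e0 S) (Subgroup.subset_normalClosure (by simp)) ih
    · exact hstep0 x _ (rr_e1 S) (Subgroup.subset_normalClosure (by simp)) ih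
    · exact hstep0 x _ (rr_e2 S) (Subgroup.subset_normalClosure (by simp)) ih
    · refine hstep x (S.e 3) (S.e_sq 3) ih ?_
      rw [rr_mul, rr_e3, zz_e3]

end RhoAux

open RhoAux

theorem BB_le_NN1 (b : G) (hb : b ∈ S.BB) : b ∈ S.NN1 := by
  obtain ⟨g, hg⟩ := hb
  have h1 := rr_pair S g hg.1
  rw [hg.2.1, hg.2.2, rr_one] at h1
  have h2 := th_zero _ h1.symm
  have h3 := zz_mem S b
  rw [h2] at h3
  have h : zz S (false, false, false) = 1 := by
    simp [zz]
  rw [h, inv_one, one_mul] at h3
  exact h3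

end Pool.Agent.PHF
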