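import Pool.Agent.PHF.Tpd
import Pool.Agent.PHF.Chn
import Pool.Agent.PHF.Rho

set_option autoImplicit false

namespace Pool.Agent.PHF

/-! Module TOPM: bounds for the two coordinates. -/

variable {G : Type} [Group G] (S : SGp G)

namespace TpmAux

theorem bd0 (g : G) (r : ℕ) (C s : ℝ) (hC : 0 ≤ C) (hs : 0 < s) (hs1 : s ≤ 1)
    (h : ∀ k : ℕ, Ex k (fun l => He (pt g * (lev1 S).q l) ((lev1 S).q l) ^ r) ≤
      C * ((k : ℝ) + 1) ^ (-s)) (K : ℕ) :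
    Ex K (fun l => He (pt g * S.p0 l) (S.p0 l) ^ r) ≤ C * 2 ^ s * ((K : ℝ) + 1) ^ (-s) := by
  rw [top0]
  exact (binAvg_mono K _ _ h).trans (binAvg_pow K C s hC hs hs1)

theorem mul_le_sq_add (a b : ℝ) : a * b ≤ a ^ 2 + b ^ 2 := by
  nlinarith [sq_nonneg (a - b), sq_nonneg a, sq_nonneg b]

theorem shift (K : ℕ) (s : ℝ) (hs : 0 < s) :
    ((K : ℝ) + 1) ^ (-s) ≤ 2 ^ s * (((K + 1 : ℕ) : ℝ) + 1) ^ (-s) := by
  have hK : (0 : ℝ) ≤ K := Nat.cast_nonneg K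
  have h1 : (0 : ℝ) < (K : ℝ) + 1 := by linarith
  have h2 : (0 : ℝ) < ((K + 1 : ℕ) : ℝ) + 1 := by push_cast; linarith
  have h3 : (((K + 1 : ℕ) : ℝ) + 1) ^ s ≤ 2 ^ s * ((K : ℝ) + 1) ^ s := by
    rw [← Real.mul_rpow (by norm_num) h1.le]
    refine Real.rpow_le_rpow h2.le ?_ hs.le
    push_cast
    linarith
  rw [Real.rpow_neg h1.le, Real.rpow_neg h2.le]
  have h4 : 0 < ((K : ℝ) + 1) ^ s := Real.rpow_pos_of_pos h1 s
  have h5 : 0 < (((K + 1 : ℕ) : ℝ) + 1) ^ s := Real.rpow_pos_of_pos h2 s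
  rw [inv_le_iff_one_le_mul₀ h4, mul_assoc, mul_comm _ (((K : ℝ) + 1) ^ s), ← mul_assoc,
    ← div_eq_mul_inv, le_div_iff₀ h5, one_mul]
  exact h3

theorem bd1 (g : G) (r : ℕ) (C s : ℝ) (hC : 0 ≤ C) (hs : 0 < s) (hs1 : s ≤ 1)
    (h : ∀ (x : ZMod 2) (k : ℕ),
      Ex k (fun l => He (pt (pw S.a x * g * pw S.a x) * (lev1 S).q l) ((lev1 S).q l) ^ r) ≤
      C * ((k : ℝ) + 1) ^ (-s)) (K : ℕ) :
    Ex K (fun l => He (pt g * S.p1 l) (S.p1 l) ^ r) ≤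
      (2 ^ r + C * 2 ^ s * 2 ^ s) * ((K : ℝ) + 1) ^ (-s) := by
  have h2s : (0 : ℝ) ≤ 2 ^ s := Real.rpow_nonneg (by norm_num) s
  cases K with
  | zero =>
    rw [Ex_zero]
    have hl : IsLaw (S.p1 []) := IsLaw.one
    have h0 : He (pt g * S.p1 []) (S.p1 []) ≤ 2 := He_le_two ((IsLaw.pt g).mul hl) hl
    have h1 : He (pt g * S.p1 []) (S.p1 []) ^ r ≤ 2 ^ r :=
      pow_le_pow_left₀ (He_nonneg _ _) h0 r
    have h3 : ((0 : ℕ) : ℝ) + 1 = 1 := by norm_num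
    rw [h3, Real.one_rpow, mul_one]
    have : 0 ≤ C * 2 ^ s * 2 ^ s := by positivity
    linarith
  | succ K =>
    rw [top1]
    have hb : ∀ x : ZMod 2, binAvg K (fun n => Ex n fun l =>
        He (pt (pw S.a x * g * pw S.a x) * (lev1 S).q l) ((lev1 S).q l) ^ r) ≤
        C * 2 ^ s * ((K : ℝ) + 1) ^ (-s) := fun x =>
      (binAvg_mono K _ _ (h x)).trans (binAvg_pow K C s hC hs hs1)
    have hav := avg_mono _ _ hb
    rw [avg_const] at hav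
    refine hav.trans ?_
    have hsh := shift K s hs
    have hp : 0 ≤ (((K + 1 : ℕ) : ℝ) + 1) ^ (-s) := Real.rpow_nonneg (by positivity) _
    have h2r : (0 : ℝ) ≤ 2 ^ r := by positivity
    calc C * 2 ^ s * ((K : ℝ) + 1) ^ (-s)
        ≤ C * 2 ^ s * (2 ^ s * (((K + 1 : ℕ) : ℝ) + 1) ^ (-s)) :=
          mul_le_mul_of_nonneg_left hsh (by positivity)
      _ = (C * 2 ^ s * 2 ^ s) * (((K + 1 : ℕ) : ℝ) + 1) ^ (-s) := by ring
      _ ≤ (2 ^ r + C * 2 ^ s * 2 ^ s) * (((K + 1 : ℕ) : ℝ) + 1) ^ (-s) :=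
          mul_le_mul_of_nonneg_right (by linarith) hp

theorem a_conj_dl (c : Bool) {b : G} (hb : b ∈ S.BB) (x : ZMod 2) :
    ∃ c' : Bool, pw S.a x * S.dl c b * pw S.a x = S.dl c' b := by
  have hx : x = 0 ∨ x = 1 := by
    revert x
    decide
  rcases hx with rfl | rfl
  · exact ⟨c, by rw [pw_zero, one_mul, mul_one]⟩
  · exact ⟨!c, by rw [pw_one, dl_conj_a S c hb]⟩

theorem chn_unif {γ : G} (hγ : γ ∈ S.NN3) : ∃ C : ℝ, 0 ≤ C ∧ ∀ (c c' : Bool) (k : ℕ),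
    Ex k (fun l => He (pt (S.dl c (S.dl c' γ)) * (lev1 S).q l) ((lev1 S).q l) ^ 2) ≤
      C * ((k : ℝ) + 1) ^ (-(7 / 9 : ℝ)) := by
  choose C hC h using fun c c' => chn S hγ c c'
  refine ⟨C false false + C false true + C true false + C true true, ?_, ?_⟩
  · have h1 := hC false false
    have h2 := hC false true
    have h3 := hC true false
    have h4 := hC true true
    linarith
  · intro c c' k
    refine (h c c' k).trans (mul_le_mul_of_nonneg_right ?_ (Real.rpow_nonneg (by positivity) _))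
    have h1 := hC false false
    have h2 := hC false true
    have h3 := hC true false
    have h4 := hC true true
    cases c <;> cases c' <;> linarith

theorem gcl_lev1 {b : G} (hb : b ∈ S.BB) : ∃ C : ℝ, 0 ≤ C ∧ ∀ k : ℕ,
    Ex k (fun l => He (pt b * (lev1 S).q l) ((lev1 S).q l) ^ 1) ≤
      C * ((k : ℝ) + 1) ^ (-(1 / 2 : ℝ)) := by
  have hb1 : b ∈ Subgroup.normalClosure {n | n ∈ (lev1 S).ns} := by
    have h1 := BB_le_NN1 S b hb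
    have h2 : ({S.e 0, S.e 1, S.e 2} : Set G) = {n | n ∈ (lev1 S).ns} := by
      ext n
      show n = S.e 0 ∨ n = S.e 1 ∨ n = S.e 2 ↔ n ∈ [S.e 0, S.e 1, S.e 2]
      simp
    unfold SGp.NN1 at h1
    rwa [h2] at h1
  obtain ⟨C, hC, h⟩ := gcl (lev1 S) b hb1
  refine ⟨C, hC, fun k => ?_⟩
  simp only [pow_one]
  refine (h k).trans (le_of_eq ?_)
  have hk : (0 : ℝ) ≤ (k : ℝ) + 1 := by positivity
  rw [Real.rpow_neg hk, ← Real.sqrt_eq_rpow, div_eq_mul_inv]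

end TpmAux

open TpmAux

theorem top_mul {γ γ' : G} (hγ : γ ∈ S.NN3) (hγ' : γ' ∈ S.NN3) (c1 c2 c3 c4 : Bool) :
    ∃ C : ℝ, 0 ≤ C ∧ ∀ K : ℕ,
      Ex K (fun l => He (pt (S.dl c1 (S.dl c2 γ)) * S.p0 l) (S.p0 l) *
        He (pt (S.dl c3 (S.dl c4 γ')) * S.p1 l) (S.p1 l)) ≤
        C * ((K : ℝ) + 1) ^ (-(7 / 9 : ℝ)) := by
  obtain ⟨C, hC, h⟩ := chn_unif S hγ
  obtain ⟨C', hC', h'⟩ := chn_unif S hγ'
  have h0 := bd0 S (S.dl c1 (S.dl c2 γ)) 2 C (7 / 9) hC (by norm_num) (by norm_num) (h c1 c2)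
  have h1 := bd1 S (S.dl c3 (S.dl c4 γ')) 2 C' (7 / 9) hC' (by norm_num) (by norm_num) (by
    intro x k
    obtain ⟨c5, hc5⟩ := a_conj_dl S c3 (dl_mem S c4 hγ') x
    rw [hc5]
    exact h' c5 c4 k)
  have h27 : (0 : ℝ) ≤ 2 ^ (7 / 9 : ℝ) := Real.rpow_nonneg (by norm_num) _
  refine ⟨C * 2 ^ (7 / 9 : ℝ) + (2 ^ 2 + C' * 2 ^ (7 / 9 : ℝ) * 2 ^ (7 / 9 : ℝ)), by positivity,
    fun K => ?_⟩
  have hp : 0 ≤ ((K : ℝ) + 1) ^ (-(7 / 9 : ℝ)) := Real.rpow_nonneg (by positivity) _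
  have hle : Ex K (fun l => He (pt (S.dl c1 (S.dl c2 γ)) * S.p0 l) (S.p0 l) *
        He (pt (S.dl c3 (S.dl c4 γ')) * S.p1 l) (S.p1 l)) ≤
      Ex K (fun l => He (pt (S.dl c1 (S.dl c2 γ)) * S.p0 l) (S.p0 l) ^ 2 +
        He (pt (S.dl c3 (S.dl c4 γ')) * S.p1 l) (S.p1 l) ^ 2) := by
    exact Ex_mono K _ _ fun l _ => mul_le_sq_add _ _
  refine hle.trans ?_
  rw [Ex_add]
  have := add_le_add (h0 K) (h1 K)
  linarith

theorem top_b0 {b : G} (hb : b ∈ S.BB) : ∃ C : ℝ, 0 ≤ C ∧ ∀ K : ℕ,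
    Ex K (fun l => He (pt b * S.p0 l) (S.p0 l)) ≤ C * ((K : ℝ) + 1) ^ (-(1 / 2 : ℝ)) := by
  obtain ⟨C, hC, h⟩ := gcl_lev1 S hb
  refine ⟨C * 2 ^ (1 / 2 : ℝ), mul_nonneg hC (Real.rpow_nonneg (by norm_num) _), fun K => ?_⟩
  have h0 := bd0 S b 1 C (1 / 2) hC (by norm_num) (by norm_num) h K
  simpa only [pow_one] using h0

theorem top_b1 {b : G} (hb : b ∈ S.BB) : ∃ C : ℝ, 0 ≤ C ∧ ∀ K : ℕ,
    Ex K (fun l => He (pt b * S.p1 l) (S.p1 l)) ≤ C * ((K : ℝ) + 1) ^ (-(1 / 2 : ℝ)) := by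
  have ha : S.a⁻¹ = S.a := inv_eq_of_mul_eq_one_left S.a_sq
  have hb' : S.a * b * S.a ∈ S.BB := by
    have := BB_conj S hb S.a
    rwa [ha] at this
  obtain ⟨C, hC, h⟩ := gcl_lev1 S hb
  obtain ⟨C', hC', h'⟩ := gcl_lev1 S hb'
  have h1 := bd1 S b 1 (C + C') (1 / 2) (by linarith) (by norm_num) (by norm_num) (by
    intro x k
    have hp : 0 ≤ ((k : ℝ) + 1) ^ (-(1 / 2 : ℝ)) := Real.rpow_nonneg (by positivity) _
    have hx : x = 0 ∨ x = 1 := by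
      revert x
      decide
    rcases hx with rfl | rfl
    · rw [pw_zero, one_mul, mul_one]
      exact (h k).trans (mul_le_mul_of_nonneg_right (by linarith) hp)
    · rw [pw_one]
      exact (h' k).trans (mul_le_mul_of_nonneg_right (by linarith) hp))
  have h2 : (0 : ℝ) ≤ 2 ^ (1 / 2 : ℝ) := Real.rpow_nonneg (by norm_num) _
  refine ⟨2 ^ 1 + (C + C') * 2 ^ (1 / 2 : ℝ) * 2 ^ (1 / 2 : ℝ), by positivity, fun K => ?_⟩
  have := h1 K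
  simpa only [pow_one] using this

end Pool.Agent.PHF
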