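import Pool.Agent.PHF.Csh
import Pool.Agent.PHF.Tpm
import Pool.Agent.PHF.Sec
import Pool.Agent.PHF.Alh

set_option autoImplicit false

namespace Pool.Agent.PHF

/-! Module D0: mixed differences vanish for deep elements. -/

variable {G : Type} [Group G] {S : SGp G}

namespace DzrAux

/-- A constant bounded by a vanishing negative power. -/
theorem le_zero_of_rpow (D C s : ℝ) (hs : 0 < s)
    (h : ∀ K : ℕ, D ≤ C * ((K : ℝ) + 1) ^ (-s)) : D ≤ 0 := by
  have h1 : Filter.Tendsto (fun K : ℕ => (K : ℝ) + 1) Filter.atTop Filter.atTop :=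
    Filter.tendsto_atTop_add_const_right _ 1 tendsto_natCast_atTop_atTop
  have h2 : Filter.Tendsto (fun K : ℕ => C * ((K : ℝ) + 1) ^ (-s)) Filter.atTop (nhds (C * 0)) :=
    ((tendsto_rpow_neg_atTop hs).comp h1).const_mul C
  rw [mul_zero] at h2
  exact ge_of_tendsto' h2 h

/-- The second moment of a translate of chi. -/
theorem moment {f : G → ℝ} (hf : S.Dcl f) (h0 : ∀ x, 0 ≤ f x) (y : G) :
    ∃ C : ℝ, 0 ≤ C ∧ ∀ K : ℕ,
      ev (S.XK K) (fun z => S.chi f (y * z) ^ 2) ≤ C * ((K : ℝ) + 1) ^ (55 / 72 : ℝ) := by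
  obtain ⟨C, hC, hlin⟩ := chi_lin hf
  refine second_moment S (fun z => S.chi f (y * z)) (C * (1 + S.len y)) (S.chi f y)
    (fun z => chi_nonneg h0 _) ?_ ?_
  · intro z
    have h1 := le_of_abs_le (hlin (y * z))
    have h2 : (S.len (y * z) : ℝ) ≤ S.len y + S.len z := by
      exact_mod_cast len_mul_le S y z
    have h3 : (0 : ℝ) ≤ (S.len y : ℝ) * S.len z := by positivity
    calc S.chi f (y * z) ≤ C * (1 + S.len (y * z)) := h1
      _ ≤ C * ((1 + S.len y) * (1 + S.len z)) := by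
          apply mul_le_mul_of_nonneg_left _ hC
          nlinarith
      _ = C * (1 + S.len y) * (1 + S.len z) := by ring
  · intro K
    have h1 := congrFun (chi_XK hf.harm K) y
    exact le_of_eq h1

theorem dzero_nonneg {f : G → ℝ} (hf : S.Dcl f) (h0 : ∀ x, 0 ≤ f x) {γ γ' : G}
    (hγ : γ ∈ S.NN3) (hγ' : γ' ∈ S.NN3) (c1 c2 c3 c4 : Bool) :
    S.chi f (S.dl false (S.dl c1 (S.dl c2 γ)) * S.dl true (S.dl c3 (S.dl c4 γ'))) -
      S.chi f (S.dl false (S.dl c1 (S.dl c2 γ))) -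
      S.chi f (S.dl true (S.dl c3 (S.dl c4 γ'))) + S.chi f 1 = 0 := by
  have hg := dl_false S (dl_dl_mem S c1 c2 hγ)
  have hh := dl_true S (dl_dl_mem S c3 c4 hγ')
  obtain ⟨C, hC, hm⟩ := top_mul S hγ hγ' c1 c2 c3 c4
  generalize S.dl c1 (S.dl c2 γ) = γ1 at *
  generalize S.dl c3 (S.dl c4 γ') = δ1 at *
  generalize S.dl false γ1 = g at *
  generalize S.dl true δ1 = h at *
  obtain ⟨C1, hC1, m1⟩ := moment hf h0 (g * h)
  obtain ⟨C2, hC2, m2⟩ := moment hf h0 g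
  obtain ⟨C3, hC3, m3⟩ := moment hf h0 h
  obtain ⟨C4, hC4, m4⟩ := moment hf h0 1
  have hD : ∀ K : ℕ, (S.chi f (g * h) - S.chi f g - S.chi f h + S.chi f 1) ^ 2 ≤
      (4 * C * (C1 + C2 + C3 + C4)) * ((K : ℝ) + 1) ^ (-(1 / 72 : ℝ)) := by
    intro K
    have hc := csh S hg hh K (S.chi f)
    have e1 : ∀ y, ev (S.XK K) (fun z => S.chi f (y * z)) = S.chi f y := fun y =>
      congrFun (chi_XK hf.harm K) y
    have e2 : ev (S.XK K) (S.chi f) = S.chi f 1 := by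
      rw [← e1 1]
      simp only [one_mul]
    rw [e1, e1, e1, e2] at hc
    have hK : (0 : ℝ) < (K : ℝ) + 1 := by positivity
    have m4' := m4 K
    simp only [one_mul] at m4'
    have hE : 0 ≤ Ex K fun l => He (pt γ1 * S.p0 l) (S.p0 l) * He (pt δ1 * S.p1 l) (S.p1 l) := by
      apply Ex_nonneg
      intro l
      apply mul_nonneg <;>
      · unfold He
        exact Finset.sum_nonneg fun _ _ => sq_nonneg _
    have hsum : ev (S.XK K) (fun z => S.chi f (g * h * z) ^ 2) +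
        ev (S.XK K) (fun z => S.chi f (g * z) ^ 2) +
        ev (S.XK K) (fun z => S.chi f (h * z) ^ 2) + ev (S.XK K) (fun z => S.chi f z ^ 2) ≤
        (C1 + C2 + C3 + C4) * ((K : ℝ) + 1) ^ (55 / 72 : ℝ) := by
      have := m1 K
      have := m2 K
      have := m3 K
      nlinarith
    have hmK := hm K
    have hexp : ((K : ℝ) + 1) ^ (-(7 / 9 : ℝ)) * ((K : ℝ) + 1) ^ (55 / 72 : ℝ) =
        ((K : ℝ) + 1) ^ (-(1 / 72 : ℝ)) := by
      rw [← Real.rpow_add hK]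
      norm_num
    calc _ ≤ _ := hc
      _ ≤ 4 * (Ex K fun l => He (pt γ1 * S.p0 l) (S.p0 l) * He (pt δ1 * S.p1 l) (S.p1 l)) *
          ((C1 + C2 + C3 + C4) * ((K : ℝ) + 1) ^ (55 / 72 : ℝ)) :=
          mul_le_mul_of_nonneg_left hsum (by positivity)
      _ ≤ 4 * (C * ((K : ℝ) + 1) ^ (-(7 / 9 : ℝ))) *
          ((C1 + C2 + C3 + C4) * ((K : ℝ) + 1) ^ (55 / 72 : ℝ)) := by
          apply mul_le_mul_of_nonneg_right _ (by positivity)
          linarith
      _ = (4 * C * (C1 + C2 + C3 + C4)) * (((K : ℝ) + 1) ^ (-(7 / 9 : ℝ)) *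
          ((K : ℝ) + 1) ^ (55 / 72 : ℝ)) := by ring
      _ = _ := by rw [hexp]
  have h1 := le_zero_of_rpow _ _ (1 / 72) (by norm_num) hD
  exact pow_eq_zero_iff (two_ne_zero) |>.1 (le_antisymm h1 (sq_nonneg _))

end DzrAux

open DzrAux

theorem dzero {f : G → ℝ} (hf : S.Dcl f) {γ γ' : G} (hγ : γ ∈ S.NN3) (hγ' : γ' ∈ S.NN3)
    (c1 c2 c3 c4 : Bool) :
    S.chi f (S.dl false (S.dl c1 (S.dl c2 γ)) * S.dl true (S.dl c3 (S.dl c4 γ'))) -
      S.chi f (S.dl false (S.dl c1 (S.dl c2 γ))) -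
      S.chi f (S.dl true (S.dl c3 (S.dl c4 γ'))) + S.chi f 1 = 0 := by
  obtain ⟨c, hc⟩ := hf.bdd
  have h := dzero_nonneg (Dcl_sub hf c) (fun x => by have := hc x; linarith) hγ hγ' c1 c2 c3 c4
  simp only [chi_sub] at h
  linarith

end Pool.Agent.PHF
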