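import Pool.Agent.PHF.Hel

set_option autoImplicit false

namespace Pool.Agent.PHF

/-! Module ENT: entropy of finitely supported laws. -/

variable {G : Type}

namespace EntAux

/-- The entropy as a sum over any finite set containing the support. -/
theorem Ent_eq_sum (p : GA G) (F : Finset G) (hF : p.coeff.support ⊆ F) :
    Ent p = ∑ z ∈ F, Real.negMulLog (p.coeff z) := by
  unfold Ent
  refine Finset.sum_subset hF fun z _ hz => ?_
  rw [Finsupp.notMem_support_iff.mp hz, Real.negMulLog_zero]

theorem He_eq_sum (p q : GA G) (F : Finset G) (hp : p.coeff.support ⊆ F)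
    (hq : q.coeff.support ⊆ F) :
    He p q = ∑ z ∈ F, (Real.sqrt (p.coeff z) - Real.sqrt (q.coeff z)) ^ 2 := by
  classical
  unfold He
  refine Finset.sum_subset ?_ ?_
  · intro z hz
    rcases Finset.mem_union.mp hz with h | h
    · exact hp h
    · exact hq h
  · intro z _ hz
    rw [Finset.mem_union, not_or] at hz
    rw [Finsupp.notMem_support_iff.mp hz.1, Finsupp.notMem_support_iff.mp hz.2]
    simp

theorem ev_eq_sum (p : GA G) (f : G → ℝ) (F : Finset G) (hF : p.coeff.support ⊆ F) :
    ev p f = ∑ z ∈ F, p.coeff z * f z := by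
  unfold ev
  show ∑ z ∈ p.coeff.support, p.coeff z * f z = _
  refine Finset.sum_subset hF fun z _ hz => ?_
  rw [Finsupp.notMem_support_iff.mp hz, zero_mul]

theorem coeff_avg {ι : Type} [Fintype ι] (p : ι → GA G) (z : G) :
    (avg p).coeff z = avg fun i => (p i).coeff z := by
  classical
  rw [coeff_eq_ev, ev_avg]
  congr 1
  funext i
  rw [coeff_eq_ev]

theorem exists_supp {ι : Type} [Fintype ι] (p : ι → GA G) : ∃ F : Finset G,
    (∀ i, (p i).coeff.support ⊆ F) := by
  classical
  exact ⟨Finset.univ.biUnion fun i => (p i).coeff.support, fun i =>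
    Finset.subset_biUnion_of_mem (fun i => (p i).coeff.support) (Finset.mem_univ i)⟩

theorem avg_supp {ι : Type} [Fintype ι] (p : ι → GA G) (F : Finset G)
    (hF : ∀ i, (p i).coeff.support ⊆ F) : (avg p).coeff.support ⊆ F := by
  intro z hz
  by_contra hcon
  apply Finsupp.mem_support_iff.mp hz
  rw [coeff_avg]
  have : ∀ i, (p i).coeff z = 0 := fun i => by
    by_contra h
    exact hcon (hF i (Finsupp.mem_support_iff.mpr h))
  simp only [this]
  unfold avg
  simp

/-- Jensen for negMulLog. -/
theorem jensen {ι : Type} [Fintype ι] [Nonempty ι] (x : ι → ℝ) (hx : ∀ i, 0 ≤ x i) :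
    (avg fun i => Real.negMulLog (x i)) ≤ Real.negMulLog (avg x) := by
  have hc : (0 : ℝ) < Fintype.card ι := by exact_mod_cast Fintype.card_pos
  have h := Real.concaveOn_negMulLog.le_map_sum (t := Finset.univ)
    (w := fun _ : ι => (Fintype.card ι : ℝ)⁻¹) (p := x)
    (fun _ _ => by positivity)
    (by rw [Finset.sum_const, Finset.card_univ, nsmul_eq_mul]; exact mul_inv_cancel₀ hc.ne')
    (fun i _ => hx i)
  unfold avg
  simpa [Finset.smul_sum, Finset.mul_sum] using h

end EntAux

open EntAux

theorem Ent_nonneg {p : GA G} (hp : IsLaw p) : 0 ≤ Ent p := by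
  unfold Ent
  exact Finset.sum_nonneg fun z _ => Real.negMulLog_nonneg (hp.nn z) (hp.le_one z)

/-- Concavity. -/
theorem Ent_avg {ι : Type} [Fintype ι] [Nonempty ι] (p : ι → GA G) (hp : ∀ i, IsLaw (p i)) :
    avg (fun i => Ent (p i)) ≤ Ent (avg p) := by
  obtain ⟨F, hF⟩ := exists_supp p
  rw [Ent_eq_sum (avg p) F (avg_supp p F hF)]
  have h1 : (fun i => Ent (p i)) = fun i => ∑ z ∈ F, Real.negMulLog ((p i).coeff z) :=
    funext fun i => Ent_eq_sum (p i) F (hF i)
  rw [h1]
  have h2 : (avg fun i => ∑ z ∈ F, Real.negMulLog ((p i).coeff z)) =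
      ∑ z ∈ F, avg fun i => Real.negMulLog ((p i).coeff z) := by
    unfold avg
    simp only [smul_eq_mul]
    rw [Finset.sum_comm, Finset.mul_sum]
  rw [h2]
  refine Finset.sum_le_sum fun z _ => ?_
  rw [coeff_avg]
  exact jensen _ fun i => (hp i).nn z

theorem Ent_Ex {α : Type} [Fintype α] [Nonempty α] (k : ℕ) (p : List α → GA G)
    (hp : ∀ i, IsLaw (p i)) : Ex k (fun l => Ent (p l)) ≤ Ent (Ex k p) := by
  induction k generalizing p with
  | zero => exact le_rfl
  | succ k ih =>
    rw [Ex_succ, Ex_succ]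
    calc _ ≤ avg fun x => Ent (Ex k fun l => p (x :: l)) :=
          avg_mono _ _ fun x => ih _ fun l => hp _
      _ ≤ _ := Ent_avg _ fun x => IsLaw.Ex k _ fun l => hp _

/-- Gibbs inequality with a code `ℓ` and a nonnegative weight `u`. -/
theorem gibbs {p : GA G} (hp : IsLaw p) (u ℓ : G → ℝ) (hu : ∀ z, 0 ≤ u z) :
    ∑ z ∈ p.coeff.support, p.coeff z * u z * (-Real.log (p.coeff z)) ≤
      ev p (fun z => u z * Real.log (u z)) + ev p (fun z => u z * ℓ z) +
        ∑ z ∈ p.coeff.support, Real.exp (-ℓ z) := by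
  rw [ev_eq_sum p _ _ (Finset.Subset.refl _), ev_eq_sum p _ _ (Finset.Subset.refl _),
    ← Finset.sum_add_distrib, ← Finset.sum_add_distrib]
  refine Finset.sum_le_sum fun z hz => ?_
  have hpz : 0 < p.coeff z := lt_of_le_of_ne (hp.nn z) (Ne.symm (Finsupp.mem_support_iff.mp hz))
  rcases (hu z).eq_or_lt with h | h
  · rw [← h]
    simp only [mul_zero, zero_mul, zero_add]
    exact (Real.exp_pos _).le
  · -- q = p u, l = ℓ : -q log q ≤ q l + exp (-l) - q
    set q := p.coeff z * u z with hq
    have hq0 : 0 < q := mul_pos hpz h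
    have e1 : Real.log q = Real.log (p.coeff z) + Real.log (u z) := Real.log_mul hpz.ne' h.ne'
    have e2 := Real.add_one_le_exp (-ℓ z - Real.log q)
    have e3 : Real.exp (-ℓ z - Real.log q) = Real.exp (-ℓ z) / q := by
      rw [Real.exp_sub, Real.exp_log hq0]
    rw [e3, le_div_iff₀ hq0] at e2
    have e4 : p.coeff z * (u z * Real.log (u z)) = q * Real.log (u z) := by rw [hq]; ring
    have e5 : p.coeff z * (u z * ℓ z) = q * ℓ z := by rw [hq]; ring
    rw [e4, e5]
    rw [e1] at e2
    nlinarith

variable [Group G]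

theorem Ent_pt_mul (g : G) (p : GA G) : Ent (pt g * p) = Ent p := by
  classical
  rw [Ent_eq_sum p (p.coeff.support) (Finset.Subset.refl _),
    Ent_eq_sum (pt g * p) (p.coeff.support.image fun z => g * z) ?_]
  · rw [Finset.sum_image (fun x _ y _ h => mul_left_cancel h)]
    refine Finset.sum_congr rfl fun z _ => ?_
    rw [coeff_pt_mul]
    simp
  · intro z hz
    rw [Finset.mem_image]
    refine ⟨g⁻¹ * z, ?_, by group⟩
    rw [Finsupp.mem_support_iff] at hz ⊢
    rwa [coeff_pt_mul] at hz

theorem Ent_mul_pt (g : G) (p : GA G) : Ent (p * pt g) = Ent p := by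
  classical
  rw [Ent_eq_sum p (p.coeff.support) (Finset.Subset.refl _),
    Ent_eq_sum (p * pt g) (p.coeff.support.image fun z => z * g) ?_]
  · rw [Finset.sum_image (fun x _ y _ h => mul_right_cancel h)]
    refine Finset.sum_congr rfl fun z _ => ?_
    rw [coeff_mul_pt]
    simp
  · intro z hz
    rw [Finset.mem_image]
    refine ⟨z * g⁻¹, ?_, by group⟩
    rw [Finsupp.mem_support_iff] at hz ⊢
    rwa [coeff_mul_pt] at hz

namespace EntAux

/-- The right translates average to the product. -/
theorem coeff_mul_right (p r : GA G) (z : G) :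
    (p * r).coeff z = ∑ y ∈ r.coeff.support, r.coeff y * p.coeff (z * y⁻¹) := by
  classical
  rw [coeff_eq_ev, ev_mul]
  have h1 : ∀ x, ev r (fun y => if x * y = z then (1 : ℝ) else 0) =
      ∑ y ∈ r.coeff.support, r.coeff y * (if x = z * y⁻¹ then (1 : ℝ) else 0) := by
    intro x
    rw [ev_eq_sum r _ _ (Finset.Subset.refl _)]
    refine Finset.sum_congr rfl fun y _ => ?_
    congr 1
    exact if_congr ⟨fun h => by rw [← h]; group, fun h => by rw [h]; group⟩ rfl rfl
  simp only [h1]
  have h2 : ∀ (s : Finset G) (w : G → ℝ) (f : G → G → ℝ),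
      ev p (fun x => ∑ y ∈ s, w y * f y x) = ∑ y ∈ s, w y * ev p (f y) := by
    intro s w f
    induction s using Finset.induction_on with
    | empty => simp [ev_fzero]
    | insert a s ha ih =>
      simp only [Finset.sum_insert ha]
      rw [ev_fadd, ev_fsmul, ih]
  rw [h2]
  refine Finset.sum_congr rfl fun y _ => ?_
  rw [← coeff_eq_ev]

end EntAux

/-- The entropy does not decrease under right multiplication by a law. -/
theorem Ent_mul_right {p r : GA G} (hp : IsLaw p) (hr : IsLaw r) : Ent p ≤ Ent (p * r) := by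
  classical
  -- a finite set containing everything
  set F : Finset G := (p * r).coeff.support ∪
    r.coeff.support.biUnion fun y => p.coeff.support.image fun z => z * y with hF
  rw [Ent_eq_sum (p * r) F Finset.subset_union_left]
  have hw0 : ∀ y ∈ r.coeff.support, 0 ≤ r.coeff y := fun y _ => hr.nn y
  have hw1 : ∑ y ∈ r.coeff.support, r.coeff y = 1 := by
    have := hr.mass
    rw [ev_eq_sum r _ _ (Finset.Subset.refl _)] at this
    simpa using this
  have key : ∀ z, ∑ y ∈ r.coeff.support, r.coeff y * Real.negMulLog (p.coeff (z * y⁻¹)) ≤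
      Real.negMulLog ((p * r).coeff z) := by
    intro z
    rw [coeff_mul_right]
    have h := Real.concaveOn_negMulLog.le_map_sum (t := r.coeff.support)
      (w := fun y => r.coeff y) (p := fun y => p.coeff (z * y⁻¹)) hw0 hw1
      (fun y _ => hp.nn _)
    simpa using h
  calc Ent p = ∑ y ∈ r.coeff.support, r.coeff y * Ent p := by rw [← Finset.sum_mul, hw1, one_mul]
    _ = ∑ y ∈ r.coeff.support, r.coeff y * ∑ z ∈ F, Real.negMulLog (p.coeff (z * y⁻¹)) := by
        refine Finset.sum_congr rfl fun y hy => ?_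
        rw [← Ent_mul_pt y p, Ent_eq_sum (p * pt y) F ?_]
        · congr 1
          refine Finset.sum_congr rfl fun z _ => ?_
          rw [coeff_mul_pt]
        · intro z hz
          rw [hF, Finset.mem_union]
          right
          rw [Finset.mem_biUnion]
          refine ⟨y, hy, ?_⟩
          rw [Finset.mem_image]
          refine ⟨z * y⁻¹, ?_, by group⟩
          rw [Finsupp.mem_support_iff] at hz ⊢
          rwa [coeff_mul_pt] at hz
    _ = ∑ z ∈ F, ∑ y ∈ r.coeff.support, r.coeff y * Real.negMulLog (p.coeff (z * y⁻¹)) := by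
        simp only [Finset.mul_sum]
        exact Finset.sum_comm
    _ ≤ _ := Finset.sum_le_sum fun z _ => key z

namespace EntAux

/-- `t log t - t + 1 >= (sqrt t - 1)^2` in homogeneous form. -/
theorem kl_pt {x y : ℝ} (hx : 0 ≤ x) (hy : 0 < y) :
    (Real.sqrt x - Real.sqrt y) ^ 2 ≤ x * Real.log x - x * Real.log y - x + y := by
  rcases hx.eq_or_lt with h | h
  · rw [← h]
    simp only [Real.sqrt_zero, zero_mul, sub_self, zero_sub, neg_sq]
    rw [Real.sq_sqrt hy.le]
    simp
  · -- log (sqrt y / sqrt x) ≤ sqrt y / sqrt x - 1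
    have hsx : 0 < Real.sqrt x := Real.sqrt_pos.mpr h
    have hsy : 0 < Real.sqrt y := Real.sqrt_pos.mpr hy
    have h1 := Real.log_le_sub_one_of_pos (div_pos hsy hsx)
    rw [Real.log_div hsy.ne' hsx.ne'] at h1
    have e1 : Real.log x = 2 * Real.log (Real.sqrt x) := by
      rw [Real.log_sqrt h.le]; ring
    have e2 : Real.log y = 2 * Real.log (Real.sqrt y) := by
      rw [Real.log_sqrt hy.le]; ring
    have e3 : Real.sqrt x * Real.sqrt x = x := Real.mul_self_sqrt h.le
    have e4 : Real.sqrt y * Real.sqrt y = y := Real.mul_self_sqrt hy.le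
    rw [e1, e2]
    set s := Real.sqrt x with hs
    set t := Real.sqrt y with ht
    have h2 : x * (Real.log t - Real.log s) ≤ x * (t / s - 1) :=
      mul_le_mul_of_nonneg_left h1 h.le
    have h3 : x * (t / s - 1) = s * t - x := by
      rw [← e3]; field_simp
    nlinarith

end EntAux

/-- The gain of entropy controls the Hellinger distance (log-sum inequality and
`t log t - t + 1 >= (sqrt t - 1)^2`). -/
theorem Ent_gain {p : GA G} (hp : IsLaw p) (g : G) :
    Ent p + (1 / 2) * He p (hh g * p) ≤ Ent (hh g * p) := by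
  classical
  set q := hh g * p with hq
  have hql : IsLaw q := (IsLaw.hh g).mul hp
  have hgl : IsLaw (pt g * p) := (IsLaw.pt g).mul hp
  have hqc : ∀ z, q.coeff z = (p.coeff z + (pt g * p).coeff z) / 2 := by
    intro z
    rw [coeff_eq_ev, coeff_eq_ev p, coeff_eq_ev (pt g * p), hq]
    unfold hh
    rw [smul_mul_assoc, ev_smul, add_mul, one_mul, ev_add]
    ring
  set F : Finset G := p.coeff.support ∪ (pt g * p).coeff.support ∪ q.coeff.support with hF
  have s1 : p.coeff.support ⊆ F := fun z hz => by
    rw [hF, Finset.mem_union, Finset.mem_union]; exact Or.inl (Or.inl hz)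
  have s2 : (pt g * p).coeff.support ⊆ F := fun z hz => by
    rw [hF, Finset.mem_union, Finset.mem_union]; exact Or.inl (Or.inr hz)
  have s3 : q.coeff.support ⊆ F := fun z hz => by
    rw [hF, Finset.mem_union]; exact Or.inr hz
  have hE : Ent (pt g * p) = Ent p := Ent_pt_mul g p
  have m1 : ∑ z ∈ F, p.coeff z = 1 := by
    have := hp.mass
    rw [ev_eq_sum p _ F s1] at this
    simpa using this
  have m2 : ∑ z ∈ F, (pt g * p).coeff z = 1 := by
    have := hgl.mass
    rw [ev_eq_sum (pt g * p) _ F s2] at this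
    simpa using this
  have m3 : ∑ z ∈ F, q.coeff z = 1 := by
    have := hql.mass
    rw [ev_eq_sum q _ F s3] at this
    simpa using this
  -- pointwise: sum over z of [x log x - x log m - x + m] for x = p, and >= 0 for x = gp
  have k1 : ∀ z, (Real.sqrt (p.coeff z) - Real.sqrt (q.coeff z)) ^ 2 ≤
      (p.coeff z * Real.log (p.coeff z) - p.coeff z * Real.log (q.coeff z) -
        p.coeff z + q.coeff z) +
      ((pt g * p).coeff z * Real.log ((pt g * p).coeff z) -
        (pt g * p).coeff z * Real.log (q.coeff z) - (pt g * p).coeff z + q.coeff z) := by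
    intro z
    have x0 := hp.nn z
    have y0 := hgl.nn z
    rcases (hql.nn z).eq_or_lt with h | h
    · have hx : p.coeff z = 0 := by
        have := hqc z
        linarith
      have hy : (pt g * p).coeff z = 0 := by
        have := hqc z
        linarith
      rw [hx, hy, ← h]
      simp
    · have a1 := kl_pt x0 h
      have a2 := kl_pt y0 h
      have a3 := sq_nonneg (Real.sqrt ((pt g * p).coeff z) - Real.sqrt (q.coeff z))
      linarith
  have k2 : ∀ z, (p.coeff z * Real.log (p.coeff z) - p.coeff z * Real.log (q.coeff z) -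
        p.coeff z + q.coeff z) +
      ((pt g * p).coeff z * Real.log ((pt g * p).coeff z) -
        (pt g * p).coeff z * Real.log (q.coeff z) - (pt g * p).coeff z + q.coeff z) =
      2 * Real.negMulLog (q.coeff z) - Real.negMulLog (p.coeff z) -
        Real.negMulLog ((pt g * p).coeff z) := by
    intro z
    unfold Real.negMulLog
    rw [hqc z]
    ring
  rw [Ent_eq_sum p F s1] at hE ⊢
  rw [Ent_eq_sum (pt g * p) F s2] at hE
  rw [Ent_eq_sum q F s3, He_eq_sum p q F s1 s3]
  have k3 : ∑ z ∈ F, (Real.sqrt (p.coeff z) - Real.sqrt (q.coeff z)) ^ 2 ≤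
      ∑ z ∈ F, (2 * Real.negMulLog (q.coeff z) - Real.negMulLog (p.coeff z) -
        Real.negMulLog ((pt g * p).coeff z)) :=
    Finset.sum_le_sum fun z _ => (k1 z).trans (le_of_eq (k2 z))
  rw [Finset.sum_sub_distrib, Finset.sum_sub_distrib, ← Finset.mul_sum, hE] at k3
  linarith

end Pool.Agent.PHF
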