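import Pool.Agent.PHF.Lam
import Pool.Agent.PHF.Ent

set_option autoImplicit false

namespace Pool.Agent.PHF

/-! Module ENTB: entropy bounds. -/

variable {G : Type} [Group G] (S : SGp G)

namespace EnbAux

theorem exists_N (r : ℕ) : ∃ N : ℕ, (r : ℝ) / 4 ^ N ≤ 1 ∧ (2 : ℝ) ^ N ≤ 2 * Real.sqrt (r + 1) := by
  refine ⟨Nat.log 4 (r + 1) + 1, ?_, ?_⟩
  · have h1 : r + 1 < 4 ^ (Nat.log 4 (r + 1) + 1) := Nat.lt_pow_succ_log_self (by norm_num) _
    have h2 : ((r + 1 : ℕ) : ℝ) < (4 : ℝ) ^ (Nat.log 4 (r + 1) + 1) := by exact_mod_cast h1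
    rw [div_le_one (by positivity)]
    push_cast at h2
    linarith
  · have h1 : 4 ^ (Nat.log 4 (r + 1)) ≤ r + 1 := Nat.pow_log_le_self 4 (by omega)
    have h2 : (4 : ℝ) ^ (Nat.log 4 (r + 1)) ≤ ((r + 1 : ℕ) : ℝ) := by exact_mod_cast h1
    push_cast at h2
    rw [pow_succ, mul_comm]
    refine mul_le_mul_of_nonneg_left ?_ (by norm_num)
    apply Real.le_sqrt_of_sq_le
    calc ((2 : ℝ) ^ Nat.log 4 (r + 1)) ^ 2 = 4 ^ Nat.log 4 (r + 1) := by
          rw [← pow_mul, mul_comm, pow_mul]; norm_num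
      _ ≤ _ := h2

/-- The common estimate. -/
theorem gibbs_bound {p : GA G} (hp : IsLaw p) (c : ℝ) (hc0 : 0 < c)
    (hc : ∀ F : Finset G, ∑ z ∈ F, Real.exp (-(c * (1 + S.Lv z))) ≤ 1 / 2)
    (N : ℕ) (hN : ev p (S.Psi N) ≤ 2 ^ N * 6) (u : G → ℝ) (M D : ℝ) (hu : ∀ z, 0 ≤ u z)
    (hM : ev p u ≤ M) (hD : 1 ≤ D) (huD : ∀ z, p.coeff z ≠ 0 → u z ≤ D) :
    ∑ z ∈ p.coeff.support, p.coeff z * u z * (-Real.log (p.coeff z)) ≤
      2 ^ N * ((3 / 2 + c + 7 * (c / Real.log 2)) * (M * (1 + Real.log D) + 1)) := by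
  have hg := gibbs hp u (S.ell c N) hu
  have hl2 : 0 < Real.log 2 := Real.log_pos (by norm_num)
  have hlD : 0 ≤ Real.log D := Real.log_nonneg hD
  have hk := kraft S c hc N p.coeff.support
  have hMu : 0 ≤ ev p u := ev_nonneg p hp.nn _ fun z _ => hu z
  have hM0 : 0 ≤ M := hMu.trans hM
  set q := c / Real.log 2 with hq
  have hq0 : 0 < q := div_pos hc0 hl2
  have h1 : ev p (fun z => u z * Real.log (u z)) ≤ M * Real.log D := by
    calc _ ≤ ev p (fun z => Real.log D * u z) := by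
          refine ev_mono p hp.nn _ _ fun z hz => ?_
          rcases (hu z).eq_or_lt with h | h
          · rw [← h]; simp
          · rw [mul_comm]
            exact mul_le_mul_of_nonneg_right (Real.log_le_log h (huD z hz)) h.le
      _ = Real.log D * ev p u := ev_fsmul _ _ _
      _ ≤ Real.log D * M := mul_le_mul_of_nonneg_left hM hlD
      _ = _ := mul_comm _ _
  have h2 : ev p (fun z => u z * S.ell c N z) ≤
      c * 2 ^ N * M + q * (2 ^ N * (M * Real.log D) + 2 ^ N * 6) := by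
    calc _ ≤ ev p (fun z => c * 2 ^ N * u z +
          q * (2 ^ N * (u z * Real.log (u z)) + S.Psi N z)) :=
          ev_mono p hp.nn _ _ fun z _ => ell_young S c hc0.le N z (u z) (hu z)
      _ = c * 2 ^ N * ev p u + q * (2 ^ N * ev p (fun z => u z * Real.log (u z)) +
            ev p (S.Psi N)) := by
          rw [ev_fadd, ev_fsmul, ev_fsmul, ev_fadd, ev_fsmul]
      _ ≤ _ := by
          have hp2 : (0 : ℝ) ≤ 2 ^ N := by positivity
          have e1 : c * 2 ^ N * ev p u ≤ c * 2 ^ N * M :=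
            mul_le_mul_of_nonneg_left hM (by positivity)
          have e2 : 2 ^ N * ev p (fun z => u z * Real.log (u z)) ≤ 2 ^ N * (M * Real.log D) :=
            mul_le_mul_of_nonneg_left h1 hp2
          have e3 := mul_le_mul_of_nonneg_left (add_le_add e2 hN) hq0.le
          linarith
  have hX : (1 : ℝ) ≤ 2 ^ N := one_le_pow₀ (by norm_num)
  set X : ℝ := 2 ^ N with hXdef
  set L := Real.log D with hL
  set Y := M * (1 + L) + 1 with hY
  have hML : 0 ≤ M * L := mul_nonneg hM0 hlD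
  have hY1 : M * L ≤ Y := by rw [hY]; nlinarith
  have hY2 : M ≤ Y := by rw [hY]; nlinarith
  have hY3 : 1 ≤ Y := by rw [hY]; nlinarith
  have hY0 : 0 ≤ Y := by linarith
  have hXY : Y ≤ X * Y := by nlinarith
  have t1 : M * L ≤ X * Y := hY1.trans hXY
  have t2 : c * X * M ≤ c * (X * Y) := by
    rw [mul_assoc]
    exact mul_le_mul_of_nonneg_left (mul_le_mul_of_nonneg_left hY2 (by linarith)) hc0.le
  have t3 : q * (X * (M * L) + X * 6) ≤ 7 * q * (X * Y) := by
    have : X * (M * L) + X * 6 ≤ 7 * (X * Y) := by nlinarith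
    calc _ ≤ q * (7 * (X * Y)) := mul_le_mul_of_nonneg_left this hq0.le
      _ = _ := by ring
  have t4 : (1 : ℝ) / 2 ≤ 1 / 2 * (X * Y) := by nlinarith
  calc _ ≤ M * L + (c * X * M + q * (X * (M * L) + X * 6)) + 1 / 2 := by linarith
    _ ≤ X * Y + (c * (X * Y) + 7 * q * (X * Y)) + 1 / 2 * (X * Y) := by linarith
    _ = _ := by ring

theorem exp_le {x : ℝ} (h : x ≤ 1) : Real.exp x ≤ 3 := by
  have h1 : Real.exp x ≤ Real.exp 1 := Real.exp_le_exp.mpr h
  have h2 := Real.exp_one_lt_d9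
  linarith

theorem Psi_bound (r N : ℕ) (h : (r : ℝ) / 4 ^ N ≤ 1) : ev (S.lam r) (S.Psi N) ≤ 2 ^ N * 6 := by
  have h1 := ev_lam_Psi S N r
  have h2 := exp_le h
  have h3 : (0 : ℝ) ≤ 2 ^ N := by positivity
  nlinarith

end EnbAux

open EnbAux

theorem Ent_lam : ∃ C : ℝ, 0 ≤ C ∧ ∀ r : ℕ, Ent (S.lam r) ≤ C * Real.sqrt (r + 1) := by
  obtain ⟨c, hc0, hc⟩ := exists_code S
  have hl2 : 0 < Real.log 2 := Real.log_pos (by norm_num)
  have hq0 : 0 < c / Real.log 2 := div_pos hc0 hl2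
  set A := 3 / 2 + c + 7 * (c / Real.log 2) with hA
  have hA0 : 0 < A := by positivity
  refine ⟨4 * A, by positivity, fun r => ?_⟩
  obtain ⟨N, hN1, hN2⟩ := exists_N r
  have hp := law_lam S r
  have h := gibbs_bound S hp c hc0 hc N (Psi_bound S r N hN1) (fun _ => 1) 1 1
    (fun _ => zero_le_one) hp.mass.le le_rfl (fun _ _ => le_rfl)
  rw [← hA, Real.log_one, add_zero, mul_one] at h
  have hE : Ent (S.lam r) = ∑ z ∈ (S.lam r).coeff.support,
      (S.lam r).coeff z * 1 * (-Real.log ((S.lam r).coeff z)) := by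
    unfold Ent
    refine Finset.sum_congr rfl fun z _ => ?_
    unfold Real.negMulLog
    ring
  rw [hE]
  calc _ ≤ 2 ^ N * (A * (1 + 1)) := h
    _ ≤ (2 * Real.sqrt (r + 1)) * (A * (1 + 1)) :=
        mul_le_mul_of_nonneg_right hN2 (by positivity)
    _ = _ := by ring

theorem XK_gibbs : ∃ C : ℝ, 0 ≤ C ∧ ∀ (K : ℕ) (u : G → ℝ) (M D : ℝ), (∀ z, 0 ≤ u z) →
    ev (S.XK K) u ≤ M → 1 ≤ D → (∀ z, (S.XK K).coeff z ≠ 0 → u z ≤ D) →
    ∑ z ∈ (S.XK K).coeff.support,
      (S.XK K).coeff z * u z * (-Real.log ((S.XK K).coeff z)) ≤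
        C * Real.sqrt (K + 1) * (M * (1 + Real.log D) + 1) := by
  obtain ⟨c, hc0, hc⟩ := exists_code S
  have hl2 : 0 < Real.log 2 := Real.log_pos (by norm_num)
  have hq0 : 0 < c / Real.log 2 := div_pos hc0 hl2
  set A := 3 / 2 + c + 7 * (c / Real.log 2) with hA
  have hA0 : 0 < A := by positivity
  refine ⟨4 * A, by positivity, fun K u M D hu hM hD huD => ?_⟩
  obtain ⟨N, hN1, hN2⟩ := exists_N (2 * K)
  have hp := law_XK S K
  have hPsi : ev (S.XK K) (S.Psi N) ≤ 2 ^ N * 6 := by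
    rw [XK_eq_lam, ev_mul, ev_mul, ev_pt]
    have : (fun y => ev (pt S.a) fun y_1 => S.Psi N (S.a * y * y_1)) = S.Psi N := by
      funext y
      rw [ev_pt, Psi_mul_a, Psi_a_mul]
    rw [this]
    exact Psi_bound S (2 * K) N hN1
  have h := gibbs_bound S hp c hc0 hc N hPsi u M D hu hM hD huD
  rw [← hA] at h
  have hM0 : 0 ≤ M := (ev_nonneg _ hp.nn _ fun z _ => hu z).trans hM
  have hlD : 0 ≤ Real.log D := Real.log_nonneg hD
  have hY : 0 ≤ M * (1 + Real.log D) + 1 := by positivity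
  have h3 : (2 : ℝ) ^ N ≤ 4 * Real.sqrt (K + 1) := by
    refine hN2.trans ?_
    have : Real.sqrt (((2 * K : ℕ) : ℝ) + 1) ≤ Real.sqrt (2 ^ 2 * ((K : ℝ) + 1)) := by
      apply Real.sqrt_le_sqrt
      push_cast
      have : (0 : ℝ) ≤ K := Nat.cast_nonneg K
      linarith
    rw [Real.sqrt_mul (by positivity), Real.sqrt_sq (by norm_num)] at this
    linarith
  calc _ ≤ 2 ^ N * (A * (M * (1 + Real.log D) + 1)) := h
    _ ≤ 4 * Real.sqrt (K + 1) * (A * (M * (1 + Real.log D) + 1)) :=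
        mul_le_mul_of_nonneg_right h3 (by positivity)
    _ = _ := by ring

end Pool.Agent.PHF
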