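import Pool.Agent.PHF.Dzr
import Pool.Agent.PHF.Lbf

set_option autoImplicit false

namespace Pool.Agent.PHF

/-! Module EXT1: mixed differences vanish for LB x LB. -/

variable {G : Type} [Group G] {S : SGp G}

/-- the mixed difference vanishes at all base points -/
def EXA_P (S : SGp G) (f : G → ℝ) (b b' : G) : Prop :=
  ∀ x : G, S.chi f (x * S.dl false b * S.dl true b') - S.chi f (x * S.dl false b) -
      S.chi f (x * S.dl true b') + S.chi f x = 0

theorem EXA_left {f : G → ℝ} {b1 b2 b' : G} (h1 : b1 ∈ S.BB) (h2 : b2 ∈ S.BB)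
    (e1 : EXA_P S f b1 b') (e2 : EXA_P S f b2 b') : EXA_P S f (b1 * b2) b' := by
  intro x
  rw [dl_mul S false h1 h2]
  have h3 := e1 x
  have h4 := e2 (x * S.dl false b1)
  rw [← mul_assoc x]
  linarith

theorem EXA_right {f : G → ℝ} {b b1 b2 : G} (hb : b ∈ S.BB) (h1 : b1 ∈ S.BB) (h2 : b2 ∈ S.BB)
    (e1 : EXA_P S f b b1) (e2 : EXA_P S f b b2) : EXA_P S f b (b1 * b2) := by
  intro x
  rw [dl_mul S true h1 h2]
  have h3 := e1 x
  have h4 := e2 (x * S.dl true b1)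
  have h5 : x * S.dl true b1 * S.dl false b = x * S.dl false b * S.dl true b1 := by
    rw [mul_assoc, ← dl_comm S hb h1, mul_assoc]
  rw [h5] at h4
  rw [← mul_assoc (x * S.dl false b), ← mul_assoc x]
  linarith

theorem EXA_base {f : G → ℝ} (hf : S.Dcl f) {γ γ' : G} (hγ : γ ∈ S.NN3) (hγ' : γ' ∈ S.NN3)
    (c1 c2 c3 c4 : Bool) : EXA_P S f (S.dl c1 (S.dl c2 γ)) (S.dl c3 (S.dl c4 γ')) := by
  intro x
  have h1 := dzero (Dcl_left hf x) hγ hγ' c1 c2 c3 c4
  simp only [chi_left, mul_one] at h1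
  rw [mul_assoc]
  exact h1

theorem ext1 {f : G → ℝ} (hf : S.Dcl f) {b b' : G} (hb : b ∈ S.LB) (hb' : b' ∈ S.LB) (x : G) :
    S.chi f (x * S.dl false b * S.dl true b') - S.chi f (x * S.dl false b) -
      S.chi f (x * S.dl true b') + S.chi f x = 0 := by
  obtain ⟨n, hn, rfl⟩ := LB_prod S hb
  obtain ⟨n', hn', rfl⟩ := LB_prod S hb'
  have hB : ∀ c c' : Bool, S.dl c (S.dl c' (n c c')) ∈ S.BB := fun c c' =>
    dl_dl_mem S c c' (hn c c')
  have hB' : ∀ c c' : Bool, S.dl c (S.dl c' (n' c c')) ∈ S.BB := fun c c' =>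
    dl_dl_mem S c c' (hn' c c')
  have key : ∀ b' : G, (∀ c c' : Bool, EXA_P S f (S.dl c (S.dl c' (n c c'))) b') →
      EXA_P S f (S.dl false (S.dl false (n false false)) * S.dl false (S.dl true (n false true)) *
      S.dl true (S.dl false (n true false)) * S.dl true (S.dl true (n true true))) b' := by
    intro b' h
    exact EXA_left (BB_mul S (BB_mul S (hB _ _) (hB _ _)) (hB _ _)) (hB _ _)
      (EXA_left (BB_mul S (hB _ _) (hB _ _)) (hB _ _)
        (EXA_left (hB _ _) (hB _ _) (h _ _) (h _ _)) (h _ _)) (h _ _)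
  refine key _ (fun c c' => ?_) x
  exact EXA_right (hB c c') (BB_mul S (BB_mul S (hB' _ _) (hB' _ _)) (hB' _ _)) (hB' _ _)
    (EXA_right (hB c c') (BB_mul S (hB' _ _) (hB' _ _)) (hB' _ _)
      (EXA_right (hB c c') (hB' _ _) (hB' _ _) (EXA_base hf (hn _ _) (hn' _ _) _ _ _ _)
        (EXA_base hf (hn _ _) (hn' _ _) _ _ _ _)) (EXA_base hf (hn _ _) (hn' _ _) _ _ _ _))
    (EXA_base hf (hn _ _) (hn' _ _) _ _ _ _)

end Pool.Agent.PHF
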