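import Pool.Agent.PHF.Grb

set_option autoImplicit false

namespace Pool.Agent.PHF

/-! Module GRC: the set BB and the maps dl. -/

variable {G : Type} [Group G] (S : SGp G)

theorem BB_one : (1 : G) ∈ S.BB := ⟨1, IsPair_one S⟩

theorem BB_mul {b c : G} (hb : b ∈ S.BB) (hc : c ∈ S.BB) : b * c ∈ S.BB := by
  obtain ⟨g, hg⟩ := hb
  obtain ⟨h, hh⟩ := hc
  refine ⟨g * h, ?_⟩
  have := IsPair_mul hg hh
  rwa [mul_one] at this

theorem BB_inv {b : G} (hb : b ∈ S.BB) : b⁻¹ ∈ S.BB := by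
  obtain ⟨g, hg⟩ := hb
  refine ⟨g⁻¹, ?_⟩
  have := IsPair_inv hg
  rwa [inv_one] at this

theorem BB_conj {b : G} (hb : b ∈ S.BB) (g : G) : g * b * g⁻¹ ∈ S.BB := by
  obtain ⟨u, hu⟩ := hb
  obtain ⟨x, y, hx⟩ := pair_left S g
  refine ⟨x * u * x⁻¹, ?_⟩
  have := IsPair_mul (IsPair_mul hx hu) (IsPair_inv hx)
  rwa [mul_one, mul_inv_cancel] at this

theorem BB_iff (b : G) : b ∈ S.BB ↔ ∃ g, IsPair S g 1 b := by
  constructor
  · rintro ⟨g, hg⟩
    exact ⟨_, IsPair_conj_a hg⟩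
  · rintro ⟨g, hg⟩
    exact ⟨_, IsPair_conj_a hg⟩

/-- Two pairs with congruent first coordinates have congruent second coordinates. -/
theorem BB_pair {g g' x y x' y' : G} (h : IsPair S g x y) (h' : IsPair S g' x' y') :
    x⁻¹ * x' ∈ S.BB ↔ y⁻¹ * y' ∈ S.BB := by
  have hq := IsPair_mul (IsPair_inv h) h'
  constructor
  · rintro ⟨u, hu⟩
    rw [BB_iff]
    have := IsPair_mul (IsPair_inv hu) hq
    rw [inv_mul_cancel, inv_one, one_mul] at this
    exact ⟨_, this⟩
  · intro hy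
    rw [BB_iff] at hy
    obtain ⟨u, hu⟩ := hy
    have := IsPair_mul (IsPair_inv hu) hq
    rw [inv_mul_cancel, inv_one, one_mul] at this
    exact ⟨_, this⟩

theorem e_mem_BB (i : Fin 4) (hi : i ≠ 3) : S.e i ∈ S.BB := by
  rw [BB_iff]
  fin_cases i
  · exact ⟨_, IsPair_e1 S⟩
  · exact ⟨_, IsPair_e2 S⟩
  · exact ⟨_, IsPair_e3 S⟩
  · exact absurd rfl hi

namespace GrcAux

/-- `BB` as a subgroup. -/
def BBs : Subgroup G where
  carrier := S.BB
  one_mem' := BB_one S
  mul_mem' := BB_mul S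
  inv_mem' := BB_inv S

theorem mem_BBs (x : G) : x ∈ BBs S ↔ x ∈ S.BB := Iff.rfl

theorem BBs_normal : (BBs S).Normal := ⟨fun _ hn g => BB_conj S hn g⟩

end GrcAux

open GrcAux

theorem NN1_le (x : G) (hx : x ∈ S.NN1) : x ∈ S.BB := by
  have := BBs_normal S
  have h : S.NN1 ≤ BBs S := by
    refine Subgroup.normalClosure_le_normal ?_
    intro y hy
    rcases hy with rfl | rfl | hy
    · exact e_mem_BB S 0 (by decide)
    · exact e_mem_BB S 1 (by decide)
    · rw [Set.mem_singleton_iff] at hy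
      subst hy
      exact e_mem_BB S 2 (by decide)
  exact h hx

theorem NN3_le (x : G) (hx : x ∈ S.NN3) : x ∈ S.NN1 := by
  refine Subgroup.normalClosure_mono ?_ hx
  intro y hy
  exact Or.inl hy

theorem dl_false {b : G} (hb : b ∈ S.BB) : IsPair S (S.dl false b) b 1 := by
  classical
  have h : ∃ x, IsPair S x (if false = true then 1 else b) (if false = true then b else 1) := by
    obtain ⟨x, hx⟩ := hb
    exact ⟨x, by simpa using hx⟩
  have h2 := h.choose_spec
  unfold SGp.dl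
  rw [dif_pos h]
  simpa using h2

theorem dl_true {b : G} (hb : b ∈ S.BB) : IsPair S (S.dl true b) 1 b := by
  classical
  rw [BB_iff] at hb
  have h : ∃ x, IsPair S x (if true = true then 1 else b) (if true = true then b else 1) := by
    simpa using hb
  have h2 := h.choose_spec
  unfold SGp.dl
  rw [dif_pos h]
  simpa using h2

theorem dl_one (c : Bool) : S.dl c 1 = 1 := by
  cases c
  · exact IsPair_unique (dl_false S (BB_one S)) (IsPair_one S)
  · exact IsPair_unique (dl_true S (BB_one S)) (IsPair_one S)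

theorem dl_mul (c : Bool) {b b' : G} (hb : b ∈ S.BB) (hb' : b' ∈ S.BB) :
    S.dl c (b * b') = S.dl c b * S.dl c b' := by
  cases c
  · have := IsPair_mul (dl_false S hb) (dl_false S hb')
    rw [mul_one] at this
    exact IsPair_unique (dl_false S (BB_mul S hb hb')) this
  · have := IsPair_mul (dl_true S hb) (dl_true S hb')
    rw [mul_one] at this
    exact IsPair_unique (dl_true S (BB_mul S hb hb')) this

theorem dl_inv (c : Bool) {b : G} (hb : b ∈ S.BB) : S.dl c b⁻¹ = (S.dl c b)⁻¹ := by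
  have h := dl_mul S c hb (BB_inv S hb)
  rw [mul_inv_cancel, dl_one] at h
  exact (inv_eq_of_mul_eq_one_right h.symm).symm

/-- Elements in different coordinates commute. -/
theorem dl_comm {b b' : G} (hb : b ∈ S.BB) (hb' : b' ∈ S.BB) :
    S.dl false b * S.dl true b' = S.dl true b' * S.dl false b := by
  have h1 := IsPair_mul (dl_false S hb) (dl_true S hb')
  have h2 := IsPair_mul (dl_true S hb') (dl_false S hb)
  rw [mul_one, one_mul] at h1 h2
  exact IsPair_unique h1 h2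

theorem dl_conj_a (c : Bool) {b : G} (hb : b ∈ S.BB) :
    S.a * S.dl c b * S.a = S.dl (!c) b := by
  cases c
  · exact IsPair_unique (IsPair_conj_a (dl_false S hb)) (dl_true S hb)
  · exact IsPair_unique (IsPair_conj_a (dl_true S hb)) (dl_false S hb)

theorem dl_conj_false {g x y b : G} (h : IsPair S g x y) (hb : b ∈ S.BB) :
    g * S.dl false b * g⁻¹ = S.dl false (x * b * x⁻¹) := by
  have h1 := IsPair_mul (IsPair_mul h (dl_false S hb)) (IsPair_inv h)
  rw [mul_one, mul_inv_cancel] at h1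
  exact IsPair_unique h1 (dl_false S (BB_conj S hb x))

theorem dl_conj_true {g x y b : G} (h : IsPair S g x y) (hb : b ∈ S.BB) :
    g * S.dl true b * g⁻¹ = S.dl true (y * b * y⁻¹) := by
  have h1 := IsPair_mul (IsPair_mul h (dl_true S hb)) (IsPair_inv h)
  rw [mul_one, mul_inv_cancel] at h1
  exact IsPair_unique h1 (dl_true S (BB_conj S hb y))

theorem root_dl (c : Bool) {b : G} (hb : b ∈ S.BB) : S.root (S.dl c b) = false := by
  cases c
  · exact (dl_false S hb).1
  · exact (dl_true S hb).1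

namespace GrcAux

/-- Conjugates of elements of `BB` are carried to conjugates. -/
theorem dl_conj_exists (c : Bool) (g : G) :
    ∃ x : G, ∀ b ∈ S.BB, S.dl c (g * b * g⁻¹) = x * S.dl c b * x⁻¹ := by
  cases c
  · obtain ⟨x, y, hx⟩ := pair_left S g
    exact ⟨x, fun b hb => (dl_conj_false S hx hb).symm⟩
  · obtain ⟨x, y, hx⟩ := pair_right S g
    exact ⟨x, fun b hb => (dl_conj_true S hx hb).symm⟩

/-- Elements of `BB` carried to `BB`. -/
def D1s (c : Bool) : Subgroup G where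
  carrier := {g | g ∈ S.BB ∧ S.dl c g ∈ S.BB}
  one_mem' := ⟨BB_one S, by rw [dl_one]; exact BB_one S⟩
  mul_mem' := by
    rintro x y ⟨hx, hx'⟩ ⟨hy, hy'⟩
    refine ⟨BB_mul S hx hy, ?_⟩
    rw [dl_mul S c hx hy]
    exact BB_mul S hx' hy'
  inv_mem' := by
    rintro x ⟨hx, hx'⟩
    refine ⟨BB_inv S hx, ?_⟩
    rw [dl_inv S c hx]
    exact BB_inv S hx'

theorem D1s_normal (c : Bool) : (D1s S c).Normal := by
  refine ⟨?_⟩
  rintro n ⟨hn, hn'⟩ g
  refine ⟨BB_conj S hn g, ?_⟩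
  obtain ⟨x, hx⟩ := dl_conj_exists S c g
  rw [hx n hn]
  exact BB_conj S hn' x

theorem dl_true_e0 : S.dl true (S.e 0) = S.e 1 :=
  IsPair_unique (dl_true S (e_mem_BB S 0 (by decide))) (IsPair_e1 S)

theorem dl_true_e1 : S.dl true (S.e 1) = S.e 2 :=
  IsPair_unique (dl_true S (e_mem_BB S 1 (by decide))) (IsPair_e2 S)

theorem a_inv : S.a⁻¹ = S.a := inv_eq_of_mul_eq_one_right S.a_sq

theorem dl_false_e0 : S.dl false (S.e 0) = S.a * S.e 1 * S.a⁻¹ := by
  have h := dl_conj_a S true (e_mem_BB S 0 (by decide))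
  rw [dl_true_e0] at h
  rw [a_inv, h]
  rfl

theorem dl_false_e1 : S.dl false (S.e 1) = S.a * S.e 2 * S.a⁻¹ := by
  have h := dl_conj_a S true (e_mem_BB S 1 (by decide))
  rw [dl_true_e1] at h
  rw [a_inv, h]
  rfl

theorem e0_mem_D1s (c : Bool) : S.e 0 ∈ D1s S c := by
  refine ⟨e_mem_BB S 0 (by decide), ?_⟩
  cases c
  · rw [dl_false_e0]
    exact BB_conj S (e_mem_BB S 1 (by decide)) _
  · rw [dl_true_e0]
    exact e_mem_BB S 1 (by decide)

theorem e1_mem_D1s (c : Bool) : S.e 1 ∈ D1s S c := by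
  refine ⟨e_mem_BB S 1 (by decide), ?_⟩
  cases c
  · rw [dl_false_e1]
    exact BB_conj S (e_mem_BB S 2 (by decide)) _
  · rw [dl_true_e1]
    exact e_mem_BB S 2 (by decide)

/-- Elements of `BB` carried to `D1s`. -/
def D2s (c c' : Bool) : Subgroup G where
  carrier := {g | g ∈ S.BB ∧ S.dl c' g ∈ D1s S c}
  one_mem' := ⟨BB_one S, by rw [dl_one]; exact (D1s S c).one_mem⟩
  mul_mem' := by
    rintro x y ⟨hx, hx'⟩ ⟨hy, hy'⟩
    refine ⟨BB_mul S hx hy, ?_⟩
    rw [dl_mul S c' hx hy]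
    exact (D1s S c).mul_mem hx' hy'
  inv_mem' := by
    rintro x ⟨hx, hx'⟩
    refine ⟨BB_inv S hx, ?_⟩
    rw [dl_inv S c' hx]
    exact (D1s S c).inv_mem hx'

theorem D2s_normal (c c' : Bool) : (D2s S c c').Normal := by
  refine ⟨?_⟩
  rintro n ⟨hn, hn'⟩ g
  refine ⟨BB_conj S hn g, ?_⟩
  obtain ⟨x, hx⟩ := dl_conj_exists S c' g
  rw [hx n hn]
  exact (D1s_normal S c).conj_mem _ hn' x

theorem e0_mem_D2s (c c' : Bool) : S.e 0 ∈ D2s S c c' := by
  refine ⟨e_mem_BB S 0 (by decide), ?_⟩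
  cases c'
  · rw [dl_false_e0]
    exact (D1s_normal S c).conj_mem _ (e1_mem_D1s S c) _
  · rw [dl_true_e0]
    exact e1_mem_D1s S c

end GrcAux

theorem dl_mem (c : Bool) {γ : G} (hγ : γ ∈ S.NN3) : S.dl c γ ∈ S.BB := by
  have := D1s_normal S c
  have h : S.NN3 ≤ D1s S c := by
    refine Subgroup.normalClosure_le_normal ?_
    intro y hy
    rw [Set.mem_singleton_iff] at hy
    subst hy
    exact e0_mem_D1s S c
  exact (h hγ).2

theorem dl_dl_mem (c c' : Bool) {γ : G} (hγ : γ ∈ S.NN3) : S.dl c (S.dl c' γ) ∈ S.BB := by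
  have := D2s_normal S c c'
  have h : S.NN3 ≤ D2s S c c' := by
    refine Subgroup.normalClosure_le_normal ?_
    intro y hy
    rw [Set.mem_singleton_iff] at hy
    subst hy
    exact e0_mem_D2s S c c'
  exact (h hγ).2.2

end Pool.Agent.PHF
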