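import Pool.Agent.PHF.Defs

set_option autoImplicit false

namespace Pool.Agent.PHF

/-! Module GRP: the concrete group. -/

namespace GrpAux

/-- exchange of the first letter -/
def A : List Bool → List Bool
  | [] => []
  | b :: v => (!b) :: v

/-- the directed generators -/
def E : Fin 4 → List Bool → List Bool
  | _, [] => []
  | i, false :: v => false :: (if i = 0 then A v else v)
  | i, true :: v => true :: E (i - 1) v

theorem A_A (v : List Bool) : A (A v) = v := by cases v <;> simp [A]

theorem E_E (i : Fin 4) (v : List Bool) : E i (E i v) = v := by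
  induction v generalizing i with
  | nil => rfl
  | cons b v ih =>
    cases b
    · by_cases h : i = 0 <;> simp [E, h, A_A]
    · simp [E, ih]

theorem E_comm (i j : Fin 4) (v : List Bool) : E i (E j v) = E j (E i v) := by
  induction v generalizing i j with
  | nil => rfl
  | cons b v ih =>
    cases b
    · by_cases h : i = 0 <;> by_cases h' : j = 0 <;> simp [E, h, h']
    · simp [E, ih]

/-- exchange of the first letter -/
def aP : Equiv.Perm (List Bool) := ⟨A, A, A_A, A_A⟩

/-- the directed generators -/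
def eP (i : Fin 4) : Equiv.Perm (List Bool) := ⟨E i, E i, E_E i, E_E i⟩

/-- the generators -/
def gens : Set (Equiv.Perm (List Bool)) := insert aP (Set.range eP)

/-- the group -/
def H : Subgroup (Equiv.Perm (List Bool)) := Subgroup.closure gens

theorem aP_mem : aP ∈ H := Subgroup.subset_closure (Set.mem_insert _ _)

theorem eP_mem (i : Fin 4) : eP i ∈ H :=
  Subgroup.subset_closure (Set.mem_insert_of_mem _ ⟨i, rfl⟩)

/-- decomposition into the action on the first letter and the sections -/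
def Dec (g : Equiv.Perm (List Bool)) (r : Bool) (s : Bool → H) : Prop :=
  g [] = [] ∧ ∀ b v, g (b :: v) = (xor b r) :: ((s b : Equiv.Perm (List Bool)) v)

theorem Dec.uniq {g : Equiv.Perm (List Bool)} {r r' : Bool} {s s' : Bool → H}
    (h : Dec g r s) (h' : Dec g r' s') : r = r' ∧ s = s' := by
  constructor
  · have h1 := (h.2 false []).symm.trans (h'.2 false [])
    have h2 := (List.cons.inj h1).1
    simpa using h2
  · funext b
    apply Subtype.ext
    apply Equiv.ext
    intro v
    exact (List.cons.inj ((h.2 b v).symm.trans (h'.2 b v))).2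

theorem Dec.ext {g g' : Equiv.Perm (List Bool)} {r : Bool} {s : Bool → H}
    (h : Dec g r s) (h' : Dec g' r s) : g = g' := by
  apply Equiv.ext
  intro v
  cases v with
  | nil => rw [h.1, h'.1]
  | cons b v => rw [h.2, h'.2]

theorem Dec_one : Dec 1 false (fun _ => 1) := ⟨rfl, fun b v => by simp⟩

theorem Dec_a : Dec aP true (fun _ => 1) := ⟨rfl, fun b v => by
  show A (b :: v) = _
  simp [A]⟩

theorem Dec_e (i : Fin 4) : Dec (eP i) false
    (fun b => if b then ⟨eP (i - 1), eP_mem _⟩ else if i = 0 then ⟨aP, aP_mem⟩ else 1) := by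
  refine ⟨rfl, fun b v => ?_⟩
  show E i (b :: v) = _
  cases b
  · by_cases h : i = 0
    · subst h
      simp [E]
      rfl
    · simp [E, h]
  · simp [E]
    rfl

theorem Dec_mul {g h : Equiv.Perm (List Bool)} {r r' : Bool} {s s' : Bool → H}
    (hg : Dec g r s) (hh : Dec h r' s') :
    Dec (g * h) (xor r r') (fun b => s (xor b r') * s' b) := by
  refine ⟨?_, fun b v => ?_⟩
  · show g (h []) = []
    rw [hh.1, hg.1]
  · show g (h (b :: v)) = _
    rw [hh.2, hg.2]
    congr 1
    cases b <;> cases r <;> cases r' <;> rfl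

theorem Dec_inv {g : Equiv.Perm (List Bool)} {r : Bool} {s : Bool → H} (hg : Dec g r s) :
    Dec g⁻¹ r (fun b => (s (xor b r))⁻¹) := by
  refine ⟨?_, fun b v => ?_⟩
  · rw [Equiv.Perm.inv_eq_iff_eq, hg.1]
  · rw [Equiv.Perm.inv_eq_iff_eq, hg.2]
    congr 1
    · cases b <;> cases r <;> rfl
    · simp

theorem exists_Dec (g : H) : ∃ q : Bool × (Bool → H), Dec g.1 q.1 q.2 := by
  obtain ⟨g, hg⟩ := g
  show ∃ q : Bool × (Bool → H), Dec g q.1 q.2
  induction hg using Subgroup.closure_induction with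
  | mem x hx =>
    rcases hx with rfl | ⟨i, rfl⟩
    · exact ⟨(_, _), Dec_a⟩
    · exact ⟨(_, _), Dec_e i⟩
  | one => exact ⟨(_, _), Dec_one⟩
  | mul x y _ _ hx hy =>
    obtain ⟨q, hq⟩ := hx
    obtain ⟨q', hq'⟩ := hy
    exact ⟨(_, _), Dec_mul hq hq'⟩
  | inv x _ hx =>
    obtain ⟨q, hq⟩ := hx
    exact ⟨(q.1, fun b => (q.2 (xor b q.1))⁻¹), Dec_inv hq⟩

/-- the decomposition -/
noncomputable def dec (g : H) : Bool × (Bool → H) := (exists_Dec g).choose

theorem dec_spec (g : H) : Dec g.1 (dec g).1 (dec g).2 := (exists_Dec g).choose_spec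

theorem dec_eq {g : H} {r : Bool} {s : Bool → H} (h : Dec g.1 r s) :
    (dec g).1 = r ∧ (dec g).2 = s := (dec_spec g).uniq h

theorem gen_top : Subgroup.closure (insert (⟨aP, aP_mem⟩ : H)
    (Set.range fun i => (⟨eP i, eP_mem i⟩ : H))) = ⊤ := by
  have h := Subgroup.closure_closure_coe_preimage (k := gens)
  have h2 : ((↑) : Subgroup.closure gens → Equiv.Perm (List Bool)) ⁻¹' gens =
      insert (⟨aP, aP_mem⟩ : H) (Set.range fun i => (⟨eP i, eP_mem i⟩ : H)) := by
    ext x
    constructor
    · rintro (hx | ⟨i, hi⟩)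
      · exact Or.inl (Subtype.ext hx)
      · exact Or.inr ⟨i, Subtype.ext hi⟩
    · rintro (hx | ⟨i, hi⟩)
      · exact Or.inl (congrArg Subtype.val hx)
      · exact Or.inr ⟨i, congrArg Subtype.val hi⟩
  rw [h2] at h
  exact h

end GrpAux

open GrpAux in
theorem exists_SGp : ∃ (G : Type) (i : Group G), Nonempty (@SGp G i) := by
  refine ⟨H, inferInstance, ⟨{
    a := ⟨aP, aP_mem⟩
    e := fun i => ⟨eP i, eP_mem i⟩
    root := fun g => (dec g).1
    sec := fun b g => (dec g).2 b
    root_mul := ?_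
    sec_mul := ?_
    ext := ?_
    a_sq := ?_
    e_sq := ?_
    e_comm := ?_
    root_a := ?_
    sec_a := ?_
    root_e := ?_
    sec_e00 := ?_
    sec_e01 := ?_
    sec_f := ?_
    sec_t1 := ?_
    sec_t2 := ?_
    sec_t3 := ?_
    gen := gen_top }⟩⟩
  · intro g h
    exact (dec_eq (g := g * h) (Dec_mul (dec_spec g) (dec_spec h))).1
  · intro b g h
    exact congrFun (dec_eq (g := g * h) (Dec_mul (dec_spec g) (dec_spec h))).2 b
  · intro g h h1 h2
    apply Subtype.ext
    have h3 := dec_spec g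
    have h4 := dec_spec h
    rw [h1, funext h2] at h3
    exact h3.ext h4
  · exact Subtype.ext (Equiv.ext fun v => A_A v)
  · intro i
    exact Subtype.ext (Equiv.ext fun v => E_E i v)
  · intro i j
    exact Subtype.ext (Equiv.ext fun v => E_comm i j v)
  · exact (dec_eq (g := ⟨aP, aP_mem⟩) Dec_a).1
  · intro b
    exact congrFun (dec_eq (g := ⟨aP, aP_mem⟩) Dec_a).2 b
  · intro i
    exact (dec_eq (g := ⟨eP i, eP_mem i⟩) (Dec_e i)).1
  · exact congrFun (dec_eq (g := ⟨eP 0, eP_mem 0⟩) (Dec_e 0)).2 false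
  · exact congrFun (dec_eq (g := ⟨eP 0, eP_mem 0⟩) (Dec_e 0)).2 true
  · intro i hi
    have h := congrFun (dec_eq (g := ⟨eP i, eP_mem i⟩) (Dec_e i)).2 false
    simpa [hi] using h
  · exact congrFun (dec_eq (g := ⟨eP 1, eP_mem 1⟩) (Dec_e 1)).2 true
  · exact congrFun (dec_eq (g := ⟨eP 2, eP_mem 2⟩) (Dec_e 2)).2 true
  · exact congrFun (dec_eq (g := ⟨eP 3, eP_mem 3⟩) (Dec_e 3)).2 true

end Pool.Agent.PHF
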