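import Pool.Agent.PHF.Len
import Pool.Agent.PHF.Fnt

set_option autoImplicit false

open Pointwise

namespace Pool.Agent.PHF

/-! Module GROW: growth is not polynomial. -/

variable {G : Type} [Group G] (S : SGp G)

include S in
theorem G_infinite : Infinite G := by
  by_contra hinf
  rw [not_infinite_iff_finite] at hinf
  have hs : Function.Surjective
      (fun x : {g : G // S.root g = false} => S.sec false x.1) := by
    intro x
    obtain ⟨g, y, hg⟩ := pair_left S x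
    exact ⟨⟨g, hg.1⟩, hg.2.1⟩
  have h1 : Nat.card G ≤ Nat.card {g : G // S.root g = false} :=
    Nat.card_le_card_of_surjective _ hs
  have h2 : Nat.card {g : G // S.root g = false} < Nat.card G :=
    Finite.card_subtype_lt (x := S.a) (by rw [S.root_a]; simp)
  omega

theorem GRW_mem {n : ℕ} {x : G} : x ∈ S.T ^ n ↔ S.len x ≤ n :=
  ⟨fun h => len_le_of_mem S h, fun h => T_pow_mono S h (mem_T_pow_len S x)⟩

theorem GRW_finite (n : ℕ) : (S.T ^ n).Finite := by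
  induction n with
  | zero => rw [pow_zero]; exact Set.finite_one
  | succ n ih => rw [pow_succ]; exact ih.mul (T_finite S)

theorem GRW_len_false : ∃ c : ℕ, ∀ b ∈ S.BB, S.len (S.dl false b) ≤ 3 * S.len b + c := by
  classical
  obtain ⟨D, hD⟩ := lift_left S
  obtain ⟨c, hc⟩ := len_bound S (D.image fun y => (S.dl true y)⁻¹)
  refine ⟨c, fun b hb => ?_⟩
  obtain ⟨g, y, hg, hy, hl⟩ := hD b
  have hyB : y ∈ S.BB := by
    rw [BB_iff]
    have h1 := IsPair_mul (IsPair_inv (dl_false S hb)) hg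
    rw [inv_mul_cancel, inv_one, one_mul] at h1
    exact ⟨_, h1⟩
  have h1 := IsPair_mul hg (IsPair_inv (dl_true S hyB))
  rw [inv_one, mul_one, mul_inv_cancel] at h1
  have h2 : S.dl false b = g * (S.dl true y)⁻¹ := IsPair_unique (dl_false S hb) h1
  rw [h2]
  have h3 := len_mul_le S g (S.dl true y)⁻¹
  have h4 := hc _ (Finset.mem_image_of_mem (fun y => (S.dl true y)⁻¹) hy)
  omega

theorem GRW_len_true : ∃ c : ℕ, ∀ b ∈ S.BB, S.len (S.dl true b) ≤ 3 * S.len b + c := by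
  classical
  obtain ⟨D, hD⟩ := lift_right S
  obtain ⟨c, hc⟩ := len_bound S (D.image fun y => (S.dl false y)⁻¹)
  refine ⟨c, fun b hb => ?_⟩
  obtain ⟨g, y, hg, hy, hl⟩ := hD b
  have hyB : y ∈ S.BB := by
    have h1 := IsPair_mul (IsPair_inv (dl_true S hb)) hg
    rw [inv_mul_cancel, inv_one, one_mul] at h1
    exact ⟨_, h1⟩
  have h1 := IsPair_mul hg (IsPair_inv (dl_false S hyB))
  rw [inv_one, mul_one, mul_inv_cancel] at h1
  have h2 : S.dl true b = g * (S.dl false y)⁻¹ := IsPair_unique (dl_true S hb) h1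
  rw [h2]
  have h3 := len_mul_le S g (S.dl false y)⁻¹
  have h4 := hc _ (Finset.mem_image_of_mem (fun y => (S.dl false y)⁻¹) hy)
  omega

theorem GRW_one : ∃ c : ℕ, ∀ n : ℕ,
    (S.BB ∩ S.T ^ n).ncard ^ 2 ≤ (S.T ^ (6 * n + c)).ncard := by
  obtain ⟨c0, hc0⟩ := GRW_len_false S
  obtain ⟨c1, hc1⟩ := GRW_len_true S
  refine ⟨c0 + c1, fun n => ?_⟩
  set P := S.BB ∩ S.T ^ n with hP
  rw [pow_two, ← Set.ncard_prod]
  refine Set.ncard_le_ncard_of_injOn (fun p : G × G => S.dl false p.1 * S.dl true p.2) ?_ ?_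
    (GRW_finite S _)
  · rintro ⟨b, b'⟩ ⟨hb, hb'⟩
    have h1 : S.len b ≤ n := (GRW_mem S).mp hb.2
    have h2 : S.len b' ≤ n := (GRW_mem S).mp hb'.2
    have h3 := hc0 b hb.1
    have h4 := hc1 b' hb'.1
    have h5 := len_mul_le S (S.dl false b) (S.dl true b')
    show S.dl false b * S.dl true b' ∈ S.T ^ (6 * n + (c0 + c1))
    exact (GRW_mem S).mpr (by omega)
  · rintro ⟨b, b'⟩ ⟨hb, hb'⟩ ⟨d, d'⟩ ⟨hd, hd'⟩ h
    simp only at h
    have h1 := IsPair_mul (dl_false S hb.1) (dl_true S hb'.1)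
    have h2 := IsPair_mul (dl_false S hd.1) (dl_true S hd'.1)
    rw [mul_one, one_mul] at h1 h2
    rw [h] at h1
    have e1 : b = d := h1.2.1.symm.trans h2.2.1
    have e2 : b' = d' := h1.2.2.symm.trans h2.2.2
    rw [e1, e2]

theorem GRW_two : ∃ M c : ℕ, ∀ n : ℕ,
    (S.T ^ n).ncard ≤ M * (S.BB ∩ S.T ^ (n + c)).ncard := by
  classical
  obtain ⟨F, hF⟩ := BB_cover S
  obtain ⟨c, hc⟩ := len_bound S (F.image fun y => y⁻¹)
  refine ⟨F.card, c, fun n => ?_⟩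
  choose f hf1 hf2 using hF
  have h0 : F.card * (S.BB ∩ S.T ^ (n + c)).ncard =
      ((F : Set G) ×ˢ (S.BB ∩ S.T ^ (n + c))).ncard := by
    rw [Set.ncard_prod, Set.ncard_coe_finset]
  rw [h0]
  refine Set.ncard_le_ncard_of_injOn (fun x : G => (f x, (f x)⁻¹ * x)) ?_ ?_
    (F.finite_toSet.prod ((GRW_finite S _).inter_of_right _))
  · intro x hx
    refine ⟨hf1 x, hf2 x, ?_⟩
    have h1 : S.len x ≤ n := (GRW_mem S).mp hx
    have h2 := hc _ (Finset.mem_image_of_mem (fun y => y⁻¹) (hf1 x))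
    have h3 := len_mul_le S (f x)⁻¹ x
    show (f x)⁻¹ * x ∈ S.T ^ (n + c)
    exact (GRW_mem S).mpr (by omega)
  · intro x _ y _ h
    simp only [Prod.mk.injEq] at h
    obtain ⟨h1, h2⟩ := h
    rw [h1] at h2
    exact mul_left_cancel h2

theorem GRW_sq : ∃ M A : ℕ, 1 ≤ M ∧ 1 ≤ A ∧ ∀ n, 1 ≤ n →
    (S.T ^ n).ncard ^ 2 ≤ M * (S.T ^ (A * n)).ncard := by
  obtain ⟨c, hc⟩ := GRW_one S
  obtain ⟨M, c', hM⟩ := GRW_two S
  refine ⟨M ^ 2 + 1, 6 + 6 * c' + c, by omega, by omega, fun n hn => ?_⟩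
  have h1 := hM n
  have h2 := hc (n + c')
  have h3 : (S.T ^ n).ncard ^ 2 ≤ M ^ 2 * (S.BB ∩ S.T ^ (n + c')).ncard ^ 2 := by
    rw [← mul_pow]
    exact Nat.pow_le_pow_left h1 2
  have h4 : (S.T ^ (6 * (n + c') + c)).ncard ≤ (S.T ^ ((6 + 6 * c' + c) * n)).ncard := by
    refine Set.ncard_le_ncard (T_pow_mono S ?_) (GRW_finite S _)
    nlinarith [Nat.mul_le_mul_left (6 * c' + c) hn]
  calc (S.T ^ n).ncard ^ 2 ≤ M ^ 2 * (S.BB ∩ S.T ^ (n + c')).ncard ^ 2 := h3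
    _ ≤ M ^ 2 * (S.T ^ ((6 + 6 * c' + c) * n)).ncard := Nat.mul_le_mul_left _ (h2.trans h4)
    _ ≤ (M ^ 2 + 1) * (S.T ^ ((6 + 6 * c' + c) * n)).ncard :=
      Nat.mul_le_mul_right _ (Nat.le_succ _)

theorem GRW_unbounded (N : ℕ) : ∃ n, 1 ≤ n ∧ N ≤ (S.T ^ n).ncard := by
  have := G_infinite S
  obtain ⟨F, hF⟩ := Infinite.exists_subset_card_eq G N
  obtain ⟨n, hn⟩ := len_bound S F
  refine ⟨n + 1, by omega, ?_⟩
  rw [← hF, ← Set.ncard_coe_finset]
  refine Set.ncard_le_ncard ?_ (GRW_finite S _)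
  intro x hx
  have := hn x hx
  exact (GRW_mem S).mpr (by omega)

theorem GRW_sq_le_pow (j : ℕ) (hj : 4 ≤ j) : j ^ 2 ≤ 2 ^ j := by
  induction j, hj using Nat.le_induction with
  | base => norm_num
  | succ j hj ih =>
    rw [pow_succ 2 j]
    nlinarith

theorem grow : ¬ ∃ C k : ℝ, ∀ n : ℕ, 1 ≤ n → ((S.T ^ n).ncard : ℝ) ≤ C * (n : ℝ) ^ k := by
  rintro ⟨C, k, hCk⟩
  obtain ⟨M, A, hM, hA, hsq⟩ := GRW_sq S
  obtain ⟨n0, hn0, hbig⟩ := GRW_unbounded S (2 * M)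
  -- lower bound
  have hlow : ∀ j : ℕ, M * 2 ^ (2 ^ j) ≤ (S.T ^ (A ^ j * n0)).ncard := by
    intro j
    induction j with
    | zero => simpa [mul_comm] using hbig
    | succ j ih =>
      have h1 : 1 ≤ A ^ j * n0 := Nat.one_le_iff_ne_zero.mpr (by positivity)
      have h2 := hsq (A ^ j * n0) h1
      have h3 : A * (A ^ j * n0) = A ^ (j + 1) * n0 := by ring
      rw [h3] at h2
      have h4 : (M * 2 ^ (2 ^ j)) ^ 2 ≤ M * (S.T ^ (A ^ (j + 1) * n0)).ncard :=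
        (Nat.pow_le_pow_left ih 2).trans h2
      have h5 : (M * 2 ^ (2 ^ j)) ^ 2 = M * (M * 2 ^ (2 ^ (j + 1))) := by
        rw [mul_pow, ← pow_mul, ← pow_succ]
        ring
      rw [h5] at h4
      exact Nat.le_of_mul_le_mul_left h4 (by omega)
  -- natural exponent
  obtain ⟨K, hK⟩ := exists_nat_ge k
  have hup : ∀ n : ℕ, 1 ≤ n → ((S.T ^ n).ncard : ℝ) ≤ max C 0 * (n : ℝ) ^ K := by
    intro n hn
    have hn1 : (1 : ℝ) ≤ n := by exact_mod_cast hn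
    have h1 : (n : ℝ) ^ k ≤ (n : ℝ) ^ K := by
      rw [← Real.rpow_natCast]
      exact Real.rpow_le_rpow_of_exponent_le hn1 hK
    calc ((S.T ^ n).ncard : ℝ) ≤ C * (n : ℝ) ^ k := hCk n hn
      _ ≤ max C 0 * (n : ℝ) ^ k :=
        mul_le_mul_of_nonneg_right (le_max_left _ _) (Real.rpow_nonneg (by positivity) _)
      _ ≤ max C 0 * (n : ℝ) ^ K := mul_le_mul_of_nonneg_left h1 (le_max_right _ _)
  -- comparison
  obtain ⟨r0, hr0⟩ := exists_nat_ge (max C 0 * (n0 : ℝ) ^ K)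
  have hA2 : A ^ K ≤ 2 ^ (A ^ K) := (Nat.lt_two_pow_self).le
  have hr2 : r0 < 2 ^ r0 := Nat.lt_two_pow_self
  set s := A ^ K with hs
  have hall : ∀ j : ℕ, 2 ^ (2 ^ j) < 2 ^ (r0 + s * j) := by
    intro j
    have h1 : 1 ≤ A ^ j * n0 := Nat.one_le_iff_ne_zero.mpr (by positivity)
    have h2 := hup (A ^ j * n0) h1
    have h3 : ((2 ^ (2 ^ j) : ℕ) : ℝ) ≤ ((S.T ^ (A ^ j * n0)).ncard : ℝ) := by
      have h5 : 2 ^ (2 ^ j) ≤ (S.T ^ (A ^ j * n0)).ncard := by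
        refine le_trans ?_ (hlow j)
        nlinarith [Nat.one_le_two_pow (n := 2 ^ j)]
      exact_mod_cast h5
    have h4 : max C 0 * (((A ^ j * n0 : ℕ) : ℝ)) ^ K = (max C 0 * (n0 : ℝ) ^ K) * ((s ^ j : ℕ) : ℝ) := by
      rw [hs]
      push_cast
      ring
    rw [h4] at h2
    have h5 : ((2 ^ (2 ^ j) : ℕ) : ℝ) ≤ ((r0 * s ^ j : ℕ) : ℝ) := by
      refine h3.trans (h2.trans ?_)
      push_cast
      exact mul_le_mul_of_nonneg_right hr0 (by positivity)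
    have h6 : 2 ^ (2 ^ j) ≤ r0 * s ^ j := by exact_mod_cast h5
    refine lt_of_le_of_lt h6 ?_
    rw [pow_add, pow_mul]
    have h7 : s ^ j ≤ (2 ^ s) ^ j := Nat.pow_le_pow_left hA2 j
    have h8 : 0 < (2 ^ s) ^ j := by positivity
    exact lt_of_le_of_lt (Nat.mul_le_mul_left _ h7) (Nat.mul_lt_mul_of_pos_right hr2 h8)
  have h9 := hall (r0 + s + 4)
  have h10 : 2 ^ (r0 + s + 4) < r0 + s * (r0 + s + 4) :=
    (Nat.pow_lt_pow_iff_right (by norm_num)).mp h9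
  have h11 := GRW_sq_le_pow (r0 + s + 4) (by omega)
  nlinarith

end Pool.Agent.PHF
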