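import Pool.Agent.PHF.Bas

set_option autoImplicit false

namespace Pool.Agent.PHF

/-! Module HEL: squared Hellinger distance of finitely supported functions. -/

section general
variable {G : Type}

open Finset

theorem HEL_sum (p q : GA G) (s : Finset G)
    (h : ∀ z, p.coeff z ≠ 0 ∨ q.coeff z ≠ 0 → z ∈ s) :
    He p q = ∑ z ∈ s, (Real.sqrt (p.coeff z) - Real.sqrt (q.coeff z)) ^ 2 := by
  let _ := Classical.decEq G
  unfold He
  refine Finset.sum_subset ?_ ?_
  · intro z hz
    refine h z ?_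
    rcases Finset.mem_union.1 hz with h1 | h1
    · exact Or.inl (Finsupp.mem_support_iff.1 h1)
    · exact Or.inr (Finsupp.mem_support_iff.1 h1)
  · intro z _ hz
    have h1 : p.coeff z = 0 := by
      by_contra hc
      exact hz (Finset.mem_union.2 (Or.inl (Finsupp.mem_support_iff.2 hc)))
    have h2 : q.coeff z = 0 := by
      by_contra hc
      exact hz (Finset.mem_union.2 (Or.inr (Finsupp.mem_support_iff.2 hc)))
    rw [h1, h2]
    ring

theorem HEL_exists (p q r : GA G) : ∃ s : Finset G, ∀ z,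
    (p.coeff z ≠ 0 ∨ q.coeff z ≠ 0 ∨ r.coeff z ≠ 0) → z ∈ s := by
  classical
  refine ⟨p.coeff.support ∪ q.coeff.support ∪ r.coeff.support, fun z hz => ?_⟩
  simp only [Finset.mem_union, Finsupp.mem_support_iff]
  tauto

theorem HEL_ev (p : GA G) (f : G → ℝ) (s : Finset G) (h : ∀ z, p.coeff z ≠ 0 → z ∈ s) :
    ev p f = ∑ z ∈ s, p.coeff z * f z := by
  unfold ev
  refine Finset.sum_subset (fun z hz => h z (Finsupp.mem_support_iff.1 hz)) ?_
  intro z _ hz
  rw [Finsupp.notMem_support_iff] at hz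
  show p.coeff z * f z = 0
  rw [hz, zero_mul]

theorem He_nonneg (p q : GA G) : 0 ≤ He p q := by
  unfold He
  exact Finset.sum_nonneg fun z _ => sq_nonneg _

theorem He_comm (p q : GA G) : He p q = He q p := by
  obtain ⟨s, hs⟩ := HEL_exists p q q
  rw [HEL_sum p q s fun z hz => hs z (by tauto), HEL_sum q p s fun z hz => hs z (by tauto)]
  exact Finset.sum_congr rfl fun z _ => by ring

theorem He_self (p : GA G) : He p p = 0 := by
  unfold He
  exact Finset.sum_eq_zero fun z _ => by rw [sub_self]; ring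

theorem He_le_two {p q : GA G} (hp : IsLaw p) (hq : IsLaw q) : He p q ≤ 2 := by
  obtain ⟨s, hs⟩ := HEL_exists p q q
  have h1 := hp.mass
  have h2 := hq.mass
  rw [HEL_ev p _ s fun z hz => hs z (by tauto)] at h1
  rw [HEL_ev q _ s fun z hz => hs z (by tauto)] at h2
  rw [HEL_sum p q s fun z hz => hs z (by tauto)]
  calc ∑ z ∈ s, (Real.sqrt (p.coeff z) - Real.sqrt (q.coeff z)) ^ 2
      ≤ ∑ z ∈ s, (p.coeff z * 1 + q.coeff z * 1) := by
        refine Finset.sum_le_sum fun z _ => ?_
        have a1 := Real.sq_sqrt (hp.nn z)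
        have a2 := Real.sq_sqrt (hq.nn z)
        have a3 := mul_nonneg (Real.sqrt_nonneg (p.coeff z)) (Real.sqrt_nonneg (q.coeff z))
        nlinarith
    _ = 2 := by
        rw [Finset.sum_add_distrib, h1, h2]
        norm_num

/-- Triangle inequality for the square root of He (Minkowski in l2). -/
theorem He_tri (p q r : GA G) :
    Real.sqrt (He p r) ≤ Real.sqrt (He p q) + Real.sqrt (He q r) := by
  obtain ⟨s, hs⟩ := HEL_exists p q r
  rw [HEL_sum p r s fun z hz => hs z (by tauto), HEL_sum p q s fun z hz => hs z (by tauto),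
    HEL_sum q r s fun z hz => hs z (by tauto)]
  set a : G → ℝ := fun z => Real.sqrt (p.coeff z) - Real.sqrt (q.coeff z) with ha
  set b : G → ℝ := fun z => Real.sqrt (q.coeff z) - Real.sqrt (r.coeff z) with hb
  have hcs := Real.sum_mul_le_sqrt_mul_sqrt s a b
  have hA : 0 ≤ ∑ z ∈ s, a z ^ 2 := Finset.sum_nonneg fun z _ => sq_nonneg _
  have hB : 0 ≤ ∑ z ∈ s, b z ^ 2 := Finset.sum_nonneg fun z _ => sq_nonneg _
  have e1 : ∑ z ∈ s, (Real.sqrt (p.coeff z) - Real.sqrt (r.coeff z)) ^ 2 =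
      ∑ z ∈ s, a z ^ 2 + ∑ z ∈ s, b z ^ 2 + 2 * ∑ z ∈ s, a z * b z := by
    rw [Finset.mul_sum, ← Finset.sum_add_distrib, ← Finset.sum_add_distrib]
    refine Finset.sum_congr rfl fun z _ => ?_
    simp only [ha, hb]
    ring
  rw [e1]
  refine Real.sqrt_le_iff.2 ⟨by positivity, ?_⟩
  have s1 := Real.sq_sqrt hA
  have s2 := Real.sq_sqrt hB
  nlinarith

theorem HEL_ev_map {H : Type} (f : G → H) (p : GA G) (g : H → ℝ) :
    ev (MonoidAlgebra.mapDomain f p) g = ev p (fun z => g (f z)) := by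
  induction p using ga_induction with
  | h0 => rw [MonoidAlgebra.mapDomain_zero, ev_zero, ev_zero]
  | h1 x r q ih =>
    rw [MonoidAlgebra.mapDomain_add, ev_add, ev_add, ih, MonoidAlgebra.mapDomain_single,
      ev_single, ev_single]

/-- Invariance under maps which are injective on the supports. -/
theorem He_map {H : Type} (f : G → H) (p q : GA G)
    (hf : ∀ x y, (p.coeff x ≠ 0 ∨ q.coeff x ≠ 0) → (p.coeff y ≠ 0 ∨ q.coeff y ≠ 0) →
      f x = f y → x = y) :
    He (MonoidAlgebra.mapDomain f p) (MonoidAlgebra.mapDomain f q) = He p q := by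
  classical
  set s : Finset G := p.coeff.support ∪ q.coeff.support with hs
  have hsm : ∀ z, z ∈ s ↔ p.coeff z ≠ 0 ∨ q.coeff z ≠ 0 := by
    intro z
    simp [hs]
  have cz : ∀ u : GA G, (∀ z, u.coeff z ≠ 0 → z ∈ s) → ∀ y,
      (MonoidAlgebra.mapDomain f u).coeff y ≠ 0 → y ∈ s.image f := by
    intro u hu y hy
    by_contra hc
    apply hy
    rw [coeff_eq_ev, HEL_ev_map, ev_congr u _ (fun _ => 0), ev_fzero]
    intro z hz
    rw [if_neg]
    intro h1
    exact hc (Finset.mem_image.2 ⟨z, hu z hz, h1⟩)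
  have cx : ∀ u : GA G, (∀ z, u.coeff z ≠ 0 → z ∈ s) → ∀ x ∈ s,
      (MonoidAlgebra.mapDomain f u).coeff (f x) = u.coeff x := by
    intro u hu x hx
    rw [coeff_eq_ev, HEL_ev_map, coeff_eq_ev]
    refine ev_congr u _ _ fun z hz => ?_
    have h1 : f z = f x ↔ z = x :=
      ⟨fun h => hf z x ((hsm z).1 (hu z hz)) ((hsm x).1 hx) h, fun h => by rw [h]⟩
    simp only [h1]
  have hp : ∀ z, p.coeff z ≠ 0 → z ∈ s := fun z hz => (hsm z).2 (Or.inl hz)
  have hq : ∀ z, q.coeff z ≠ 0 → z ∈ s := fun z hz => (hsm z).2 (Or.inr hz)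
  rw [HEL_sum _ _ (s.image f) fun y hy => by
      rcases hy with h | h
      · exact cz p hp y h
      · exact cz q hq y h,
    HEL_sum p q s fun z hz => (hsm z).2 hz, Finset.sum_image]
  · refine Finset.sum_congr rfl fun x hx => ?_
    rw [cx p hp x hx, cx q hq x hx]
  · intro x hx y hy hxy
    exact hf x y ((hsm x).1 hx) ((hsm y).1 hy) hxy

theorem He_smul (r : ℝ) (hr : 0 ≤ r) (p q : GA G) : He (r • p) (r • q) = r * He p q := by
  obtain ⟨s, hs⟩ := HEL_exists p q q
  have h1 : ∀ z, (r • p).coeff z ≠ 0 ∨ (r • q).coeff z ≠ 0 → z ∈ s := by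
    intro z hz
    refine hs z ?_
    rw [MonoidAlgebra.coeff_smul_apply, MonoidAlgebra.coeff_smul_apply] at hz
    rcases hz with h | h
    · left
      intro hc
      rw [hc, smul_zero] at h
      exact h rfl
    · right; left
      intro hc
      rw [hc, smul_zero] at h
      exact h rfl
  rw [HEL_sum _ _ s h1, HEL_sum p q s fun z hz => hs z (by tauto), Finset.mul_sum]
  refine Finset.sum_congr rfl fun z _ => ?_
  rw [MonoidAlgebra.coeff_smul_apply, MonoidAlgebra.coeff_smul_apply, smul_eq_mul, smul_eq_mul,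
    Real.sqrt_mul hr, Real.sqrt_mul hr]
  have h2 := Real.sq_sqrt hr
  linear_combination (Real.sqrt (p.coeff z) - Real.sqrt (q.coeff z)) ^ 2 * h2

/-- Joint subadditivity. -/
theorem He_add_le {p p' q q' : GA G} (hp : NN p) (hp' : NN p') (hq : NN q) (hq' : NN q') :
    He (p + p') (q + q') ≤ He p q + He p' q' := by
  obtain ⟨s1, hs1⟩ := HEL_exists p q q
  obtain ⟨s2, hs2⟩ := HEL_exists p' q' q'
  classical
  set s := s1 ∪ s2 with hs
  have h0 : ∀ z, (p + p').coeff z ≠ 0 ∨ (q + q').coeff z ≠ 0 → z ∈ s := by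
    intro z hz
    rw [MonoidAlgebra.coeff_add, Finsupp.add_apply, MonoidAlgebra.coeff_add,
      Finsupp.add_apply] at hz
    rw [hs, Finset.mem_union]
    by_contra hc
    push Not at hc
    have a1 : p.coeff z = 0 := by
      by_contra h
      exact hc.1 (hs1 z (Or.inl h))
    have a2 : q.coeff z = 0 := by
      by_contra h
      exact hc.1 (hs1 z (Or.inr (Or.inl h)))
    have a3 : p'.coeff z = 0 := by
      by_contra h
      exact hc.2 (hs2 z (Or.inl h))
    have a4 : q'.coeff z = 0 := by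
      by_contra h
      exact hc.2 (hs2 z (Or.inr (Or.inl h)))
    rw [a1, a2, a3, a4] at hz
    simp at hz
  rw [HEL_sum _ _ s h0,
    HEL_sum p q s fun z hz => Finset.mem_union_left _ (hs1 z (by tauto)),
    HEL_sum p' q' s fun z hz => Finset.mem_union_right _ (hs2 z (by tauto)),
    ← Finset.sum_add_distrib]
  refine Finset.sum_le_sum fun z _ => ?_
  rw [MonoidAlgebra.coeff_add, Finsupp.add_apply, MonoidAlgebra.coeff_add, Finsupp.add_apply]
  set a := p.coeff z
  set b := p'.coeff z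
  set c := q.coeff z
  set d := q'.coeff z
  have ha : 0 ≤ a := hp z
  have hb : 0 ≤ b := hp' z
  have hc : 0 ≤ c := hq z
  have hd : 0 ≤ d := hq' z
  have k1 := Real.sq_sqrt ha
  have k2 := Real.sq_sqrt hb
  have k3 := Real.sq_sqrt hc
  have k4 := Real.sq_sqrt hd
  have k5 := Real.sq_sqrt (add_nonneg ha hb)
  have k6 := Real.sq_sqrt (add_nonneg hc hd)
  have key : Real.sqrt a * Real.sqrt c + Real.sqrt b * Real.sqrt d ≤
      Real.sqrt (a + b) * Real.sqrt (c + d) := by
    rw [← Real.sqrt_mul (add_nonneg ha hb)]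
    refine Real.le_sqrt_of_sq_le ?_
    have : (a + b) * (c + d) = (Real.sqrt a ^ 2 + Real.sqrt b ^ 2) *
        (Real.sqrt c ^ 2 + Real.sqrt d ^ 2) := by
      rw [k1, k2, k3, k4]
    rw [this]
    nlinarith [sq_nonneg (Real.sqrt a * Real.sqrt d - Real.sqrt b * Real.sqrt c)]
  nlinarith

theorem HEL_sum_le {ι : Type} (s : Finset ι) (c : ι → ℝ) (hc : ∀ i ∈ s, 0 ≤ c i)
    (p q : ι → GA G) (hp : ∀ i ∈ s, NN (p i)) (hq : ∀ i ∈ s, NN (q i)) :
    He (∑ i ∈ s, c i • p i) (∑ i ∈ s, c i • q i) ≤ ∑ i ∈ s, c i * He (p i) (q i) := by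
  classical
  induction s using Finset.induction_on with
  | empty =>
    simp only [Finset.sum_empty]
    rw [He_self]
  | insert a s ha ih =>
    rw [Finset.sum_insert ha, Finset.sum_insert ha, Finset.sum_insert ha]
    have m : ∀ i ∈ s, i ∈ insert a s := fun i hi => Finset.mem_insert_of_mem hi
    have m0 : a ∈ insert a s := Finset.mem_insert_self _ _
    refine (He_add_le ((hp a m0).smul (hc a m0))
      (NN.sum _ _ fun i hi => (hp i (m i hi)).smul (hc i (m i hi)))
      ((hq a m0).smul (hc a m0))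
      (NN.sum _ _ fun i hi => (hq i (m i hi)).smul (hc i (m i hi)))).trans ?_
    rw [He_smul _ (hc a m0)]
    exact add_le_add le_rfl (ih (fun i hi => hc i (m i hi)) (fun i hi => hp i (m i hi))
      (fun i hi => hq i (m i hi)))

theorem He_avg_le {ι : Type} [Fintype ι] (p q : ι → GA G) (hp : ∀ i, NN (p i))
    (hq : ∀ i, NN (q i)) : He (avg p) (avg q) ≤ avg fun i => He (p i) (q i) := by
  have h := HEL_sum_le Finset.univ (fun _ : ι => (Fintype.card ι : ℝ)⁻¹)
    (fun _ _ => by positivity) p q (fun i _ => hp i) (fun i _ => hq i)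
  unfold avg
  rw [Finset.smul_sum, Finset.smul_sum, smul_eq_mul, Finset.mul_sum]
  exact h

theorem He_Ex_le {α : Type} [Fintype α] (k : ℕ) (p q : List α → GA G) (hp : ∀ i, NN (p i))
    (hq : ∀ i, NN (q i)) : He (Ex k p) (Ex k q) ≤ Ex k fun l => He (p l) (q l) := by
  induction k generalizing p q with
  | zero => exact le_rfl
  | succ k ih =>
    rw [Ex_succ, Ex_succ, Ex_succ]
    refine (He_avg_le _ _ (fun x => NN.Ex k _ fun l => hp _) (fun x => NN.Ex k _ fun l => hq _)).trans ?_
    exact avg_mono _ _ fun x => ih _ _ (fun l => hp _) (fun l => hq _)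

/-- Comparison of expectations: the l1 distance is at most twice the root of He. -/
theorem ev_sub_le_He {p q : GA G} (hp : IsLaw p) (hq : IsLaw q) (f : G → ℝ) (D : ℝ)
    (hf : ∀ z, (p.coeff z ≠ 0 ∨ q.coeff z ≠ 0) → |f z| ≤ D) :
    |ev p f - ev q f| ≤ 2 * Real.sqrt (He p q) * D := by
  classical
  set s : Finset G := p.coeff.support ∪ q.coeff.support with hs
  have hsm : ∀ z, z ∈ s ↔ p.coeff z ≠ 0 ∨ q.coeff z ≠ 0 := by
    intro z
    simp [hs]
  have hp' : ∀ z, p.coeff z ≠ 0 → z ∈ s := fun z hz => (hsm z).2 (Or.inl hz)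
  have hq' : ∀ z, q.coeff z ≠ 0 → z ∈ s := fun z hz => (hsm z).2 (Or.inr hz)
  have hm1 := hp.mass
  have hm2 := hq.mass
  rw [HEL_ev p _ s hp'] at hm1
  rw [HEL_ev q _ s hq'] at hm2
  have hD : 0 ≤ D := by
    have : ∃ z, p.coeff z ≠ 0 := by
      by_contra hc
      push Not at hc
      rw [Finset.sum_eq_zero fun z _ => by rw [hc z, zero_mul]] at hm1
      exact zero_ne_one hm1
    obtain ⟨z, hz⟩ := this
    exact (abs_nonneg _).trans (hf z (Or.inl hz))
  rw [HEL_ev p f s hp', HEL_ev q f s hq', ← Finset.sum_sub_distrib,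
    HEL_sum p q s fun z hz => (hsm z).2 hz]
  set a : G → ℝ := fun z => Real.sqrt (p.coeff z) - Real.sqrt (q.coeff z) with ha
  set b : G → ℝ := fun z => Real.sqrt (p.coeff z) + Real.sqrt (q.coeff z) with hb
  have hab : ∀ z, p.coeff z - q.coeff z = a z * b z := by
    intro z
    have a1 := Real.sq_sqrt (hp.nn z)
    have a2 := Real.sq_sqrt (hq.nn z)
    simp only [ha, hb]
    linear_combination -a1 + a2
  have hb0 : ∀ z, 0 ≤ b z := fun z => add_nonneg (Real.sqrt_nonneg _) (Real.sqrt_nonneg _)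
  have step1 : |∑ z ∈ s, (p.coeff z * f z - q.coeff z * f z)| ≤
      (∑ z ∈ s, |a z| * b z) * D := by
    rw [Finset.sum_mul]
    refine (Finset.abs_sum_le_sum_abs _ _).trans (Finset.sum_le_sum fun z hz => ?_)
    rw [← sub_mul, hab, abs_mul, abs_mul, abs_of_nonneg (hb0 z)]
    exact mul_le_mul_of_nonneg_left (hf z ((hsm z).1 hz))
      (mul_nonneg (abs_nonneg _) (hb0 z))
  have step2 : ∑ z ∈ s, |a z| * b z ≤ Real.sqrt (∑ z ∈ s, a z ^ 2) * 2 := by
    have h1 := Real.sum_mul_le_sqrt_mul_sqrt s (fun z => |a z|) b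
    simp only [sq_abs] at h1
    refine h1.trans (mul_le_mul_of_nonneg_left ?_ (Real.sqrt_nonneg _))
    refine Real.sqrt_le_iff.2 ⟨by norm_num, ?_⟩
    calc ∑ z ∈ s, b z ^ 2 ≤ ∑ z ∈ s, 2 * (p.coeff z * 1 + q.coeff z * 1) := by
          refine Finset.sum_le_sum fun z _ => ?_
          have a1 := Real.sq_sqrt (hp.nn z)
          have a2 := Real.sq_sqrt (hq.nn z)
          simp only [hb]
          nlinarith [sq_nonneg (Real.sqrt (p.coeff z) - Real.sqrt (q.coeff z))]
      _ = 2 ^ 2 := by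
          rw [← Finset.mul_sum, Finset.sum_add_distrib, hm1, hm2]
          norm_num
  refine step1.trans ?_
  have := mul_le_mul_of_nonneg_right step2 hD
  linarith

end general

section group
variable {G : Type} [Group G]

theorem He_pt_mul (g : G) (p q : GA G) : He (pt g * p) (pt g * q) = He p q := by
  classical
  obtain ⟨s, hs⟩ := HEL_exists p q q
  rw [HEL_sum (pt g * p) (pt g * q) (s.image fun x => g * x) fun z hz => by
      rw [coeff_pt_mul, coeff_pt_mul] at hz
      exact Finset.mem_image.2 ⟨g⁻¹ * z, hs _ (by tauto), by group⟩,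
    HEL_sum p q s fun z hz => hs z (by tauto),
    Finset.sum_image fun x _ y _ hxy => mul_left_cancel hxy]
  refine Finset.sum_congr rfl fun x _ => ?_
  rw [coeff_pt_mul, coeff_pt_mul, inv_mul_cancel_left]

theorem He_mul_pt (g : G) (p q : GA G) : He (p * pt g) (q * pt g) = He p q := by
  classical
  obtain ⟨s, hs⟩ := HEL_exists p q q
  rw [HEL_sum (p * pt g) (q * pt g) (s.image fun x => x * g) fun z hz => by
      rw [coeff_mul_pt, coeff_mul_pt] at hz
      exact Finset.mem_image.2 ⟨z * g⁻¹, hs _ (by tauto), by group⟩,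
    HEL_sum p q s fun z hz => hs z (by tauto),
    Finset.sum_image fun x _ y _ hxy => mul_right_cancel hxy]
  refine Finset.sum_congr rfl fun x _ => ?_
  rw [coeff_mul_pt, coeff_mul_pt, mul_inv_cancel_right]

theorem HEL_decomp (r : GA G) : r = ∑ y ∈ r.coeff.support, r.coeff y • pt y := by
  apply ga_ext_ev
  intro f
  rw [ev_sum]
  unfold ev
  refine Finset.sum_congr rfl fun y _ => ?_
  have h := ev_smul (r.coeff y) (pt y) f
  rw [ev_pt] at h
  exact h.symm

/-- Data processing on the right. -/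
theorem He_mul_right_le {p q r : GA G} (hp : NN p) (hq : NN q) (hr : IsLaw r) :
    He (p * r) (q * r) ≤ He p q := by
  have e : ∀ u : GA G, u * r = ∑ y ∈ r.coeff.support, r.coeff y • (u * pt y) := by
    intro u
    conv_lhs => rw [HEL_decomp r, Finset.mul_sum]
    exact Finset.sum_congr rfl fun y _ => mul_smul_comm _ _ _
  rw [e p, e q]
  refine (HEL_sum_le _ _ (fun y _ => hr.nn y) _ _ (fun y _ => hp.mul (NN.pt y))
    (fun y _ => hq.mul (NN.pt y))).trans ?_
  simp only [He_mul_pt]
  rw [← Finset.sum_mul]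
  have h1 := hr.mass
  rw [HEL_ev r _ r.coeff.support fun z hz => Finsupp.mem_support_iff.2 hz] at h1
  simp only [mul_one] at h1
  rw [h1, one_mul]

/-- Data processing on the left. -/
theorem He_mul_left_le {p q r : GA G} (hp : NN p) (hq : NN q) (hr : IsLaw r) :
    He (r * p) (r * q) ≤ He p q := by
  have e : ∀ u : GA G, r * u = ∑ y ∈ r.coeff.support, r.coeff y • (pt y * u) := by
    intro u
    conv_lhs => rw [HEL_decomp r, Finset.sum_mul]
    exact Finset.sum_congr rfl fun y _ => smul_mul_assoc _ _ _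
  rw [e p, e q]
  refine (HEL_sum_le _ _ (fun y _ => hr.nn y) _ _ (fun y _ => (NN.pt y).mul hp)
    (fun y _ => (NN.pt y).mul hq)).trans ?_
  simp only [He_pt_mul]
  rw [← Finset.sum_mul]
  have h1 := hr.mass
  rw [HEL_ev r _ r.coeff.support fun z hz => Finsupp.mem_support_iff.2 hz] at h1
  simp only [mul_one] at h1
  rw [h1, one_mul]

/-- Left multiplication by the element only: moving the translation to the other argument. -/
theorem He_pt_inv (g : G) (p q : GA G) : He (pt g * p) q = He p (pt g⁻¹ * q) := by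
  rw [← He_pt_mul g⁻¹ (pt g * p) q, ← mul_assoc, pt_mul, inv_mul_cancel, pt_one, one_mul]

end group

end Pool.Agent.PHF
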