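import Pool.Agent.PHF.Bin

set_option autoImplicit false

namespace Pool.Agent.PHF

/-! Module HYP: the two-point inequality and Bonami. -/

/-- The two-point inequality. -/
theorem two_point (A B : ℝ) (hA : 0 ≤ A) (hB : 0 ≤ B) :
    ((A + B) / 2) ^ 2 + (1 / 2) * ((A - B) / 2) ^ 2 ≤
      ((A ^ (3 / 2 : ℝ) + B ^ (3 / 2 : ℝ)) / 2) ^ (4 / 3 : ℝ) := by
  obtain ⟨a, ha, rfl⟩ : ∃ a : ℝ, 0 ≤ a ∧ A = a ^ 2 :=
    ⟨Real.sqrt A, Real.sqrt_nonneg A, (Real.sq_sqrt hA).symm⟩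
  obtain ⟨b, hb, rfl⟩ : ∃ b : ℝ, 0 ≤ b ∧ B = b ^ 2 :=
    ⟨Real.sqrt B, Real.sqrt_nonneg B, (Real.sq_sqrt hB).symm⟩
  have e1 : ∀ x : ℝ, 0 ≤ x → (x ^ 2) ^ (3 / 2 : ℝ) = x ^ 3 := by
    intro x hx
    rw [← Real.rpow_natCast x 2, ← Real.rpow_mul hx, ← Real.rpow_natCast x 3]
    norm_num
  rw [e1 a ha, e1 b hb]
  have hL : ((a ^ 2 + b ^ 2) / 2) ^ 2 + (1 / 2) * ((a ^ 2 - b ^ 2) / 2) ^ 2 =
      (3 * a ^ 4 + 2 * a ^ 2 * b ^ 2 + 3 * b ^ 4) / 8 := by ring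
  rw [hL]
  have h0 : 0 ≤ (3 * a ^ 4 + 2 * a ^ 2 * b ^ 2 + 3 * b ^ 4) / 8 := by positivity
  have h1 : 0 ≤ (a ^ 3 + b ^ 3) / 2 := by positivity
  have hkey : ((3 * a ^ 4 + 2 * a ^ 2 * b ^ 2 + 3 * b ^ 4) / 8) ^ 3 ≤ ((a ^ 3 + b ^ 3) / 2) ^ 4 := by
    have hq : 0 ≤ (a - b) ^ 4 * (5 * a ^ 8 + 20 * a ^ 7 * b - 4 * a ^ 6 * b ^ 2 +
        12 * a ^ 5 * b ^ 3 + 30 * a ^ 4 * b ^ 4 + 12 * a ^ 3 * b ^ 5 - 4 * a ^ 2 * b ^ 6 +
        20 * a * b ^ 7 + 5 * b ^ 8) := by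
      apply mul_nonneg (by positivity)
      have p1 : 0 ≤ a ^ 7 * b := by positivity
      have p2 : 0 ≤ a ^ 5 * b ^ 3 := by positivity
      have p3 : 0 ≤ a ^ 3 * b ^ 5 := by positivity
      have p4 : 0 ≤ a * b ^ 7 := by positivity
      have q1 : 0 ≤ (a ^ 4 - 2 * a ^ 2 * b ^ 2) ^ 2 := sq_nonneg _
      have q2 : 0 ≤ (b ^ 4 - 2 * a ^ 2 * b ^ 2) ^ 2 := sq_nonneg _
      have q3 : 0 ≤ a ^ 8 := by positivity
      have q4 : 0 ≤ b ^ 8 := by positivity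
      have q5 : 0 ≤ a ^ 4 * b ^ 4 := by positivity
      nlinarith
    have he : ((a ^ 3 + b ^ 3) / 2) ^ 4 - ((3 * a ^ 4 + 2 * a ^ 2 * b ^ 2 + 3 * b ^ 4) / 8) ^ 3 =
        (a - b) ^ 4 * (5 * a ^ 8 + 20 * a ^ 7 * b - 4 * a ^ 6 * b ^ 2 +
        12 * a ^ 5 * b ^ 3 + 30 * a ^ 4 * b ^ 4 + 12 * a ^ 3 * b ^ 5 - 4 * a ^ 2 * b ^ 6 +
        20 * a * b ^ 7 + 5 * b ^ 8) / 512 := by ring
    have := div_nonneg hq (by norm_num : (0 : ℝ) ≤ 512)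
    linarith
  generalize (3 * a ^ 4 + 2 * a ^ 2 * b ^ 2 + 3 * b ^ 4) / 8 = u at *
  generalize (a ^ 3 + b ^ 3) / 2 = v at *
  have h2 : (u ^ 3) ^ (1 / 3 : ℝ) ≤ (v ^ 4) ^ (1 / 3 : ℝ) :=
    Real.rpow_le_rpow (by positivity) hkey (by norm_num)
  rw [← Real.rpow_natCast _ 3, ← Real.rpow_mul h0, ← Real.rpow_natCast _ 4,
    ← Real.rpow_mul h1] at h2
  have e3 : ((3 : ℕ) : ℝ) * (1 / 3 : ℝ) = 1 := by norm_num
  have e4 : ((4 : ℕ) : ℝ) * (1 / 3 : ℝ) = 4 / 3 := by norm_num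
  rw [e3, e4, Real.rpow_one] at h2
  exact h2

/-- The quadratic form is a sum of squares of linear forms. -/
theorem Hyp_repr (k : ℕ) : ∃ (n : ℕ) (L : Fin n → (List (ZMod 2) → ℝ) →ₗ[ℝ] ℝ),
    ∀ Φ, Qn k Φ = ∑ i, (L i Φ) ^ 2 := by
  induction k with
  | zero =>
    refine ⟨1, fun _ => LinearMap.proj [], fun Φ => ?_⟩
    simp [Qn]
  | succ k ih =>
    obtain ⟨n, L, hL⟩ := ih
    let c0 : (List (ZMod 2) → ℝ) →ₗ[ℝ] (List (ZMod 2) → ℝ) :=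
      { toFun := fun Φ l => (1 / 2 : ℝ) * (Φ (0 :: l) + Φ (1 :: l))
        map_add' := fun x y => by funext l; simp only [Pi.add_apply]; ring
        map_smul' := fun r x => by
          funext l; simp only [Pi.smul_apply, smul_eq_mul, RingHom.id_apply]; ring }
    let c1 : (List (ZMod 2) → ℝ) →ₗ[ℝ] (List (ZMod 2) → ℝ) :=
      { toFun := fun Φ l => (1 / 2 : ℝ) * (Φ (0 :: l) - Φ (1 :: l))
        map_add' := fun x y => by funext l; simp only [Pi.add_apply]; ring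
        map_smul' := fun r x => by
          funext l; simp only [Pi.smul_apply, smul_eq_mul, RingHom.id_apply]; ring }
    refine ⟨n + n, Fin.append (fun i => (L i).comp c0)
      (fun i => (Real.sqrt (1 / 2)) • (L i).comp c1), fun Φ => ?_⟩
    rw [Fin.sum_univ_add]
    simp only [Fin.append_left, Fin.append_right, LinearMap.smul_apply, LinearMap.comp_apply,
      smul_eq_mul, mul_pow]
    rw [Real.sq_sqrt (by norm_num), ← Finset.mul_sum, ← hL, ← hL]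
    have g0 : c0 Φ = fun l => (Φ (0 :: l) + Φ (1 :: l)) / 2 := by
      funext l
      show (1 / 2 : ℝ) * (Φ (0 :: l) + Φ (1 :: l)) = _
      ring
    have g1 : c1 Φ = fun l => (Φ (0 :: l) - Φ (1 :: l)) / 2 := by
      funext l
      show (1 / 2 : ℝ) * (Φ (0 :: l) - Φ (1 :: l)) = _
      ring
    rw [g0, g1]
    rfl

theorem Hyp_nonneg (k : ℕ) (Φ : List (ZMod 2) → ℝ) : 0 ≤ Qn k Φ := by
  obtain ⟨n, L, hL⟩ := Hyp_repr k
  rw [hL]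
  exact Finset.sum_nonneg fun i _ => sq_nonneg _

theorem Hyp_step (k : ℕ) (f g : List (ZMod 2) → ℝ) :
    Qn k (fun l => (f l + g l) / 2) + (1 / 2) * Qn k (fun l => (f l - g l) / 2) ≤
      (3 / 8) * (Qn k f + Qn k g) + (1 / 4) * (Real.sqrt (Qn k f) * Real.sqrt (Qn k g)) := by
  obtain ⟨n, L, hL⟩ := Hyp_repr k
  have ep : (fun l => (f l + g l) / 2) = (1 / 2 : ℝ) • (f + g) := by
    funext l
    show _ = (1 / 2 : ℝ) * (f l + g l)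
    ring
  have em : (fun l => (f l - g l) / 2) = (1 / 2 : ℝ) • (f - g) := by
    funext l
    show _ = (1 / 2 : ℝ) * (f l - g l)
    ring
  rw [ep, em, hL, hL, hL f, hL g]
  have hcs := Real.sum_mul_le_sqrt_mul_sqrt Finset.univ (fun i => L i f) (fun i => L i g)
  have e1 : ∑ i, (L i ((1 / 2 : ℝ) • (f + g))) ^ 2 +
      (1 / 2) * ∑ i, (L i ((1 / 2 : ℝ) • (f - g))) ^ 2 =
      (3 / 8) * (∑ i, (L i f) ^ 2 + ∑ i, (L i g) ^ 2) + (1 / 4) * ∑ i, L i f * L i g := by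
    rw [Finset.mul_sum, Finset.mul_sum, ← Finset.sum_add_distrib, ← Finset.sum_add_distrib,
      Finset.mul_sum, ← Finset.sum_add_distrib]
    refine Finset.sum_congr rfl fun i _ => ?_
    rw [map_smul, map_smul, map_add, map_sub]
    simp only [smul_eq_mul]
    ring
  rw [e1]
  linarith

theorem bonami (k : ℕ) (Φ : List (ZMod 2) → ℝ) (h : ∀ l, 0 ≤ Φ l) :
    Qn k Φ ≤ (Ex k (fun l => Φ l ^ (3 / 2 : ℝ))) ^ (4 / 3 : ℝ) := by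
  induction k generalizing Φ with
  | zero =>
    show (Φ []) ^ 2 ≤ (Φ [] ^ (3 / 2 : ℝ)) ^ (4 / 3 : ℝ)
    rw [← Real.rpow_mul (h []), ← Real.rpow_natCast]
    norm_num
  | succ k ih =>
    have hnn : ∀ (j : ℕ) (Ψ : List (ZMod 2) → ℝ), (∀ l, 0 ≤ Ψ l) → 0 ≤ Ex j Ψ := by
      intro j
      induction j with
      | zero => intro Ψ hΨ; exact hΨ []
      | succ j ihj =>
        intro Ψ hΨ
        show 0 ≤ avg fun x => Ex j fun l => Ψ (x :: l)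
        unfold avg
        have : 0 ≤ ∑ x : ZMod 2, Ex j fun l => Ψ (x :: l) :=
          Finset.sum_nonneg fun x _ => ihj _ fun l => hΨ _
        rw [smul_eq_mul]
        positivity
    have hex : Ex (k + 1) (fun l => Φ l ^ (3 / 2 : ℝ)) =
        (Ex k (fun l => Φ (0 :: l) ^ (3 / 2 : ℝ)) + Ex k (fun l => Φ (1 :: l) ^ (3 / 2 : ℝ))) / 2 := by
      show avg (fun x => Ex k fun l => Φ (x :: l) ^ (3 / 2 : ℝ)) = _
      unfold avg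
      rw [ZMod.card, smul_eq_mul]
      have : (∑ x : ZMod 2, Ex k fun l => Φ (x :: l) ^ (3 / 2 : ℝ)) =
          Ex k (fun l => Φ (0 :: l) ^ (3 / 2 : ℝ)) + Ex k (fun l => Φ (1 :: l) ^ (3 / 2 : ℝ)) :=
        Fin.sum_univ_two _
      rw [this]
      push_cast
      ring
    rw [hex]
    have i0 := ih (fun l => Φ (0 :: l)) fun l => h _
    have i1 := ih (fun l => Φ (1 :: l)) fun l => h _
    have s0 := Hyp_step k (fun l => Φ (0 :: l)) (fun l => Φ (1 :: l))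
    have n0 := Hyp_nonneg k (fun l => Φ (0 :: l))
    have n1 := Hyp_nonneg k (fun l => Φ (1 :: l))
    have m0 := hnn k (fun l => Φ (0 :: l) ^ (3 / 2 : ℝ)) fun l => Real.rpow_nonneg (h _) _
    have m1 := hnn k (fun l => Φ (1 :: l) ^ (3 / 2 : ℝ)) fun l => Real.rpow_nonneg (h _) _
    generalize Ex k (fun l => Φ (0 :: l) ^ (3 / 2 : ℝ)) = E0 at *
    generalize Ex k (fun l => Φ (1 :: l) ^ (3 / 2 : ℝ)) = E1 at *
    have hQ : Qn (k + 1) Φ = Qn k (fun l => (Φ (0 :: l) + Φ (1 :: l)) / 2) +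
      (1 / 2) * Qn k (fun l => (Φ (0 :: l) - Φ (1 :: l)) / 2) := rfl
    rw [hQ]
    refine s0.trans ?_
    generalize Qn k (fun l => Φ (0 :: l)) = q0 at *
    generalize Qn k (fun l => Φ (1 :: l)) = q1 at *
    have t := two_point (E0 ^ (2 / 3 : ℝ)) (E1 ^ (2 / 3 : ℝ)) (Real.rpow_nonneg m0 _)
      (Real.rpow_nonneg m1 _)
    rw [← Real.rpow_mul m0, ← Real.rpow_mul m1] at t
    have e23 : (2 / 3 : ℝ) * (3 / 2) = 1 := by norm_num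
    rw [e23, Real.rpow_one, Real.rpow_one] at t
    refine le_trans ?_ t
    have sq0 : (E0 ^ (2 / 3 : ℝ)) ^ 2 = E0 ^ (4 / 3 : ℝ) := by
      rw [← Real.rpow_natCast, ← Real.rpow_mul m0]; norm_num
    have sq1 : (E1 ^ (2 / 3 : ℝ)) ^ 2 = E1 ^ (4 / 3 : ℝ) := by
      rw [← Real.rpow_natCast, ← Real.rpow_mul m1]; norm_num
    have r0 : Real.sqrt q0 ≤ E0 ^ (2 / 3 : ℝ) :=
      Real.sqrt_le_iff.mpr ⟨Real.rpow_nonneg m0 _, by rw [sq0]; exact i0⟩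
    have r1 : Real.sqrt q1 ≤ E1 ^ (2 / 3 : ℝ) :=
      Real.sqrt_le_iff.mpr ⟨Real.rpow_nonneg m1 _, by rw [sq1]; exact i1⟩
    have r01 : Real.sqrt q0 * Real.sqrt q1 ≤ E0 ^ (2 / 3 : ℝ) * E1 ^ (2 / 3 : ℝ) :=
      mul_le_mul r0 r1 (Real.sqrt_nonneg _) (Real.rpow_nonneg m0 _)
    have : ((E0 ^ (2 / 3 : ℝ) + E1 ^ (2 / 3 : ℝ)) / 2) ^ 2 +
        1 / 2 * ((E0 ^ (2 / 3 : ℝ) - E1 ^ (2 / 3 : ℝ)) / 2) ^ 2 =
        (3 / 8) * ((E0 ^ (2 / 3 : ℝ)) ^ 2 + (E1 ^ (2 / 3 : ℝ)) ^ 2) +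
        (1 / 4) * (E0 ^ (2 / 3 : ℝ) * E1 ^ (2 / 3 : ℝ)) := by ring
    rw [this, sq0, sq1]
    linarith

end Pool.Agent.PHF
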