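import Pool.Agent.PHF.Inf

set_option autoImplicit false

namespace Pool.Agent.PHF

/-! Module ING: the noise in front of the product is nearly invisible. -/

variable {G : Type} [Group G] {S : SGp G} {R : Type} [AddCommGroup R] [Fintype R]

namespace IngAux

theorem law_prod (ns : List G) : IsLaw ((ns.map hh).prod : GA G) := by
  apply IsLaw.list_prod
  intro p hp
  rw [List.mem_map] at hp
  obtain ⟨n, _, rfl⟩ := hp
  exact IsLaw.hh n

theorem real_step (t : ℝ) (ht : 0 ≤ t) (A B α β X : ℝ) (hA : 0 ≤ A) (hB : 0 ≤ B) (hX : 0 ≤ X)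
    (hAα : A ≤ 2 * t * α) (hBβ : B ≤ 2 * β) (hα : 0 ≤ α)
    (h : Real.sqrt X ≤ Real.sqrt A + Real.sqrt B) : X ≤ 2 * (t + 1) * (α + β) := by
  have hβ : 0 ≤ β := by linarith
  have h1 : X ≤ (Real.sqrt A + Real.sqrt B) ^ 2 := by
    have := pow_le_pow_left₀ (Real.sqrt_nonneg X) h 2
    rwa [Real.sq_sqrt hX] at this
  have h2 : (Real.sqrt A + Real.sqrt B) ^ 2 = A + 2 * (Real.sqrt A * Real.sqrt B) + B := by
    rw [add_sq, Real.sq_sqrt hA, Real.sq_sqrt hB]; ring
  have h3 : 2 * (Real.sqrt A * Real.sqrt B) ≤ 2 * (α + t * β) := by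
    have e1 : Real.sqrt A * Real.sqrt B = Real.sqrt (A * B) := (Real.sqrt_mul hA B).symm
    have e2 : A * B ≤ (α + t * β) ^ 2 := by
      have : A * B ≤ 2 * t * α * (2 * β) :=
        mul_le_mul hAα hBβ hB (by positivity)
      nlinarith [sq_nonneg (α - t * β)]
    rw [e1]
    have e3 : Real.sqrt (A * B) ≤ α + t * β := by
      rw [← Real.sqrt_sq (by positivity : 0 ≤ α + t * β)]
      exact Real.sqrt_le_sqrt e2
    linarith
  nlinarith

/-- The distance between a law and its noisy version is controlled by the gain of entropy. -/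
theorem He_prod_le (ns : List G) {x : GA G} (hx : IsLaw x) :
    Ent x ≤ Ent ((ns.map hh).prod * x) ∧
    He x ((ns.map hh).prod * x) ≤
      2 * ns.length * (Ent ((ns.map hh).prod * x) - Ent x) := by
  induction ns with
  | nil => simp [He_self]
  | cons n t ih =>
    obtain ⟨ih1, ih2⟩ := ih
    set y := (t.map hh).prod * x with hy
    have hyl : IsLaw y := (law_prod t).mul hx
    have hg := Ent_gain hyl n
    have e : ((n :: t).map hh).prod * x = hh n * y := by
      rw [List.map_cons, List.prod_cons, mul_assoc]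
    rw [e]
    have hn := He_nonneg y (hh n * y)
    refine ⟨by linarith, ?_⟩
    have htri := He_tri x y (hh n * y)
    have := real_step (t.length : ℝ) (by positivity) (He x y) (He y (hh n * y))
      (Ent y - Ent x) (Ent (hh n * y) - Ent y) (He x (hh n * y)) (He_nonneg _ _) hn
      (He_nonneg _ _) ih2 (by linarith) (by linarith) htri
    rw [List.length_cons, Nat.cast_add, Nat.cast_one]
    calc He x (hh n * y) ≤ 2 * (t.length + 1) * (Ent y - Ent x + (Ent (hh n * y) - Ent y)) := this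
      _ = 2 * (t.length + 1) * (Ent (hh n * y) - Ent x) := by ring

/-- Average of the entropy. -/
noncomputable def A (L : Lev S R) (k : ℕ) : ℝ := Ex k (fun l => Ent (L.q l))

/-- The noise in front, averaged. -/
noncomputable def J (L : Lev S R) (k : ℕ) : ℝ :=
  avg (fun c => Ex k fun l => He (pt (L.κ c) * pt S.a * pt (L.κ c) * L.q l) (L.q (c :: l)))

theorem q_cons (L : Lev S R) (c : ZMod 2 × R) (l : List (ZMod 2 × R)) :
    L.q (c :: l) = L.m * (pt (L.κ c) * pt S.a * pt (L.κ c) * L.q l) := by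
  show L.m * pt (L.κ c) * pt S.a * pt (L.κ c) * L.q l = _
  simp only [mul_assoc]

theorem law_x (L : Lev S R) (c : ZMod 2 × R) (l : List (ZMod 2 × R)) :
    IsLaw (pt (L.κ c) * pt S.a * pt (L.κ c) * L.q l) :=
  (((IsLaw.pt _).mul (IsLaw.pt _)).mul (IsLaw.pt _)).mul (law_q L l)

theorem Ent_x (L : Lev S R) (c : ZMod 2 × R) (l : List (ZMod 2 × R)) :
    Ent (pt (L.κ c) * pt S.a * pt (L.κ c) * L.q l) = Ent (L.q l) := by
  rw [pt_mul, pt_mul, Ent_pt_mul]

theorem J_le (L : Lev S R) (k : ℕ) : J L k ≤ 2 * L.ns.length * (A L (k + 1) - A L k) := by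
  have h1 : J L k ≤ avg (fun c : ZMod 2 × R => Ex k fun l =>
      2 * L.ns.length * (Ent (L.q (c :: l)) + (-1) * Ent (L.q l))) := by
    refine avg_mono _ _ fun c => Ex_mono k _ _ fun l _ => ?_
    have := (He_prod_le L.ns (law_x L c l)).2
    have e : (L.ns.map hh).prod * (pt (L.κ c) * pt S.a * pt (L.κ c) * L.q l) = L.q (c :: l) :=
      (q_cons L c l).symm
    rw [e, Ent_x] at this
    linarith
  have h2 : avg (fun c : ZMod 2 × R => Ex k fun l =>
      2 * L.ns.length * (Ent (L.q (c :: l)) + (-1) * Ent (L.q l))) =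
      2 * L.ns.length * (A L (k + 1) - A L k) := by
    have h3 : (fun c : ZMod 2 × R => Ex k fun l =>
        2 * L.ns.length * (Ent (L.q (c :: l)) + (-1) * Ent (L.q l))) =
        fun c : ZMod 2 × R => 2 * L.ns.length *
          (Ex k (fun l => Ent (L.q (c :: l))) + (-1) * A L k) := by
      funext c
      rw [Ex_smul, Ex_add, Ex_smul]
      rfl
    rw [h3, avg_smul, avg_add, avg_const]
    have h4 : A L (k + 1) = avg (fun c : ZMod 2 × R => Ex k (fun l => Ent (L.q (c :: l)))) := rfl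
    rw [h4]
    ring
  exact h1.trans (le_of_eq h2)

/-- Lists can be extended at the right end. -/
theorem Ex_succ_right {α : Type} [Fintype α] (k : ℕ) (Φ : List α → ℝ) :
    Ex (k + 1) Φ = Ex k fun l => avg fun x => Φ (l ++ [x]) := by
  induction k generalizing Φ with
  | zero => rfl
  | succ k ih =>
    rw [Ex_succ]
    have : (fun x => Ex (k + 1) fun l => Φ (x :: l)) =
        fun x => Ex k fun l => avg fun y => Φ (x :: (l ++ [y])) := by
      funext x
      rw [ih]
    rw [this]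
    rfl

theorem q_append (L : Lev S R) (l : List (ZMod 2 × R)) (x : ZMod 2 × R) :
    L.q (l ++ [x]) = L.q l * (pt (L.κ x) * pt S.a * pt (L.κ x) * L.m) := by
  induction l with
  | nil =>
    show L.m * pt (L.κ x) * pt S.a * pt (L.κ x) * L.m = _
    simp only [mul_assoc]
    rfl
  | cons c l ih =>
    rw [List.cons_append, q_cons, ih, q_cons]
    simp only [mul_assoc]

theorem J_succ_le (L : Lev S R) (k : ℕ) : J L (k + 1) ≤ J L k := by
  refine avg_mono _ _ fun c => ?_
  rw [Ex_succ_right]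
  refine Ex_mono k _ _ fun l _ => ?_
  rw [← avg_const (ι := ZMod 2 × R) (He (pt (L.κ c) * pt S.a * pt (L.κ c) * L.q l) (L.q (c :: l)))]
  refine avg_mono _ _ fun x => ?_
  rw [← List.cons_append, q_append, q_append, ← mul_assoc]
  exact He_mul_right_le (law_x L c l).nn (law_q L _).nn
    ((((IsLaw.pt _).mul (IsLaw.pt _)).mul (IsLaw.pt _)).mul (law_m L))

theorem J_antitone (L : Lev S R) : Antitone (J L) := antitone_nat_of_succ_le (J_succ_le L)

theorem J_sum (L : Lev S R) (k : ℕ) : (k : ℝ) * J L (k - 1) ≤ 2 * L.ns.length * (A L k - A L 0) := by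
  induction k with
  | zero => simp
  | succ k ih =>
    have h1 := J_le L k
    have h2 : J L k ≤ J L (k - 1) := J_antitone L (Nat.sub_le k 1)
    have h3 : (k : ℝ) * J L k ≤ k * J L (k - 1) := mul_le_mul_of_nonneg_left h2 (by positivity)
    rw [Nat.add_sub_cancel, Nat.cast_add, Nat.cast_one]
    nlinarith

end IngAux

open IngAux

theorem info (L : Lev S R) : ∃ C : ℝ, 0 ≤ C ∧ ∀ k : ℕ,
    avg (fun c => Ex k fun l => He (pt (L.κ c) * pt S.a * pt (L.κ c) * L.q l) (L.q (c :: l))) ≤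
      C / Real.sqrt (k + 1) := by
  obtain ⟨C, hC, h⟩ := Ent_q L
  refine ⟨2 * L.ns.length * (C * 2), by positivity, fun k => ?_⟩
  show J L k ≤ _
  have hs : 0 < Real.sqrt ((k : ℝ) + 1) := Real.sqrt_pos.mpr (by positivity)
  rw [le_div_iff₀ hs]
  have h1 := J_sum L (k + 1)
  rw [Nat.add_sub_cancel, Nat.cast_add, Nat.cast_one] at h1
  have h2 : 0 ≤ A L 0 := by
    show 0 ≤ Ent (L.q [])
    exact Ent_nonneg (law_q L [])
  have h3 : A L (k + 1) ≤ C * Real.sqrt (((k + 1 : ℕ) : ℝ) + 1) := h (k + 1)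
  have h4 : Real.sqrt (((k + 1 : ℕ) : ℝ) + 1) ≤ 2 * Real.sqrt ((k : ℝ) + 1) := by
    rw [Real.sqrt_le_left (by positivity), mul_pow, Real.sq_sqrt (by positivity)]
    push_cast
    nlinarith [(Nat.cast_nonneg k : (0 : ℝ) ≤ k)]
  have h5 : A L (k + 1) - A L 0 ≤ C * (2 * Real.sqrt ((k : ℝ) + 1)) := by
    have := mul_le_mul_of_nonneg_left h4 hC
    linarith
  have h6 : ((k : ℝ) + 1) * J L k ≤ 2 * L.ns.length * (C * (2 * Real.sqrt ((k : ℝ) + 1))) :=
    h1.trans (mul_le_mul_of_nonneg_left h5 (by positivity))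
  have h7 : Real.sqrt ((k : ℝ) + 1) * Real.sqrt ((k : ℝ) + 1) = (k : ℝ) + 1 :=
    Real.mul_self_sqrt (by positivity)
  have h8 : Real.sqrt ((k : ℝ) + 1) * (J L k * Real.sqrt ((k : ℝ) + 1)) ≤
      Real.sqrt ((k : ℝ) + 1) * (2 * L.ns.length * (C * 2)) := by
    calc Real.sqrt ((k : ℝ) + 1) * (J L k * Real.sqrt ((k : ℝ) + 1))
        = (Real.sqrt ((k : ℝ) + 1) * Real.sqrt ((k : ℝ) + 1)) * J L k := by ring
      _ = ((k : ℝ) + 1) * J L k := by rw [h7]
      _ ≤ _ := h6
      _ = _ := by ring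
  exact le_of_mul_le_mul_left h8 hs

end Pool.Agent.PHF
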