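import Pool.Agent.PHF.Cod
import Pool.Agent.PHF.Alg
import Pool.Agent.PHF.Bin
import Pool.Agent.PHF.Cor

set_option autoImplicit false

namespace Pool.Agent.PHF

/-! Module LAM: exponential moment of the lengths of the sections of the alternating product. -/

variable {G : Type} [Group G] (S : SGp G)

namespace LamAux

/-- The section at the vertex which is mapped to `b`. -/
def co (b : Bool) (z : G) : G := S.sec (xor b (S.root z)) z

theorem co_mul (b : Bool) (g h : G) (hg : S.root g = false) :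
    co S b (g * h) = S.sec b g * co S b h := by
  unfold co
  rw [S.root_mul, hg, S.sec_mul]
  cases b <;> cases S.root h <;> rfl

theorem co_a_mul (b : Bool) (h : G) : co S b (S.a * h) = co S (!b) h := by
  unfold co
  rw [S.root_mul, S.root_a, S.sec_mul, S.sec_a, one_mul]
  cases b <;> cases S.root h <;> rfl

theorem ev_mV (F : G → ℝ) : ev S.mV F = avg fun x : Fin 4 → ZMod 2 => F (S.vv x) := by
  rw [mV_eq_avg, ev_avg]
  simp only [ev_pt]

theorem ev_mA (F : G → ℝ) : ev S.mA F = (F 1 + F S.a) / 2 := by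
  unfold SGp.mA hh
  rw [ev_smul, ev_add, ev_one, ev_pt]; ring

/-- The cyclic shift of the bits. -/
def shE : (Fin 4 → ZMod 2) ≃ (Fin 4 → ZMod 2) where
  toFun x := ![x 1, x 2, x 3, x 0]
  invFun x := ![x 3, x 0, x 1, x 2]
  left_inv x := by funext i; fin_cases i <;> rfl
  right_inv x := by funext i; fin_cases i <;> rfl

theorem avg_shift (H : G → ℝ) :
    (avg fun x : Fin 4 → ZMod 2 => H (S.sec true (S.vv x))) =
      avg fun x : Fin 4 → ZMod 2 => H (S.vv x) := by
  rw [← avg_equiv shE (fun x => H (S.vv x))]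
  congr 1
  funext x
  rw [(IsPair_vv S x).2.2]
  rfl

theorem avg_first (H : G → ℝ) :
    (avg fun x : Fin 4 → ZMod 2 => H (S.sec false (S.vv x))) = (H 1 + H S.a) / 2 := by
  have h1 : (fun x : Fin 4 → ZMod 2 => H (S.sec false (S.vv x))) =
      fun x : Fin 4 → ZMod 2 => H (pw S.a (x 0)) := by
    funext x
    rw [(IsPair_vv S x).2.1]
  rw [h1, ← avg_equiv (Fin.consEquiv fun _ : Fin 4 => ZMod 2) (fun x => H (pw S.a (x 0))), avg_prod]
  have h2 : ∀ i : ZMod 2, (avg fun j : Fin 3 → ZMod 2 =>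
      H (pw S.a ((Fin.consEquiv fun _ : Fin 4 => ZMod 2) (i, j) 0))) = H (pw S.a i) := by
    intro i
    exact avg_const (H (pw S.a i))
  rw [show (fun i : ZMod 2 => avg fun j : Fin 3 → ZMod 2 =>
      H (pw S.a ((Fin.consEquiv fun _ : Fin 4 => ZMod 2) (i, j) 0))) =
      fun i : ZMod 2 => H (pw S.a i) from funext h2, avg_zmod2_real, pw_zero, pw_one]

theorem lam_zero : S.lam 0 = S.mV := rfl

theorem lam_succ (r : ℕ) : S.lam (r + 1) = S.mV * pt S.a * S.lam r := rfl

theorem ev_lam_succ (r : ℕ) (F : G → ℝ) :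
    ev (S.lam (r + 1)) F =
      avg fun x : Fin 4 → ZMod 2 => ev (S.lam r) fun z => F (S.vv x * (S.a * z)) := by
  rw [lam_succ, mul_assoc, ev_mul, ev_mV]
  congr 1
  funext x
  rw [ev_mul, ev_pt]

theorem root_vv (x : Fin 4 → ZMod 2) : S.root (S.vv x) = false := (IsPair_vv S x).1

/-- laws of the sections -/
noncomputable def PQ : ℕ → GA G × GA G
  | 0 => (S.mV, S.mA)
  | r + 1 => (S.mV * (PQ r).2, S.mA * (PQ r).1)

theorem ev_PQ (r : ℕ) : ∀ F : G → ℝ,
    ev (S.lam r) (fun z => F (co S true z)) = ev (PQ S r).1 F ∧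
    ev (S.lam r) (fun z => F (co S false z)) = ev (PQ S r).2 F := by
  induction r with
  | zero =>
    intro F
    constructor
    · rw [lam_zero, ev_mV]
      show _ = ev S.mV F
      rw [ev_mV, ← avg_shift]
      congr 1
      funext x
      unfold co
      rw [root_vv]
      rfl
    · rw [lam_zero, ev_mV]
      show _ = ev S.mA F
      rw [ev_mA, ← avg_first]
      congr 1
      funext x
      unfold co
      rw [root_vv]
      rfl
  | succ r ih =>
    intro F
    constructor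
    · rw [ev_lam_succ]
      show _ = ev (S.mV * (PQ S r).2) F
      rw [ev_mul, ev_mV, ← avg_shift S (fun v => ev (PQ S r).2 fun y => F (v * y))]
      congr 1
      funext x
      rw [← (ih fun y => F (S.sec true (S.vv x) * y)).2]
      congr 1
      funext z
      rw [co_mul S true _ _ (root_vv S x), co_a_mul]
      rfl
    · rw [ev_lam_succ]
      show _ = ev (S.mA * (PQ S r).1) F
      rw [ev_mul, ev_mA, ← avg_first S (fun v => ev (PQ S r).1 fun y => F (v * y))]
      congr 1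
      funext x
      rw [← (ih fun y => F (S.sec false (S.vv x) * y)).1]
      congr 1
      funext z
      rw [co_mul S false _ _ (root_vv S x), co_a_mul]
      rfl

/-- alternating products of averages -/
noncomputable def RR (j : ℕ) : GA G := (S.mV * S.mA) ^ j * S.mV

theorem P_even (j : ℕ) : (PQ S (2 * j)).1 = RR S j ∧ (PQ S (2 * j + 1)).1 = RR S j * S.mA := by
  induction j with
  | zero =>
    refine ⟨?_, ?_⟩
    · show S.mV = (S.mV * S.mA) ^ 0 * S.mV
      rw [pow_zero, one_mul]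
    · show S.mV * S.mA = (S.mV * S.mA) ^ 0 * S.mV * S.mA
      rw [pow_zero, one_mul]
  | succ j ih =>
    refine ⟨?_, ?_⟩
    · show S.mV * (S.mA * (PQ S (2 * j)).1) = _
      rw [ih.1]
      unfold RR
      rw [pow_succ']
      simp only [mul_assoc]
    · show S.mV * (S.mA * (PQ S (2 * j + 1)).1) = _
      rw [ih.2]
      unfold RR
      rw [pow_succ']
      simp only [mul_assoc]

theorem ev_mul_mA (p : GA G) (F : G → ℝ) (hF : ∀ z, F (z * S.a) = F z) :
    ev (p * S.mA) F = ev p F := by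
  rw [ev_mul]
  congr 1
  funext x
  rw [ev_mA, mul_one, hF]; ring

theorem ev_mA_mul (p : GA G) (F : G → ℝ) (hF : ∀ z, F (S.a * z) = F z) :
    ev (S.mA * p) F = ev p F := by
  rw [ev_mul, ev_mA]
  simp only [one_mul, hF]; ring

theorem ev_P (r : ℕ) (F : G → ℝ) (hF : ∀ z, F (z * S.a) = F z) :
    ev (PQ S r).1 F = ev (RR S (r / 2)) F := by
  rcases Nat.even_or_odd' r with ⟨j, rfl | rfl⟩
  · rw [(P_even S j).1, Nat.mul_div_cancel_left _ (by norm_num)]
  · rw [(P_even S j).2, ev_mul_mA S _ F hF]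
    congr 2
    omega

theorem ev_Q_succ (r : ℕ) (F : G → ℝ) (hF : ∀ z, F (z * S.a) = F z)
    (hF' : ∀ z, F (S.a * z) = F z) : ev (PQ S (r + 1)).2 F = ev (RR S (r / 2)) F := by
  rw [← ev_P S r F hF]
  exact ev_mA_mul S _ F hF'

theorem ev_Q_zero (F : G → ℝ) (hF' : ∀ z, F (S.a * z) = F z) : ev (PQ S 0).2 F = F 1 := by
  show ev S.mA F = F 1
  rw [ev_mA]
  have := hF' 1
  rw [mul_one] at this
  rw [this]; ring

theorem mV_lam (c : ℕ) : S.mV * S.lam c = S.lam c := by
  cases c with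
  | zero => exact mV_sq S
  | succ c =>
    rw [lam_succ, ← mul_assoc, ← mul_assoc, mV_sq]

theorem mVmA_lam (c : ℕ) :
    S.mV * S.mA * S.lam c = (1 / 2 : ℝ) • (S.lam c + S.lam (c + 1)) := by
  unfold SGp.mA hh
  rw [mul_smul_comm, smul_mul_assoc, mul_add, mul_one, add_mul, mV_lam, lam_succ]

theorem ev_pow_lam (F : G → ℝ) (j : ℕ) : ∀ c : ℕ,
    ev ((S.mV * S.mA) ^ j * S.lam c) F = binAvg j fun k => ev (S.lam (c + k)) F := by
  induction j with
  | zero =>
    intro c
    rw [pow_zero, one_mul, binAvg_zero, add_zero]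
  | succ j ih =>
    intro c
    rw [pow_succ, mul_assoc, mVmA_lam, mul_smul_comm, ev_smul, mul_add, ev_add, ih, ih, binAvg_succ]
    have : (fun k => ev (S.lam (c + 1 + k)) F) = fun k => ev (S.lam (c + (k + 1))) F := by
      funext k
      congr 2
      omega
    rw [this]; ring

theorem ev_RR (F : G → ℝ) (j : ℕ) :
    ev (RR S j) F = binAvg j fun k => ev (S.lam k) F := by
  have h := ev_pow_lam S F j 0
  rw [lam_zero] at h
  unfold RR
  rw [h]
  simp only [zero_add]

/-- the rate -/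
noncomputable def yy (N : ℕ) : ℝ := 1 + 1 / 4 ^ N

theorem yy_one_le (N : ℕ) : 1 ≤ yy N := by
  unfold yy
  have : (0 : ℝ) ≤ 1 / 4 ^ N := by positivity
  linarith

theorem yy_step (N : ℕ) : (1 + yy N) / 2 ≤ yy (N + 1) ^ 2 := by
  unfold yy
  have h : (0 : ℝ) ≤ 1 / 4 ^ N := by positivity
  have h2 : (1 : ℝ) / 4 ^ (N + 1) = (1 / 4 ^ N) / 4 := by
    rw [pow_succ]
    field_simp
  rw [h2]
  nlinarith [sq_nonneg ((1 : ℝ) / 4 ^ N)]

theorem binAvg_bound (N j r : ℕ) (hj : 2 * j ≤ r) (C : ℝ) (hC : 0 ≤ C) (u : ℕ → ℝ)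
    (hu : ∀ k, u k ≤ C * yy N ^ k) : binAvg j u ≤ C * yy (N + 1) ^ r := by
  have h1 := binAvg_mono j u (fun k => C * yy N ^ k) hu
  rw [binAvg_smul, binAvg_geom] at h1
  have h0 : (0 : ℝ) ≤ (1 + yy N) / 2 := by
    have := yy_one_le N
    linarith
  have h2 : ((1 + yy N) / 2) ^ j ≤ (yy (N + 1) ^ 2) ^ j := pow_le_pow_left₀ h0 (yy_step N) j
  have h3 : (yy (N + 1) ^ 2) ^ j ≤ yy (N + 1) ^ r := by
    rw [← pow_mul]
    exact pow_le_pow_right₀ (yy_one_le _) hj
  exact h1.trans (mul_le_mul_of_nonneg_left (h2.trans h3) hC)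

theorem Psi_succ_co (N : ℕ) (z : G) :
    S.Psi (N + 1) z = S.Psi N (co S false z) + S.Psi N (co S true z) := by
  show S.Psi N (S.sec false z) + S.Psi N (S.sec true z) = _
  unfold co
  cases S.root z
  · rfl
  · simp only [Bool.xor_true, Bool.not_false, Bool.not_true]
    rw [add_comm]

theorem base_aux (r : ℕ) : ∀ x : G,
    ev (S.lam r) (fun z => (2 : ℝ) ^ S.Lv (x * z)) ≤ 2 ^ (S.Lv x + r + 1) := by
  induction r with
  | zero =>
    intro x
    rw [lam_zero, ev_mV]
    calc _ ≤ avg fun _ : Fin 4 → ZMod 2 => (2 : ℝ) ^ (S.Lv x + 0 + 1) :=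
          avg_mono _ _ fun v => pow_le_pow_right₀ (by norm_num) (Lv_mul_vv S x v)
      _ = _ := avg_const _
  | succ r ih =>
    intro x
    rw [ev_lam_succ]
    calc _ ≤ avg fun _ : Fin 4 → ZMod 2 => (2 : ℝ) ^ (S.Lv x + (r + 1) + 1) := by
          refine avg_mono _ _ fun v => ?_
          have h1 := ih (x * S.vv v * S.a)
          have h2 : S.Lv (x * S.vv v * S.a) + r + 1 ≤ S.Lv x + (r + 1) + 1 := by
            rw [Lv_mul_a]
            have := Lv_mul_vv S x v
            omega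
          refine le_trans (le_of_eq ?_) (h1.trans (pow_le_pow_right₀ (by norm_num) h2))
          congr 1
          funext z
          simp only [mul_assoc]
      _ = _ := avg_const _

theorem base_bound (r : ℕ) : ev (S.lam r) (S.Psi 0) ≤ 2 * yy 0 ^ r := by
  have h := base_aux S r 1
  rw [Lv_one] at h
  simp only [one_mul] at h
  have hy : yy 0 = 2 := by unfold yy; norm_num
  rw [hy]
  calc _ ≤ (2 : ℝ) ^ (0 + r + 1) := h
    _ = _ := by rw [zero_add, pow_succ]; ring

theorem main_bound (N : ℕ) : ∀ r : ℕ, ev (S.lam r) (S.Psi N) ≤ 2 ^ N * 2 * yy N ^ r := by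
  induction N with
  | zero =>
    intro r
    have := base_bound S r
    simpa using this
  | succ N ih =>
    intro r
    have h1 : ev (S.lam r) (S.Psi (N + 1)) =
        ev (PQ S r).2 (S.Psi N) + ev (PQ S r).1 (S.Psi N) := by
      rw [← (ev_PQ S r (S.Psi N)).1, ← (ev_PQ S r (S.Psi N)).2, ← ev_fadd]
      congr 1
      funext z
      exact Psi_succ_co S N z
    have hC : (0 : ℝ) ≤ 2 ^ N * 2 := by positivity
    have h2 : ev (PQ S r).1 (S.Psi N) ≤ 2 ^ N * 2 * yy (N + 1) ^ r := by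
      rw [ev_P S r _ (Psi_mul_a S N), ev_RR]
      exact binAvg_bound N (r / 2) r (by omega) _ hC _ ih
    have h3 : ev (PQ S r).2 (S.Psi N) ≤ 2 ^ N * 2 * yy (N + 1) ^ r := by
      cases r with
      | zero =>
        rw [ev_Q_zero S _ (Psi_a_mul S N), Psi_one, pow_zero, mul_one]
        have : (0 : ℝ) ≤ 2 ^ N := by positivity
        linarith
      | succ r =>
        rw [ev_Q_succ S r _ (Psi_mul_a S N) (Psi_a_mul S N), ev_RR]
        exact binAvg_bound N (r / 2) (r + 1) (by omega) _ hC _ ih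
    rw [h1]
    calc _ ≤ 2 ^ N * 2 * yy (N + 1) ^ r + 2 ^ N * 2 * yy (N + 1) ^ r := add_le_add h3 h2
      _ = _ := by rw [pow_succ]; ring

end LamAux

open LamAux

theorem ev_lam_Psi (N r : ℕ) :
    ev (S.lam r) (S.Psi N) ≤ 2 ^ N * (2 * Real.exp (r / 4 ^ N)) := by
  have h := main_bound S N r
  have h1 : yy N ≤ Real.exp (1 / 4 ^ N) := by
    unfold yy
    have := Real.add_one_le_exp ((1 : ℝ) / 4 ^ N)
    linarith
  have h2 : yy N ^ r ≤ Real.exp (r / 4 ^ N) := by
    calc yy N ^ r ≤ (Real.exp (1 / 4 ^ N)) ^ r :=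
          pow_le_pow_left₀ (by linarith [yy_one_le N]) h1 r
      _ = Real.exp (r / 4 ^ N) := by
          rw [← Real.exp_nat_mul]
          congr 1
          ring
  calc _ ≤ 2 ^ N * 2 * yy N ^ r := h
    _ ≤ 2 ^ N * 2 * Real.exp (r / 4 ^ N) := by
        exact mul_le_mul_of_nonneg_left h2 (by positivity)
    _ = _ := by ring

end Pool.Agent.PHF
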