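import Pool.Agent.PHF.Cor
import Pool.Agent.PHF.Grc
import Pool.Agent.PHF.Alg

set_option autoImplicit false

namespace Pool.Agent.PHF

/-! Module TOP: the two coordinates of the random walk given the bits. -/

namespace TopAux

variable {G : Type} [Group G] (S : SGp G)

/-- The noise of level one. -/
noncomputable def mm : GA G := hh (S.e 0) * hh (S.e 1) * hh (S.e 2)

theorem law_mm : IsLaw (mm S) := ((IsLaw.hh _).mul (IsLaw.hh _)).mul (IsLaw.hh _)

/-- All points of the support are in one coset of BB. -/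
def Hmg (p : GA G) : Prop := ∀ x y, p.coeff x ≠ 0 → p.coeff y ≠ 0 → x * y⁻¹ ∈ S.BB

theorem exists_of_mul (p q : GA G) (z : G) (h : (p * q).coeff z ≠ 0) :
    ∃ x y, p.coeff x ≠ 0 ∧ q.coeff y ≠ 0 ∧ z = x * y := by
  classical
  by_contra hcon
  push Not at hcon
  apply h
  rw [coeff_eq_ev, ev_mul, ev_congr p _ (fun _ => 0), ev_fzero]
  intro x hx
  rw [ev_congr q _ (fun _ => 0), ev_fzero]
  intro y hy
  rw [if_neg fun h => hcon x y hx hy h.symm]

theorem Hmg_mul {p q : GA G} (hp : Hmg S p) (hq : Hmg S q) : Hmg S (p * q) := by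
  intro z w hz hw
  obtain ⟨x, y, hx, hy, rfl⟩ := exists_of_mul p q z hz
  obtain ⟨x', y', hx', hy', rfl⟩ := exists_of_mul p q w hw
  have h1 := BB_conj S (hq y y' hy hy') x
  have h2 := BB_mul S h1 (hp x x' hx hx')
  have h3 : x * (y * y'⁻¹) * x⁻¹ * (x * x'⁻¹) = x * y * (x' * y')⁻¹ := by group
  rwa [h3] at h2

theorem supp_pt (g z : G) (h : (pt g : GA G).coeff z ≠ 0) : z = g := by
  classical
  by_contra hne
  apply h
  rw [coeff_eq_ev, ev_pt, if_neg fun h => hne h.symm]

theorem Hmg_pt (g : G) : Hmg S (pt g) := by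
  intro x y hx hy
  rw [supp_pt g x hx, supp_pt g y hy, mul_inv_cancel]
  exact BB_one S

theorem Hmg_hh {g : G} (hg : g ∈ S.BB) : Hmg S (hh g) := by
  classical
  have hs : ∀ z, (hh g).coeff z ≠ 0 → z = 1 ∨ z = g := by
    intro z hz
    by_contra hcon
    push Not at hcon
    apply hz
    rw [coeff_eq_ev]
    unfold hh
    rw [ev_smul, ev_add, ev_one, ev_pt, if_neg fun h => hcon.1 h.symm,
      if_neg fun h => hcon.2 h.symm]
    norm_num
  intro x y hx hy
  rcases hs x hx with rfl | rfl <;> rcases hs y hy with rfl | rfl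
  · simpa using BB_one S
  · simpa using BB_inv S hg
  · simpa using hg
  · rw [mul_inv_cancel]; exact BB_one S

theorem Hmg_mm : Hmg S (mm S) :=
  Hmg_mul S (Hmg_mul S (Hmg_hh S (e_mem_BB S 0 (by decide))) (Hmg_hh S (e_mem_BB S 1 (by decide))))
    (Hmg_hh S (e_mem_BB S 2 (by decide)))

variable {S}

theorem Corr_hh {g x : G} (h : IsPair S g 1 x) : S.Corr (hh g) (tens 1 (hh x)) := by
  unfold hh
  rw [tens_smul_right, tens_add_right, tens_one]
  refine Corr_smul _ (Corr_add Corr_one ?_)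
  have h1 := Corr_pt h
  rwa [← tens_pt, pt_one] at h1

variable (S)

theorem Corr_e0 : S.Corr (hh (S.e 0))
    (avg fun x : ZMod 2 => tens (pt (pw S.a x)) (pt (pw (S.e 3) x))) := by
  rw [hh_eq_avg]
  refine Corr_avg fun x => ?_
  rw [tens_pt]
  apply Corr_pt
  have key : ∀ u : ZMod 2, u = 0 ∨ u = 1 := by decide
  rcases key x with rfl | rfl
  · simp only [pw_zero]
    exact IsPair_one S
  · simp only [pw_one]
    exact IsPair_e0 S

/-- The pair of sections of the uniform law on V. -/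
theorem Corr_mV : S.Corr S.mV
    (avg fun x : ZMod 2 => tens (pt (pw S.a x)) (mm S * pt (pw (S.e 3) x))) := by
  have h := Corr_mul (Corr_mul (Corr_mul (Corr_e0 S) (Corr_hh (IsPair_e1 S)))
    (Corr_hh (IsPair_e2 S))) (Corr_hh (IsPair_e3 S))
  have hV : hh (S.e 0) * hh (S.e 1) * hh (S.e 2) * hh (S.e 3) = S.mV := rfl
  rw [hV] at h
  have hE : (avg fun x : ZMod 2 => tens (pt (pw S.a x)) (pt (pw (S.e 3) x))) *
      tens 1 (hh (S.e 0)) * tens 1 (hh (S.e 1)) * tens 1 (hh (S.e 2)) =
      avg fun x : ZMod 2 => tens (pt (pw S.a x)) (mm S * pt (pw (S.e 3) x)) := by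
    rw [← avg_mul_right, ← avg_mul_right, ← avg_mul_right]
    congr 1
    funext x
    rw [tens_mul, tens_mul, tens_mul, mul_one, mul_one, mul_one]
    congr 1
    have hc : ∀ i : Fin 4, hh (S.e i) * pt (pw (S.e 3) x) = pt (pw (S.e 3) x) * hh (S.e i) := by
      intro i
      apply hh_comm_pt
      have := pw_comm (S.e i) (S.e 3) (S.e_comm i 3) 1 x
      rwa [pw_one] at this
    unfold mm
    rw [mul_assoc (hh (S.e 0) * hh (S.e 1)), hc 2, ← mul_assoc, mul_assoc (hh (S.e 0)), hc 1,
      ← mul_assoc, hc 0]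
  rw [hE] at h
  exact h

theorem Corr_Z0 : S.Corr S.Z0
    (avg fun x : ZMod 2 => tens (mm S * pt (pw (S.e 3) x)) (pt (pw S.a x))) := by
  have h := Corr_conj (Corr_mV S)
  rw [swp_avg] at h
  simp only [swp_tens] at h
  exact h

end TopAux

open TopAux

variable {G : Type} [Group G] (S : SGp G)

theorem law_p0 (l : List (ZMod 2 × ZMod 2)) : IsLaw (S.p0 l) := by
  induction l with
  | nil => exact law_mm S
  | cons c l ih => exact (((law_mm S).mul (IsLaw.pt _)).mul (IsLaw.pt _)).mul ih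

theorem law_p1 (l : List (ZMod 2 × ZMod 2)) : IsLaw (S.p1 l) := by
  induction l with
  | nil => exact IsLaw.one
  | cons c l ih => exact (((IsLaw.pt _).mul (law_mm S)).mul (IsLaw.pt _)).mul ih

theorem top_corr (K : ℕ) : S.Corr (S.XK K) (Ex K fun l => avg fun z : ZMod 2 =>
    tens (S.p0 l * pt (pw (S.e 3) z)) (S.p1 l * pt (pw S.a z))) := by
  induction K with
  | zero =>
    have h0 : S.XK 0 = S.Z0 := by
      unfold SGp.XK
      rw [pow_zero, one_mul]
    rw [h0, Ex_zero]
    have h := Corr_Z0 S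
    have h1 : (fun z : ZMod 2 => tens (S.p0 [] * pt (pw (S.e 3) z)) (S.p1 [] * pt (pw S.a z))) =
        fun x : ZMod 2 => tens (mm S * pt (pw (S.e 3) x)) (pt (pw S.a x)) := by
      funext z
      show tens (mm S * pt (pw (S.e 3) z)) (1 * pt (pw S.a z)) = _
      rw [one_mul]
    rw [h1]
    exact h
  | succ K ih =>
    rw [XK_succ]
    have h := Corr_mul (Corr_mul (Corr_Z0 S) (Corr_mV S)) ih
    have hE : ∀ Y : GA (G × G),
        (avg fun x : ZMod 2 => tens (mm S * pt (pw (S.e 3) x)) (pt (pw S.a x))) *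
        (avg fun x : ZMod 2 => tens (pt (pw S.a x)) (mm S * pt (pw (S.e 3) x))) * Y =
        avg fun c : ZMod 2 × ZMod 2 => tens (mm S * pt (pw (S.e 3) c.1) * pt (pw S.a c.2))
          (pt (pw S.a c.1) * mm S * pt (pw (S.e 3) c.2)) * Y := by
      intro Y
      rw [avg_prod, ← avg_mul_right, ← avg_mul_right]
      congr 1
      funext x
      rw [← avg_mul_left, ← avg_mul_right]
      congr 1
      funext y
      rw [tens_mul]
      simp only [mul_assoc]
    rw [hE, ] at h
    rw [Ex_succ]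
    have hF : ∀ c : ZMod 2 × ZMod 2, (Ex K fun l => avg fun z : ZMod 2 =>
        tens (S.p0 (c :: l) * pt (pw (S.e 3) z)) (S.p1 (c :: l) * pt (pw S.a z))) =
        tens (mm S * pt (pw (S.e 3) c.1) * pt (pw S.a c.2))
          (pt (pw S.a c.1) * mm S * pt (pw (S.e 3) c.2)) * Ex K fun l => avg fun z : ZMod 2 =>
            tens (S.p0 l * pt (pw (S.e 3) z)) (S.p1 l * pt (pw S.a z)) := by
      intro c
      have hmulEx : ∀ (X : GA (G × G)) (k : ℕ) (Φ : List (ZMod 2 × ZMod 2) → GA (G × G)),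
          Ex k (fun l => X * Φ l) = X * Ex k Φ := by
        intro X k
        induction k with
        | zero => intro Φ; rfl
        | succ k ihk =>
          intro Φ
          rw [Ex_succ, Ex_succ, ← avg_mul_left]
          congr 1
          funext x
          exact ihk _
      rw [← hmulEx]
      congr 1
      funext l
      rw [← avg_mul_left]
      congr 1
      funext z
      rw [tens_mul]
      show tens (mm S * pt (pw (S.e 3) c.1) * pt (pw S.a c.2) * S.p0 l * pt (pw (S.e 3) z))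
        (pt (pw S.a c.1) * mm S * pt (pw (S.e 3) c.2) * S.p1 l * pt (pw S.a z)) = _
      simp only [mul_assoc]
    have hG : (avg fun c : ZMod 2 × ZMod 2 => Ex K fun l => avg fun z : ZMod 2 =>
        tens (S.p0 (c :: l) * pt (pw (S.e 3) z)) (S.p1 (c :: l) * pt (pw S.a z))) =
        avg fun c : ZMod 2 × ZMod 2 => tens (mm S * pt (pw (S.e 3) c.1) * pt (pw S.a c.2))
          (pt (pw S.a c.1) * mm S * pt (pw (S.e 3) c.2)) * Ex K fun l => avg fun z : ZMod 2 =>
            tens (S.p0 l * pt (pw (S.e 3) z)) (S.p1 l * pt (pw S.a z)) := by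
      congr 1
      funext c
      exact hF c
    rw [hG]
    exact h

/-- Given the bits, all points of the support of a coordinate are in one coset of BB. -/
theorem supp_p0 (l : List (ZMod 2 × ZMod 2)) (x y : G) (hx : (S.p0 l).coeff x ≠ 0)
    (hy : (S.p0 l).coeff y ≠ 0) : x * y⁻¹ ∈ S.BB := by
  have h : ∀ l, Hmg S (S.p0 l) := by
    intro l
    induction l with
    | nil => exact Hmg_mm S
    | cons c l ih =>
      exact Hmg_mul S (Hmg_mul S (Hmg_mul S (Hmg_mm S) (Hmg_pt S _)) (Hmg_pt S _)) ih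
  exact h l x y hx hy

theorem supp_p1 (l : List (ZMod 2 × ZMod 2)) (x y : G) (hx : (S.p1 l).coeff x ≠ 0)
    (hy : (S.p1 l).coeff y ≠ 0) : x * y⁻¹ ∈ S.BB := by
  have h : ∀ l, Hmg S (S.p1 l) := by
    intro l
    induction l with
    | nil =>
      show Hmg S 1
      rw [← pt_one]
      exact Hmg_pt S 1
    | cons c l ih =>
      exact Hmg_mul S (Hmg_mul S (Hmg_mul S (Hmg_pt S _) (Hmg_mm S)) (Hmg_pt S _)) ih
  exact h l x y hx hy

end Pool.Agent.PHF
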