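import Pool.Agent.PHF.Tpm
import Pool.Agent.PHF.Top
import Pool.Agent.PHF.Lbf

set_option autoImplicit false

namespace Pool.Agent.PHF

/-! Module MIS: one step of the iteration from LB to BB. -/

variable {G : Type} [Group G] {S : SGp G}

namespace MisAux

/-- A bound on the support of a law bounds the expectation. -/
theorem ev_bound {H : Type} {q : GA H} (hq : IsLaw q) (g : H → ℝ) (E : ℝ)
    (hg : ∀ x, q.coeff x ≠ 0 → |g x| ≤ E) : |ev q g| ≤ E := by
  refine (ev_abs_le q hq.nn g).trans ((ev_mono q hq.nn _ (fun _ => E) hg).trans ?_)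
  rw [ev_const, hq.mass, mul_one]

/-- A law has a point in its support. -/
theorem exists_supp {H : Type} {q : GA H} (hq : IsLaw q) : ∃ x, q.coeff x ≠ 0 := by
  by_contra hcon
  push Not at hcon
  have h1 := hq.mass
  have h2 : ev q (fun _ => 1) = ev q (fun _ => 0) :=
    ev_congr q _ _ fun x hx => absurd (hcon x) hx
  rw [ev_fzero] at h2
  rw [h2] at h1
  exact zero_ne_one h1

/-- Exchange of two expectations. -/
theorem ev_swap {H H' : Type} (p : GA H) (q : GA H') (h : H → H' → ℝ) :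
    ev p (fun x => ev q (fun y => h x y)) = ev q (fun y => ev p (fun x => h x y)) := by
  induction p using ga_induction with
  | h0 =>
    simp only [ev_zero]
    rw [ev_fzero]
  | h1 x r p ih =>
    simp only [ev_add, ev_single]
    rw [ih, ev_fadd, ev_fsmul]

theorem ev_translate (b0 : G) {P : GA G} (hP : IsLaw P) (h : G → ℝ) (D : ℝ) (x0 : G)
    (hh : ∀ x, ((pt b0 * P).coeff x ≠ 0 ∨ P.coeff x ≠ 0) → |h x - h x0| ≤ D) :
    |ev (pt b0 * P) h - ev P h| ≤ 2 * Real.sqrt (He (pt b0 * P) P) * D := by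
  have hP' : IsLaw (pt b0 * P) := (IsLaw.pt b0).mul hP
  have key := ev_sub_le_He hP' hP (fun x => h x - h x0) D hh
  rw [ev_fsub, ev_fsub, ev_const (pt b0 * P), ev_const P, hP'.mass, hP.mass] at key
  have e : ev (pt b0 * P) h - h x0 * 1 - (ev P h - h x0 * 1) = ev (pt b0 * P) h - ev P h := by
    ring
  rwa [e] at key

theorem pt_bound (b0 : G) (hb0 : b0 ∈ S.BB) {P Q : GA G} (hP : IsLaw P) (hQ : IsLaw Q)
    (h : G → G → ℝ) (D : ℝ)
    (hc : ∀ x x', P.coeff x ≠ 0 → P.coeff x' ≠ 0 → x * x'⁻¹ ∈ S.BB)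
    (hh : ∀ x0 y, P.coeff x0 ≠ 0 → Q.coeff y ≠ 0 → ∀ b ∈ S.BB,
      |h (b * x0) y - h x0 y| ≤ D) :
    |ev Q (fun y => ev (pt b0 * P) (fun x => h x y)) - ev Q (fun y => ev P (fun x => h x y))| ≤
      2 * Real.sqrt (He (pt b0 * P) P) * D := by
  rw [← ev_fsub]
  refine ev_bound hQ _ _ fun y hy => ?_
  obtain ⟨x0, hx0⟩ := exists_supp hP
  refine ev_translate b0 hP _ D x0 fun x hx => ?_
  have hb : x * x0⁻¹ ∈ S.BB := by
    rcases hx with hx | hx
    · rw [coeff_pt_mul] at hx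
      have h1 := BB_mul S hb0 (hc _ _ hx hx0)
      have e : b0 * (b0⁻¹ * x * x0⁻¹) = x * x0⁻¹ := by group
      rwa [e] at h1
    · exact hc _ _ hx hx0
  have h2 := hh x0 y hx0 hy _ hb
  have e : x * x0⁻¹ * x0 = x := by group
  rwa [e] at h2

theorem Ex_pos {α : Type} [Fintype α] (k : ℕ) (Φ : List α → ℝ) (h0 : ∀ l, 0 ≤ Φ l)
    (l : List α) (hl : l.length = k) (h : 0 < Φ l) : 0 < Ex k Φ := by
  induction k generalizing Φ l with
  | zero =>
    have : l = [] := List.length_eq_zero_iff.mp hl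
    subst this
    exact h
  | succ k ih =>
    cases l with
    | nil => simp at hl
    | cons x l =>
      rw [Ex_succ]
      have h1 := ih (fun l => Φ (x :: l)) (fun l => h0 _) l (by simpa using hl) h
      unfold avg
      rw [smul_eq_mul]
      have : Nonempty α := ⟨x⟩
      refine mul_pos (inv_pos.mpr (by exact_mod_cast Fintype.card_pos)) ?_
      refine Finset.sum_pos' (fun y _ => Ex_nonneg _ _ fun l => h0 _) ⟨x, Finset.mem_univ x, h1⟩

theorem coeff_Ex {H α : Type} [Fintype α] (k : ℕ) (Φ : List α → GA H) (w : H) :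
    (Ex k Φ).coeff w = Ex k (fun l => (Φ l).coeff w) := by
  classical
  rw [coeff_eq_ev, ev_Ex]
  simp only [coeff_eq_ev]

theorem coeff_avg {H ι : Type} [Fintype ι] (Φ : ι → GA H) (w : H) :
    (avg Φ).coeff w = avg (fun i => (Φ i).coeff w) := by
  classical
  rw [coeff_eq_ev, ev_avg]
  simp only [coeff_eq_ev]

/-- The two coordinates given all bits. -/
noncomputable def TT (S : SGp G) (l : List (ZMod 2 × ZMod 2)) (z : ZMod 2) : GA (G × G) :=
  tens (S.p0 l * pt (pw (S.e 3) z)) (S.p1 l * pt (pw S.a z))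

theorem law_TT (l : List (ZMod 2 × ZMod 2)) (z : ZMod 2) : IsLaw (TT S l z) :=
  ((law_p0 S l).mul (IsLaw.pt _)).tens ((law_p1 S l).mul (IsLaw.pt _))

theorem supp_TT (K : ℕ) (l : List (ZMod 2 × ZMod 2)) (hl : l.length = K) (z : ZMod 2)
    (w : G × G) (hw : (TT S l z).coeff w ≠ 0) :
    (Ex K fun l => avg fun z : ZMod 2 => TT S l z).coeff w ≠ 0 := by
  rw [coeff_Ex]
  have hnn : ∀ l, 0 ≤ (avg fun z : ZMod 2 => TT S l z).coeff w := fun l =>
    NN.avg _ (fun z => (law_TT l z).nn) w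
  refine (Ex_pos K _ hnn l hl ?_).ne'
  rw [coeff_avg]
  have h1 : ∀ z', 0 ≤ (TT S l z').coeff w := fun z' => (law_TT l z').nn w
  have h2 : 0 < (TT S l z).coeff w := lt_of_le_of_ne (h1 z) (Ne.symm hw)
  unfold avg
  rw [smul_eq_mul]
  refine mul_pos (inv_pos.mpr (by exact_mod_cast Fintype.card_pos)) ?_
  exact Finset.sum_pos' (fun y _ => h1 y) ⟨z, Finset.mem_univ z, h2⟩

/-- Points of the support of `XK` with given coordinates. -/
theorem exists_g (K : ℕ) (l : List (ZMod 2 × ZMod 2)) (hl : l.length = K) (z : ZMod 2)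
    (x y : G) (hx : (S.p0 l * pt (pw (S.e 3) z)).coeff x ≠ 0)
    (hy : (S.p1 l * pt (pw S.a z)).coeff y ≠ 0) :
    ∃ g, IsPair S g x y ∧ (S.XK K).coeff g ≠ 0 := by
  have h1 : (TT S l z).coeff (x, y) ≠ 0 := by
    unfold TT
    rw [tens_coeff]
    exact mul_ne_zero hx hy
  have h2 := supp_TT K l hl z (x, y) h1
  obtain ⟨g, hg, hg2⟩ := Corr_supp (top_corr S K) x y h2
  exact ⟨g, hg, by rw [hg2]; exact h2⟩

/-- The laws of the coordinates. -/
noncomputable def pc (S : SGp G) (c : Bool) (l : List (ZMod 2 × ZMod 2)) : GA G :=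
  if c then S.p1 l else S.p0 l

/-- The pair with `b` in the coordinate `c`. -/
def cp (c : Bool) (b : G) : G × G := (if c then 1 else b, if c then b else 1)

theorem dl_pair (c : Bool) {b : G} (hb : b ∈ S.BB) :
    IsPair S (S.dl c b) (cp c b).1 (cp c b).2 := by
  cases c
  · exact dl_false S hb
  · exact dl_true S hb

theorem TT_bound (c : Bool) (K : ℕ) (l : List (ZMod 2 × ZMod 2)) (hl : l.length = K)
    (z : ZMod 2) (b0 : G) (hb0 : b0 ∈ S.BB) (f : G → ℝ) (D : ℝ)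
    (hf : ∀ b ∈ S.BB, ∀ z, (S.XK K).coeff z ≠ 0 → |f (S.dl c b * z) - f z| ≤ D) :
    |ev (pt (cp c b0) * TT S l z) (S.hat f) - ev (TT S l z) (S.hat f)| ≤
      2 * Real.sqrt (He (pt b0 * pc S c l) (pc S c l)) * D := by
  have hP := (law_p0 S l).mul (IsLaw.pt (pw (S.e 3) z))
  have hQ := (law_p1 S l).mul (IsLaw.pt (pw S.a z))
  have hcP : ∀ x x', (S.p0 l * pt (pw (S.e 3) z)).coeff x ≠ 0 →
      (S.p0 l * pt (pw (S.e 3) z)).coeff x' ≠ 0 → x * x'⁻¹ ∈ S.BB := by
    intro x x' hx hx'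
    rw [coeff_mul_pt] at hx hx'
    have h1 := supp_p0 S l _ _ hx hx'
    have e : x * (pw (S.e 3) z)⁻¹ * (x' * (pw (S.e 3) z)⁻¹)⁻¹ = x * x'⁻¹ := by group
    rwa [e] at h1
  have hcQ : ∀ x x', (S.p1 l * pt (pw S.a z)).coeff x ≠ 0 →
      (S.p1 l * pt (pw S.a z)).coeff x' ≠ 0 → x * x'⁻¹ ∈ S.BB := by
    intro x x' hx hx'
    rw [coeff_mul_pt] at hx hx'
    have h1 := supp_p1 S l _ _ hx hx'
    have e : x * (pw S.a z)⁻¹ * (x' * (pw S.a z)⁻¹)⁻¹ = x * x'⁻¹ := by group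
    rwa [e] at h1
  cases c
  · have e1 : pt (cp false b0) * TT S l z =
        tens (pt b0 * (S.p0 l * pt (pw (S.e 3) z))) (S.p1 l * pt (pw S.a z)) := by
      unfold TT cp
      simp only [Bool.false_eq_true, if_false]
      rw [pt_mul_tens, pt_one, one_mul]
    rw [e1]
    unfold TT
    rw [ev_tens, ev_tens, ev_swap, ev_swap (S.p0 l * pt (pw (S.e 3) z))]
    have key := pt_bound b0 hb0 hP hQ (fun x y => S.hat f (x, y)) D hcP (by
      intro x0 y hx0 hy b hb
      obtain ⟨g, hg, hg2⟩ := exists_g K l hl z x0 y hx0 hy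
      have hg3 := IsPair_mul (dl_false S hb) hg
      rw [one_mul] at hg3
      rw [hat_pair hg3, hat_pair hg]
      exact hf b hb g hg2)
    rw [← mul_assoc, He_mul_pt] at key
    rw [← mul_assoc]
    exact key
  · have e1 : pt (cp true b0) * TT S l z =
        tens (S.p0 l * pt (pw (S.e 3) z)) (pt b0 * (S.p1 l * pt (pw S.a z))) := by
      unfold TT cp
      simp only [if_true]
      rw [pt_mul_tens, pt_one, one_mul]
    rw [e1]
    unfold TT
    rw [ev_tens, ev_tens]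
    have key := pt_bound b0 hb0 hQ hP (fun y x => S.hat f (x, y)) D hcQ (by
      intro x0 y hx0 hy b hb
      obtain ⟨g, hg, hg2⟩ := exists_g K l hl z y x0 hy hx0
      have hg3 := IsPair_mul (dl_true S hb) hg
      rw [one_mul] at hg3
      rw [hat_pair hg3, hat_pair hg]
      exact hf b hb g hg2)
    rw [← mul_assoc, He_mul_pt] at key
    rw [← mul_assoc]
    exact key

theorem Ex_abs_sub {α : Type} [Fintype α] (k : ℕ) (Φ Ψ Θ : List α → ℝ)
    (h : ∀ l, l.length = k → |Φ l - Ψ l| ≤ Θ l) : |Ex k Φ - Ex k Ψ| ≤ Ex k Θ := by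
  have h1 := Ex_mono k Φ (fun l => Ψ l + Θ l) fun l hl => by
    have := h l hl
    rw [abs_le] at this
    linarith [this.2]
  have h2 := Ex_mono k Ψ (fun l => Φ l + Θ l) fun l hl => by
    have := h l hl
    rw [abs_le] at this
    linarith [this.1]
  rw [Ex_add] at h1 h2
  rw [abs_le]
  constructor <;> linarith

theorem avg_abs_sub {ι : Type} [Fintype ι] [Nonempty ι] (Φ Ψ : ι → ℝ) (E : ℝ)
    (h : ∀ l, |Φ l - Ψ l| ≤ E) : |avg Φ - avg Ψ| ≤ E := by
  have h1 := avg_mono Φ (fun l => Ψ l + E) fun l => by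
    have := h l
    rw [abs_le] at this
    linarith [this.2]
  have h2 := avg_mono Ψ (fun l => Φ l + E) fun l => by
    have := h l
    rw [abs_le] at this
    linarith [this.1]
  rw [avg_add, avg_const] at h1 h2
  rw [abs_le]
  constructor <;> linarith

/-- Jensen for the square root: a linear majorant. -/
theorem sqrt_le_lin (u : ℝ) (hu : 0 ≤ u) : Real.sqrt u ≤ 2 * u + 1 / 8 := by
  have h := Real.sq_sqrt hu
  nlinarith [sq_nonneg (Real.sqrt u - 1 / 4)]

theorem Ex_sqrt {α : Type} [Fintype α] [Nonempty α] (k : ℕ) (Φ : List α → ℝ)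
    (h0 : ∀ l, 0 ≤ Φ l) (h : Ex k Φ ≤ 1 / 16) : Ex k (fun l => Real.sqrt (Φ l)) ≤ 1 / 4 := by
  have h1 := Ex_mono k (fun l => Real.sqrt (Φ l)) (fun l => 2 * Φ l + 1 / 8) fun l _ =>
    sqrt_le_lin _ (h0 l)
  rw [Ex_add, Ex_smul, Ex_const] at h1
  linarith

theorem core (c : Bool) (K : ℕ) (b0 : G) (hb0 : b0 ∈ S.BB)
    (hE : Ex K (fun l => He (pt b0 * pc S c l) (pc S c l)) ≤ 1 / 16) (f : G → ℝ) (D : ℝ)
    (hD : 0 ≤ D)
    (hf : ∀ b ∈ S.BB, ∀ z, (S.XK K).coeff z ≠ 0 → |f (S.dl c b * z) - f z| ≤ D) :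
    |ev (pt (S.dl c b0) * S.XK K) f - ev (S.XK K) f| ≤ D / 2 := by
  have hC := top_corr S K
  have hC' := Corr_mul (Corr_pt (dl_pair c hb0)) hC
  rw [Corr_ev hC', Corr_ev hC, ev_mul, ev_pt, ev_Ex, ev_Ex]
  have h1 := Ex_abs_sub K
    (fun l => ev (avg fun z : ZMod 2 => TT S l z) (fun w => S.hat f (cp c b0 * w)))
    (fun l => ev (avg fun z : ZMod 2 => TT S l z) (S.hat f))
    (fun l => 2 * D * Real.sqrt (He (pt b0 * pc S c l) (pc S c l))) (by
      intro l hl
      rw [ev_avg, ev_avg]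
      refine avg_abs_sub _ _ _ fun z => ?_
      have h2 := TT_bound c K l hl z b0 hb0 f D hf
      rw [ev_mul, ev_pt] at h2
      have e : 2 * Real.sqrt (He (pt b0 * pc S c l) (pc S c l)) * D =
        2 * D * Real.sqrt (He (pt b0 * pc S c l) (pc S c l)) := by ring
      rw [e] at h2
      exact h2)
  rw [Ex_smul] at h1
  have h2 := Ex_sqrt K (fun l => He (pt b0 * pc S c l) (pc S c l)) (fun l => He_nonneg _ _) hE
  have h3 := mul_le_mul_of_nonneg_left h2 (by linarith : 0 ≤ 2 * D)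
  refine h1.trans (h3.trans (by linarith))

theorem top_b (c : Bool) {b : G} (hb : b ∈ S.BB) : ∃ C : ℝ, 0 ≤ C ∧ ∀ K : ℕ,
    Ex K (fun l => He (pt b * pc S c l) (pc S c l)) ≤ C * ((K : ℝ) + 1) ^ (-(1 / 2 : ℝ)) := by
  cases c
  · exact top_b0 S hb
  · exact top_b1 S hb

/-- A common number of steps for a finite set. -/
theorem exists_K (c : Bool) (Fs : Finset G) (hFs : ∀ f ∈ Fs, f ∈ S.BB) :
    ∃ K : ℕ, ∀ f ∈ Fs, Ex K (fun l => He (pt f * pc S c l) (pc S c l)) ≤ 1 / 16 := by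
  classical
  have hch : ∀ f : G, ∃ C : ℝ, 0 ≤ C ∧ (f ∈ Fs → ∀ K : ℕ,
      Ex K (fun l => He (pt f * pc S c l) (pc S c l)) ≤ C * ((K : ℝ) + 1) ^ (-(1 / 2 : ℝ))) := by
    intro f
    by_cases hf : f ∈ Fs
    · obtain ⟨C, hC, h⟩ := top_b c (hFs f hf)
      exact ⟨C, hC, fun _ => h⟩
    · exact ⟨0, le_refl 0, fun h => absurd h hf⟩
  choose C hC0 hC using hch
  set A : ℝ := ∑ f ∈ Fs, C f with hA
  have hA0 : 0 ≤ A := Finset.sum_nonneg fun f _ => hC0 f
  obtain ⟨K, hK⟩ := exists_nat_ge ((16 * A + 1) ^ 2)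
  refine ⟨K, fun f hf => ?_⟩
  have h1 : C f ≤ A := Finset.single_le_sum (fun f _ => hC0 f) hf
  have hK1 : (0 : ℝ) < (K : ℝ) + 1 := by positivity
  have h2 : (16 * A + 1) ≤ ((K : ℝ) + 1) ^ (1 / 2 : ℝ) := by
    rw [← Real.sqrt_eq_rpow]
    exact Real.le_sqrt_of_sq_le (by linarith)
  have h3 : ((K : ℝ) + 1) ^ (-(1 / 2 : ℝ)) ≤ (16 * A + 1)⁻¹ := by
    rw [Real.rpow_neg hK1.le]
    exact inv_anti₀ (by linarith) h2
  refine (hC f hf K).trans ?_
  calc C f * ((K : ℝ) + 1) ^ (-(1 / 2 : ℝ)) ≤ A * (16 * A + 1)⁻¹ :=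
        mul_le_mul h1 h3 (Real.rpow_nonneg hK1.le _) hA0
    _ ≤ 1 / 16 := by
        rw [← div_eq_mul_inv, div_le_div_iff₀ (by linarith) (by norm_num)]
        linarith

/-- Conjugation of `dl` by an element of the stabiliser. -/
theorem conj_dl (c : Bool) (y : G) (hy : S.root y = false) :
    ∃ u : G, ∀ b ∈ S.BB, y * S.dl c b = S.dl c (u * b * u⁻¹) * y := by
  have hp := IsPair_sec hy
  cases c
  · refine ⟨S.sec false y, fun b hb => ?_⟩
    rw [← dl_conj_false S hp hb]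
    group
  · refine ⟨S.sec true y, fun b hb => ?_⟩
    rw [← dl_conj_true S hp hb]
    group

theorem root_false_mul {x y : G} (hx : S.root x = false) (hy : S.root y = false) :
    S.root (x * y) = false := by
  rw [S.root_mul, hx, hy]
  rfl

end MisAux

open MisAux

/-- One step of the iteration. -/
theorem mix_step (c : Bool) : ∃ K : ℕ, ∀ (F : G → ℝ), (∀ x, act (S.XK K) F x = F x) →
    (∀ l ∈ S.LB, ∀ y, S.root y = false → F (S.dl c l * y) = F y) →
    ∀ (D : ℝ) (y : G), S.root y = false →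
      (∀ b ∈ S.BB, ∀ z, (S.XK K).coeff z ≠ 0 → |F (S.dl c b * (y * z)) - F (y * z)| ≤ D) →
      ∀ b ∈ S.BB, |F (S.dl c b * y) - F y| ≤ D / 2 := by
  obtain ⟨Fs, hFs, hcov⟩ := LB_cover S
  obtain ⟨K, hK⟩ := exists_K c Fs hFs
  refine ⟨K, ?_⟩
  intro F hF hLB D y hy hD b hb
  have hD0 : 0 ≤ D := by
    obtain ⟨z, hz⟩ := exists_supp (law_XK S K)
    exact (abs_nonneg _).trans (hD 1 (BB_one S) z hz)
  obtain ⟨u, hu⟩ := conj_dl (S := S) c y hy
  have hg : u⁻¹ * b * u ∈ S.BB := by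
    have := BB_conj S hb u⁻¹
    rwa [inv_inv] at this
  obtain ⟨f, hfF, hfl⟩ := hcov _ hg
  have hfB := hFs f hfF
  set l' : G := f⁻¹ * (u⁻¹ * b * u) with hl'
  -- the translate of y
  have hy2 : S.dl c b * y = y * S.dl c (u⁻¹ * b * u) := by
    rw [hu _ hg]
    congr 2
    group
  have hgl : u⁻¹ * b * u = (f * l' * f⁻¹) * f := by
    rw [hl']; group
  have hlc : f * l' * f⁻¹ ∈ S.LB := LB_conj S hfl f
  have hdl : S.dl c (u⁻¹ * b * u) = S.dl c (f * l' * f⁻¹) * S.dl c f := by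
    rw [hgl, dl_mul S c (LB_le_BB S hlc) hfB]
  have h1 : F (S.dl c b * y) = ev (pt (S.dl c f) * S.XK K) (fun z => F (y * z)) := by
    rw [← hF (S.dl c b * y), ev_mul, ev_pt]
    unfold act
    refine ev_congr _ _ _ fun z hz => ?_
    have hrz := (supp_XK S K z hz).1
    have e : S.dl c b * y * z =
        S.dl c (u * (f * l' * f⁻¹) * u⁻¹) * (y * (S.dl c f * z)) := by
      rw [hy2, hdl, ← mul_assoc y, hu _ (LB_le_BB S hlc)]
      simp only [mul_assoc]
    rw [e]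
    exact hLB _ (LB_conj S hlc u) _
      (root_false_mul hy (root_false_mul (root_dl S c hfB) hrz))
  have h2 : F y = ev (S.XK K) (fun z => F (y * z)) := by
    conv_lhs => rw [← hF y]
    rfl
  rw [h1, h2]
  refine core c K f hfB (hK f hfF) (fun z => F (y * z)) D hD0 ?_
  intro b' hb' z hz
  have e : y * (S.dl c b' * z) = S.dl c (u * b' * u⁻¹) * (y * z) := by
    rw [← mul_assoc, hu _ hb', mul_assoc]
  simp only [e]
  exact hD _ (BB_conj S hb' u) z hz

end Pool.Agent.PHF
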