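import Pool.Agent.PHF.Mis
import Pool.Agent.PHF.Alh

set_option autoImplicit false

namespace Pool.Agent.PHF

/-! Module MIX: from LB to BB by iteration. -/

variable {G : Type} [Group G] {S : SGp G}

theorem Mix_root_mul {x y : G} (hx : S.root x = false) (hy : S.root y = false) :
    S.root (x * y) = false := by
  rw [S.root_mul, hx, hy]; rfl

theorem Mix_tendsto (A B : ℝ) :
    Filter.Tendsto (fun n : ℕ => (A + B * n) / 2 ^ n) Filter.atTop (nhds 0) := by
  have h1 : Filter.Tendsto (fun n : ℕ => (1 / 2 : ℝ) ^ n) Filter.atTop (nhds 0) :=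
    tendsto_pow_atTop_nhds_zero_of_lt_one (by norm_num) (by norm_num)
  have h2 : Filter.Tendsto (fun n : ℕ => (n : ℝ) * (1 / 2 : ℝ) ^ n) Filter.atTop (nhds 0) :=
    tendsto_self_mul_const_pow_of_lt_one (by norm_num) (by norm_num)
  have h3 := (h1.const_mul A).add (h2.const_mul B)
  simp only [mul_zero, add_zero] at h3
  refine h3.congr fun n => ?_
  rw [one_div, inv_pow, div_eq_mul_inv]
  ring

theorem mix (c : Bool) (F : G → ℝ) (hF : ∀ K x, act (S.XK K) F x = F x)
    (hlin : ∃ C : ℝ, ∀ x, |F x| ≤ C * (1 + S.len x))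
    (hinv : ∀ l ∈ S.LB, ∀ y, S.root y = false → F (S.dl c l * y) = F y) :
    ∀ b ∈ S.BB, ∀ y, S.root y = false → F (S.dl c b * y) = F y := by
  classical
  obtain ⟨K, hK⟩ := mix_step (S := S) c
  obtain ⟨C, hC⟩ := hlin
  obtain ⟨D0, hD0, hcov⟩ := LB_cover S
  obtain ⟨L, hL⟩ := len_bound S (D0.image fun f => S.dl c f)
  have hC0 : 0 ≤ C := by
    have h1 := hC 1
    rw [len_one] at h1
    have h2 := abs_nonneg (F 1)
    have h3 : C * (1 + ((0 : ℕ) : ℝ)) = C := by push_cast; ring
    rw [h3] at h1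
    linarith
  have hbound : ∀ b ∈ S.BB, ∀ y, S.root y = false →
      |F (S.dl c b * y) - F y| ≤ C * (2 + L + 2 * S.len y) := by
    intro b hb y hy
    obtain ⟨f, hf, hfb⟩ := hcov b hb
    have hfB := hD0 f hf
    have hl' : f * (f⁻¹ * b) * f⁻¹ ∈ S.LB := LB_conj S hfb f
    have hb' : f * (f⁻¹ * b) * f⁻¹ * f = b := by group
    have e1 : S.dl c b = S.dl c (f * (f⁻¹ * b) * f⁻¹) * S.dl c f := by
      rw [← dl_mul S c (LB_le_BB S hl') hfB, hb']
    have e2 : F (S.dl c b * y) = F (S.dl c f * y) := by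
      rw [e1, mul_assoc]
      exact hinv _ hl' _ (Mix_root_mul (root_dl S c hfB) hy)
    rw [e2]
    have h1 := hC (S.dl c f * y)
    have h2 := hC y
    have h3 : S.len (S.dl c f * y) ≤ L + S.len y :=
      (len_mul_le S _ _).trans (Nat.add_le_add_right (hL _ (Finset.mem_image_of_mem _ hf)) _)
    have h4 : (S.len (S.dl c f * y) : ℝ) ≤ L + S.len y := by exact_mod_cast h3
    have h5 : |F (S.dl c f * y) - F y| ≤ |F (S.dl c f * y)| + |F y| := abs_sub _ _
    have h6 := mul_le_mul_of_nonneg_left h4 hC0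
    nlinarith
  have hiter : ∀ n : ℕ, ∀ y, S.root y = false → ∀ b ∈ S.BB,
      |F (S.dl c b * y) - F y| ≤
        C * (2 + L + 2 * (S.len y + n * (2 * K + 1))) / 2 ^ n := by
    intro n
    induction n with
    | zero =>
      intro y hy b hb
      have := hbound b hb y hy
      simpa using this
    | succ n ih =>
      intro y hy b hb
      have h1 := hK F (hF K) hinv (C * (2 + L + 2 * (S.len y + (n + 1) * (2 * K + 1))) / 2 ^ n) y hy
        (fun b' hb' z hz => by
          obtain ⟨hz1, hz2⟩ := supp_XK S K z hz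
          have h2 := ih (y * z) (Mix_root_mul hy hz1) b' hb'
          have h3 : S.len (y * z) ≤ S.len y + (2 * K + 1) :=
            (len_mul_le S _ _).trans (Nat.add_le_add_left hz2 _)
          have h4 : (S.len (y * z) : ℝ) ≤ S.len y + (2 * K + 1) := by exact_mod_cast h3
          refine h2.trans ?_
          have h5 : (0 : ℝ) < 2 ^ n := by positivity
          rw [div_le_div_iff_of_pos_right h5]
          refine mul_le_mul_of_nonneg_left ?_ hC0
          linarith) b hb
      refine h1.trans (le_of_eq ?_)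
      rw [pow_succ]
      push_cast
      field_simp
  intro b hb y hy
  have h1 : Filter.Tendsto (fun n : ℕ => (C * (2 + L + 2 * S.len y) +
      C * (2 * (2 * K + 1)) * n) / 2 ^ n) Filter.atTop (nhds 0) := Mix_tendsto _ _
  have h2 : |F (S.dl c b * y) - F y| ≤ 0 := by
    refine ge_of_tendsto' h1 fun n => ?_
    refine (hiter n y hy b hb).trans (le_of_eq ?_)
    congr 1
    ring
  have h3 := abs_nonpos_iff.1 h2
  linarith

end Pool.Agent.PHF
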