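import Pool.Agent.PHF.Alh

set_option autoImplicit false

namespace Pool.Agent.PHF

/-! Module MARG: averages of a sum of functions of the two sections. -/

variable {G : Type} [Group G] {S : SGp G}

/-- The rotation of four bits. -/
def Mrg_rot : (Fin 4 → ZMod 2) ≃ (Fin 4 → ZMod 2) where
  toFun x := ![x 1, x 2, x 3, x 0]
  invFun y := ![y 3, y 0, y 1, y 2]
  left_inv x := by
    funext i; fin_cases i <;> rfl
  right_inv x := by
    funext i; fin_cases i <;> rfl

theorem Mrg_avg_zero (f : ZMod 2 → ℝ) : (avg fun x : Fin 4 → ZMod 2 => f (x 0)) = avg f := by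
  have h := avg_equiv (Fin.consEquiv fun _ : Fin 4 => ZMod 2) (fun x : Fin 4 → ZMod 2 => f (x 0))
  rw [← h, avg_prod]
  congr 1
  funext s
  exact avg_const (f s)

theorem Mrg_act_mV (φ : G → ℝ) (g : G) :
    act S.mV φ g = avg fun x : Fin 4 → ZMod 2 => φ (g * S.vv x) := by
  rw [mV_eq_avg]
  unfold act
  rw [ev_avg]
  congr 1
  funext x
  rw [ev_pt]

theorem Mrg_act_mA (φ : G → ℝ) (g : G) :
    act S.mA φ g = avg fun s : ZMod 2 => φ (g * pw S.a s) := by
  unfold SGp.mA
  rw [hh_eq_avg]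
  unfold act
  rw [ev_avg]
  congr 1
  funext x
  rw [ev_pt]

theorem Mrg_pair {g x y h x' y' : G} (hg : IsPair S g x y) (hh : IsPair S h x' y') :
    S.root (g * h) = false ∧ S.sec false (g * h) = x * x' ∧ S.sec true (g * h) = y * y' :=
  IsPair_mul hg hh

theorem marg_Z0 (u w φ : G → ℝ)
    (h : ∀ g, S.root g = false → φ g = u (S.sec false g) + w (S.sec true g)) (g : G)
    (hg : S.root g = false) :
    act S.Z0 φ g = act S.mV u (S.sec false g) + act S.mA w (S.sec true g) := by
  have h1 : act S.Z0 φ g = avg fun x : Fin 4 → ZMod 2 => φ (g * (S.a * S.vv x * S.a)) := by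
    unfold SGp.Z0
    rw [act_mul, act_mul, act_pt, Mrg_act_mV]
    congr 1
    funext x
    rw [act_pt]
    simp only [mul_assoc]
  have h2 : ∀ x : Fin 4 → ZMod 2, φ (g * (S.a * S.vv x * S.a)) =
      u (S.sec false g * S.vv ![x 1, x 2, x 3, x 0]) + w (S.sec true g * pw S.a (x 0)) := by
    intro x
    obtain ⟨ha, hb, hc⟩ := Mrg_pair (IsPair_sec hg) (IsPair_conj_a (IsPair_vv S x))
    rw [h _ ha, hb, hc]
  rw [h1, funext h2, avg_add, Mrg_act_mV, Mrg_act_mA]
  congr 1
  · exact avg_equiv Mrg_rot (fun x => u (S.sec false g * S.vv x))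
  · exact Mrg_avg_zero (fun s => w (S.sec true g * pw S.a s))

theorem marg_mV (u w φ : G → ℝ)
    (h : ∀ g, S.root g = false → φ g = u (S.sec false g) + w (S.sec true g)) (g : G)
    (hg : S.root g = false) :
    act S.mV φ g = act S.mA u (S.sec false g) + act S.mV w (S.sec true g) := by
  have h2 : ∀ x : Fin 4 → ZMod 2, φ (g * S.vv x) =
      u (S.sec false g * pw S.a (x 0)) + w (S.sec true g * S.vv ![x 1, x 2, x 3, x 0]) := by
    intro x
    obtain ⟨ha, hb, hc⟩ := Mrg_pair (IsPair_sec hg) (IsPair_vv S x)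
    rw [h _ ha, hb, hc]
  rw [Mrg_act_mV, funext h2, avg_add, Mrg_act_mV, Mrg_act_mA]
  congr 1
  · exact Mrg_avg_zero (fun s => u (S.sec false g * pw S.a s))
  · exact avg_equiv Mrg_rot (fun x => w (S.sec true g * S.vv x))

end Pool.Agent.PHF
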