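import Pool.Agent.PHF.Exa
import Pool.Agent.PHF.Mix

set_option autoImplicit false

namespace Pool.Agent.PHF

/-! Module MXD: mixed differences vanish for BB x BB. -/

variable {G : Type} [Group G] {S : SGp G}

namespace MxdAux

theorem F_XK {f : G → ℝ} (hf : S.Harm f) (x g : G) (K : ℕ) (z : G) :
    act (S.XK K) (fun y => S.chi f (x * g * y) - S.chi f (x * y)) z =
      S.chi f (x * g * z) - S.chi f (x * z) := by
  rw [act_fsub, act_left, act_left, chi_XK hf]

theorem F_lin {f : G → ℝ} (hf : S.Dcl f) (x g : G) :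
    ∃ C : ℝ, ∀ y, |S.chi f (x * g * y) - S.chi f (x * y)| ≤ C * (1 + S.len y) := by
  obtain ⟨C, hC0, hC⟩ := chi_lin hf
  refine ⟨C * (1 + S.len (x * g)) + C * (1 + S.len x), fun y => ?_⟩
  have key : ∀ u : G, |S.chi f (u * y)| ≤ C * (1 + S.len u) * (1 + S.len y) := by
    intro u
    refine (hC _).trans ?_
    have h1 : (S.len (u * y) : ℝ) ≤ S.len u + S.len y := by exact_mod_cast len_mul_le S u y
    have h2 : (0 : ℝ) ≤ S.len u := Nat.cast_nonneg _
    have h3 : (0 : ℝ) ≤ S.len y := Nat.cast_nonneg _
    rw [mul_assoc]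
    apply mul_le_mul_of_nonneg_left _ hC0
    nlinarith
  have h1 := key (x * g)
  have h2 := key x
  calc |S.chi f (x * g * y) - S.chi f (x * y)|
      ≤ |S.chi f (x * g * y)| + |S.chi f (x * y)| := abs_sub _ _
    _ ≤ _ := by nlinarith

/-- moving an element of the stabiliser to the left across two elements -/
theorem move_tf {y y0 y1 b b' : G} (hy : IsPair S y y0 y1) (hb : b ∈ S.BB) (hb' : b' ∈ S.BB) :
    S.dl false b * (S.dl true b' * y) =
      y * S.dl false (y0⁻¹ * b * y0) * S.dl true (y1⁻¹ * b' * y1) := by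
  have hi := IsPair_inv hy
  have h1 := dl_conj_false S hi hb
  have h2 := dl_conj_true S hi hb'
  rw [inv_inv, inv_inv] at h1 h2
  rw [← h1, ← h2]
  group

theorem move_f {y y0 y1 b : G} (hy : IsPair S y y0 y1) (hb : b ∈ S.BB) :
    S.dl false b * y = y * S.dl false (y0⁻¹ * b * y0) := by
  have hi := IsPair_inv hy
  have h1 := dl_conj_false S hi hb
  rw [inv_inv, inv_inv] at h1
  rw [← h1]
  group

theorem move_t {y y0 y1 b : G} (hy : IsPair S y y0 y1) (hb : b ∈ S.BB) :
    S.dl true b * y = y * S.dl true (y1⁻¹ * b * y1) := by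
  have hi := IsPair_inv hy
  have h1 := dl_conj_true S hi hb
  rw [inv_inv, inv_inv] at h1
  rw [← h1]
  group

theorem LB_conj' {g : G} (hg : g ∈ S.LB) (x : G) : x⁻¹ * g * x ∈ S.LB := by
  have := LB_conj S hg x⁻¹
  rwa [inv_inv] at this

theorem BB_conj' {g : G} (hg : g ∈ S.BB) (x : G) : x⁻¹ * g * x ∈ S.BB := by
  have := BB_conj S hg x⁻¹
  rwa [inv_inv] at this

/-- first application of `mix` -/
theorem mixed1 {f : G → ℝ} (hf : S.Dcl f) {b b' : G} (hb : b ∈ S.LB) (hb' : b' ∈ S.BB)
    (x : G) :
    S.chi f (x * S.dl false b * S.dl true b') - S.chi f (x * S.dl false b) -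
      S.chi f (x * S.dl true b') + S.chi f x = 0 := by
  have hbB := LB_le_BB S hb
  have h := mix (S := S) true (fun y => S.chi f (x * S.dl false b * y) - S.chi f (x * y))
    (fun K z => F_XK hf.harm x (S.dl false b) K z) (F_lin hf x (S.dl false b)) (by
      intro l hl y hy
      have hlB := LB_le_BB S hl
      have hp := IsPair_sec (S := S) hy
      have e := ext1 hf (LB_conj' hb (S.sec false y)) (LB_conj' hl (S.sec true y)) (x * y)
      have e1 : x * S.dl false b * (S.dl true l * y) =
          x * y * S.dl false ((S.sec false y)⁻¹ * b * S.sec false y) *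
            S.dl true ((S.sec true y)⁻¹ * l * S.sec true y) := by
        rw [mul_assoc x, move_tf hp hbB hlB]
        simp only [mul_assoc]
      have e2 : x * (S.dl true l * y) =
          x * y * S.dl true ((S.sec true y)⁻¹ * l * S.sec true y) := by
        rw [move_t hp hlB, ← mul_assoc]
      have e3 : x * S.dl false b * y =
          x * y * S.dl false ((S.sec false y)⁻¹ * b * S.sec false y) := by
        rw [mul_assoc x, move_f hp hbB, ← mul_assoc]
      show S.chi f (x * S.dl false b * (S.dl true l * y)) - S.chi f (x * (S.dl true l * y)) =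
        S.chi f (x * S.dl false b * y) - S.chi f (x * y)
      rw [e1, e2, e3]
      linarith) b' hb' 1 (root_one S)
  simp only [mul_one] at h
  linarith

end MxdAux

open MxdAux

theorem mixed_chi {f : G → ℝ} (hf : S.Dcl f) {b b' : G} (hb : b ∈ S.BB) (hb' : b' ∈ S.BB)
    (x : G) :
    S.chi f (x * S.dl false b * S.dl true b') - S.chi f (x * S.dl false b) -
      S.chi f (x * S.dl true b') + S.chi f x = 0 := by
  have h := mix (S := S) false (fun y => S.chi f (x * S.dl true b' * y) - S.chi f (x * y))
    (fun K z => F_XK hf.harm x (S.dl true b') K z) (F_lin hf x (S.dl true b')) (by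
      intro l hl y hy
      have hlB := LB_le_BB S hl
      have hp := IsPair_sec (S := S) hy
      have e := mixed1 hf (LB_conj' hl (S.sec false y)) (BB_conj' hb' (S.sec true y)) (x * y)
      have e1 : x * S.dl true b' * (S.dl false l * y) =
          x * y * S.dl false ((S.sec false y)⁻¹ * l * S.sec false y) *
            S.dl true ((S.sec true y)⁻¹ * b' * S.sec true y) := by
        rw [mul_assoc x, ← mul_assoc (S.dl true b'), ← dl_comm S hlB hb', mul_assoc (S.dl false l),
          move_tf hp hlB hb']
        simp only [mul_assoc]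
      have e2 : x * (S.dl false l * y) =
          x * y * S.dl false ((S.sec false y)⁻¹ * l * S.sec false y) := by
        rw [move_f hp hlB, ← mul_assoc]
      have e3 : x * S.dl true b' * y =
          x * y * S.dl true ((S.sec true y)⁻¹ * b' * S.sec true y) := by
        rw [mul_assoc x, move_t hp hb', ← mul_assoc]
      show S.chi f (x * S.dl true b' * (S.dl false l * y)) - S.chi f (x * (S.dl false l * y)) =
        S.chi f (x * S.dl true b' * y) - S.chi f (x * y)
      rw [e1, e2, e3]
      linarith) b hb 1 (root_one S)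
  simp only [mul_one] at h
  have e0 : x * S.dl true b' * S.dl false b = x * S.dl false b * S.dl true b' := by
    rw [mul_assoc, ← dl_comm S hb hb', mul_assoc]
  rw [e0] at h
  linarith

theorem mixed {f : G → ℝ} (hf : S.Dcl f) {b b' : G} (hb : b ∈ S.BB) (hb' : b' ∈ S.BB)
    (x : G) :
    act S.mA f (x * S.dl false b * S.dl true b') - act S.mA f (x * S.dl false b) -
      act S.mA f (x * S.dl true b') + act S.mA f x = 0 := by
  have key : ∀ y, act S.mA f y = (S.chi f y + S.chi f (y * S.a)) / 2 := by
    intro y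
    rw [phi_eq hf.harm y, mV_phi_eq, chi_eq]
  have h1 := mixed_chi hf hb hb' x
  have h2 := mixed_chi hf hb' hb (x * S.a)
  have ha : ∀ c : Bool, ∀ g ∈ S.BB, S.dl c g * S.a = S.a * S.dl (!c) g := by
    intro c g hg
    rw [← dl_conj_a S c hg, ← mul_assoc, ← mul_assoc, S.a_sq, one_mul]
  have e1 : x * S.dl false b * S.dl true b' * S.a = x * S.a * S.dl false b' * S.dl true b := by
    rw [mul_assoc, ha true b' hb', mul_assoc x, ← mul_assoc (S.dl false b), ha false b hb]
    show x * (S.a * S.dl true b * S.dl false b') = _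
    rw [mul_assoc S.a, ← dl_comm S hb' hb]
    simp only [mul_assoc]
  have e2 : x * S.dl false b * S.a = x * S.a * S.dl true b := by
    rw [mul_assoc, ha false b hb, ← mul_assoc]
    rfl
  have e3 : x * S.dl true b' * S.a = x * S.a * S.dl false b' := by
    rw [mul_assoc, ha true b' hb', ← mul_assoc]
    rfl
  rw [key, key, key, key, e1, e2, e3]
  linarith

end Pool.Agent.PHF
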