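import Pool.Agent.PHF.Alh
import Pool.Agent.PHF.Fnt

set_option autoImplicit false

namespace Pool.Agent.PHF

/-! Module POIS: the Poisson equation on the finite quotient. -/

variable {G : Type} [Group G] {S : SGp G}

namespace PoiAux

variable (S)

/-- BB as a subgroup. -/
def BBs : Subgroup G where
  carrier := S.BB
  one_mem' := BB_one S
  mul_mem' := fun hx hy => BB_mul S hx hy
  inv_mem' := fun hx => BB_inv S hx

instance : (BBs S).Normal := ⟨fun _ hn g => BB_conj S hn g⟩

theorem mem_BBs (x : G) : x ∈ BBs S ↔ x ∈ S.BB := Iff.rfl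

theorem finite_quot : Finite (G ⧸ BBs S) := by
  obtain ⟨F, hF⟩ := BB_cover S
  apply Finite.of_surjective (fun f : F => (f.1 : G ⧸ BBs S))
  intro q
  obtain ⟨g, rfl⟩ := QuotientGroup.mk_surjective q
  obtain ⟨f, hf, h⟩ := hF g
  exact ⟨⟨f, hf⟩, QuotientGroup.eq.2 h⟩

/-- The averaging operator on functions on the quotient. -/
noncomputable def Pop (u : G ⧸ BBs S → ℝ) (q : G ⧸ BBs S) : ℝ :=
  (ev S.mA (fun z => u (q * (z : G ⧸ BBs S))) + ev S.mV (fun z => u (q * (z : G ⧸ BBs S)))) / 2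

theorem ev_finsum {ι : Type} [Fintype ι] (p : GA G) (f : ι → G → ℝ) :
    ∑ i, ev p (f i) = ev p (fun z => ∑ i, f i z) := by
  unfold ev
  simp only [Finsupp.sum, Finset.mul_sum]
  exact Finset.sum_comm

theorem sum_Pop [Fintype (G ⧸ BBs S)] (u : G ⧸ BBs S → ℝ) : ∑ q, Pop S u q = ∑ q, u q := by
  unfold Pop
  rw [← Finset.sum_div, Finset.sum_add_distrib, ev_finsum, ev_finsum]
  have h : ∀ z : G, ∑ q : G ⧸ BBs S, u (q * (z : G ⧸ BBs S)) = ∑ q, u q := fun z =>
    Equiv.sum_comp (Equiv.mulRight (z : G ⧸ BBs S)) u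
  simp only [h]
  rw [ev_const S.mA, ev_const S.mV, (law_mA S).mass, (law_mV S).mass]
  ring

theorem mV_apply (f : G → ℝ) : ev S.mV f = avg fun v : Fin 4 → ZMod 2 => f (S.vv v) := by
  rw [mV_eq_avg, ev_avg]
  simp only [ev_pt]

theorem mA_apply (f : G → ℝ) : ev S.mA f = (f 1 + f S.a) / 2 := by
  unfold SGp.mA hh
  rw [ev_smul, ev_add, ev_one, ev_pt]
  ring

/-- maximum principle -/
theorem const_of_harm (u : G ⧸ BBs S → ℝ) (hu : ∀ q, Pop S u q = u q) (q q' : G ⧸ BBs S) :
    u q = u q' := by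
  have hfin := finite_quot S
  obtain ⟨q0, h0⟩ := Finite.exists_max u
  have hstep : ∀ q, u q = u q0 → u (q * (S.a : G ⧸ BBs S)) = u q0 ∧
      ∀ i, u (q * (S.e i : G ⧸ BBs S)) = u q0 := by
    intro q hq
    have h1 := hu q
    unfold Pop at h1
    have h2 : ev S.mA (fun z => u (q * (z : G ⧸ BBs S))) ≤ u q0 := by
      have := ev_mono _ (law_mA S).nn (fun z => u (q * (z : G ⧸ BBs S))) (fun _ => u q0)
        (fun z _ => h0 _)
      rwa [ev_const, (law_mA S).mass, mul_one] at this
    have h3 : ev S.mV (fun z => u (q * (z : G ⧸ BBs S))) ≤ u q0 := by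
      have := ev_mono _ (law_mV S).nn (fun z => u (q * (z : G ⧸ BBs S))) (fun _ => u q0)
        (fun z _ => h0 _)
      rwa [ev_const, (law_mV S).mass, mul_one] at this
    have h4 : ev S.mA (fun z => u (q * (z : G ⧸ BBs S))) = u q0 := by linarith
    have h5 : ev S.mV (fun z => u (q * (z : G ⧸ BBs S))) = u q0 := by linarith
    constructor
    · rw [mA_apply] at h4
      have h6 : u (q * ((1 : G) : G ⧸ BBs S)) = u q0 := by
        rw [QuotientGroup.mk_one, mul_one, hq]
      linarith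
    · intro i
      rw [mV_apply] at h5
      by_contra hne
      have hlt : u (q * (S.e i : G ⧸ BBs S)) < u q0 := lt_of_le_of_ne (h0 _) hne
      have h7 : (avg fun v : Fin 4 → ZMod 2 => u (q * (S.vv v : G ⧸ BBs S))) <
          avg fun _ : Fin 4 → ZMod 2 => u q0 := by
        unfold avg
        rw [smul_eq_mul, smul_eq_mul]
        apply mul_lt_mul_of_pos_left
        · apply Finset.sum_lt_sum (fun v _ => h0 _)
          exact ⟨Pi.single i 1, Finset.mem_univ _, by rw [vv_single]; exact hlt⟩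
        · rw [inv_pos]
          exact_mod_cast Fintype.card_pos
      rw [avg_const] at h7
      linarith
  have hall : ∀ g : G, u (q0 * (g : G ⧸ BBs S)) = u q0 := by
    intro g
    induction g using G_induction S with
    | h1 => rw [QuotientGroup.mk_one, mul_one]
    | ha x ih =>
      rw [QuotientGroup.mk_mul, ← mul_assoc]
      exact (hstep _ ih).1
    | he x i ih =>
      rw [QuotientGroup.mk_mul, ← mul_assoc]
      exact (hstep _ ih).2 i
  have hall' : ∀ q, u q = u q0 := by
    intro q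
    obtain ⟨g, hg⟩ := QuotientGroup.mk_surjective (q0⁻¹ * q)
    have := hall g
    rw [hg, mul_inv_cancel_left] at this
    exact this
  rw [hall' q, hall' q']

/-- The operator whose surjectivity is needed. -/
noncomputable def Lop [Fintype (G ⧸ BBs S)] : (G ⧸ BBs S → ℝ) →ₗ[ℝ] (G ⧸ BBs S → ℝ) where
  toFun u q := u q - Pop S u q + ∑ r, u r
  map_add' u v := by
    funext q
    simp only [Pop, Pi.add_apply, Finset.sum_add_distrib, ev_fadd]
    ring
  map_smul' c u := by
    funext q
    simp only [Pop, Pi.smul_apply, smul_eq_mul, ev_fsmul, ← Finset.mul_sum, RingHom.id_apply]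
    ring

end PoiAux

theorem poisson (d : G → ℝ) (hd : ∀ g, ∀ b ∈ S.BB, d (g * b) = d g) :
    ∃ (u : G → ℝ) (c : ℝ), (∀ g, ∀ b ∈ S.BB, u (g * b) = u g) ∧
      ∀ g, u g - (act S.mA u g + act S.mV u g) / 2 = d g - c := by
  have hfin := PoiAux.finite_quot S
  have : Fintype (G ⧸ PoiAux.BBs S) := Fintype.ofFinite _
  have hinj : Function.Injective (PoiAux.Lop S) := by
    rw [← LinearMap.ker_eq_bot, LinearMap.ker_eq_bot']
    intro u hu
    have h1 : ∀ q, u q - PoiAux.Pop S u q + ∑ r, u r = 0 := fun q => congrFun hu q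
    have hcard : (0 : ℝ) < Fintype.card (G ⧸ PoiAux.BBs S) := by
      exact_mod_cast Fintype.card_pos
    have h2 : (Fintype.card (G ⧸ PoiAux.BBs S) : ℝ) * ∑ r, u r = 0 := by
      have h3 : ∑ q, (u q - PoiAux.Pop S u q + ∑ r, u r) = 0 :=
        Finset.sum_eq_zero fun q _ => h1 q
      rw [Finset.sum_add_distrib, Finset.sum_sub_distrib, PoiAux.sum_Pop, sub_self, zero_add,
        Finset.sum_const, Finset.card_univ, nsmul_eq_mul] at h3
      exact h3
    have h4 : ∑ r, u r = 0 := by
      rcases mul_eq_zero.1 h2 with h | h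
      · exact absurd h hcard.ne'
      · exact h
    have h5 : ∀ q, PoiAux.Pop S u q = u q := by
      intro q
      have := h1 q
      rw [h4] at this
      linarith
    have h6 := PoiAux.const_of_harm S u h5
    funext q
    have h7 : ∑ r, u r = (Fintype.card (G ⧸ PoiAux.BBs S) : ℝ) * u q := by
      rw [Finset.sum_congr rfl fun r _ => h6 r q, Finset.sum_const, Finset.card_univ,
        nsmul_eq_mul]
    rw [h4] at h7
    rcases mul_eq_zero.1 h7.symm with h | h
    · exact absurd h hcard.ne'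
    · exact h
  have hsurj := LinearMap.injective_iff_surjective.1 hinj
  obtain ⟨u, hu⟩ := hsurj fun q => d q.out
  refine ⟨fun g => u (g : G ⧸ PoiAux.BBs S), ∑ r, u r, ?_, ?_⟩
  · intro g b hb
    have : ((g * b : G) : G ⧸ PoiAux.BBs S) = (g : G ⧸ PoiAux.BBs S) := by
      rw [QuotientGroup.eq]
      have h2 : (g * b)⁻¹ * g = b⁻¹ := by group
      rw [h2]
      exact BB_inv S hb
    show u _ = u _
    rw [this]
  · intro g
    have h1 : u (g : G ⧸ PoiAux.BBs S) - PoiAux.Pop S u g + ∑ r, u r =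
        d (g : G ⧸ PoiAux.BBs S).out := congrFun hu (g : G ⧸ PoiAux.BBs S)
    obtain ⟨b, hb⟩ := QuotientGroup.mk_out_eq_mul (PoiAux.BBs S) g
    rw [hb, hd g b.1 b.2] at h1
    have h2 : PoiAux.Pop S u g = (act S.mA (fun g => u (g : G ⧸ PoiAux.BBs S)) g +
        act S.mV (fun g => u (g : G ⧸ PoiAux.BBs S)) g) / 2 := rfl
    rw [← h2]
    show u (g : G ⧸ PoiAux.BBs S) - _ = _
    linarith

end Pool.Agent.PHF
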