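import Pool.Agent.PHF.Adv
import Pool.Agent.PHF.Mrg
import Pool.Agent.PHF.Poi

set_option autoImplicit false

namespace Pool.Agent.PHF

/-! Module REC: the recursion. -/

variable {G : Type} [Group G] {S : SGp G}

namespace RecAux

/-- The averaging operator of the random walk. -/
noncomputable def PP (S : SGp G) (f : G → ℝ) (x : G) : ℝ := (act S.mA f x + act S.mV f x) / 2

theorem PP_add (f g : G → ℝ) (x : G) : PP S (fun z => f z + g z) x = PP S f x + PP S g x := by
  unfold PP
  rw [act_fadd, act_fadd]; ring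

theorem PP_sub (f g : G → ℝ) (x : G) : PP S (fun z => f z - g z) x = PP S f x - PP S g x := by
  unfold PP
  rw [act_fsub, act_fsub]; ring

theorem PP_ge (f : G → ℝ) (m : ℝ) (h : ∀ x, m ≤ f x) (x : G) : m ≤ PP S f x := by
  have h1 := act_mono S.mA (law_mA S).nn (fun _ => m) f h x
  have h2 := act_mono S.mV (law_mV S).nn (fun _ => m) f h x
  rw [act_const _ (law_mA S)] at h1
  rw [act_const _ (law_mV S)] at h2
  unfold PP
  linarith

theorem no_drift (f : G → ℝ) (c : ℝ) (hb : ∃ m : ℝ, ∀ x, m ≤ f x)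
    (h : ∀ x, f x = PP S f x + c) : c ≤ 0 := by
  obtain ⟨m0, hm0⟩ := hb
  have hbdd : BddBelow (Set.range f) := ⟨m0, by rintro _ ⟨x, rfl⟩; exact hm0 x⟩
  set m := ⨅ x, f x with hm
  have h1 : ∀ x, m ≤ f x := fun x => ciInf_le hbdd x
  have h2 : ∀ x, m + c ≤ f x := fun x => by
    have := PP_ge (S := S) f m h1 x
    rw [h x]
    linarith
  have h3 : m + c ≤ m := by
    rw [hm]
    exact le_ciInf h2
  linarith

end RecAux

open RecAux

theorem recursion {f : G → ℝ} (hf : S.Dcl f) : ∃ u w : G → ℝ, S.Dcl u ∧ S.Dcl w ∧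
    ∀ g, S.root g = false → act S.mA f g = u (S.sec false g) + w (S.sec true g) := by
  classical
  obtain ⟨u0, w0, h0, ⟨Cu, hCu⟩, ⟨Cw, hCw⟩, ⟨bu, hbu⟩, ⟨bw, hbw⟩⟩ := additive hf
  set d0 : G → ℝ := fun x => u0 x - PP S u0 x with hd0
  set d1 : G → ℝ := fun x => w0 x - PP S w0 x with hd1
  -- d0 (g_0) + d1 (g_1) = 0
  have hd : ∀ g x y, IsPair S g x y → d0 x + d1 y = 0 := by
    rintro g x y ⟨hr, rfl, rfl⟩
    have e1 := phi_eq hf.harm g
    rw [marg_Z0 u0 w0 _ h0 g hr, marg_mV u0 w0 _ h0 g hr, h0 g hr] at e1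
    simp only [hd0, hd1, PP]
    linarith
  have hd0B : ∀ g, ∀ b ∈ S.BB, d0 (g * b) = d0 g := by
    intro g b hb
    obtain ⟨x, y, hx⟩ := pair_left S g
    have h1 := hd _ _ _ hx
    have h2 := hd _ _ _ (IsPair_mul hx (dl_false S hb))
    rw [mul_one] at h2
    linarith
  obtain ⟨u, c, huB, hu⟩ := poisson d0 hd0B
  -- transport
  have hex : ∀ y : G, ∃ g x, IsPair S g x y := pair_right S
  choose lg lx hlx using hex
  set v : G → ℝ := fun y => u (lx y) with hv
  have hvp : ∀ g x y, IsPair S g x y → v y = u x := by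
    intro g x y hg
    have h1 : (lx y)⁻¹ * x ∈ S.BB := by
      rw [BB_pair S (hlx y) hg]
      simpa using BB_one S
    have h2 := huB (lx y) _ h1
    rw [mul_inv_cancel_left] at h2
    rw [hv]
    exact h2.symm
  have hPv : ∀ g x y, IsPair S g x y → PP S v y = PP S u x := by
    rintro g x y ⟨hr, rfl, rfl⟩
    have hz : ∀ g, S.root g = false → (fun _ : G => (0 : ℝ)) g =
        u (S.sec false g) + (fun z => -1 * v z) (S.sec true g) := by
      intro g hg
      show (0 : ℝ) = u (S.sec false g) + -1 * v (S.sec true g)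
      rw [hvp g _ _ (IsPair_sec hg)]
      ring
    have e1 := marg_Z0 u (fun z => -1 * v z) (fun _ => 0) hz g hr
    have e2 := marg_mV u (fun z => -1 * v z) (fun _ => 0) hz g hr
    rw [act_const _ (law_Z0 S), act_fsmul] at e1
    rw [act_const _ (law_mV S), act_fsmul] at e2
    unfold PP
    linarith
  -- boundedness of u
  obtain ⟨B, hB⟩ : ∃ B : ℝ, ∀ x, |u x| ≤ B := by
    obtain ⟨F, hF⟩ := BB_cover S
    refine ⟨∑ y ∈ F, |u y|, fun x => ?_⟩
    obtain ⟨y, hy, hyx⟩ := hF x
    have h1 := huB y _ hyx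
    rw [mul_inv_cancel_left] at h1
    rw [h1]
    exact Finset.single_le_sum (f := fun y => |u y|) (fun _ _ => abs_nonneg _) hy
  have hBv : ∀ x, |v x| ≤ B := fun x => hB _
  have hB0 : 0 ≤ B := (abs_nonneg _).trans (hB 1)
  have hPu : ∀ x, u x - PP S u x = d0 x - c := hu
  -- the two equations
  have k1 : ∀ x, u0 x - u x = PP S (fun z => u0 z - u z) x + c := by
    intro x
    rw [PP_sub]
    have h1 := hPu x
    have h2 : d0 x = u0 x - PP S u0 x := rfl
    linarith
  have k2 : ∀ y, w0 y + v y = PP S (fun z => w0 z + v z) y + -c := by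
    intro y
    rw [PP_add]
    have h1 := hPu (lx y)
    have h2 := hPv _ _ _ (hlx y)
    have h3 := hvp _ _ _ (hlx y)
    have h4 := hd _ _ _ (hlx y)
    have h5 : d1 y = w0 y - PP S w0 y := rfl
    linarith
  have b1 : ∀ x, bu - B ≤ u0 x - u x := fun x => by
    have := abs_le.mp (hB x)
    have := hbu x
    linarith [this]
  have b2 : ∀ x, bw - B ≤ w0 x + v x := fun x => by
    have := abs_le.mp (hBv x)
    have := hbw x
    linarith
  have c1 : c ≤ 0 := no_drift (S := S) _ c ⟨_, b1⟩ k1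
  have c2 : -c ≤ 0 := no_drift (S := S) _ (-c) ⟨_, b2⟩ k2
  have c0 : c = 0 := by linarith
  refine ⟨fun x => u0 x - u x, fun x => w0 x + v x, ?_, ?_, ?_⟩
  · refine ⟨fun x => ?_, ⟨Cu + B, fun x => ?_⟩, ⟨_, b1⟩⟩
    · have := k1 x
      rw [c0, add_zero] at this
      exact this
    · have h1 := hCu x
      have h2 := hB x
      have h3 : |u0 x - u x| ≤ |u0 x| + |u x| := abs_sub _ _
      have h4 : (0 : ℝ) ≤ S.len x := Nat.cast_nonneg _
      nlinarith
  · refine ⟨fun x => ?_, ⟨Cw + B, fun x => ?_⟩, ⟨_, b2⟩⟩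
    · have := k2 x
      rw [c0, neg_zero, add_zero] at this
      exact this
    · have h1 := hCw x
      have h2 := hBv x
      have h3 : |w0 x + v x| ≤ |w0 x| + |v x| := abs_add_le _ _
      have h4 : (0 : ℝ) ≤ S.len x := Nat.cast_nonneg _
      nlinarith
  · intro g hg
    show act S.mA f g = (u0 (S.sec false g) - u (S.sec false g)) +
      (w0 (S.sec true g) + v (S.sec true g))
    rw [h0 g hg, hvp g _ _ (IsPair_sec hg)]
    ring

end Pool.Agent.PHF
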