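import Pool.Agent.PHF.Hel

set_option autoImplicit false

namespace Pool.Agent.PHF

/-! Module TEN: products of laws, exchange of coordinates. -/

namespace TenAux

theorem ev_map {G H : Type} [Monoid G] [Monoid H] (φ : G →* H) (p : GA G) (f : H → ℝ) :
    ev (MonoidAlgebra.mapDomainRingHom ℝ φ p) f = ev p (fun x => f (φ x)) := by
  induction p using ga_induction with
  | h0 => rw [map_zero, ev_zero, ev_zero]
  | h1 x r q ih =>
    have h1 : MonoidAlgebra.mapDomainRingHom ℝ φ (MonoidAlgebra.single x r)
        = MonoidAlgebra.single (φ x) r := MonoidAlgebra.mapDomain_single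
    rw [map_add, ev_add, ev_add, ih, h1, ev_single, ev_single]

theorem ev_comm {G H : Type} (p : GA G) (q : GA H) (F : G → H → ℝ) :
    ev p (fun x => ev q (fun y => F x y)) = ev q (fun y => ev p (fun x => F x y)) := by
  induction p using ga_induction with
  | h0 =>
    rw [ev_zero]
    have h : (fun y => ev (0 : GA G) (fun x => F x y)) = fun _ => 0 := by
      funext y
      rw [ev_zero]
    rw [h, ev_fzero]
  | h1 x r p ih =>
    rw [ev_add, ev_single, ih]
    have h : (fun y => ev (MonoidAlgebra.single x r + p) (fun x => F x y))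
        = fun y => r * F x y + ev p (fun x => F x y) := by
      funext y
      rw [ev_add, ev_single]
    rw [h, ev_fadd, ev_fsmul]

theorem ev_fsum {G ι : Type} (s : Finset ι) (p : GA G) (F : ι → G → ℝ) :
    ev p (fun x => ∑ i ∈ s, F i x) = ∑ i ∈ s, ev p (F i) := by
  classical
  induction s using Finset.induction_on with
  | empty => simp only [Finset.sum_empty, ev_fzero]
  | insert a s ha ih =>
    simp only [Finset.sum_insert ha]
    rw [ev_fadd, ih]

theorem ev_favg {G ι : Type} [Fintype ι] (p : GA G) (F : ι → G → ℝ) :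
    ev p (fun x => avg (fun i => F i x)) = avg (fun i => ev p (F i)) := by
  unfold avg
  simp only [smul_eq_mul]
  rw [ev_fsmul, ev_fsum]

theorem He_eq_sum {G : Type} (p q : GA G) (s : Finset G) (hp : ∀ z, p.coeff z ≠ 0 → z ∈ s)
    (hq : ∀ z, q.coeff z ≠ 0 → z ∈ s) :
    He p q = ∑ z ∈ s, (Real.sqrt (p.coeff z) - Real.sqrt (q.coeff z)) ^ 2 := by
  classical
  unfold He
  have h : ∀ t : Finset G, (∀ z, z ∈ t ↔ p.coeff z ≠ 0 ∨ q.coeff z ≠ 0) →
      ∑ z ∈ t, (Real.sqrt (p.coeff z) - Real.sqrt (q.coeff z)) ^ 2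
        = ∑ z ∈ s, (Real.sqrt (p.coeff z) - Real.sqrt (q.coeff z)) ^ 2 := by
    intro t ht
    apply Finset.sum_subset
    · intro z hz
      rcases (ht z).1 hz with h | h
      · exact hp z h
      · exact hq z h
    · intro z _ hz
      rw [ht, not_or, not_not, not_not] at hz
      rw [hz.1, hz.2]
      simp
  apply h
  intro z
  simp only [Finset.mem_union, Finsupp.mem_support_iff]

end TenAux

open TenAux

variable {G : Type} [Group G]

theorem ev_tens (p q : GA G) (f : G × G → ℝ) :
    ev (tens p q) f = ev p (fun x => ev q (fun y => f (x, y))) := by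
  unfold tens
  rw [ev_mul, ev_map]
  congr 1
  funext x
  rw [ev_map]
  congr 1
  funext y
  simp [MonoidHom.inl_apply, MonoidHom.inr_apply]

theorem tens_coeff (p q : GA G) (x y : G) :
    (tens p q).coeff (x, y) = p.coeff x * q.coeff y := by
  classical
  rw [coeff_eq_ev, ev_tens, coeff_eq_ev p x, coeff_eq_ev q y]
  have h : ∀ u : G, ev q (fun v => if (u, v) = (x, y) then (1:ℝ) else 0)
      = ev q (fun v => if v = y then (1:ℝ) else 0) * (if u = x then (1:ℝ) else 0) := by
    intro u
    by_cases hu : u = x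
    · subst hu
      simp
    · simp [hu, ev_fzero]
  simp only [h]
  rw [ev_fsmul]
  ring

theorem tens_mul (p q p' q' : GA G) : tens p q * tens p' q' = tens (p * p') (q * q') := by
  refine ga_ext_ev fun f => ?_
  rw [ev_mul, ev_tens, ev_tens, ev_mul]
  congr 1
  funext x
  have h1 : (fun y => ev (tens p' q') fun w => f ((x, y) * w))
      = fun y => ev p' fun x' => ev q' fun y' => f (x * x', y * y') := by
    funext y
    rw [ev_tens]
    rfl
  have h2 : (fun x' => ev (q * q') fun y => f (x * x', y))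
      = fun x' => ev q fun y => ev q' fun y' => f (x * x', y * y') := by
    funext x'
    rw [ev_mul]
  rw [h1, h2]
  exact ev_comm q p' _

theorem tens_pt (g h : G) : tens (pt g) (pt h) = pt (g, h) := by
  refine ga_ext_ev fun f => ?_
  rw [ev_tens, ev_pt, ev_pt, ev_pt]

theorem tens_one : tens (1 : GA G) 1 = 1 := by
  rw [← pt_one, tens_pt]
  exact pt_one

theorem pt_mul_tens (g h : G) (p q : GA G) :
    pt (g, h) * tens p q = tens (pt g * p) (pt h * q) := by
  rw [← tens_pt, tens_mul]

theorem tens_add_left (p p' q : GA G) : tens (p + p') q = tens p q + tens p' q := by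
  refine ga_ext_ev fun f => ?_
  rw [ev_tens, ev_add, ev_add, ev_tens, ev_tens]

theorem tens_add_right (p q q' : GA G) : tens p (q + q') = tens p q + tens p q' := by
  refine ga_ext_ev fun f => ?_
  rw [ev_tens, ev_add, ev_tens, ev_tens, ← ev_fadd]
  simp only [ev_add]

theorem tens_sub_left (p p' q : GA G) : tens (p - p') q = tens p q - tens p' q := by
  refine ga_ext_ev fun f => ?_
  rw [ev_tens, ev_sub, ev_sub, ev_tens, ev_tens]

theorem tens_sub_right (p q q' : GA G) : tens p (q - q') = tens p q - tens p q' := by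
  refine ga_ext_ev fun f => ?_
  rw [ev_tens, ev_sub, ev_tens, ev_tens, ← ev_fsub]
  simp only [ev_sub]

theorem tens_smul_left (r : ℝ) (p q : GA G) : tens (r • p) q = r • tens p q := by
  refine ga_ext_ev fun f => ?_
  rw [ev_tens, ev_smul, ev_smul, ev_tens]

theorem tens_smul_right (r : ℝ) (p q : GA G) : tens p (r • q) = r • tens p q := by
  refine ga_ext_ev fun f => ?_
  rw [ev_tens, ev_smul, ev_tens, ← ev_fsmul]
  simp only [ev_smul]

theorem tens_avg_left {ι : Type} [Fintype ι] (p : ι → GA G) (q : GA G) :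
    tens (avg p) q = avg fun i => tens (p i) q := by
  refine ga_ext_ev fun f => ?_
  rw [ev_tens, ev_avg, ev_avg]
  simp only [ev_tens]

theorem tens_avg_right {ι : Type} [Fintype ι] (p : GA G) (q : ι → GA G) :
    tens p (avg q) = avg fun i => tens p (q i) := by
  refine ga_ext_ev fun f => ?_
  rw [ev_tens, ev_avg]
  simp only [ev_tens, ev_avg]
  exact ev_favg p _

theorem NN.tens {p q : GA G} (hp : NN p) (hq : NN q) : NN (tens p q) := by
  rintro ⟨x, y⟩
  rw [tens_coeff]
  exact mul_nonneg (hp x) (hq y)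

theorem IsLaw.tens {p q : GA G} (hp : IsLaw p) (hq : IsLaw q) : IsLaw (tens p q) := by
  refine ⟨hp.nn.tens hq.nn, ?_⟩
  rw [ev_tens]
  simp only [hq.mass]
  exact hp.mass

theorem He_tens_left {r : GA G} (hr : IsLaw r) (p q : GA G) :
    He (tens r p) (tens r q) = He p q := by
  classical
  have hmass : ∑ x ∈ r.coeff.support, r.coeff x = 1 := by
    have h := hr.mass
    unfold ev at h
    rw [← h]
    exact Finset.sum_congr rfl fun x _ => (mul_one _).symm
  rw [He_eq_sum (tens r p) (tens r q) (r.coeff.support ×ˢ (p.coeff.support ∪ q.coeff.support)),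
    He_eq_sum p q (p.coeff.support ∪ q.coeff.support), Finset.sum_product]
  · have h1 : ∀ x ∈ r.coeff.support, ∑ y ∈ p.coeff.support ∪ q.coeff.support,
        (Real.sqrt ((tens r p).coeff (x, y)) - Real.sqrt ((tens r q).coeff (x, y))) ^ 2
        = r.coeff x * ∑ y ∈ p.coeff.support ∪ q.coeff.support,
          (Real.sqrt (p.coeff y) - Real.sqrt (q.coeff y)) ^ 2 := by
      intro x _
      rw [Finset.mul_sum]
      refine Finset.sum_congr rfl fun y _ => ?_
      rw [tens_coeff, tens_coeff, Real.sqrt_mul (hr.nn x), Real.sqrt_mul (hr.nn x), ← mul_sub,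
        mul_pow, Real.sq_sqrt (hr.nn x)]
    rw [Finset.sum_congr rfl h1, ← Finset.sum_mul, hmass, one_mul]
  · intro z hz
    exact Finset.mem_union_left _ (Finsupp.mem_support_iff.2 hz)
  · intro z hz
    exact Finset.mem_union_right _ (Finsupp.mem_support_iff.2 hz)
  · rintro ⟨x, y⟩ hz
    rw [tens_coeff] at hz
    rw [Finset.mem_product]
    exact ⟨Finsupp.mem_support_iff.2 (left_ne_zero_of_mul hz),
      Finset.mem_union_left _ (Finsupp.mem_support_iff.2 (right_ne_zero_of_mul hz))⟩
  · rintro ⟨x, y⟩ hz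
    rw [tens_coeff] at hz
    rw [Finset.mem_product]
    exact ⟨Finsupp.mem_support_iff.2 (left_ne_zero_of_mul hz),
      Finset.mem_union_right _ (Finsupp.mem_support_iff.2 (right_ne_zero_of_mul hz))⟩

theorem He_tens_right {r : GA G} (hr : IsLaw r) (p q : GA G) :
    He (tens p r) (tens q r) = He p q := by
  classical
  have hmass : ∑ x ∈ r.coeff.support, r.coeff x = 1 := by
    have h := hr.mass
    unfold ev at h
    rw [← h]
    exact Finset.sum_congr rfl fun x _ => (mul_one _).symm
  rw [He_eq_sum (tens p r) (tens q r) ((p.coeff.support ∪ q.coeff.support) ×ˢ r.coeff.support),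
    He_eq_sum p q (p.coeff.support ∪ q.coeff.support), Finset.sum_product_right]
  · have h1 : ∀ x ∈ r.coeff.support, ∑ y ∈ p.coeff.support ∪ q.coeff.support,
        (Real.sqrt ((tens p r).coeff (y, x)) - Real.sqrt ((tens q r).coeff (y, x))) ^ 2
        = r.coeff x * ∑ y ∈ p.coeff.support ∪ q.coeff.support,
          (Real.sqrt (p.coeff y) - Real.sqrt (q.coeff y)) ^ 2 := by
      intro x _
      rw [Finset.mul_sum]
      refine Finset.sum_congr rfl fun y _ => ?_
      rw [tens_coeff, tens_coeff, mul_comm (p.coeff y), mul_comm (q.coeff y),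
        Real.sqrt_mul (hr.nn x), Real.sqrt_mul (hr.nn x), ← mul_sub,
        mul_pow, Real.sq_sqrt (hr.nn x)]
    rw [Finset.sum_congr rfl h1, ← Finset.sum_mul, hmass, one_mul]
  · intro z hz
    exact Finset.mem_union_left _ (Finsupp.mem_support_iff.2 hz)
  · intro z hz
    exact Finset.mem_union_right _ (Finsupp.mem_support_iff.2 hz)
  · rintro ⟨x, y⟩ hz
    rw [tens_coeff] at hz
    rw [Finset.mem_product]
    exact ⟨Finset.mem_union_left _ (Finsupp.mem_support_iff.2 (left_ne_zero_of_mul hz)),
      Finsupp.mem_support_iff.2 (right_ne_zero_of_mul hz)⟩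
  · rintro ⟨x, y⟩ hz
    rw [tens_coeff] at hz
    rw [Finset.mem_product]
    exact ⟨Finset.mem_union_right _ (Finsupp.mem_support_iff.2 (left_ne_zero_of_mul hz)),
      Finsupp.mem_support_iff.2 (right_ne_zero_of_mul hz)⟩

theorem TenAux.ev_swp (Y : GA (G × G)) (f : G × G → ℝ) :
    ev (swp Y) f = ev Y (fun z => f (z.2, z.1)) := by
  unfold swp
  rw [ev_map]
  rfl

theorem swp_tens (p q : GA G) : swp (tens p q) = tens q p := by
  refine ga_ext_ev fun f => ?_
  rw [ev_swp, ev_tens, ev_tens]
  exact ev_comm p q _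

theorem swp_mul (X Y : GA (G × G)) : swp (X * Y) = swp X * swp Y := by
  unfold swp
  rw [map_mul]

theorem swp_pt (g h : G) : swp (pt (g, h)) = pt (h, g) := by
  refine ga_ext_ev fun f => ?_
  rw [ev_swp, ev_pt, ev_pt]

theorem swp_avg {ι : Type} [Fintype ι] (X : ι → GA (G × G)) :
    swp (avg X) = avg fun i => swp (X i) := by
  refine ga_ext_ev fun f => ?_
  rw [ev_swp, ev_avg, ev_avg]
  simp only [ev_swp]

end Pool.Agent.PHF
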