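import Pool.Agent.PHF.Cor
import Pool.Agent.PHF.Inf

set_option autoImplicit false

namespace Pool.Agent.PHF

/-! Module TH1: passing to the child 1. -/

variable {G : Type} [Group G] {S : SGp G} {R : Type} [AddCommGroup R] [Fintype R]

namespace ThaAux

/-- The image of a known part of level L in the next level. -/
def io (c : ZMod 2 × R) : ZMod 2 × (R × ZMod 2) := (c.1, (c.2, 0))

theorem κ_zero {R : Type} [AddCommGroup R] [Fintype R] (L : Lev S R) : L.κ 0 = 1 := by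
  have h := L.κ_add 0 0
  rw [add_zero] at h
  exact mul_eq_left.mp h.symm

theorem tens_one_pt (x : G) : tens (1 : GA G) (pt x) = pt ((1 : G), x) := by
  have h := tens_pt (1 : G) x
  rw [pt_one] at h
  exact h

theorem Corr_rest (rest : List G) (h : ∀ n ∈ rest, S.root n = false ∧ S.sec false n = 1) :
    S.Corr ((rest.map hh).prod) (tens 1 (((rest.map (S.sec true)).map hh).prod)) := by
  induction rest with
  | nil =>
    simp only [List.map_nil, List.prod_nil]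
    rw [tens_one]
    exact Corr_one
  | cons n rest ih =>
    simp only [List.map_cons, List.prod_cons]
    have h1 : S.Corr (hh n) (tens 1 (hh (S.sec true n))) := by
      have e : tens (1 : GA G) (hh (S.sec true n)) =
          (1 / 2 : ℝ) • (1 + pt ((1 : G), S.sec true n)) := by
        unfold hh
        rw [tens_smul_right, tens_add_right, tens_one, tens_one_pt]
      rw [e]
      unfold hh
      obtain ⟨h2, h3⟩ := h n (by simp)
      exact Corr_smul _ (Corr_add Corr_one (Corr_pt ⟨h2, h3, rfl⟩))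
    have h2 := ih fun n' hn' => h n' (by simp [hn'])
    have h3 := Corr_mul h1 h2
    rw [tens_mul, one_mul] at h3
    exact h3

/-- The noise law in pairs of sections. -/
theorem Corr_m {L : Lev S R} {L' : Lev S (R × ZMod 2)} (hL : LevStep L L') :
    S.Corr L.m (avg fun w : ZMod 2 =>
      tens (pt (pw S.a w)) (L'.m * pt (L'.κ (0, (0, w))))) := by
  obtain ⟨rest, h1, h2, h3⟩ := hL.head
  have e1 : L.m = hh (S.e 0) * (rest.map hh).prod := by
    unfold Lev.m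
    rw [h1, List.map_cons, List.prod_cons]
  have e2 : L'.m = ((rest.map (S.sec true)).map hh).prod := by
    unfold Lev.m
    rw [h3]
  have c1 : S.Corr (hh (S.e 0)) (avg fun w : ZMod 2 => pt (pw S.a w, pw (S.e 3) w)) := by
    rw [hh_eq_avg]
    exact Corr_avg fun w => Corr_pt (GrbAux.IsPair_pw (IsPair_e0 S) w)
  have c2 := Corr_mul c1 (Corr_rest rest h2)
  rw [← e1, ← e2, ← avg_mul_right] at c2
  have e3 : (fun w : ZMod 2 => pt (pw S.a w, pw (S.e 3) w) * tens 1 L'.m) =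
      fun w : ZMod 2 => tens (pt (pw S.a w)) (L'.m * pt (L'.κ (0, (0, w)))) := by
    funext w
    rw [pt_mul_tens, mul_one, m_mul_κ, hL.κ_last]
  rw [e3] at c2
  exact c2

/-- A law at coordinate 0. -/
noncomputable def UU (L' : Lev S (R × ZMod 2)) (c1 c2 : ZMod 2 × R) (w v : ZMod 2) : GA G :=
  pt (pw S.a w) * (pt (L'.κ (io c1)) * (L'.m * pt (L'.κ (0, (0, v)))) * pt (L'.κ (io c2)))

/-- A law at coordinate 1. -/
noncomputable def WW (L' : Lev S (R × ZMod 2)) (c1 c2 : ZMod 2 × R) (w v : ZMod 2) : GA G :=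
  L'.m * pt (L'.κ (c1.1, (c1.2, w))) * pt (pw S.a v) * pt (L'.κ (io c2))

theorem law_UU (L' : Lev S (R × ZMod 2)) (c1 c2 : ZMod 2 × R) (w v : ZMod 2) :
    IsLaw (UU L' c1 c2 w v) :=
  (IsLaw.pt _).mul (((IsLaw.pt _).mul ((law_m L').mul (IsLaw.pt _))).mul (IsLaw.pt _))

theorem law_WW (L' : Lev S (R × ZMod 2)) (c1 c2 : ZMod 2 × R) (w v : ZMod 2) :
    IsLaw (WW L' c1 c2 w v) :=
  (((law_m L').mul (IsLaw.pt _)).mul (IsLaw.pt _)).mul (IsLaw.pt _)

/-- Two letters in pairs of sections. -/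
theorem Corr_two {L : Lev S R} {L' : Lev S (R × ZMod 2)} (hL : LevStep L L')
    (c1 c2 : ZMod 2 × R) :
    S.Corr (L.m * pt (L.κ c1) * pt S.a * pt (L.κ c1) * (L.m * pt (L.κ c2) * pt S.a *
      pt (L.κ c2))) (avg fun w : ZMod 2 => avg fun v : ZMod 2 =>
        tens (UU L' c1 c2 w v) (WW L' c1 c2 w v)) := by
  have hm := Corr_m hL
  have k1 : S.Corr (pt (L.κ c1)) (pt ((1 : G), L'.κ (io c1))) := Corr_pt (hL.κ_pair c1.1 c1.2)
  have k2 : S.Corr (pt (L.κ c2)) (pt ((1 : G), L'.κ (io c2))) := Corr_pt (hL.κ_pair c2.1 c2.2)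
  have h1 := Corr_mul hm k1
  have h2 := Corr_conj (Corr_mul (Corr_mul k1 hm) k2)
  have h3 := Corr_mul (Corr_mul h1 h2) k2
  have eX : L.m * pt (L.κ c1) * (pt S.a * (pt (L.κ c1) * L.m * pt (L.κ c2)) * pt S.a) *
      pt (L.κ c2) = L.m * pt (L.κ c1) * pt S.a * pt (L.κ c1) * (L.m * pt (L.κ c2) * pt S.a *
      pt (L.κ c2)) := by
    simp only [mul_assoc]
  rw [eX] at h3
  have hs : swp (pt ((1 : G), L'.κ (io c1)) * (avg fun w : ZMod 2 =>
      tens (pt (pw S.a w)) (L'.m * pt (L'.κ (0, (0, w))))) * pt ((1 : G), L'.κ (io c2))) =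
      avg fun v : ZMod 2 => tens (pt (L'.κ (io c1)) * (L'.m * pt (L'.κ (0, (0, v)))) *
        pt (L'.κ (io c2))) (pt (pw S.a v)) := by
    rw [← avg_mul_left, ← avg_mul_right, swp_avg]
    congr 1
    funext v
    rw [← tens_one_pt, ← tens_one_pt, tens_mul, tens_mul, swp_tens]
    simp only [mul_one, one_mul]
  rw [hs] at h3
  convert h3 using 1
  rw [← avg_mul_right, ← avg_mul_right, ← avg_mul_right]
  congr 1
  funext w
  rw [← avg_mul_left, ← avg_mul_right]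
  congr 1
  funext v
  rw [← tens_one_pt, ← tens_one_pt, tens_mul, tens_mul, tens_mul]
  unfold UU WW
  congr 1
  · simp only [mul_one]
  · congr 2
    rw [mul_assoc, pt_mul, ← L'.κ_add]
    congr 3
    unfold io
    ext <;> simp

theorem κ_cancel (L' : Lev S (R × ZMod 2)) (c d : ZMod 2 × (R × ZMod 2)) :
    L'.κ c * L'.κ (c + d) = L'.κ d := by
  rw [L'.κ_add, ← mul_assoc, L'.κ_sq, one_mul]

theorem step0 (L' : Lev S (R × ZMod 2)) (R1 : GA G) (c : ZMod 2 × (R × ZMod 2))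
    (c1 c2 : ZMod 2 × R) (w : ZMod 2) :
    R1 * pt (L'.κ c) * WW L' c1 c2 w 0 =
      R1 * L'.m * pt (L'.κ (c + (c1.1, (c1.2, w)) + (c2.1, (c2.2, 0)))) := by
  unfold WW
  rw [pw_zero, pt_one, mul_one, L'.κ_add, L'.κ_add, ← pt_mul, ← pt_mul]
  have h := m_mul_κ L' c
  calc R1 * pt (L'.κ c) * (L'.m * pt (L'.κ (c1.1, (c1.2, w))) * pt (L'.κ (io c2)))
      = R1 * (pt (L'.κ c) * L'.m) * pt (L'.κ (c1.1, (c1.2, w))) * pt (L'.κ (io c2)) := by
        simp only [mul_assoc]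
    _ = R1 * (L'.m * pt (L'.κ c)) * pt (L'.κ (c1.1, (c1.2, w))) * pt (L'.κ (io c2)) := by
        rw [h]
    _ = _ := by
        simp only [mul_assoc]
        rfl

theorem step1 (L' : Lev S (R × ZMod 2)) (R1 : GA G) (c : ZMod 2 × (R × ZMod 2))
    (c1 c2 : ZMod 2 × R) (w : ZMod 2) :
    R1 * pt (L'.κ c) * WW L' c1 c2 w 1 =
      R1 * (L'.m * pt (L'.κ (c + (c1.1, (c1.2, w)))) * pt S.a *
        pt (L'.κ (c + (c1.1, (c1.2, w))))) *
        pt (L'.κ (c + (c1.1, (c1.2, w)) + (c2.1, (c2.2, 0)))) := by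
  unfold WW
  rw [pw_one]
  have h := m_mul_κ L' c
  have e1 : pt (L'.κ (c + (c1.1, (c1.2, w)))) *
      pt (L'.κ (c + (c1.1, (c1.2, w)) + (c2.1, (c2.2, 0)))) = (pt (L'.κ (io c2)) : GA G) := by
    rw [pt_mul, κ_cancel]
    rfl
  have e2 : (pt (L'.κ (c + (c1.1, (c1.2, w)))) : GA G) =
      pt (L'.κ c) * pt (L'.κ (c1.1, (c1.2, w))) := by
    rw [pt_mul, ← L'.κ_add]
  calc R1 * pt (L'.κ c) * (L'.m * pt (L'.κ (c1.1, (c1.2, w))) * pt S.a * pt (L'.κ (io c2)))
      = R1 * (pt (L'.κ c) * L'.m) * pt (L'.κ (c1.1, (c1.2, w))) * pt S.a *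
          pt (L'.κ (io c2)) := by
        simp only [mul_assoc]
    _ = R1 * (L'.m * pt (L'.κ c)) * pt (L'.κ (c1.1, (c1.2, w))) * pt S.a *
          pt (L'.κ (io c2)) := by
        rw [h]
    _ = R1 * (L'.m * (pt (L'.κ c) * pt (L'.κ (c1.1, (c1.2, w)))) * pt S.a) *
          pt (L'.κ (io c2)) := by
        simp only [mul_assoc]
    _ = R1 * (L'.m * pt (L'.κ (c + (c1.1, (c1.2, w)))) * pt S.a) *
          pt (L'.κ (io c2)) := by
        rw [← e2]
    _ = R1 * (L'.m * pt (L'.κ (c + (c1.1, (c1.2, w)))) * pt S.a) *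
          (pt (L'.κ (c + (c1.1, (c1.2, w)))) *
      pt (L'.κ (c + (c1.1, (c1.2, w)) + (c2.1, (c2.2, 0))))) := by
        rw [e1]
    _ = _ := by
        simp only [mul_assoc]

/-- The main bound for a product of the noise law. -/
theorem base {L' : Lev S (R × ZMod 2)} (γ : G) (R0 R1 : GA G)
    (hR0 : IsLaw R0) (hR1 : NN R1) (c : ZMod 2 × (R × ZMod 2)) :
    He (pt ((1 : G), γ) * (tens R0 (R1 * pt (L'.κ c)) * avg fun w : ZMod 2 =>
        tens (pt (pw S.a w)) (L'.m * pt (L'.κ (0, (0, w))))))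
      (tens R0 (R1 * pt (L'.κ c)) * avg fun w : ZMod 2 =>
        tens (pt (pw S.a w)) (L'.m * pt (L'.κ (0, (0, w))))) ≤
      He (pt γ * (R1 * L'.m)) (R1 * L'.m) := by
  rw [← avg_mul_left, ← avg_mul_left]
  have hnn : ∀ w : ZMod 2, NN (tens R0 (R1 * pt (L'.κ c)) *
      tens (pt (pw S.a w)) (L'.m * pt (L'.κ (0, (0, w))))) := fun w =>
    (NN.tens hR0.nn (hR1.mul (NN.pt _))).mul
      (NN.tens (NN.pt _) ((law_m L').nn.mul (NN.pt _)))
  refine (He_avg_le _ _ (fun w => (NN.pt _).mul (hnn w)) hnn).trans ?_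
  have h : ∀ w : ZMod 2, He (pt ((1 : G), γ) * (tens R0 (R1 * pt (L'.κ c)) *
      tens (pt (pw S.a w)) (L'.m * pt (L'.κ (0, (0, w))))))
      (tens R0 (R1 * pt (L'.κ c)) *
      tens (pt (pw S.a w)) (L'.m * pt (L'.κ (0, (0, w))))) =
      He (pt γ * (R1 * L'.m)) (R1 * L'.m) := by
    intro w
    rw [tens_mul, pt_mul_tens, pt_one, one_mul, He_tens_left (hR0.mul (IsLaw.pt _))]
    have e : R1 * pt (L'.κ c) * (L'.m * pt (L'.κ (0, (0, w)))) =
        R1 * L'.m * pt (L'.κ c * L'.κ (0, (0, w))) := by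
      rw [← pt_mul]
      calc R1 * pt (L'.κ c) * (L'.m * pt (L'.κ (0, (0, w))))
          = R1 * (pt (L'.κ c) * L'.m) * pt (L'.κ (0, (0, w))) := by simp only [mul_assoc]
        _ = R1 * (L'.m * pt (L'.κ c)) * pt (L'.κ (0, (0, w))) := by rw [m_mul_κ]
        _ = _ := by simp only [mul_assoc]
    rw [e, ← mul_assoc, He_mul_pt]
  simp only [h]
  rw [avg_const]

theorem main {L : Lev S R} {L' : Lev S (R × ZMod 2)} (hL : LevStep L L') (γ : G) :
    ∀ l : List (ZMod 2 × R), ∃ (X r : GA G) (Y : GA (G × G)), L.q l = X * r ∧ IsLaw X ∧ IsLaw r ∧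
      NN Y ∧ S.Corr X Y ∧ ∀ (R0 R1 : GA G), IsLaw R0 → NN R1 → ∀ c : ZMod 2 × (R × ZMod 2),
        He (pt ((1 : G), γ) * (tens R0 (R1 * pt (L'.κ c)) * Y))
          (tens R0 (R1 * pt (L'.κ c)) * Y) ≤
          ThG (fun x => He (pt γ * (R1 * L'.q x)) (R1 * L'.q x)) c l
  | [] => by
    refine ⟨L.m, 1, _, (mul_one _).symm, law_m L, IsLaw.one, ?_, Corr_m hL, ?_⟩
    · exact NN.avg _ fun w => NN.tens (NN.pt _) ((law_m L').nn.mul (NN.pt _))
    · intro R0 R1 hR0 hR1 c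
      exact base γ R0 R1 hR0 hR1 c
  | [c1] => by
    refine ⟨L.m, pt (L.κ c1) * pt S.a * pt (L.κ c1) * L.m, _, ?_, law_m L,
      (((IsLaw.pt _).mul (IsLaw.pt _)).mul (IsLaw.pt _)).mul (law_m L), ?_, Corr_m hL, ?_⟩
    · show L.m * pt (L.κ c1) * pt S.a * pt (L.κ c1) * L.m = _
      simp only [mul_assoc]
    · exact NN.avg _ fun w => NN.tens (NN.pt _) ((law_m L').nn.mul (NN.pt _))
    · intro R0 R1 hR0 hR1 c
      exact base γ R0 R1 hR0 hR1 c
  | c1 :: c2 :: l => by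
    obtain ⟨X, r, Y, hX, hXl, hr, hY, hC, hb⟩ := main hL γ l
    refine ⟨(L.m * pt (L.κ c1) * pt S.a * pt (L.κ c1) * (L.m * pt (L.κ c2) * pt S.a *
      pt (L.κ c2))) * X, r, _, ?_, ?_, hr, ?_, Corr_mul (Corr_two hL c1 c2) hC, ?_⟩
    · show L.m * pt (L.κ c1) * pt S.a * pt (L.κ c1) *
        (L.m * pt (L.κ c2) * pt S.a * pt (L.κ c2) * L.q l) = _
      rw [hX]
      simp only [mul_assoc]
    · exact (((((law_m L).mul (IsLaw.pt _)).mul (IsLaw.pt _)).mul (IsLaw.pt _)).mul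
        ((((law_m L).mul (IsLaw.pt _)).mul (IsLaw.pt _)).mul (IsLaw.pt _))).mul hXl
    · exact (NN.avg _ fun w => NN.avg _ fun v =>
        NN.tens (law_UU L' c1 c2 w v).nn (law_WW L' c1 c2 w v).nn).mul hY
    · intro R0 R1 hR0 hR1 c
      have eY : tens R0 (R1 * pt (L'.κ c)) * ((avg fun w : ZMod 2 => avg fun v : ZMod 2 =>
          tens (UU L' c1 c2 w v) (WW L' c1 c2 w v)) * Y) = avg fun w : ZMod 2 =>
            avg fun v : ZMod 2 => tens (R0 * UU L' c1 c2 w v)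
              (R1 * pt (L'.κ c) * WW L' c1 c2 w v) * Y := by
        rw [← mul_assoc, ← avg_mul_left, ← avg_mul_right]
        congr 1
        funext w
        rw [← avg_mul_left, ← avg_mul_right]
        congr 1
        funext v
        rw [tens_mul]
      rw [eY]
      have hnn : ∀ w v : ZMod 2, NN (tens (R0 * UU L' c1 c2 w v)
          (R1 * pt (L'.κ c) * WW L' c1 c2 w v) * Y) := fun w v =>
        (NN.tens (hR0.mul (law_UU L' c1 c2 w v)).nn
          ((hR1.mul (NN.pt _)).mul (law_WW L' c1 c2 w v).nn)).mul hY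
      rw [← avg_mul_left]
      refine (He_avg_le _ _ (fun w => (NN.pt _).mul (NN.avg _ fun v => hnn w v))
        (fun w => NN.avg _ fun v => hnn w v)).trans ?_
      show _ ≤ avg fun t : ZMod 2 =>
        (ThG (fun x => He (pt γ * (R1 * L'.q ((c + (c1.1, (c1.2, t))) :: x)))
            (R1 * L'.q ((c + (c1.1, (c1.2, t))) :: x)))
            (c + (c1.1, (c1.2, t)) + (c2.1, (c2.2, 0))) l +
          ThG (fun x => He (pt γ * (R1 * L'.q x)) (R1 * L'.q x))
            (c + (c1.1, (c1.2, t)) + (c2.1, (c2.2, 0))) l) / 2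
      refine avg_mono _ _ fun w => ?_
      rw [← avg_mul_left]
      refine (He_avg_le _ _ (fun v => (NN.pt _).mul (hnn w v)) (fun v => hnn w v)).trans ?_
      rw [avg_zmod2_real, add_comm (He _ _) (He _ _)]
      have h0 := hb (R0 * UU L' c1 c2 w 0) (R1 * L'.m) (hR0.mul (law_UU L' c1 c2 w 0))
        (hR1.mul (law_m L').nn) (c + (c1.1, (c1.2, w)) + (c2.1, (c2.2, 0)))
      have h1 := hb (R0 * UU L' c1 c2 w 1) (R1 * (L'.m * pt (L'.κ (c + (c1.1, (c1.2, w)))) *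
        pt S.a * pt (L'.κ (c + (c1.1, (c1.2, w)))))) (hR0.mul (law_UU L' c1 c2 w 1))
        (hR1.mul ((((law_m L').mul (IsLaw.pt _)).mul (IsLaw.pt _)).mul (IsLaw.pt _)).nn)
        (c + (c1.1, (c1.2, w)) + (c2.1, (c2.2, 0)))
      rw [← step0] at h0
      rw [← step1] at h1
      have f0 : (fun x => He (pt γ * (R1 * L'.m * L'.q x)) (R1 * L'.m * L'.q x)) =
          fun x => He (pt γ * (R1 * L'.q x)) (R1 * L'.q x) := by
        funext x
        rw [mul_assoc R1, m_mul_q]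
      have f1 : (fun x => He (pt γ * (R1 * (L'.m * pt (L'.κ (c + (c1.1, (c1.2, w)))) *
          pt S.a * pt (L'.κ (c + (c1.1, (c1.2, w))))) * L'.q x)) (R1 * (L'.m *
          pt (L'.κ (c + (c1.1, (c1.2, w)))) *
          pt S.a * pt (L'.κ (c + (c1.1, (c1.2, w))))) * L'.q x)) =
          fun x => He (pt γ * (R1 * L'.q ((c + (c1.1, (c1.2, w))) :: x)))
            (R1 * L'.q ((c + (c1.1, (c1.2, w))) :: x)) := by
        funext x
        rw [mul_assoc R1]
        rfl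
      rw [f0] at h0
      rw [f1] at h1
      linarith

end ThaAux

open ThaAux

theorem th1 {L : Lev S R} {L' : Lev S (R × ZMod 2)} (hL : LevStep L L') {g γ : G}
    (hg : IsPair S g 1 γ) (l : List (ZMod 2 × R)) :
    He (pt g * L.q l) (L.q l) ≤ ThG (fun x => He (pt γ * L'.q x) (L'.q x)) 0 l := by
  obtain ⟨X, r, Y, hX, hXl, hr, hY, hC, hb⟩ := ThaAux.main hL γ l
  have h := hb 1 1 IsLaw.one NN.one 0
  rw [κ_zero, pt_one, mul_one, tens_one, one_mul] at h
  simp only [one_mul] at h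
  rw [hX, ← mul_assoc]
  refine (He_mul_right_le ((NN.pt g).mul hXl.nn) hXl.nn hr).trans ?_
  rw [Corr_He hC hg]
  exact h

end Pool.Agent.PHF
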