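import Pool.Agent.PHF.Lvs
import Pool.Agent.PHF.Alg
import Pool.Agent.PHF.Bin
import Pool.Agent.PHF.Inf

set_option autoImplicit false

namespace Pool.Agent.PHF

/-! Module TPD: distribution of the merged lists. -/

namespace TpdAux

variable {G : Type} [Group G] (S : SGp G)

theorem key2 : ∀ u : ZMod 2, u = 0 ∨ u = 1 := by decide

theorem binAvg_half (n : ℕ) (u v : ℕ → ℝ) :
    binAvg n (fun k => (u k + v k) / 2) = (binAvg n u + binAvg n v) / 2 := by
  have h1 : (fun k => (u k + v k) / 2) = fun k => (1 / 2 : ℝ) * (u k + v k) := by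
    funext k; ring
  rw [h1, binAvg_smul, binAvg_add]; ring

theorem avg_binAvg (n : ℕ) (u : ZMod 2 → ℕ → ℝ) :
    (avg fun x => binAvg n (u x)) = binAvg n fun k => avg fun x => u x k := by
  rw [avg_zmod2_real]
  simp only [avg_zmod2_real]
  rw [binAvg_half]

/-- The noise of level one. -/
noncomputable def mm : GA G := hh (S.e 0) * hh (S.e 1) * hh (S.e 2)

theorem mm_eq : mm S = (lev1 S).m := (lev1_m S).symm

theorem mm_sq : mm S * mm S = mm S := by
  rw [mm_eq, m_mul_m]

theorem mm_pt (u : ZMod 2) : mm S * pt (pw (S.e 3) u) = pt (pw (S.e 3) u) * mm S := by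
  rw [mm_eq]
  exact m_mul_κ (lev1 S) (u, ())

theorem pt_e3 (u v : ZMod 2) : (pt (pw (S.e 3) u) : GA G) * pt (pw (S.e 3) v) =
    pt (pw (S.e 3) (u + v)) := by
  rw [pt_mul, pw_add _ (S.e_sq 3)]

theorem pt_e3_sq (u : ZMod 2) : (pt (pw (S.e 3) u) : GA G) * pt (pw (S.e 3) u) = 1 := by
  rw [pt_mul, pw_sq _ (S.e_sq 3), pt_one]

/-- The merged list for the coordinate 0. -/
def T0 : ZMod 2 → List (ZMod 2 × ZMod 2) → List (ZMod 2 × Unit)
  | _, [] => []
  | u, c :: l => if c.2 = 0 then T0 (u + c.1) l else (u + c.1, ()) :: T0 (u + c.1) l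

/-- The merged list for the coordinate 1. -/
def T1 : ZMod 2 → List (ZMod 2 × ZMod 2) → List (ZMod 2 × Unit)
  | _, [] => []
  | v, c :: l => if c.1 = 0 then T1 (v + c.2) l else (v, ()) :: T1 (v + c.2) l

theorem q_nil : (lev1 S).q [] = mm S := by
  rw [mm_eq]; rfl

theorem q_cons (x : ZMod 2) (l : List (ZMod 2 × Unit)) : (lev1 S).q ((x, ()) :: l) =
    mm S * pt (pw (S.e 3) x) * pt S.a * pt (pw (S.e 3) x) * (lev1 S).q l := by
  rw [mm_eq]; rfl

theorem p0_cons (c : ZMod 2 × ZMod 2) (l : List (ZMod 2 × ZMod 2)) :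
    S.p0 (c :: l) = mm S * pt (pw (S.e 3) c.1) * pt (pw S.a c.2) * S.p0 l := rfl

theorem p1_cons (c : ZMod 2 × ZMod 2) (l : List (ZMod 2 × ZMod 2)) :
    S.p1 (c :: l) = pt (pw S.a c.1) * mm S * pt (pw (S.e 3) c.2) * S.p1 l := rfl

theorem mm_p0 (l : List (ZMod 2 × ZMod 2)) : mm S * S.p0 l = S.p0 l := by
  cases l with
  | nil => exact mm_sq S
  | cons c l => rw [p0_cons, ← mul_assoc, ← mul_assoc, ← mul_assoc, mm_sq]

/-- The coordinate 0 is a product of level one times an element. -/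
theorem p0_eq (l : List (ZMod 2 × ZMod 2)) (u : ZMod 2) : ∃ w : G,
    mm S * pt (pw (S.e 3) u) * S.p0 l = (lev1 S).q (T0 u l) * pt w := by
  induction l generalizing u with
  | nil =>
    refine ⟨pw (S.e 3) u, ?_⟩
    show mm S * pt (pw (S.e 3) u) * mm S = (lev1 S).q [] * pt (pw (S.e 3) u)
    rw [mm_pt, mul_assoc, mm_sq, ← mm_pt, q_nil]
  | cons c l ih =>
    obtain ⟨w, hw⟩ := ih (u + c.1)
    refine ⟨w, ?_⟩
    have h1 : mm S * pt (pw (S.e 3) u) * S.p0 (c :: l) =
        mm S * pt (pw (S.e 3) (u + c.1)) * pt (pw S.a c.2) * S.p0 l := by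
      rw [p0_cons, ← mul_assoc, ← mul_assoc, ← mul_assoc, mm_pt S u,
        mul_assoc (pt (pw (S.e 3) u)) (mm S) (mm S), mm_sq, ← mm_pt S u,
        mul_assoc (mm S) _ (pt (pw (S.e 3) c.1)), pt_e3]
    rw [h1]
    rcases key2 c.2 with h2 | h2
    · rw [h2, pw_zero, pt_one, mul_one, hw]
      show _ = (lev1 S).q (if c.2 = 0 then _ else _) * pt w
      rw [if_pos h2]
    · rw [h2, pw_one]
      have h3 : T0 u (c :: l) = (u + c.1, ()) :: T0 (u + c.1) l := by
        show (if c.2 = 0 then _ else _) = _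
        rw [if_neg (by rw [h2]; decide)]
      rw [h3, q_cons, mul_assoc _ _ (pt w), ← hw]
      have h4 : pt (pw (S.e 3) (u + c.1)) * (mm S * pt (pw (S.e 3) (u + c.1)) * S.p0 l) =
          S.p0 l := by
        rw [mm_pt, ← mul_assoc, ← mul_assoc, pt_e3_sq, one_mul, mm_p0]
      rw [mul_assoc _ (pt (pw (S.e 3) (u + c.1))) (mm S * _ * _), h4]

/-- The coordinate 1 is an element times a product of level one times an element. -/
theorem p1_eq (l : List (ZMod 2 × ZMod 2)) (v : ZMod 2) : ∃ w : G,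
    mm S * pt (pw (S.e 3) v) * S.p1 l = (lev1 S).q (T1 v l) * pt w := by
  induction l generalizing v with
  | nil =>
    refine ⟨pw (S.e 3) v, ?_⟩
    show mm S * pt (pw (S.e 3) v) * 1 = (lev1 S).q [] * pt (pw (S.e 3) v)
    rw [mul_one, q_nil]
  | cons c l ih =>
    obtain ⟨w, hw⟩ := ih (v + c.2)
    refine ⟨w, ?_⟩
    rcases key2 c.1 with h2 | h2
    · have h3 : T1 v (c :: l) = T1 (v + c.2) l := by
        show (if c.1 = 0 then _ else _) = _
        rw [if_pos h2]
      rw [h3, ← hw, p1_cons, h2, pw_zero, pt_one, one_mul, ← mul_assoc, ← mul_assoc, mm_pt S v,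
        mul_assoc (pt (pw (S.e 3) v)) (mm S) (mm S), mm_sq, ← mm_pt S v,
        mul_assoc (mm S) _ (pt (pw (S.e 3) c.2)), pt_e3]
    · have h3 : T1 v (c :: l) = (v, ()) :: T1 (v + c.2) l := by
        show (if c.1 = 0 then _ else _) = _
        rw [if_neg (by rw [h2]; decide)]
      rw [h3, q_cons, mul_assoc _ _ (pt w), ← hw, p1_cons, h2, pw_one]
      have h4 : pt (pw (S.e 3) v) * (mm S * pt (pw (S.e 3) (v + c.2)) * S.p1 l) =
          mm S * pt (pw (S.e 3) c.2) * S.p1 l := by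
        rw [← mul_assoc, ← mul_assoc, ← mm_pt, mul_assoc (mm S), pt_e3, ← add_assoc,
          CharTwo.add_self_eq_zero, zero_add]
      rw [mul_assoc _ (pt (pw (S.e 3) v)) (mm S * _ * _), h4]
      simp only [mul_assoc]

/-- Law of the merged list, coordinate 0. -/
theorem law_T0 (K : ℕ) (Φ : List (ZMod 2 × Unit) → ℝ) (u : ZMod 2) :
    Ex K (fun l => Φ (T0 u l)) = binAvg K fun n => Ex n Φ := by
  induction K generalizing Φ u with
  | zero => rfl
  | succ K ih =>
    rw [Ex_succ, avg_prod]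
    have h1 : ∀ x : ZMod 2, (avg fun y : ZMod 2 => Ex K fun l => Φ (T0 u ((x, y) :: l))) =
        ((binAvg K fun n => Ex n Φ) +
          binAvg K fun n => Ex n fun l => Φ ((u + x, ()) :: l)) / 2 := by
      intro x
      rw [avg_zmod2_real]
      have e0 : (Ex K fun l => Φ (T0 u ((x, 0) :: l))) = binAvg K fun n => Ex n Φ := by
        rw [← ih Φ (u + x)]
        rfl
      have e1 : (Ex K fun l => Φ (T0 u ((x, 1) :: l))) =
          binAvg K fun n => Ex n fun l => Φ ((u + x, ()) :: l) := by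
        rw [← ih (fun l => Φ ((u + x, ()) :: l)) (u + x)]
        rfl
      rw [e0, e1]
    simp only [h1]
    have h2 : (avg fun x : ZMod 2 => ((binAvg K fun n => Ex n Φ) +
        binAvg K fun n => Ex n fun l => Φ ((u + x, ()) :: l)) / 2) =
        ((binAvg K fun n => Ex n Φ) +
          avg fun x : ZMod 2 => binAvg K fun n => Ex n fun l => Φ ((u + x, ()) :: l)) / 2 := by
      rw [avg_zmod2_real, avg_zmod2_real]; ring
    rw [h2, avg_binAvg, binAvg_succ]
    congr 3
    funext n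
    rw [avg_add_left u fun x : ZMod 2 => Ex n fun l => Φ ((x, ()) :: l), Ex_succ, avg_prod]
    congr 1
    funext x
    exact (avg_const (ι := Unit) (Ex n fun l => Φ ((x, ()) :: l))).symm

/-- Law of the merged list, coordinate 1. -/
theorem law_T1 (K : ℕ) (Φ : List (ZMod 2 × Unit) → ℝ) :
    (avg fun v : ZMod 2 => Ex K (fun l => Φ (T1 v l))) = binAvg K fun n => Ex n Φ := by
  induction K generalizing Φ with
  | zero =>
    show (avg fun v : ZMod 2 => Φ (T1 v [])) = Φ []
    exact avg_const _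
  | succ K ih =>
    have h0 : ∀ v : ZMod 2, Ex (K + 1) (fun l => Φ (T1 v l)) =
        ((avg fun y : ZMod 2 => Ex K fun l => Φ (T1 (v + y) l)) +
          avg fun y : ZMod 2 => Ex K fun l => Φ ((v, ()) :: T1 (v + y) l)) / 2 := by
      intro v
      rw [Ex_succ, avg_prod, avg_zmod2_real]
      rfl
    simp only [h0]
    have h1 : ∀ v : ZMod 2, (avg fun y : ZMod 2 => Ex K fun l => Φ (T1 (v + y) l)) =
        binAvg K fun n => Ex n Φ := by
      intro v
      rw [avg_add_left v fun y : ZMod 2 => Ex K fun l => Φ (T1 y l), ih]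
    have h2 : ∀ v : ZMod 2, (avg fun y : ZMod 2 => Ex K fun l => Φ ((v, ()) :: T1 (v + y) l)) =
        binAvg K fun n => Ex n fun l => Φ ((v, ()) :: l) := by
      intro v
      rw [avg_add_left v fun y : ZMod 2 => Ex K fun l => Φ ((v, ()) :: T1 y l)]
      exact ih fun l => Φ ((v, ()) :: l)
    simp only [h1, h2]
    have h3 : (avg fun x : ZMod 2 => ((binAvg K fun n => Ex n Φ) +
        binAvg K fun n => Ex n fun l => Φ ((x, ()) :: l)) / 2) =
        ((binAvg K fun n => Ex n Φ) +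
          avg fun x : ZMod 2 => binAvg K fun n => Ex n fun l => Φ ((x, ()) :: l)) / 2 := by
      rw [avg_zmod2_real, avg_zmod2_real]; ring
    rw [h3, avg_binAvg, binAvg_succ]
    have h4 : ∀ n, Ex (n + 1) Φ = avg fun x : ZMod 2 => Ex n fun l => Φ ((x, ()) :: l) := by
      intro n
      rw [Ex_succ, avg_prod]
      congr 1
      funext x
      exact avg_const (ι := Unit) (Ex n fun l => Φ ((x, ()) :: l))
    simp only [h4]

end TpdAux

open TpdAux

variable {G : Type} [Group G] (S : SGp G)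

theorem top0 (g : G) (K r : ℕ) :
    Ex K (fun l => He (pt g * S.p0 l) (S.p0 l) ^ r) =
      binAvg K fun n => Ex n fun l => He (pt g * (lev1 S).q l) ((lev1 S).q l) ^ r := by
  rw [← law_T0 K (fun l => He (pt g * (lev1 S).q l) ((lev1 S).q l) ^ r) 0]
  refine Ex_congr K _ _ fun l _ => ?_
  obtain ⟨w, hw⟩ := p0_eq S l 0
  rw [pw_zero, pt_one, mul_one, mm_p0] at hw
  rw [hw, ← mul_assoc, He_mul_pt]

theorem top1 (g : G) (K r : ℕ) :
    Ex (K + 1) (fun l => He (pt g * S.p1 l) (S.p1 l) ^ r) =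
      avg fun x : ZMod 2 => binAvg K fun n => Ex n fun l =>
        He (pt (pw S.a x * g * pw S.a x) * (lev1 S).q l) ((lev1 S).q l) ^ r := by
  rw [Ex_succ, avg_prod]
  congr 1
  funext x
  rw [← law_T1 K (fun l => He (pt (pw S.a x * g * pw S.a x) * (lev1 S).q l)
    ((lev1 S).q l) ^ r)]
  congr 1
  funext y
  refine Ex_congr K _ _ fun l _ => ?_
  obtain ⟨w, hw⟩ := p1_eq S l y
  have h1 : S.p1 ((x, y) :: l) = pt (pw S.a x) * ((lev1 S).q (T1 y l) * pt w) := by
    rw [← hw, p1_cons]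
    simp only [mul_assoc]
  have h2 : pt g * S.p1 ((x, y) :: l) = pt (pw S.a x) *
      (pt (pw S.a x * g * pw S.a x) * (lev1 S).q (T1 y l) * pt w) := by
    rw [h1]
    have h3 : (pt (pw S.a x * g * pw S.a x) : GA G) =
        pt (pw S.a x) * pt g * pt (pw S.a x) := by rw [pt_mul, pt_mul]
    rw [h3]
    have h4 : (pt (pw S.a x) : GA G) * pt (pw S.a x) = 1 := by
      rw [pt_mul, pw_sq _ S.a_sq, pt_one]
    simp only [← mul_assoc]
    rw [h4, one_mul]
  rw [h2, h1, He_pt_mul, He_mul_pt]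

end Pool.Agent.PHF
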